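import Pool.Agent.H638.IB.Defs

/-! Definitions and statements (Props `S_X`) of the project KI (problem MP_7548d4_gt):
the Busemann-type inequality for `k`-intersection bodies when `k` divides `n`. -/

set_option autoImplicit false

open MeasureTheory Set Filter Topology Metric
open scoped Pointwise RealInnerProductSpace ENNReal

namespace Pool.Agent.H638.KI

open Pool.Agent.H638.IB (E mk)

/-- Star norms: continuous, absolutely homogeneous, positive away from the origin. -/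
structure SN {n : ℕ} (p : E n → ℝ) : Prop where
  cont : Continuous p
  hom : ∀ (c : ℝ) (x : E n), p (c • x) = |c| * p x
  pos : ∀ x : E n, x ≠ 0 → 0 < p x

/-- `{p ≤ 1}` is the `k`-intersection body of `{q ≤ 1}`. -/
def Sec {n : ℕ} (k : ℕ) (q p : E n → ℝ) : Prop :=
  ∀ H : Submodule ℝ (E n), Module.finrank ℝ H = k →
    (volume : Measure Hᗮ) {x | q (x : E n) ≤ 1} = (volume : Measure H) {x | p (x : E n) ≤ 1}

/-- The Gaussian. -/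
noncomputable def gs {n : ℕ} (x : E n) : ℝ := Real.exp (-(Real.pi * ‖x‖ ^ 2))

/-! ### A. Basic facts -/

/-- LB: comparison with the Euclidean norm. -/
def S_LB : Prop := ∀ {n : ℕ} (p : E n → ℝ), SN p →
  p 0 = 0 ∧ (∀ x, 0 ≤ p x) ∧ ∃ c C : ℝ, 0 < c ∧ 0 < C ∧ ∀ x, c * ‖x‖ ≤ p x ∧ p x ≤ C * ‖x‖

/-- INT: integrability. -/
def S_INT : Prop := ∀ {n a : ℕ} (p : E n → ℝ), SN p → a < n → ∀ ε b : ℝ, 0 < ε →
  Integrable (fun y : E n => (p y ^ a)⁻¹ * Real.exp (-(ε * ‖y‖ ^ 2) + b * ‖y‖))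

/-- HAAR: a random isometry. -/
def S_HAAR : Prop := ∀ n : ℕ, ∃ (Ω : Type) (_ : MeasurableSpace Ω) (P : Measure Ω)
    (g : Ω → (E n ≃ₗᵢ[ℝ] E n)), IsProbabilityMeasure P ∧
  Measurable (fun z : Ω × E n => g z.1 z.2) ∧
  ∀ f : E n → ℝ≥0∞, Measurable f → ∀ x y : E n, ‖x‖ = ‖y‖ →
    ∫⁻ w, f (g w x) ∂P = ∫⁻ w, f (g w y) ∂P

/-- RAD: a radial integral. -/
def S_RAD : Prop := ∀ {n k : ℕ}, k < n →
  (∫⁻ y : E n, ENNReal.ofReal ((‖y‖ ^ k)⁻¹ * gs y)) *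
    (((n - k : ℕ) : ℝ≥0∞) * volume (ball (0 : E (n - k)) 1)) =
  (n : ℝ≥0∞) * volume (ball (0 : E n) 1)

/-! ### B. From the sections to a Gaussian identity -/

/-- DET: determinants of a map preserving a subspace. -/
def S_DET : Prop := ∀ {n : ℕ} (H : Submodule ℝ (E n)) (R : E n ≃ₗ[ℝ] E n)
    (R1 : H →ₗ[ℝ] H) (R2 : Hᗮ →ₗ[ℝ] Hᗮ),
  (∀ v : H, ((R1 v : H) : E n) = R v) →
  (∀ w : Hᗮ, ((R2 w : Hᗮ) : E n) = LinearMap.adjoint (R.symm : E n →ₗ[ℝ] E n) w) →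
  |LinearMap.det (R : E n →ₗ[ℝ] E n)| * |LinearMap.det R2| = |LinearMap.det R1|

/-- SEC: linear covariance of the section condition. -/
def S_SEC : Prop := ∀ {n k : ℕ} (q p : E n → ℝ), SN q → SN p → Sec k q p →
  ∀ H : Submodule ℝ (E n), Module.finrank ℝ H = k → ∀ T : E n ≃ₗ[ℝ] E n,
    ENNReal.ofReal |LinearMap.det (T : E n →ₗ[ℝ] E n)| *
        (volume : Measure H) {v | p (T (v : E n)) ≤ 1} =
      (volume : Measure Hᗮ)
        {w | q (LinearMap.adjoint (T.symm : E n →ₗ[ℝ] E n) (w : E n)) ≤ 1}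

/-- AVS: average of the volume of the sections. -/
def S_AVS : Prop := ∀ {n : ℕ} (p : E n → ℝ), SN p → ∀ (Ω : Type) [MeasurableSpace Ω]
    (P : Measure Ω) (g : Ω → (E n ≃ₗᵢ[ℝ] E n)), IsProbabilityMeasure P →
  Measurable (fun z : Ω × E n => g z.1 z.2) →
  (∀ f : E n → ℝ≥0∞, Measurable f → ∀ x y : E n, ‖x‖ = ‖y‖ →
    ∫⁻ w, f (g w x) ∂P = ∫⁻ w, f (g w y) ∂P) →
  ∀ (H : Submodule ℝ (E n)) (e : E n), ‖e‖ = 1 →
    ∫⁻ w, (volume : Measure H) {v | p (g w (v : E n)) ≤ 1} ∂P =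
      volume (ball (0 : E (Module.finrank ℝ H)) 1) *
        ∫⁻ w, ENNReal.ofReal ((p (g w e) ^ Module.finrank ℝ H)⁻¹) ∂P

/-- AVG: average of the Gaussian integral. -/
def S_AVG : Prop := ∀ {n k : ℕ} (p : E n → ℝ), SN p → ∀ (Ω : Type) [MeasurableSpace Ω]
    (P : Measure Ω) (g : Ω → (E n ≃ₗᵢ[ℝ] E n)), IsProbabilityMeasure P →
  Measurable (fun z : Ω × E n => g z.1 z.2) →
  (∀ f : E n → ℝ≥0∞, Measurable f → ∀ x y : E n, ‖x‖ = ‖y‖ →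
    ∫⁻ w, f (g w x) ∂P = ∫⁻ w, f (g w y) ∂P) →
  ∀ e : E n, ‖e‖ = 1 →
    ∫⁻ y : E n, ENNReal.ofReal ((p y ^ k)⁻¹ * gs y) =
      (∫⁻ w, ENNReal.ofReal ((p (g w e) ^ k)⁻¹) ∂P) *
        ∫⁻ y : E n, ENNReal.ofReal ((‖y‖ ^ k)⁻¹ * gs y)

/-- AV: averaging the section condition over the rotations. -/
def S_AV : Prop := ∀ {n k : ℕ} (q p : E n → ℝ), SN q → SN p → 1 ≤ k → k < n →
  ∀ (c : ℝ≥0∞) (H : Submodule ℝ (E n)), Module.finrank ℝ H = k →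
    (∀ U : E n ≃ₗᵢ[ℝ] E n, c * (volume : Measure H) {v | p (U (v : E n)) ≤ 1} =
      (volume : Measure Hᗮ) {w | q (U (w : E n)) ≤ 1}) →
    c * (((n - k : ℕ) : ℝ≥0∞) * ∫⁻ y : E n, ENNReal.ofReal ((p y ^ k)⁻¹ * gs y)) =
      (k : ℝ≥0∞) * ∫⁻ x : E n, ENNReal.ofReal ((q x ^ (n - k))⁻¹ * gs x)

/-- GI: Gaussian identity for all linear maps. -/
def S_GI : Prop := ∀ {n k : ℕ} (q p : E n → ℝ), SN q → SN p → 1 ≤ k → k < n → Sec k q p →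
  ∀ T : E n ≃ₗ[ℝ] E n,
    ((n - k : ℕ) : ℝ) * ∫ z : E n, (p z ^ k)⁻¹ * Real.exp (-(Real.pi * ‖T.symm z‖ ^ 2)) =
      (k : ℝ) * (|LinearMap.det (T : E n →ₗ[ℝ] E n)| *
        ∫ u : E n, (q u ^ (n - k))⁻¹ *
          Real.exp (-(Real.pi * ‖LinearMap.adjoint (T : E n →ₗ[ℝ] E n) u‖ ^ 2)))

/-- GIS: Gaussian identity for rank one perturbations of the identity. -/
def S_GIS : Prop := ∀ {n k : ℕ} (q p : E n → ℝ), SN q → SN p → 1 ≤ k → k < n → Sec k q p →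
  ∀ (y : E n) (s : ℝ), s * ‖y‖ ^ 2 < 1 →
    ((n - k : ℕ) : ℝ) * ∫ z : E n, (p z ^ k)⁻¹ * gs z * Real.exp (Real.pi * s * ⟪y, z⟫ ^ 2) =
      (k : ℝ) * ((√(1 - s * ‖y‖ ^ 2))⁻¹ *
        ∫ x : E n, (q x ^ (n - k))⁻¹ * gs x *
          Real.exp (-(Real.pi * s * ⟪y, x⟫ ^ 2 / (1 - s * ‖y‖ ^ 2))))

/-! ### C. The Fourier identity -/

/-- The coefficients of the generating function. -/
noncomputable def cP (a v : ℝ) (j : ℕ) : ℝ :=
  ∑ i ∈ Finset.range (j + 1), (-(Real.pi * v ^ 2)) ^ i / (i.factorial : ℝ) *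
    ((∏ l ∈ Finset.range (j - i), ((1 : ℝ) / 2 + i + l)) / ((j - i).factorial : ℝ)) * a ^ (j - i)

/-- The coefficients of the majorant. -/
noncomputable def cQ (a v : ℝ) (j : ℕ) : ℝ :=
  ∑ i ∈ Finset.range (j + 1), (Real.pi * v ^ 2) ^ i / (i.factorial : ℝ) *
    ((∏ l ∈ Finset.range (j - i), ((1 : ℝ) / 2 + i + l)) / ((j - i).factorial : ℝ)) * a ^ (j - i)

/-- PSG: the generating function. -/
def S_PSG : Prop := ∀ a v s : ℝ, 0 ≤ a → |s| * a < 1 →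
  (∀ j, |cP a v j| ≤ cQ a v j) ∧
  HasSum (fun j => cP a v j * s ^ j)
    ((√(1 - s * a))⁻¹ * Real.exp (-(Real.pi * s * v ^ 2 / (1 - s * a)))) ∧
  HasSum (fun j => cQ a v j * s ^ j)
    ((√(1 - s * a))⁻¹ * Real.exp (Real.pi * s * v ^ 2 / (1 - s * a)))

/-- PSP: the weighted sum of the coefficients. -/
def S_PSP : Prop := ∀ a v : ℝ, 0 ≤ a →
  HasSum (fun j : ℕ => (4 * Real.pi) ^ j * (j.factorial : ℝ) / ((2 * j).factorial : ℝ) * cP a v j)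
    (Real.exp (Real.pi * a) * Real.cos (2 * Real.pi * v))

/-- PSI: integrating the coefficients. -/
def S_PSI : Prop := ∀ (ν : Measure ℝ), IsFiniteMeasure ν → ∀ a δ : ℝ, 0 ≤ a → 0 < δ →
  Integrable (fun v : ℝ => Real.exp (δ * v ^ 2)) ν →
  ∃ s₁ : ℝ, 0 < s₁ ∧ s₁ * a < 1 ∧ (∀ j, Integrable (fun v => cP a v j) ν) ∧
    (∃ C : ℝ, ∀ j, |∫ v, cP a v j ∂ν| * s₁ ^ j ≤ C) ∧
    (∀ s : ℝ, |s| < s₁ → HasSum (fun j => (∫ v, cP a v j ∂ν) * s ^ j)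
      ((√(1 - s * a))⁻¹ * ∫ v, Real.exp (-(Real.pi * s * v ^ 2 / (1 - s * a))) ∂ν)) ∧
    HasSum (fun j : ℕ => (4 * Real.pi) ^ j * (j.factorial : ℝ) / ((2 * j).factorial : ℝ) *
        ∫ v, cP a v j ∂ν)
      (Real.exp (Real.pi * a) * ∫ v, Real.cos (2 * Real.pi * v) ∂ν)

/-- PS: comparison of two measures on the line. -/
def S_PS : Prop := ∀ (μ ν : Measure ℝ), IsFiniteMeasure μ → IsFiniteMeasure ν →
  ∀ a c δ : ℝ, 0 ≤ a → 0 < δ →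
    Integrable (fun u : ℝ => Real.exp (δ * u ^ 2)) μ →
    Integrable (fun v : ℝ => Real.exp (δ * v ^ 2)) ν →
    (∀ s : ℝ, |s| < δ → s * a < 1 → ∫ u, Real.exp (Real.pi * s * u ^ 2) ∂μ =
      c * ((√(1 - s * a))⁻¹ * ∫ v, Real.exp (-(Real.pi * s * v ^ 2 / (1 - s * a))) ∂ν)) →
    ∫ u, Real.cosh (2 * Real.pi * u) ∂μ =
      c * (Real.exp (Real.pi * a) * ∫ v, Real.cos (2 * Real.pi * v) ∂ν)

/-- The smoothed kernel. -/
noncomputable def G1 {n : ℕ} (p : E n → ℝ) (k : ℕ) (y : E n) : ℝ :=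
  ∫ z : E n, (p z ^ k)⁻¹ * Real.exp (-(Real.pi * ‖z - y‖ ^ 2))

/-- The Fourier transform of the weighted kernel. -/
noncomputable def F1 {n : ℕ} (q : E n → ℝ) (m : ℕ) (y : E n) : ℝ :=
  ∫ x : E n, (q x ^ m)⁻¹ * gs x * Real.cos (2 * Real.pi * ⟪x, y⟫)

/-- FI: the Fourier identity. -/
def S_FI : Prop := ∀ {n k : ℕ} (q p : E n → ℝ), SN q → SN p → 1 ≤ k → k < n → Sec k q p →
  ∀ y : E n, ((n - k : ℕ) : ℝ) * G1 p k y = (k : ℝ) * F1 q (n - k) y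

/-! ### D. The functional and its asymptotics -/

/-- JF: the multiple integral as a Fourier integral. -/
def S_JF : Prop := ∀ {n N : ℕ} (f : E n → ℝ), Integrable f → (∀ x, f (-x) = f x) →
  ∀ R : ℝ, 0 < R →
    ∫ x : Fin N → E n, (∏ i, f (x i)) *
        (R ^ n * Real.exp (-(Real.pi * R ^ 2 * ‖∑ i, x i‖ ^ 2))) =
      ∫ y : E n, (∫ x : E n, f x * Real.cos (2 * Real.pi * ⟪x, y⟫)) ^ N *
        Real.exp (-(Real.pi * ‖y‖ ^ 2 / R ^ 2))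

/-- GC: continuity and boundedness of `G1`. -/
def S_GC : Prop := ∀ {n k : ℕ} (p : E n → ℝ), SN p → k < n →
  Continuous (G1 p k) ∧ ∃ C : ℝ, ∀ y, 0 ≤ G1 p k y ∧ G1 p k y ≤ C

/-- GA: asymptotics of `G1` at infinity. -/
def S_GA : Prop := ∀ {n k : ℕ} (p : E n → ℝ), SN p → k < n →
  Tendsto (fun y => G1 p k y * p y ^ k) (cocompact (E n)) (𝓝 1)

/-- LOG1: one-dimensional logarithmic asymptotics. -/
def S_LOG1 : Prop :=
  Tendsto (fun R : ℝ => (Real.log R)⁻¹ *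
    ∫ r in Ioi (1 : ℝ), r⁻¹ * Real.exp (-(Real.pi * r ^ 2 / R ^ 2))) atTop (𝓝 1)

/-- LOG2: logarithmic asymptotics for a homogeneous function. -/
def S_LOG2 : Prop := ∀ {n : ℕ} (p : E n → ℝ), SN p → 1 ≤ n →
  Tendsto (fun R : ℝ => (Real.log R)⁻¹ *
    ∫ y in {y : E n | 1 < ‖y‖}, (p y ^ n)⁻¹ * Real.exp (-(Real.pi * ‖y‖ ^ 2 / R ^ 2))) atTop
    (𝓝 ((n : ℝ) * (volume {x : E n | p x ≤ 1}).toReal))

/-- LOG3: logarithmic asymptotics for an asymptotically homogeneous function. -/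
def S_LOG3 : Prop := ∀ {n : ℕ} (p : E n → ℝ), SN p → 1 ≤ n → ∀ h : E n → ℝ, Continuous h →
  (∃ C : ℝ, ∀ y, 0 ≤ h y ∧ h y ≤ C) →
  Tendsto (fun y => h y * p y ^ n) (cocompact (E n)) (𝓝 1) →
  Tendsto (fun R : ℝ => (Real.log R)⁻¹ *
    ∫ y : E n, h y * Real.exp (-(Real.pi * ‖y‖ ^ 2 / R ^ 2))) atTop
    (𝓝 ((n : ℝ) * (volume {x : E n | p x ≤ 1}).toReal))

/-! ### E. The rearrangement inequality on the line -/

/-- Even, nonnegative, continuous, nonincreasing on the half-line. -/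
structure SD (φ : ℝ → ℝ) : Prop where
  cont : Continuous φ
  nonneg : ∀ x, 0 ≤ φ x
  even : ∀ x, φ (-x) = φ x
  anti : AntitoneOn φ (Ici 0)

/-- The indicator function of a half-open interval. -/
noncomputable def ioc (a b t : ℝ) : ℝ := (Ioc a b).indicator (fun _ => (1 : ℝ)) t

/-- CONV: convolution with an interval. -/
def S_CONV : Prop := ∀ (φ : ℝ → ℝ), SD φ → ∀ l : ℝ, 0 ≤ l →
  SD (fun x => ∫ t in (x - l)..(x + l), φ t)

/-- INTV: the functional for intervals depends only on the sum of the centres. -/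
def S_INTV : Prop := ∀ (N : ℕ) (φ : ℝ → ℝ), SD φ → ∀ l : Fin N → ℝ, (∀ i, 0 ≤ l i) →
  ∃ Ψ : ℝ → ℝ, SD Ψ ∧ ∀ c : Fin N → ℝ,
    ∫ t : Fin N → ℝ, (∏ i, ioc (c i - l i) (c i + l i) (t i)) * φ (∑ i, t i) = Ψ (∑ i, c i)

/-- The indicator function of a finite union of half-open intervals. -/
noncomputable def ind (S : List (ℝ × ℝ)) (t : ℝ) : ℝ := (S.map (fun I => ioc I.1 I.2 t)).sum

/-- Ordered disjoint intervals. -/
def Good (S : List (ℝ × ℝ)) : Prop :=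
  (∀ I ∈ S, I.1 ≤ I.2) ∧ S.Pairwise (fun I J => I.2 ≤ J.1)

/-- The total length. -/
noncomputable def len (S : List (ℝ × ℝ)) : ℝ := (S.map (fun I => I.2 - I.1)).sum

/-- All the centres are multiplied by `l`. -/
noncomputable def slide (l : ℝ) (S : List (ℝ × ℝ)) : List (ℝ × ℝ) :=
  S.map (fun I => (l * ((I.1 + I.2) / 2) - (I.2 - I.1) / 2,
    l * ((I.1 + I.2) / 2) + (I.2 - I.1) / 2))

/-- The functional on the line. -/
noncomputable def Phi {N : ℕ} (φ : ℝ → ℝ) (f : Fin N → ℝ → ℝ) : ℝ :=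
  ∫ t : Fin N → ℝ, (∏ i, f i (t i)) * φ (∑ i, t i)

/-- SLIDE: sliding towards the origin increases the functional. -/
def S_SLIDE : Prop := ∀ (N : ℕ) (φ : ℝ → ℝ), SD φ → ∀ l : ℝ, 0 ≤ l → l ≤ 1 →
  ∀ S : Fin N → List (ℝ × ℝ), (∀ i, ∀ I ∈ S i, I.1 ≤ I.2) →
    Phi φ (fun i => ind (S i)) ≤ Phi φ (fun i => ind (slide l (S i)))

/-- MERGE: sliding until two intervals touch, and merging them. -/
def S_MERGE : Prop := ∀ (N : ℕ) (S : Fin N → List (ℝ × ℝ)), (∀ i, Good (S i)) →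
  (∃ i, 2 ≤ (S i).length) → ∃ l : ℝ, 0 ≤ l ∧ l ≤ 1 ∧ ∃ S' : Fin N → List (ℝ × ℝ),
    (∀ i, Good (S' i)) ∧ (∀ i, ind (S' i) = ind (slide l (S i))) ∧
    (∀ i, len (S' i) = len (S i)) ∧ ∑ i, (S' i).length < ∑ i, (S i).length

/-- UNI: the inequality for finite unions of intervals. -/
def S_UNI : Prop := ∀ (N : ℕ) (φ : ℝ → ℝ), SD φ → ∀ S : Fin N → List (ℝ × ℝ),
  (∀ i, Good (S i)) →
    Phi φ (fun i => ind (S i)) ≤ Phi φ (fun i => ioc (-(len (S i) / 2)) (len (S i) / 2))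

/-- APX: approximation by finite unions of intervals. -/
def S_APX : Prop := ∀ A : Set ℝ, MeasurableSet A → volume A ≠ ∞ → ∀ ε : ℝ, 0 < ε →
  ∃ S : List (ℝ × ℝ), Good S ∧
    (∀ t, ind S t = {t | ind S t ≠ 0}.indicator (fun _ => (1 : ℝ)) t) ∧
    volume {t | ind S t ≠ 0} = ENNReal.ofReal (len S) ∧ MeasurableSet {t | ind S t ≠ 0} ∧
    volume (symmDiff A {t | ind S t ≠ 0}) ≤ ENNReal.ofReal ε

/-- The functional on the line for sets, with values in `[0, ∞]`. -/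
noncomputable def PH1 {N : ℕ} (φ : ℝ → ℝ) (A : Fin N → Set ℝ) : ℝ≥0∞ :=
  ∫⁻ t : Fin N → ℝ, (∏ i, (A i).indicator (fun _ => (1 : ℝ≥0∞)) (t i)) *
    ENNReal.ofReal (φ (∑ i, t i))

/-- BL1: the rearrangement inequality on the line. -/
def S_BL1 : Prop := ∀ (N : ℕ) (φ : ℝ → ℝ), SD φ → ∀ A : Fin N → Set ℝ,
  (∀ i, MeasurableSet (A i)) → (∀ i, volume (A i) ≠ ∞) →
    PH1 φ A ≤ PH1 φ (fun i => Ioo (-((volume (A i)).toReal / 2)) ((volume (A i)).toReal / 2))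

/-! ### F. Steiner symmetrization -/

/-- The slice of `A` over `y`. -/
def slice {n : ℕ} (A : Set (E (n + 1))) (y : E n) : Set ℝ := {t | mk t y ∈ A}

/-- The Steiner symmetral of `A` in the direction of the first coordinate. -/
def St {n : ℕ} (A : Set (E (n + 1))) : Set (E (n + 1)) :=
  {x | ∃ (t : ℝ) (y : E n), x = mk t y ∧ ENNReal.ofReal (2 * |t|) < volume (slice A y)}

/-- The functional for sets. -/
noncomputable def PHI {n N : ℕ} (b : ℝ) (A : Fin N → Set (E n)) : ℝ≥0∞ :=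
  ∫⁻ x : Fin N → E n, (∏ i, (A i).indicator (fun _ => (1 : ℝ≥0∞)) (x i)) *
    ENNReal.ofReal (Real.exp (-(b * ‖∑ i, x i‖ ^ 2)))

/-- The second moment. -/
noncomputable def Mo {n : ℕ} (A : Set (E n)) : ℝ := ∫ x in A, ‖x‖ ^ 2

/-- The Steiner symmetral in the direction of `g e₁`. -/
def stg {n : ℕ} (g : E (n + 1) ≃ₗᵢ[ℝ] E (n + 1)) (A : Set (E (n + 1))) : Set (E (n + 1)) :=
  g '' (St (g ⁻¹' A))

/-- STB: basic facts on the Steiner symmetral. -/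
def S_STB : Prop := ∀ {n : ℕ} (A : Set (E (n + 1))), MeasurableSet A →
  MeasurableSet (St A) ∧ volume (St A) = volume A ∧
  (∀ y : E n, MeasurableSet (slice A y)) ∧
  Measurable (fun y : E n => volume (slice A y)) ∧
  volume A = ∫⁻ y : E n, volume (slice A y) ∧
  (∀ y : E n, volume (slice A y) ≠ ∞ → slice (St A) y =
    Ioo (-((volume (slice A y)).toReal / 2)) ((volume (slice A y)).toReal / 2)) ∧
  ∀ D : ℝ, A ⊆ closedBall 0 D → St A ⊆ closedBall 0 D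

/-- STP: the Steiner symmetrization increases the functional. -/
def S_STP : Prop := ∀ {n N : ℕ} (b : ℝ), 0 ≤ b → ∀ A : Fin N → Set (E (n + 1)),
  (∀ i, MeasurableSet (A i)) → (∀ i, volume (A i) ≠ ∞) →
    PHI b A ≤ PHI b (fun i => St (A i))

/-- STG: the same facts for `stg`. -/
def S_STG : Prop := ∀ {n : ℕ} (g : E (n + 1) ≃ₗᵢ[ℝ] E (n + 1)),
  (∀ A : Set (E (n + 1)), MeasurableSet A → MeasurableSet (stg g A) ∧
    volume (stg g A) = volume A ∧ Mo (stg g A) = Mo (St (g ⁻¹' A)) ∧ Mo (g ⁻¹' A) = Mo A ∧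
    ∀ D : ℝ, A ⊆ closedBall 0 D → stg g A ⊆ closedBall 0 D) ∧
  ∀ {N : ℕ} (b : ℝ), 0 ≤ b → ∀ A : Fin N → Set (E (n + 1)),
    (∀ i, MeasurableSet (A i)) → (∀ i, volume (A i) ≠ ∞) →
      PHI b A ≤ PHI b (fun i => stg g (A i))

/-- GA1: quantitative decrease of the second moment on the line. -/
def S_GA1 : Prop := ∀ (A : Set ℝ) (D r : ℝ), 0 < D → 0 ≤ r → r ≤ D → MeasurableSet A →
  A ⊆ Icc (-D) D →
    (∫ t in Ioo (-((volume A).toReal / 2)) ((volume A).toReal / 2), t ^ 2) +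
      ((volume (A \ Icc (-r) r)).toReal * (volume (Icc (-r) r \ A)).toReal) ^ 3 / (256 * D ^ 3) ≤
    ∫ t in A, t ^ 2

/-- GAN: quantitative decrease of the second moment under a Steiner symmetrization. -/
def S_GAN : Prop := ∀ {n : ℕ} (A : Set (E (n + 1))) (D r : ℝ), 0 < D → 0 ≤ r → r ≤ D →
  MeasurableSet A → A ⊆ closedBall 0 D →
    Mo (St A) + (∫ y : E n, ((volume (slice (A \ closedBall 0 r) y)).toReal *
      (volume (slice (closedBall 0 r \ A) y)).toReal) ^ 3) / (256 * D ^ 3) ≤ Mo A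

/-- GAW: the same, in terms of a lower bound. -/
def S_GAW : Prop := ∀ (n : ℕ) (D W : ℝ), 0 < D → 0 < W → ∃ δ : ℝ, 0 < δ ∧
  ∀ (A : Set (E (n + 1))) (r : ℝ), 0 ≤ r → r ≤ D → MeasurableSet A → A ⊆ closedBall 0 D →
    W ≤ (∫ y : E n, (volume (slice (A \ closedBall 0 r) y)).toReal *
      (volume (slice (closedBall 0 r \ A) y)).toReal) →
    Mo (St A) + δ ≤ Mo A

/-- AVI: the average of the line integrals. -/
def S_AVI : Prop := ∀ {n : ℕ} (Ω : Type) [MeasurableSpace Ω]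
    (P : Measure Ω) (g : Ω → (E (n + 1) ≃ₗᵢ[ℝ] E (n + 1))), IsProbabilityMeasure P →
  Measurable (fun z : Ω × E (n + 1) => g z.1 z.2) →
  (∀ f : E (n + 1) → ℝ≥0∞, Measurable f → ∀ x y : E (n + 1), ‖x‖ = ‖y‖ →
    ∫⁻ w, f (g w x) ∂P = ∫⁻ w, f (g w y) ∂P) →
  ∃ c : ℝ≥0∞, c ≠ 0 ∧ ∀ f : E (n + 1) → ℝ≥0∞, Measurable f →
    c * ∫⁻ z : E (n + 1), f z * ENNReal.ofReal ((‖z‖ ^ n)⁻¹) ≤
      ∫⁻ w, (∫⁻ t : ℝ, f (g w (mk t 0))) ∂P

/-- AVW: there is a good direction. -/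
def S_AVW : Prop := ∀ (n : ℕ) (D η : ℝ), 0 < D → 0 < η → ∃ W : ℝ, 0 < W ∧
  ∀ P Q : Set (E (n + 1)), MeasurableSet P → MeasurableSet Q → P ⊆ closedBall 0 D →
    Q ⊆ closedBall 0 D → η ≤ (volume P).toReal → η ≤ (volume Q).toReal →
    ∃ g : E (n + 1) ≃ₗᵢ[ℝ] E (n + 1),
      W ≤ ∫ y : E n, (volume (slice (g ⁻¹' P) y)).toReal * (volume (slice (g ⁻¹' Q) y)).toReal

/-- GAE: definite decrease of the second moment for a good direction. -/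
def S_GAE : Prop := ∀ (n : ℕ) (D ε : ℝ), 0 < D → 0 < ε → ∃ δ : ℝ, 0 < δ ∧
  ∀ (A : Set (E (n + 1))) (r : ℝ), 0 ≤ r → r ≤ D → MeasurableSet A → A ⊆ closedBall 0 D →
    volume (closedBall (0 : E (n + 1)) r) = volume A →
    ε ≤ (volume (A \ closedBall 0 r)).toReal →
    ∃ g : E (n + 1) ≃ₗᵢ[ℝ] E (n + 1), Mo (stg g A) + δ ≤ Mo A

/-- ITER: iterated Steiner symmetrizations come close to balls. -/
def S_ITER : Prop := ∀ {n N : ℕ} (b : ℝ), 0 ≤ b → ∀ (D ε : ℝ), 0 < D → 0 < ε →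
  ∀ A : Fin N → Set (E (n + 1)), (∀ i, MeasurableSet (A i)) → (∀ i, A i ⊆ closedBall 0 D) →
  ∀ r : Fin N → ℝ, (∀ i, 0 ≤ r i) →
    (∀ i, volume (closedBall (0 : E (n + 1)) (r i)) = volume (A i)) →
  ∃ A' : Fin N → Set (E (n + 1)), (∀ i, MeasurableSet (A' i)) ∧ (∀ i, A' i ⊆ closedBall 0 D) ∧
    (∀ i, volume (A' i) = volume (A i)) ∧ PHI b A ≤ PHI b A' ∧
    ∀ i, (volume (A' i \ closedBall 0 (r i))).toReal < ε

/-- PHC: continuity of the functional. -/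
def S_PHC : Prop := ∀ {n N : ℕ} (b : ℝ), 0 ≤ b → ∀ A B : Fin N → Set (E n),
  (∀ i, MeasurableSet (A i)) → (∀ i, MeasurableSet (B i)) →
    PHI b A ≤ PHI b B + ∑ i, volume (A i \ B i) * ∏ j ∈ Finset.univ.erase i, volume (A j)

/-- BLN: the rearrangement inequality. -/
def S_BLN : Prop := ∀ {n N : ℕ} (b : ℝ), 0 ≤ b → ∀ A : Fin N → Set (E (n + 1)),
  (∀ i, MeasurableSet (A i)) → ∀ r : Fin N → ℝ,
    (∀ i, volume (A i) ≤ volume (ball (0 : E (n + 1)) (r i))) →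
    PHI b A ≤ PHI b (fun i => ball (0 : E (n + 1)) (r i))

/-- LAY: the layer cake version. -/
def S_LAY : Prop := ∀ {n N : ℕ} (b : ℝ), 0 ≤ b → ∀ (Ω : Type) [MeasurableSpace Ω]
    (μ : Measure Ω) [SigmaFinite μ] (A : Ω → Set (E (n + 1))) (r : Ω → ℝ),
  MeasurableSet {z : Ω × E (n + 1) | z.2 ∈ A z.1} → Measurable r →
  (∀ w, volume (A w) ≤ volume (ball (0 : E (n + 1)) (r w))) →
    ∫⁻ x : Fin N → E (n + 1), (∏ i, ∫⁻ w, (A w).indicator (fun _ => (1 : ℝ≥0∞)) (x i) ∂μ) *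
        ENNReal.ofReal (Real.exp (-(b * ‖∑ i, x i‖ ^ 2))) ≤
      ∫⁻ x : Fin N → E (n + 1),
        (∏ i, ∫⁻ w, (ball (0 : E (n + 1)) (r w)).indicator (fun _ => (1 : ℝ≥0∞)) (x i) ∂μ) *
        ENNReal.ofReal (Real.exp (-(b * ‖∑ i, x i‖ ^ 2)))

/-- JC: comparison with the ball. -/
def S_JC : Prop := ∀ {n N m : ℕ}, 1 ≤ m → m < n → ∀ (q : E n → ℝ), SN q → ∀ ρ : ℝ, 0 < ρ →
  volume {x : E n | q x ≤ 1} = volume (closedBall (0 : E n) ρ) → ∀ b : ℝ, 0 ≤ b →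
    ∫ x : Fin N → E n, (∏ i, (q (x i) ^ m)⁻¹ * gs (x i)) * Real.exp (-(b * ‖∑ i, x i‖ ^ 2)) ≤
      ∫ x : Fin N → E n, (∏ i, ((‖x i‖ / ρ) ^ m)⁻¹ * gs (x i)) *
        Real.exp (-(b * ‖∑ i, x i‖ ^ 2))

/-! ### G. Conclusion -/

/-- `κ_p`, the volume of the unit ball of `ℝ^p`. -/
noncomputable def kap (p : ℕ) : ℝ := Real.pi ^ ((p : ℝ) / 2) / Real.Gamma (1 + (p : ℝ) / 2)

/-- SB: concentric balls. -/
def S_SB : Prop := ∀ {n k : ℕ}, k ≤ n → 1 ≤ n → ∀ ρ σ : ℝ, 0 < ρ → 0 < σ →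
  SN (fun x : E n => ‖x‖ / ρ) ∧
  volume {x : E n | ‖x‖ / ρ ≤ 1} = ENNReal.ofReal (kap n * ρ ^ n) ∧
  (kap (n - k) * ρ ^ (n - k) = kap k * σ ^ k →
    Sec k (fun x : E n => ‖x‖ / ρ) (fun x : E n => ‖x‖ / σ)) ∧ 0 < kap n ∧ 0 < kap k ∧
  0 < kap (n - k)

/-- COMP: comparison of the volume of the two `k`-intersection bodies. -/
def S_COMP : Prop := ∀ {n k N : ℕ}, 1 ≤ k → k < n → N * k = n → ∀ (q p : E n → ℝ), SN q → SN p →
  Sec k q p → ∀ ρ σ : ℝ, 0 < ρ → 0 < σ → volume {x : E n | q x ≤ 1} = volume (closedBall (0 : E n) ρ) →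
    Sec k (fun x : E n => ‖x‖ / ρ) (fun x : E n => ‖x‖ / σ) →
    (volume {x : E n | p x ≤ 1}).toReal ≤ (volume {x : E n | ‖x‖ / σ ≤ 1}).toReal

/-- MAIN: the inequality for star norms. -/
def S_MAIN : Prop := ∀ {n k : ℕ}, 1 ≤ k → k < n → k ∣ n → ∀ (q p : E n → ℝ), SN q → SN p →
  Sec k q p →
    (volume {x : E n | p x ≤ 1}).toReal ^ k ≤
      kap (n - k) ^ n * (kap k ^ n)⁻¹ * (kap n : ℝ) ^ (2 * (k : ℤ) - (n : ℤ)) *
        (volume {x : E n | q x ≤ 1}).toReal ^ (n - k)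

/-! ### H. Star bodies -/

/-- The radial function. -/
noncomputable def rad {n : ℕ} (K : Set (E n)) (x : E n) : ℝ := sSup {l : ℝ | 0 ≤ l ∧ l • x ∈ K}

/-- Origin-symmetric star bodies. -/
structure StarBody {n : ℕ} (K : Set (E n)) : Prop where
  compact : IsCompact K
  star : StarConvex ℝ 0 K
  pos : ∀ x ∈ sphere (0 : E n) 1, 0 < rad K x
  cont : ContinuousOn (rad K) (sphere 0 1)
  symm : K = -K

/-- SB2: star bodies are unit balls of star norms. -/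
def S_SB2 : Prop := ∀ {n : ℕ} (K : Set (E n)), 1 ≤ n → StarBody K →
  ∃ p : E n → ℝ, SN p ∧ K = {x | p x ≤ 1}

end Pool.Agent.H638.KI
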