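import Pool.Agent.H638.KI.Defs

/-! APX: approximation by finite unions of intervals. -/

set_option autoImplicit false

open MeasureTheory Set Filter Topology Metric
open scoped Pointwise RealInnerProductSpace ENNReal

namespace Pool.Agent.H638.KI

open Pool.Agent.H638.IB (E mk)

namespace APXaux

theorem ioc_mem {a b t : ℝ} (h : t ∈ Ioc a b) : ioc a b t = 1 := by
  simp [ioc, h]

theorem ioc_not_mem {a b t : ℝ} (h : t ∉ Ioc a b) : ioc a b t = 0 := by
  simp [ioc, h]

theorem ind_nil (t : ℝ) : ind [] t = 0 := by simp [ind]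

theorem ind_cons (I : ℝ × ℝ) (S : List (ℝ × ℝ)) (t : ℝ) :
    ind (I :: S) t = ioc I.1 I.2 t + ind S t := by simp [ind]

theorem len_cons (I : ℝ × ℝ) (S : List (ℝ × ℝ)) :
    len (I :: S) = (I.2 - I.1) + len S := by simp [len]

theorem good_tail {I : ℝ × ℝ} {S : List (ℝ × ℝ)} (h : Good (I :: S)) : Good S :=
  ⟨fun J hJ => h.1 J (List.mem_cons_of_mem _ hJ), (List.pairwise_cons.1 h.2).2⟩

theorem ind_zero_of {S : List (ℝ × ℝ)} {t : ℝ} (h : ∀ I ∈ S, t ∉ Ioc I.1 I.2) :
    ind S t = 0 := by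
  induction S with
  | nil => exact ind_nil t
  | cons I S ih =>
    rw [ind_cons, ioc_not_mem (h I (List.mem_cons_self ..)),
      ih (fun J hJ => h J (List.mem_cons_of_mem _ hJ)), add_zero]

theorem tail_zero {I : ℝ × ℝ} {S : List (ℝ × ℝ)} (h : Good (I :: S)) {t : ℝ}
    (ht : t ∈ Ioc I.1 I.2) : ind S t = 0 := by
  apply ind_zero_of
  intro J hJ hm
  have h1 := (List.pairwise_cons.1 h.2).1 J hJ
  have h2 := ht.2
  have h3 := hm.1
  linarith

theorem ind_01 {S : List (ℝ × ℝ)} (h : Good S) (t : ℝ) : ind S t = 0 ∨ ind S t = 1 := by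
  induction S with
  | nil => exact Or.inl (ind_nil t)
  | cons I S ih =>
    rw [ind_cons]
    by_cases ht : t ∈ Ioc I.1 I.2
    · right
      rw [ioc_mem ht, tail_zero h ht, add_zero]
    · rw [ioc_not_mem ht, zero_add]
      exact ih (good_tail h)

theorem set_nil : {t | ind [] t ≠ 0} = (∅ : Set ℝ) := by
  ext t; simp [ind_nil]

theorem set_cons {I : ℝ × ℝ} {S : List (ℝ × ℝ)} (h : Good (I :: S)) :
    {t | ind (I :: S) t ≠ 0} = Ioc I.1 I.2 ∪ {t | ind S t ≠ 0} := by
  ext t
  simp only [mem_setOf_eq, mem_union, ind_cons]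
  by_cases ht : t ∈ Ioc I.1 I.2
  · rw [ioc_mem ht, tail_zero h ht]
    simp [ht.1, ht.2]
  · rw [ioc_not_mem ht, zero_add]
    simp only [ht, false_or]

theorem set_meas {S : List (ℝ × ℝ)} (h : Good S) : MeasurableSet {t | ind S t ≠ 0} := by
  induction S with
  | nil => rw [set_nil]; exact MeasurableSet.empty
  | cons I S ih =>
    rw [set_cons h]
    exact measurableSet_Ioc.union (ih (good_tail h))

theorem len_nonneg {S : List (ℝ × ℝ)} (h : Good S) : 0 ≤ len S := by
  induction S with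
  | nil => simp [len]
  | cons I S ih =>
    rw [len_cons]
    have := h.1 I (List.mem_cons_self ..)
    have := ih (good_tail h)
    linarith

theorem set_vol {S : List (ℝ × ℝ)} (h : Good S) :
    volume {t | ind S t ≠ 0} = ENNReal.ofReal (len S) := by
  induction S with
  | nil => rw [set_nil]; simp [len]
  | cons I S ih =>
    rw [set_cons h, measure_union _ (set_meas (good_tail h)), Real.volume_Ioc, ih (good_tail h),
      len_cons, ENNReal.ofReal_add _ (len_nonneg (good_tail h))]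
    · have := h.1 I (List.mem_cons_self ..)
      linarith
    · rw [Set.disjoint_left]
      intro t ht h2
      exact h2 (tail_zero h ht)

theorem set_mem {S : List (ℝ × ℝ)} (h : Good S) {t : ℝ} :
    ind S t ≠ 0 ↔ ∃ I ∈ S, t ∈ Ioc I.1 I.2 := by
  constructor
  · intro h2
    by_contra h3
    push Not at h3
    exact h2 (ind_zero_of h3)
  · rintro ⟨I, hI, ht⟩
    induction S with
    | nil => simp at hI
    | cons J S ih =>
      have h5 : t ∈ {t | ind (J :: S) t ≠ 0} := by
        rw [set_cons h]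
        rcases List.mem_cons.1 hI with h6 | h6
        · left; rw [← h6]; exact ht
        · right; exact ih (good_tail h) h6
      exact h5

/-- The mesh. -/
noncomputable def ms (M h : ℝ) (j : ℕ) : ℝ := -M + j * h

open Classical in
/-- The cells which meet `K`. -/
noncomputable def LK (K : Set ℝ) (M h : ℝ) (n : ℕ) : List (ℝ × ℝ) :=
  ((List.range n).filter (fun j => decide ((Ioc (ms M h j) (ms M h (j + 1)) ∩ K).Nonempty))).map
    (fun j => (ms M h j, ms M h (j + 1)))

theorem ms_mono {M h : ℝ} (hh : 0 < h) {i j : ℕ} (hij : i ≤ j) : ms M h i ≤ ms M h j := by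
  have : (i : ℝ) ≤ j := by exact_mod_cast hij
  simp only [ms]
  nlinarith

theorem LK_good (K : Set ℝ) {M h : ℝ} (hh : 0 < h) (n : ℕ) : Good (LK K M h n) := by
  constructor
  · intro I hI
    simp only [LK, List.mem_map] at hI
    obtain ⟨j, -, rfl⟩ := hI
    exact ms_mono hh (Nat.le_succ j)
  · rw [LK, List.pairwise_map]
    apply List.Pairwise.filter
    exact List.pairwise_lt_range.imp (fun {i j} hij => ms_mono hh hij)

theorem LK_mem {K : Set ℝ} {M h : ℝ} {n : ℕ} {I : ℝ × ℝ} :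
    I ∈ LK K M h n ↔ ∃ j : ℕ, j < n ∧ (Ioc (ms M h j) (ms M h (j + 1)) ∩ K).Nonempty ∧
      (ms M h j, ms M h (j + 1)) = I := by
  simp only [LK, List.mem_map, List.mem_filter, List.mem_range, decide_eq_true_eq, and_assoc]

theorem cover {M h : ℝ} (hh : 0 < h) {n : ℕ} {t : ℝ} (h1 : -M < t) (h2 : t ≤ ms M h n) :
    ∃ j : ℕ, j < n ∧ t ∈ Ioc (ms M h j) (ms M h (j + 1)) := by
  induction n with
  | zero => simp [ms] at h2; linarith
  | succ n ih =>
    by_cases h3 : t ≤ ms M h n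
    · obtain ⟨j, hj, hj2⟩ := ih h3
      exact ⟨j, by omega, hj2⟩
    · exact ⟨n, by omega, by push Not at h3; exact h3, h2⟩

theorem exists_list {K U : Set ℝ} (hK : IsCompact K) (hU : IsOpen U) (hKU : K ⊆ U) :
    ∃ S : List (ℝ × ℝ), Good S ∧ K ⊆ {t | ind S t ≠ 0} ∧ {t | ind S t ≠ 0} ⊆ U := by
  obtain ⟨δ, hδ, hδ2⟩ := hK.exists_thickening_subset_open hU hKU
  obtain ⟨M, hM⟩ := hK.isBounded.subset_ball 0
  have hh : 0 < δ / 2 := by linarith
  obtain ⟨n, hn⟩ := exists_nat_ge (2 * M / (δ / 2))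
  refine ⟨LK K M (δ / 2) n, LK_good K hh n, ?_, ?_⟩
  · intro t ht
    have h1 := hM ht
    rw [Metric.mem_ball, Real.dist_eq, sub_zero, abs_lt] at h1
    have h2 : t ≤ ms M (δ / 2) n := by
      rw [div_le_iff₀ hh] at hn
      simp only [ms]
      linarith [h1.2]
    obtain ⟨j, hj, hj2⟩ := cover hh h1.1 h2
    show ind _ t ≠ 0
    rw [set_mem (LK_good K hh n)]
    exact ⟨_, LK_mem.2 ⟨j, hj, ⟨t, hj2, ht⟩, rfl⟩, hj2⟩
  · intro t ht
    have ht' : ind _ t ≠ 0 := ht
    rw [set_mem (LK_good K hh n)] at ht'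
    obtain ⟨I, hI, hI2⟩ := ht'
    obtain ⟨j, hj, ⟨s, hs, hsK⟩, rfl⟩ := LK_mem.1 hI
    apply hδ2
    rw [Metric.mem_thickening_iff]
    refine ⟨s, hsK, ?_⟩
    rw [Real.dist_eq]
    have e : ms M (δ / 2) (j + 1) = ms M (δ / 2) j + δ / 2 := by
      simp only [ms]; push_cast; ring
    simp only [mem_Ioc] at hI2 hs
    rw [e] at hI2 hs
    rw [abs_lt]
    constructor <;> linarith [hI2.1, hI2.2, hs.1, hs.2]

end APXaux

open APXaux in
theorem APX_ok : S_APX := by
  intro A hA hA2 ε hε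
  have h2 : ENNReal.ofReal (ε / 2) ≠ 0 := by
    rw [Ne, ENNReal.ofReal_eq_zero]; push Not; linarith
  obtain ⟨U, hAU, hU, hUf, hUA⟩ := hA.exists_isOpen_diff_lt hA2 h2
  obtain ⟨K, hKA, hK, hKA2⟩ := hA.exists_isCompact_diff_lt hA2 h2
  obtain ⟨S, hS, h3, h4⟩ := exists_list hK hU (hKA.trans hAU)
  refine ⟨S, hS, ?_, set_vol hS, set_meas hS, ?_⟩
  · intro t
    by_cases ht : ind S t ≠ 0
    · rw [indicator_of_mem (by exact ht)]
      rcases ind_01 hS t with h | h
      · exact absurd h ht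
      · exact h
    · rw [indicator_of_notMem (by exact ht)]
      push Not at ht
      exact ht
  · have h5 : symmDiff A {t | ind S t ≠ 0} ⊆ (U \ A) ∪ (A \ K) := by
      intro t ht
      rcases ht with ⟨h6, h7⟩ | ⟨h6, h7⟩
      · exact Or.inr ⟨h6, fun h8 => h7 (h3 h8)⟩
      · exact Or.inl ⟨h4 h6, h7⟩
    calc volume (symmDiff A {t | ind S t ≠ 0}) ≤ volume ((U \ A) ∪ (A \ K)) := measure_mono h5
      _ ≤ volume (U \ A) + volume (A \ K) := measure_union_le _ _
      _ ≤ ENNReal.ofReal (ε / 2) + ENNReal.ofReal (ε / 2) := add_le_add hUA.le hKA2.le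
      _ = ENNReal.ofReal ε := by
        rw [← ENNReal.ofReal_add (by linarith) (by linarith)]
        congr 1; ring

end Pool.Agent.H638.KI
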