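import Pool.Agent.H638.KI.Defs

/-! AV: averaging the section condition over the rotations. -/

set_option autoImplicit false

open MeasureTheory Set Filter Topology Metric
open scoped Pointwise RealInnerProductSpace ENNReal

namespace Pool.Agent.H638.KI

open Pool.Agent.H638.IB (E mk)

namespace AVaux

theorem meas_sec {n : ℕ} (p : E n → ℝ) (hp : SN p) (Ω : Type) [MeasurableSpace Ω]
    (g : Ω → (E n ≃ₗᵢ[ℝ] E n)) (hg : Measurable (fun z : Ω × E n => g z.1 z.2))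
    (H : Submodule ℝ (E n)) :
    Measurable fun w => (volume : Measure H) {v | p (g w (v : E n)) ≤ 1} := by
  have hs : MeasurableSet {z : Ω × H | p (g z.1 (z.2 : E n)) ≤ 1} := by
    refine measurableSet_le ?_ measurable_const
    refine hp.cont.measurable.comp ?_
    exact hg.comp (measurable_fst.prodMk (measurable_subtype_coe.comp measurable_snd))
  exact measurable_measure_prodMk_left hs

end AVaux

theorem AV_ok (hAVS : S_AVS) (hAVG : S_AVG) (hRAD : S_RAD) (hHAAR : S_HAAR) : S_AV := by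
  intro n k q p hq hp hk hkn c H hH hsec
  obtain ⟨Ω, mΩ, P, g, hP, hg, hinv⟩ := hHAAR n
  -- a unit vector
  obtain ⟨e, he⟩ : ∃ e : E n, ‖e‖ = 1 := by
    refine ⟨EuclideanSpace.single ⟨0, by omega⟩ 1, ?_⟩
    simp
  have hHp : Module.finrank ℝ Hᗮ = n - k := by
    have h1 := Submodule.finrank_add_finrank_orthogonal H
    rw [finrank_euclideanSpace, Fintype.card_fin, hH] at h1
    omega
  have h1 : ∀ m : ℕ, Module.finrank ℝ H = m →
      ∫⁻ w, (volume : Measure H) {v | p (g w (v : E n)) ≤ 1} ∂P =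
        volume (ball (0 : E m) 1) * ∫⁻ w, ENNReal.ofReal ((p (g w e) ^ m)⁻¹) ∂P := by
    rintro m rfl
    exact hAVS p hp Ω P g hP hg hinv H e he
  have h2 : ∀ m : ℕ, Module.finrank ℝ Hᗮ = m →
      ∫⁻ w, (volume : Measure Hᗮ) {v | q (g w (v : E n)) ≤ 1} ∂P =
        volume (ball (0 : E m) 1) * ∫⁻ w, ENNReal.ofReal ((q (g w e) ^ m)⁻¹) ∂P := by
    rintro m rfl
    exact hAVS q hq Ω P g hP hg hinv Hᗮ e he
  have h3 : c * ∫⁻ w, (volume : Measure H) {v | p (g w (v : E n)) ≤ 1} ∂P =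
      ∫⁻ w, (volume : Measure Hᗮ) {v | q (g w (v : E n)) ≤ 1} ∂P := by
    rw [← lintegral_const_mul c (AVaux.meas_sec p hp Ω g hg H)]
    exact lintegral_congr fun w => hsec (g w)
  rw [h1 k hH, h2 (n - k) hHp] at h3
  have h4 := hAVG (k := k) p hp Ω P g hP hg hinv e he
  have h5 := hAVG (k := n - k) q hq Ω P g hP hg hinv e he
  have h6 := hRAD (n := n) (k := k) hkn
  have h7 : (∫⁻ y : E n, ENNReal.ofReal ((‖y‖ ^ (n - k))⁻¹ * gs y)) *
      ((k : ℝ≥0∞) * volume (ball (0 : E k) 1)) = (n : ℝ≥0∞) * volume (ball (0 : E n) 1) := by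
    have h8 := hRAD (n := n) (k := n - k) (by omega)
    have h9 : ∀ m : ℕ, n - (n - k) = m → (∫⁻ y : E n, ENNReal.ofReal ((‖y‖ ^ (n - k))⁻¹ * gs y)) *
      ((m : ℝ≥0∞) * volume (ball (0 : E m) 1)) = (n : ℝ≥0∞) * volume (ball (0 : E n) 1) := by
      rintro m rfl
      exact h8
    exact h9 k (by omega)
  rw [h4, h5]
  generalize (∫⁻ w, ENNReal.ofReal ((p (g w e) ^ k)⁻¹) ∂P) = Ap at h3 ⊢
  generalize (∫⁻ w, ENNReal.ofReal ((q (g w e) ^ (n - k))⁻¹) ∂P) = Aq at h3 ⊢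
  generalize (∫⁻ y : E n, ENNReal.ofReal ((‖y‖ ^ k)⁻¹ * gs y)) = J1 at h6 ⊢
  generalize (∫⁻ y : E n, ENNReal.ofReal ((‖y‖ ^ (n - k))⁻¹ * gs y)) = J2 at h7 ⊢
  have hk1 : volume (ball (0 : E k) 1) ≠ 0 := (measure_ball_pos volume _ one_pos).ne'
  have hk1' : volume (ball (0 : E k) 1) ≠ ∞ := measure_ball_lt_top.ne
  have hk2 : volume (ball (0 : E (n - k)) 1) ≠ 0 := (measure_ball_pos volume _ one_pos).ne'
  have hk2' : volume (ball (0 : E (n - k)) 1) ≠ ∞ := measure_ball_lt_top.ne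
  generalize volume (ball (0 : E k) 1) = κ1 at h3 h7 hk1 hk1' ⊢
  generalize volume (ball (0 : E (n - k)) 1) = κ2 at h3 h6 hk2 hk2' ⊢
  have h8 : κ1 * κ2 * (c * (((n - k : ℕ) : ℝ≥0∞) * (Ap * J1))) =
      κ1 * κ2 * ((k : ℝ≥0∞) * (Aq * J2)) := by
    calc κ1 * κ2 * (c * (((n - k : ℕ) : ℝ≥0∞) * (Ap * J1)))
        = (c * (κ1 * Ap)) * (J1 * (((n - k : ℕ) : ℝ≥0∞) * κ2)) := by ring
      _ = (κ2 * Aq) * (J2 * ((k : ℝ≥0∞) * κ1)) := by rw [h3, h6, h7]
      _ = κ1 * κ2 * ((k : ℝ≥0∞) * (Aq * J2)) := by ring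
  exact (ENNReal.mul_right_inj (mul_ne_zero hk1 hk2) (ENNReal.mul_ne_top hk1' hk2')).1 h8

end Pool.Agent.H638.KI
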