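import Pool.Agent.H638.KI.Defs

set_option autoImplicit false

open MeasureTheory Set Filter Topology Metric
open scoped Pointwise RealInnerProductSpace ENNReal

namespace Pool.Agent.H638.KI

open Pool.Agent.H638.IB (E mk)

namespace AVGaux

theorem nonneg {n : ℕ} {p : E n → ℝ} (hp : SN p) (x : E n) : 0 ≤ p x := by
  by_cases hx : x = 0
  · have := hp.hom 0 0
    rw [hx]
    simp at this
    rw [this]
  · exact (hp.pos x hx).le

theorem gs_meas {n : ℕ} : Measurable (fun y : E n => gs y) := by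
  unfold gs
  fun_prop

end AVGaux

open AVGaux in
theorem AVG_ok : S_AVG := by
  intro n k p hp Ω _ P g hP hg hlaw e he
  have hpm : Measurable p := hp.cont.measurable
  have hm1 : Measurable (fun x : E n => ENNReal.ofReal ((p x ^ k)⁻¹)) :=
    ENNReal.measurable_ofReal.comp ((hpm.pow_const k).inv)
  have hm2 : Measurable (fun x : E n => ENNReal.ofReal ((p x ^ k)⁻¹ * gs x)) :=
    ENNReal.measurable_ofReal.comp (((hpm.pow_const k).inv).mul gs_meas)
  have hm3 : Measurable (fun x : E n => ENNReal.ofReal ((‖x‖ ^ k)⁻¹ * gs x)) :=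
    ENNReal.measurable_ofReal.comp (((measurable_norm.pow_const k).inv).mul gs_meas)
  have h1 : ∀ w, ∫⁻ y : E n, ENNReal.ofReal ((p (g w y) ^ k)⁻¹ * gs y) =
      ∫⁻ y : E n, ENNReal.ofReal ((p y ^ k)⁻¹ * gs y) := by
    intro w
    rw [← (g w).measurePreserving.lintegral_comp hm2]
    refine lintegral_congr fun y => ?_
    have : gs (g w y) = gs y := by
      unfold gs
      rw [LinearIsometryEquiv.norm_map]
    rw [this]
  have h2 : ∫⁻ y : E n, ENNReal.ofReal ((p y ^ k)⁻¹ * gs y) =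
      ∫⁻ w, (∫⁻ y : E n, ENNReal.ofReal ((p (g w y) ^ k)⁻¹ * gs y)) ∂P := by
    rw [lintegral_congr h1, lintegral_const, measure_univ, mul_one]
  rw [h2, lintegral_lintegral_swap]
  · have h3 : ∀ y : E n, ∫⁻ w, ENNReal.ofReal ((p (g w y) ^ k)⁻¹ * gs y) ∂P =
        (∫⁻ w, ENNReal.ofReal ((p (g w e) ^ k)⁻¹) ∂P) *
          ENNReal.ofReal ((‖y‖ ^ k)⁻¹ * gs y) := by
      intro y
      have hgs : 0 ≤ gs y := (Real.exp_pos _).le
      have e1 : ∀ w, ENNReal.ofReal ((p (g w y) ^ k)⁻¹ * gs y) =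
          ENNReal.ofReal ((p (g w y) ^ k)⁻¹) * ENNReal.ofReal (gs y) := by
        intro w
        rw [ENNReal.ofReal_mul (inv_nonneg.2 (pow_nonneg (nonneg hp _) _))]
      have hmw : ∀ x : E n, Measurable (fun w => ENNReal.ofReal ((p (g w x) ^ k)⁻¹)) := by
        intro x
        exact hm1.comp (hg.comp (measurable_id.prodMk measurable_const))
      rw [lintegral_congr e1, lintegral_mul_const _ (hmw y)]
      rw [hlaw (fun x => ENNReal.ofReal ((p x ^ k)⁻¹)) hm1 y (‖y‖ • e)
        (by rw [norm_smul, he, norm_norm, mul_one])]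
      have e2 : ∀ w, ENNReal.ofReal ((p (g w (‖y‖ • e)) ^ k)⁻¹) =
          ENNReal.ofReal ((‖y‖ ^ k)⁻¹) * ENNReal.ofReal ((p (g w e) ^ k)⁻¹) := by
        intro w
        rw [← ENNReal.ofReal_mul (inv_nonneg.2 (pow_nonneg (norm_nonneg _) _)),
          LinearIsometryEquiv.map_smul, hp.hom, abs_norm, mul_pow, mul_inv]
      rw [lintegral_congr e2, lintegral_const_mul _ (hmw e),
        ENNReal.ofReal_mul (inv_nonneg.2 (pow_nonneg (norm_nonneg _) _))]
      ring
    rw [lintegral_congr h3, lintegral_const_mul _ hm3]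
  · have : Measurable (fun z : Ω × E n =>
        ENNReal.ofReal ((p (g z.1 z.2) ^ k)⁻¹ * gs z.2)) :=
      ENNReal.measurable_ofReal.comp
        ((((hpm.comp hg).pow_const k).inv).mul (gs_meas.comp measurable_snd))
    exact this.aemeasurable

end Pool.Agent.H638.KI
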