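import Pool.Agent.H638.KI.Defs

/-! AVI: the average of the line integrals. -/

set_option autoImplicit false

open MeasureTheory Set Filter Topology Metric
open scoped Pointwise RealInnerProductSpace ENNReal

namespace Pool.Agent.H638.KI

open Pool.Agent.H638.IB (E mk)

namespace AVIaux

/-- polar coordinates for the lower integral -/
theorem lint_norm (n : ℕ) (F : ℝ → ℝ≥0∞) (hF : Measurable F) :
    ∫⁻ x : E (n + 1), F ‖x‖ = (((n + 1 : ℕ) : ℝ≥0∞) * volume (ball (0 : E (n + 1)) 1)) *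
      ∫⁻ y in Ioi (0 : ℝ), ENNReal.ofReal (y ^ n) * F y := by
  have hd : Module.finrank ℝ (E (n + 1)) = n + 1 := by simp
  calc ∫⁻ x : E (n + 1), F ‖x‖
      = ∫⁻ x : ({(0 : E (n + 1))}ᶜ : Set (E (n + 1))), F ‖x.1‖
          ∂((volume : Measure (E (n + 1))).comap (↑)) := by
        rw [lintegral_subtype_comap (measurableSet_singleton _).compl fun x => F ‖x‖,
          restrict_compl_singleton]
    _ = ∫⁻ x, F (x.2 : ℝ) ∂((volume : Measure (E (n + 1))).toSphere.prod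
          (Measure.volumeIoiPow (Module.finrank ℝ (E (n + 1)) - 1))) := by
        rw [← ((volume : Measure (E (n + 1))).measurePreserving_homeomorphUnitSphereProd).lintegral_comp
          (f := fun x => F (x.2 : ℝ)) (by fun_prop)]
        simp
    _ = (volume : Measure (E (n + 1))).toSphere univ *
          ∫⁻ x : Ioi (0 : ℝ), F x ∂(Measure.volumeIoiPow (Module.finrank ℝ (E (n + 1)) - 1)) := by
        rw [lintegral_prod _ (by fun_prop)]
        simp only [lintegral_const]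
        rw [mul_comm]
    _ = _ := by
        rw [Measure.toSphere_apply_univ, hd, Nat.add_sub_cancel]
        congr 1
        rw [Measure.volumeIoiPow, lintegral_withDensity_eq_lintegral_mul _ (by fun_prop)
          (by fun_prop)]
        exact lintegral_subtype_comap measurableSet_Ioi
          (fun y => ENNReal.ofReal (y ^ n) * F y)

end AVIaux

open AVIaux in
theorem AVI_ok : S_AVI := by
  intro n Ω _ P g _ hg hinv
  set κ : ℝ≥0∞ := ((n + 1 : ℕ) : ℝ≥0∞) * volume (ball (0 : E (n + 1)) 1) with hκ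
  have hκ1 : κ ≠ ∞ := ENNReal.mul_ne_top (ENNReal.natCast_ne_top _) measure_ball_lt_top.ne
  refine ⟨κ⁻¹, ENNReal.inv_ne_zero.2 hκ1, fun f hf => ?_⟩
  have hmk : Continuous (fun t : ℝ => (mk t 0 : E (n + 1))) :=
    Pool.Agent.H638.IB.continuous_mk.comp (g := fun p : ℝ × E n => mk p.1 p.2) (f := fun t : ℝ => (t, (0 : E n))) (by fun_prop)
  let h : ℝ → ℝ≥0∞ := fun t => ∫⁻ w, f (g w (mk t 0)) ∂P
  have hmeas : Measurable fun z : Ω × ℝ => f (g z.1 (mk z.2 0)) :=
    hf.comp (hg.comp (measurable_fst.prodMk (hmk.measurable.comp measurable_snd)))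
  have hh : Measurable h := Measurable.lintegral_prod_left' (f := fun z : Ω × ℝ => f (g z.1 (mk z.2 0))) hmeas
  have hnorm : ∀ r : ℝ, 0 ≤ r → ‖(mk r 0 : E (n + 1))‖ = r := by
    intro r hr
    have h1 := Pool.Agent.H638.IB.norm_mk_sq r (0 : E n)
    rw [norm_zero, zero_pow two_ne_zero, add_zero] at h1
    exact (pow_left_inj₀ (norm_nonneg _) hr two_ne_zero).1 h1
  have hz : ∀ z : E (n + 1), ∫⁻ w, f (g w z) ∂P = h ‖z‖ := fun z =>
    hinv f hf z (mk ‖z‖ 0) (hnorm _ (norm_nonneg z)).symm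
  -- the left side
  have hL : ∫⁻ z : E (n + 1), f z * ENNReal.ofReal ((‖z‖ ^ n)⁻¹) =
      ∫⁻ z : E (n + 1), h ‖z‖ * ENNReal.ofReal ((‖z‖ ^ n)⁻¹) := by
    have h1 : ∀ w, ∫⁻ z : E (n + 1), f (g w z) * ENNReal.ofReal ((‖z‖ ^ n)⁻¹) =
        ∫⁻ z : E (n + 1), f z * ENNReal.ofReal ((‖z‖ ^ n)⁻¹) := by
      intro w
      rw [← (g w).measurePreserving.lintegral_comp
        (f := fun z : E (n + 1) => f z * ENNReal.ofReal ((‖z‖ ^ n)⁻¹)) (by fun_prop)]
      simp
    have h2 : ∫⁻ w, (∫⁻ z : E (n + 1), f (g w z) * ENNReal.ofReal ((‖z‖ ^ n)⁻¹)) ∂P =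
        ∫⁻ z : E (n + 1), f z * ENNReal.ofReal ((‖z‖ ^ n)⁻¹) := by
      simp only [h1, lintegral_const, measure_univ, mul_one]
    rw [← h2, lintegral_lintegral_swap]
    · refine lintegral_congr fun z => ?_
      rw [lintegral_mul_const, hz]
      exact hf.comp (hg.comp (measurable_id.prodMk measurable_const))
    · have h3 : Measurable fun z : Ω × E (n + 1) => f (g z.1 z.2) := hf.comp hg
      exact (h3.mul (by fun_prop)).aemeasurable
  have hL2 : ∫⁻ z : E (n + 1), h ‖z‖ * ENNReal.ofReal ((‖z‖ ^ n)⁻¹) =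
      κ * ∫⁻ y in Ioi (0 : ℝ), h y := by
    rw [lint_norm n (fun r => h r * ENNReal.ofReal ((r ^ n)⁻¹)) (by fun_prop)]
    congr 1
    refine setLIntegral_congr_fun measurableSet_Ioi fun y hy => ?_
    have hy0 : (0 : ℝ) < y ^ n := pow_pos hy n
    change ENNReal.ofReal (y ^ n) * (h y * ENNReal.ofReal ((y ^ n)⁻¹)) = h y
    rw [mul_left_comm, ← ENNReal.ofReal_mul hy0.le, mul_inv_cancel₀ hy0.ne', ENNReal.ofReal_one,
      mul_one]
  have hR : ∫⁻ w, (∫⁻ t : ℝ, f (g w (mk t 0))) ∂P = ∫⁻ t : ℝ, h t :=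
    lintegral_lintegral_swap (μ := P) (ν := (volume : Measure ℝ))
      (f := fun w t => f (g w (mk t 0))) hmeas.aemeasurable
  rw [hL, hL2, hR]
  calc κ⁻¹ * (κ * ∫⁻ y in Ioi (0 : ℝ), h y) = (κ⁻¹ * κ) * ∫⁻ y in Ioi (0 : ℝ), h y :=
        (mul_assoc _ _ _).symm
    _ ≤ 1 * ∫⁻ y in Ioi (0 : ℝ), h y := by
        gcongr
        exact ENNReal.inv_mul_le_one κ
    _ ≤ ∫⁻ y : ℝ, h y := by
        rw [one_mul]
        exact setLIntegral_le_lintegral _ _

end Pool.Agent.H638.KI
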