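import Pool.Agent.H638.KI.Defs

/-! AVS: average of the volume of the sections. -/

set_option autoImplicit false

open MeasureTheory Set Filter Topology Metric
open scoped Pointwise RealInnerProductSpace ENNReal

namespace Pool.Agent.H638.KI

open Pool.Agent.H638.IB (E mk)

namespace AVSaux

theorem vol_ball {n : ℕ} (H : Submodule ℝ (E n)) :
    (volume : Measure H) (ball (0 : H) 1) = volume (ball (0 : E (Module.finrank ℝ H)) 1) := by
  have hmp := (stdOrthonormalBasis ℝ H).measurePreserving_repr
  rw [← hmp.measure_preimage (measurableSet_ball.nullMeasurableSet)]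
  congr 1
  ext v
  simp only [mem_ball, dist_zero_right, mem_preimage]
  rw [LinearIsometryEquiv.norm_map]

theorem vol_closedBall {n : ℕ} (H : Submodule ℝ (E n)) (r : ℝ) (hr : 0 < r) :
    (volume : Measure H) {v | ‖v‖ * r ≤ 1} =
      volume (ball (0 : E (Module.finrank ℝ H)) 1) *
        ENNReal.ofReal ((r ^ Module.finrank ℝ H)⁻¹) := by
  have h1 : {v : H | ‖v‖ * r ≤ 1} = closedBall (0 : H) r⁻¹ := by
    ext v
    simp only [mem_ofPred_eq, mem_closedBall, dist_zero_right]
    rw [← one_div, le_div_iff₀ hr]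
  rw [h1, Measure.addHaar_closedBall _ _ (inv_nonneg.2 hr.le), vol_ball, mul_comm, inv_pow]

end AVSaux

theorem AVS_ok : S_AVS := by
  intro n p hp Ω _ P g hP hg hinv H e he
  have hpm : Measurable p := hp.cont.measurable
  have hS : MeasurableSet {x : E n | p x ≤ 1} := hpm measurableSet_Iic
  set f : E n → ℝ≥0∞ := {x : E n | p x ≤ 1}.indicator (fun _ => 1) with hf
  have hfm : Measurable f := measurable_const.indicator hS
  have hgm : ∀ w, Measurable (fun v : H => g w (v : E n)) := fun w =>
    ((g w).continuous.comp continuous_subtype_val).measurable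
  have hA : ∀ w, (volume : Measure H) {v | p (g w (v : E n)) ≤ 1} =
      ∫⁻ v : H, f (g w (v : E n)) := by
    intro w
    have h1 : (fun v : H => f (g w (v : E n))) =
        ({v : H | p (g w (v : E n)) ≤ 1}).indicator (fun _ => 1) := by
      funext v
      simp only [hf, indicator, mem_ofPred_eq]
    have h2 : MeasurableSet {v : H | p (g w (v : E n)) ≤ 1} := hgm w hS
    rw [h1, lintegral_indicator h2]
    simp
  have hB : ∀ w, ∫⁻ v : H, f (g w (‖(v : E n)‖ • e)) =
      volume (ball (0 : E (Module.finrank ℝ H)) 1) *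
        ENNReal.ofReal ((p (g w e) ^ Module.finrank ℝ H)⁻¹) := by
    intro w
    have hge : g w e ≠ 0 := by
      intro h0
      have : ‖g w e‖ = 1 := by rw [LinearIsometryEquiv.norm_map, he]
      rw [h0, norm_zero] at this
      exact zero_ne_one this
    have hpos := hp.pos _ hge
    rw [← AVSaux.vol_closedBall H _ hpos]
    have hset : MeasurableSet {v : H | ‖v‖ * p (g w e) ≤ 1} :=
      (measurable_norm.mul_const _) measurableSet_Iic
    have h1 : (fun v : H => f (g w (‖(v : E n)‖ • e))) =
        ({v : H | ‖v‖ * p (g w e) ≤ 1}).indicator (fun _ => 1) := by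
      funext v
      have h3 : p (g w (‖(v : E n)‖ • e)) = ‖v‖ * p (g w e) := by
        rw [map_smul, hp.hom, abs_of_nonneg (norm_nonneg _)]
        rfl
      by_cases h4 : ‖v‖ * p (g w e) ≤ 1
      · rw [indicator_of_mem (show v ∈ {v : H | ‖v‖ * p (g w e) ≤ 1} from h4), hf,
          indicator_of_mem]
        exact h3.le.trans h4
      · rw [indicator_of_notMem (show v ∉ {v : H | ‖v‖ * p (g w e) ≤ 1} from h4), hf,
          indicator_of_notMem]
        intro h5
        exact h4 (h3.ge.trans h5)
    rw [h1, lintegral_indicator hset]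
    simp
  have hm1 : Measurable (fun z : Ω × H => f (g z.1 (z.2 : E n))) :=
    hfm.comp (hg.comp (measurable_fst.prodMk (measurable_subtype_coe.comp measurable_snd)))
  have hm2 : Measurable (fun z : Ω × H => f (g z.1 (‖(z.2 : E n)‖ • e))) :=
    hfm.comp (hg.comp (measurable_fst.prodMk
      (((measurable_subtype_coe.comp measurable_snd).norm).smul_const e)))
  calc ∫⁻ w, (volume : Measure H) {v | p (g w (v : E n)) ≤ 1} ∂P
      = ∫⁻ w, (∫⁻ v : H, f (g w (v : E n))) ∂P := lintegral_congr hA
    _ = ∫⁻ v : H, ∫⁻ w, f (g w (v : E n)) ∂P :=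
        lintegral_lintegral_swap hm1.aemeasurable
    _ = ∫⁻ v : H, ∫⁻ w, f (g w (‖(v : E n)‖ • e)) ∂P := by
        refine lintegral_congr fun v => ?_
        refine hinv f hfm _ _ ?_
        rw [norm_smul, he, mul_one, norm_norm]
    _ = ∫⁻ w, (∫⁻ v : H, f (g w (‖(v : E n)‖ • e))) ∂P :=
        (lintegral_lintegral_swap hm2.aemeasurable).symm
    _ = ∫⁻ w, volume (ball (0 : E (Module.finrank ℝ H)) 1) *
          ENNReal.ofReal ((p (g w e) ^ Module.finrank ℝ H)⁻¹) ∂P := lintegral_congr hB
    _ = _ := lintegral_const_mul' _ _ measure_ball_lt_top.ne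

end Pool.Agent.H638.KI
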