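import Pool.Agent.H638.KI.Defs
import Pool.Agent.H638.IB.T_MP

/-! Task AVW of the project KI: there is a good direction. -/

set_option autoImplicit false

open MeasureTheory Set Filter Topology Metric
open scoped Pointwise RealInnerProductSpace ENNReal

namespace Pool.Agent.H638.KI

open Pool.Agent.H638.IB (E mk)

namespace AVWaux

open Pool.Agent.H638.IB (mk_add continuous_mk)

variable {n : ℕ}

/-- The indicator function. -/
noncomputable def one (P : Set (E (n + 1))) : E (n + 1) → ℝ≥0∞ := P.indicator fun _ => 1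

theorem one_meas {P : Set (E (n + 1))} (hP : MeasurableSet P) : Measurable (one P) :=
  measurable_const.indicator hP

theorem meas_mk : Measurable fun p : ℝ × E n => mk p.1 p.2 := continuous_mk.measurable

theorem meas_mk0 : Measurable fun t : ℝ => mk t (0 : E n) :=
  meas_mk.comp (measurable_id.prodMk measurable_const)

theorem vol_slice (h : E (n + 1) ≃ₗᵢ[ℝ] E (n + 1)) {P : Set (E (n + 1))} (hP : MeasurableSet P)
    (y : E n) : volume (slice (h ⁻¹' P) y) = ∫⁻ s : ℝ, one P (h (mk s y)) := by
  have hm : MeasurableSet (slice (h ⁻¹' P) y) := by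
    have : Measurable fun s : ℝ => h (mk s y) :=
      h.continuous.measurable.comp (meas_mk.comp (measurable_id.prodMk measurable_const))
    exact this hP
  rw [← lintegral_indicator_one hm]
  rfl

theorem slice_meas (h : E (n + 1) ≃ₗᵢ[ℝ] E (n + 1)) {P : Set (E (n + 1))}
    (hP : MeasurableSet P) : Measurable fun y : E n => volume (slice (h ⁻¹' P) y) := by
  simp only [vol_slice h hP]
  have hm : Measurable fun z : E n × ℝ => one P (h (mk z.2 z.1)) :=
    (one_meas hP).comp (h.continuous.measurable.comp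
      (meas_mk.comp (measurable_snd.prodMk measurable_fst)))
  exact hm.lintegral_prod_right'

/-- The inner integral. -/
noncomputable def inn (Q : Set (E (n + 1))) (h : E (n + 1) ≃ₗᵢ[ℝ] E (n + 1)) (x : E (n + 1)) :
    ℝ≥0∞ := ∫⁻ t : ℝ, one Q (x + h (mk t 0))

theorem inn_meas {Q : Set (E (n + 1))} (hQ : MeasurableSet Q)
    (h : E (n + 1) ≃ₗᵢ[ℝ] E (n + 1)) : Measurable (inn Q h) := by
  unfold inn
  have hm : Measurable fun z : E (n + 1) × ℝ => one Q (z.1 + h (mk z.2 0)) :=
    (one_meas hQ).comp (measurable_fst.add (h.continuous.measurable.comp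
      (meas_mk0.comp measurable_snd)))
  exact hm.lintegral_prod_right'

theorem Jform (h : E (n + 1) ≃ₗᵢ[ℝ] E (n + 1)) {P Q : Set (E (n + 1))} (hP : MeasurableSet P)
    (hQ : MeasurableSet Q) :
    ∫⁻ y : E n, volume (slice (h ⁻¹' P) y) * volume (slice (h ⁻¹' Q) y) =
      ∫⁻ x : E (n + 1), one P x * inn Q h x := by
  have h1 : ∀ y : E n, volume (slice (h ⁻¹' P) y) * volume (slice (h ⁻¹' Q) y) =
      ∫⁻ s : ℝ, one P (h (mk s y)) * inn Q h (h (mk s y)) := by
    intro y
    rw [vol_slice h hP, ← lintegral_mul_const]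
    · refine lintegral_congr fun s => ?_
      congr 1
      rw [vol_slice h hQ]
      unfold inn
      rw [← lintegral_add_left_eq_self (fun t => one Q (h (mk t y))) s]
      refine lintegral_congr fun t => ?_
      rw [← map_add, mk_add, add_zero]
    · exact (one_meas hP).comp (h.continuous.measurable.comp
        (meas_mk.comp (measurable_id.prodMk measurable_const)))
  simp only [h1]
  have hF : Measurable fun x : E (n + 1) => one P x * inn Q h x := (one_meas hP).mul (inn_meas hQ h)
  have hF2 : Measurable fun z : ℝ × E n => one P (h (mk z.1 z.2)) * inn Q h (h (mk z.1 z.2)) :=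
    hF.comp (h.continuous.measurable.comp meas_mk)
  rw [← lintegral_prod_symm' _ hF2]
  have hMP := Pool.Agent.H638.IB.MP_ok n
  have h2 : ∫⁻ z : ℝ × E n, one P (h (mk z.1 z.2)) * inn Q h (h (mk z.1 z.2))
      ∂(volume.prod volume) = ∫⁻ x : E (n + 1), one P (h x) * inn Q h (h x) :=
    hMP.lintegral_comp (f := fun x : E (n + 1) => one P (h x) * inn Q h (h x))
      (hF.comp h.continuous.measurable)
  rw [h2]
  exact h.measurePreserving.lintegral_comp hF

/-- the slices are bounded -/
theorem slice_le (h : E (n + 1) ≃ₗᵢ[ℝ] E (n + 1)) {P : Set (E (n + 1))} {D : ℝ}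
    (hP : P ⊆ closedBall 0 D) (y : E n) :
    volume (slice (h ⁻¹' P) y) ≤ ENNReal.ofReal (2 * D) := by
  have hsub : slice (h ⁻¹' P) y ⊆ Icc (-D) D := by
    intro t ht
    have h1 : h (mk t y) ∈ P := ht
    have h2 := hP h1
    rw [mem_closedBall_zero_iff, h.norm_map] at h2
    have h3 := Pool.Agent.H638.IB.norm_mk_sq t y
    have h4 : 0 ≤ D := (norm_nonneg _).trans h2
    have h5 : t ^ 2 ≤ D ^ 2 := by
      have h6 : ‖mk t y‖ ^ 2 ≤ D ^ 2 := pow_le_pow_left₀ (norm_nonneg _) h2 2
      nlinarith [sq_nonneg ‖y‖]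
    exact abs_le.1 (abs_le_of_sq_le_sq h5 h4)
  refine (measure_mono hsub).trans ?_
  rw [Real.volume_Icc]
  apply ENNReal.ofReal_le_ofReal
  linarith

theorem vol_lint (h : E (n + 1) ≃ₗᵢ[ℝ] E (n + 1)) {P : Set (E (n + 1))} (hP : MeasurableSet P) :
    ∫⁻ y : E n, volume (slice (h ⁻¹' P) y) = volume P := by
  simp only [vol_slice h hP]
  have hF2 : Measurable fun z : ℝ × E n => one P (h (mk z.1 z.2)) :=
    (one_meas hP).comp (h.continuous.measurable.comp meas_mk)
  rw [← lintegral_prod_symm' _ hF2]
  have hMP := Pool.Agent.H638.IB.MP_ok n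
  have h2 : ∫⁻ z : ℝ × E n, one P (h (mk z.1 z.2)) ∂(volume.prod volume) =
      ∫⁻ x : E (n + 1), one P (h x) :=
    hMP.lintegral_comp (f := fun x : E (n + 1) => one P (h x))
      ((one_meas hP).comp h.continuous.measurable)
  rw [h2, h.measurePreserving.lintegral_comp (one_meas hP)]
  exact lintegral_indicator_one hP

end AVWaux

open AVWaux in
theorem AVW_ok (hAVI : S_AVI) (hHAAR : S_HAAR) : S_AVW := by
  intro n D η hD hη
  obtain ⟨Ω, mΩ, μ, g, hμ, hg, hinv⟩ := hHAAR (n + 1)
  obtain ⟨c, hc0, hc⟩ := hAVI Ω μ g hμ hg hinv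
  set κ : ℝ≥0∞ := ENNReal.ofReal (((2 * D) ^ n)⁻¹) with hκ
  have hκ0 : κ ≠ 0 := by
    rw [hκ]
    have : 0 < ((2 * D) ^ n)⁻¹ := by positivity
    exact (ENNReal.ofReal_pos.2 this).ne'
  have hη0 : ENNReal.ofReal η ≠ 0 := (ENNReal.ofReal_pos.2 hη).ne'
  set W1 : ℝ≥0∞ := min 1 (ENNReal.ofReal η * (c * (κ * ENNReal.ofReal η))) with hW1
  have hW1top : W1 ≠ ∞ := ((min_le_left _ _).trans_lt ENNReal.one_lt_top).ne
  have hW10 : W1 ≠ 0 := by
    rw [hW1]
    have : 0 < min 1 (ENNReal.ofReal η * (c * (κ * ENNReal.ofReal η))) := by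
      refine lt_min one_pos (pos_iff_ne_zero.2 ?_)
      exact mul_ne_zero hη0 (mul_ne_zero hc0 (mul_ne_zero hκ0 hη0))
    exact this.ne'
  have hW1pos : 0 < W1.toReal := ENNReal.toReal_pos hW10 hW1top
  refine ⟨W1.toReal / 2, by positivity, ?_⟩
  intro P Q hP hQ hPD hQD hPη hQη
  have hfin : ∀ S : Set (E (n + 1)), S ⊆ closedBall 0 D → volume S ≠ ∞ := fun S hS =>
    ((measure_mono hS).trans_lt measure_closedBall_lt_top).ne
  have hPη' : ENNReal.ofReal η ≤ volume P := ENNReal.ofReal_le_of_le_toReal hPη
  have hQη' : ENNReal.ofReal η ≤ volume Q := ENNReal.ofReal_le_of_le_toReal hQη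
  -- the average
  have hjm : Measurable fun z : (Ω × E (n + 1)) × ℝ =>
      one Q (z.1.2 + g z.1.1 (mk z.2 0)) := by
    refine (one_meas hQ).comp ((measurable_snd.comp measurable_fst).add ?_)
    exact hg.comp ((measurable_fst.comp measurable_fst).prodMk (meas_mk0.comp measurable_snd))
  have hjm2 : Measurable fun z : Ω × E (n + 1) => one P z.2 * inn Q (g z.1) z.2 :=
    ((one_meas hP).comp measurable_snd).mul hjm.lintegral_prod_right'
  have havg : ENNReal.ofReal η * (c * (κ * ENNReal.ofReal η)) ≤
      ∫⁻ w, (∫⁻ x : E (n + 1), one P x * inn Q (g w) x) ∂μ := by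
    rw [lintegral_lintegral_swap hjm2.aemeasurable]
    have hlow : ∀ x : E (n + 1), one P x * (c * (κ * volume Q)) ≤
        ∫⁻ w, one P x * inn Q (g w) x ∂μ := by
      intro x
      by_cases hx : x ∈ P
      · have e1 : one P x = 1 := Set.indicator_of_mem hx _
        rw [e1]
        simp only [one_mul]
        have hfm : Measurable fun z : E (n + 1) => one Q (x + z) :=
          (one_meas hQ).comp (measurable_const.add measurable_id)
        refine le_trans ?_ (hc _ hfm)
        refine mul_le_mul_right ?_ c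
        have h0 : ∀ᵐ z : E (n + 1), z ≠ 0 := by
          haveI : Nontrivial (E (n + 1)) := inferInstance
          exact compl_mem_ae_iff.2 (measure_singleton 0)
        calc κ * volume Q = κ * ∫⁻ z : E (n + 1), one Q (x + z) := by
              rw [lintegral_add_left_eq_self (one Q) x]
              congr 1
              exact (lintegral_indicator_one hQ).symm
          _ = ∫⁻ z : E (n + 1), one Q (x + z) * κ := by
              rw [lintegral_mul_const _ hfm, mul_comm]
          _ ≤ ∫⁻ z : E (n + 1), one Q (x + z) * ENNReal.ofReal ((‖z‖ ^ n)⁻¹) := by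
              refine lintegral_mono_ae ?_
              filter_upwards [h0] with z hz
              by_cases hxz : x + z ∈ Q
              · refine mul_le_mul_right ?_ _
                rw [hκ]
                apply ENNReal.ofReal_le_ofReal
                have hzp : 0 < ‖z‖ := norm_pos_iff.2 hz
                have hz2 : ‖z‖ ≤ 2 * D := by
                  have h1 := hPD hx
                  have h2 := hQD hxz
                  rw [mem_closedBall_zero_iff] at h1 h2
                  have h3 : z = (x + z) - x := by abel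
                  rw [h3]
                  exact (norm_sub_le _ _).trans (by linarith)
                exact inv_anti₀ (by positivity) (pow_le_pow_left₀ hzp.le hz2 n)
              · have e2 : one Q (x + z) = 0 := Set.indicator_of_notMem hxz _
                rw [e2, zero_mul, zero_mul]
      · have e1 : one P x = 0 := Set.indicator_of_notMem hx _
        rw [e1, zero_mul]
        exact zero_le
    refine le_trans ?_ (lintegral_mono hlow)
    rw [lintegral_mul_const _ (one_meas hP)]
    have e3 : ∫⁻ x : E (n + 1), one P x = volume P := lintegral_indicator_one hP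
    rw [e3]
    gcongr
  -- a good direction
  obtain ⟨w, hw⟩ : ∃ w, ENNReal.ofReal (W1.toReal / 2) ≤
      ∫⁻ x : E (n + 1), one P x * inn Q (g w) x := by
    by_contra hcon
    push Not at hcon
    have h1 : ∫⁻ w, (∫⁻ x : E (n + 1), one P x * inn Q (g w) x) ∂μ ≤
        ENNReal.ofReal (W1.toReal / 2) := by
      calc ∫⁻ w, (∫⁻ x : E (n + 1), one P x * inn Q (g w) x) ∂μ
          ≤ ∫⁻ _, ENNReal.ofReal (W1.toReal / 2) ∂μ := lintegral_mono fun w => (hcon w).le
        _ = _ := by rw [lintegral_const, measure_univ, mul_one]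
    have h2 : W1 ≤ ENNReal.ofReal (W1.toReal / 2) := (min_le_right _ _).trans (havg.trans h1)
    have h3 : W1.toReal ≤ W1.toReal / 2 := by
      have := ENNReal.toReal_mono ENNReal.ofReal_ne_top h2
      rwa [ENNReal.toReal_ofReal (by positivity)] at this
    linarith
  refine ⟨g w, ?_⟩
  rw [← Jform (g w) hP hQ] at hw
  have hJfin : ∫⁻ y : E n, volume (slice (g w ⁻¹' P) y) * volume (slice (g w ⁻¹' Q) y) ≠ ∞ := by
    have h1 : ∫⁻ y : E n, volume (slice (g w ⁻¹' P) y) * volume (slice (g w ⁻¹' Q) y) ≤
        volume P * ENNReal.ofReal (2 * D) := by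
      rw [← vol_lint (g w) hP, ← lintegral_mul_const _ (slice_meas (g w) hP)]
      refine lintegral_mono fun y => ?_
      exact mul_le_mul_right (slice_le (g w) hQD y) _
    exact (h1.trans_lt (ENNReal.mul_lt_top (lt_top_iff_ne_top.2 (hfin P hPD))
      ENNReal.ofReal_lt_top)).ne
  have h5 : ∫ y : E n, (volume (slice (g w ⁻¹' P) y)).toReal *
      (volume (slice (g w ⁻¹' Q) y)).toReal =
      (∫⁻ y : E n, volume (slice (g w ⁻¹' P) y) * volume (slice (g w ⁻¹' Q) y)).toReal := by
    rw [← integral_toReal]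
    · refine integral_congr_ae (Filter.Eventually.of_forall fun y => ?_)
      exact ENNReal.toReal_mul.symm
    · exact ((slice_meas (g w) hP).mul (slice_meas (g w) hQ)).aemeasurable
    · refine Filter.Eventually.of_forall fun y => ?_
      exact ENNReal.mul_lt_top ((slice_le (g w) hPD y).trans_lt ENNReal.ofReal_lt_top)
        ((slice_le (g w) hQD y).trans_lt ENNReal.ofReal_lt_top)
  rw [h5]
  exact (ENNReal.ofReal_le_iff_le_toReal hJfin).1 hw

end Pool.Agent.H638.KI
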