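import Pool.Agent.H638.KI.Defs

/-! The rearrangement inequality on the line: from finite unions of intervals to measurable sets. -/

set_option autoImplicit false

open MeasureTheory Set Filter Topology Metric
open scoped Pointwise RealInnerProductSpace ENNReal

namespace Pool.Agent.H638.KI.BL1aux

open Pool.Agent.H638.IB (E mk)

theorem phi_le {φ : ℝ → ℝ} (hφ : SD φ) (x : ℝ) : φ x ≤ φ 0 := by
  have h1 : φ x = φ |x| := by
    rcases abs_cases x with ⟨h, _⟩ | ⟨h, _⟩
    · rw [h]
    · rw [h, hφ.even]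
  rw [h1]
  exact hφ.anti (mem_Ici.2 le_rfl) (mem_Ici.2 (abs_nonneg x)) (abs_nonneg x)

theorem prod_ind {N : ℕ} (A : Fin N → Set ℝ) (t : Fin N → ℝ) :
    (∏ i, (A i).indicator (fun _ => (1 : ℝ≥0∞)) (t i)) =
      (Set.pi univ A).indicator (fun _ => (1 : ℝ≥0∞)) t := by
  by_cases h : t ∈ Set.pi univ A
  · rw [indicator_of_mem h]
    apply Finset.prod_eq_one
    intro i _
    rw [indicator_of_mem (h i (mem_univ i))]
  · rw [indicator_of_notMem h]
    have h2 : ∃ i, t i ∉ A i := by
      by_contra h3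
      push Not at h3
      exact h (fun i _ => h3 i)
    obtain ⟨i, hi⟩ := h2
    apply Finset.prod_eq_zero (Finset.mem_univ i)
    rw [indicator_of_notMem hi]

theorem prod_indR {N : ℕ} (A : Fin N → Set ℝ) (t : Fin N → ℝ) :
    (∏ i, (A i).indicator (fun _ => (1 : ℝ)) (t i)) =
      (Set.pi univ A).indicator (fun _ => (1 : ℝ)) t := by
  by_cases h : t ∈ Set.pi univ A
  · rw [indicator_of_mem h]
    apply Finset.prod_eq_one
    intro i _
    rw [indicator_of_mem (h i (mem_univ i))]
  · rw [indicator_of_notMem h]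
    have h2 : ∃ i, t i ∉ A i := by
      by_contra h3
      push Not at h3
      exact h (fun i _ => h3 i)
    obtain ⟨i, hi⟩ := h2
    apply Finset.prod_eq_zero (Finset.mem_univ i)
    rw [indicator_of_notMem hi]

theorem PH1_eq {N : ℕ} (φ : ℝ → ℝ) (A : Fin N → Set ℝ) (hA : ∀ i, MeasurableSet (A i)) :
    PH1 φ A = ∫⁻ t in Set.pi univ A, ENNReal.ofReal (φ (∑ i, t i)) := by
  unfold PH1
  rw [← lintegral_indicator (MeasurableSet.univ_pi hA)]
  apply lintegral_congr
  intro t
  rw [prod_ind]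
  by_cases h : t ∈ Set.pi univ A
  · rw [indicator_of_mem h, indicator_of_mem h, one_mul]
  · rw [indicator_of_notMem h, indicator_of_notMem h, zero_mul]

theorem vol_upd {N : ℕ} (A : Fin N → Set ℝ) (i : Fin N) (s : Set ℝ) :
    volume (Set.pi univ (Function.update A i s)) =
      volume s * ∏ j ∈ Finset.univ.erase i, volume (A j) := by
  rw [volume_pi_pi, ← Finset.mul_prod_erase Finset.univ _ (Finset.mem_univ i),
    Function.update_self]
  congr 1
  apply Finset.prod_congr rfl
  intro j hj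
  rw [Function.update_of_ne (Finset.ne_of_mem_erase hj)]

theorem cont {N : ℕ} {φ : ℝ → ℝ} (hφ : SD φ) (A B : Fin N → Set ℝ)
    (hA : ∀ i, MeasurableSet (A i)) (hB : ∀ i, MeasurableSet (B i)) :
    PH1 φ A ≤ PH1 φ B + ENNReal.ofReal (φ 0) *
      ∑ i, volume (A i \ B i) * ∏ j ∈ Finset.univ.erase i, volume (A j) := by
  rw [PH1_eq φ A hA, PH1_eq φ B hB]
  have hsub : Set.pi univ A ⊆ Set.pi univ B ∪
      ⋃ i, Set.pi univ (Function.update A i (A i \ B i)) := by
    intro t ht
    by_cases h : t ∈ Set.pi univ B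
    · exact Or.inl h
    · right
      have h2 : ∃ i, t i ∉ B i := by
        by_contra h3
        push Not at h3
        exact h (fun i _ => h3 i)
      obtain ⟨i, hi⟩ := h2
      rw [mem_iUnion]
      refine ⟨i, ?_⟩
      intro j _
      by_cases hj : j = i
      · subst hj
        rw [Function.update_self]
        exact ⟨ht j (mem_univ j), hi⟩
      · rw [Function.update_of_ne hj]
        exact ht j (mem_univ j)
  calc ∫⁻ t in Set.pi univ A, ENNReal.ofReal (φ (∑ i, t i))
      ≤ ∫⁻ t in Set.pi univ B ∪ ⋃ i, Set.pi univ (Function.update A i (A i \ B i)),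
        ENNReal.ofReal (φ (∑ i, t i)) := lintegral_mono_set hsub
    _ ≤ (∫⁻ t in Set.pi univ B, ENNReal.ofReal (φ (∑ i, t i))) +
        ∫⁻ t in ⋃ i, Set.pi univ (Function.update A i (A i \ B i)),
          ENNReal.ofReal (φ (∑ i, t i)) := lintegral_union_le _ _ _
    _ ≤ (∫⁻ t in Set.pi univ B, ENNReal.ofReal (φ (∑ i, t i))) +
        ENNReal.ofReal (φ 0) *
          ∑ i, volume (A i \ B i) * ∏ j ∈ Finset.univ.erase i, volume (A j) := by
        apply add_le_add le_rfl
        calc ∫⁻ t in ⋃ i, Set.pi univ (Function.update A i (A i \ B i)),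
              ENNReal.ofReal (φ (∑ i, t i))
            ≤ ∫⁻ t in ⋃ i, Set.pi univ (Function.update A i (A i \ B i)),
              ENNReal.ofReal (φ 0) := by
              apply lintegral_mono
              intro t
              exact ENNReal.ofReal_le_ofReal (phi_le hφ _)
          _ = ENNReal.ofReal (φ 0) *
              volume (⋃ i, Set.pi univ (Function.update A i (A i \ B i))) := by
              rw [setLIntegral_const]
          _ ≤ ENNReal.ofReal (φ 0) *
              ∑ i, volume (A i \ B i) * ∏ j ∈ Finset.univ.erase i, volume (A j) := by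
              apply mul_le_mul_right
              refine le_trans (measure_iUnion_fintype_le _ _) ?_
              apply le_of_eq
              apply Finset.sum_congr rfl
              intro i _
              exact vol_upd A i _

theorem Phi_eq {N : ℕ} {φ : ℝ → ℝ} (hφ : SD φ) (B : Fin N → Set ℝ)
    (hB : ∀ i, MeasurableSet (B i)) (hf : ∀ i, volume (B i) ≠ ∞) (f : Fin N → ℝ → ℝ)
    (hfB : ∀ i t, f i t = (B i).indicator (fun _ => (1 : ℝ)) t) :
    ENNReal.ofReal (Phi φ f) = PH1 φ B := by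
  have hms : MeasurableSet (Set.pi univ B) := MeasurableSet.univ_pi hB
  have hcont : Continuous (fun t : Fin N → ℝ => φ (∑ i, t i)) :=
    hφ.cont.comp (continuous_finsetSum _ (fun i _ => continuous_apply i))
  have h1 : Phi φ f = ∫ t in Set.pi univ B, φ (∑ i, t i) := by
    unfold Phi
    rw [← integral_indicator hms]
    apply integral_congr_ae
    filter_upwards with t
    have h2 : (∏ i, f i (t i)) = ∏ i, (B i).indicator (fun _ => (1 : ℝ)) (t i) :=
      Finset.prod_congr rfl (fun i _ => hfB i (t i))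
    rw [h2, prod_indR]
    by_cases h : t ∈ Set.pi univ B
    · rw [indicator_of_mem h, indicator_of_mem h, one_mul]
    · rw [indicator_of_notMem h, indicator_of_notMem h, zero_mul]
  have hvol : volume (Set.pi univ B) ≠ ∞ := by
    rw [volume_pi_pi]
    exact ENNReal.prod_ne_top (fun i _ => hf i)
  have hint : IntegrableOn (fun t : Fin N → ℝ => φ (∑ i, t i)) (Set.pi univ B) := by
    apply Measure.integrableOn_of_bounded (M := φ 0) hvol hcont.aestronglyMeasurable
    filter_upwards with t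
    rw [Real.norm_of_nonneg (hφ.nonneg _)]
    exact phi_le hφ _
  rw [h1, PH1_eq φ B hB]
  exact ofReal_integral_eq_lintegral_ofReal hint (ae_of_all _ (fun t => hφ.nonneg _))

theorem sum_bd {N : ℕ} (A : Fin N → Set ℝ) (D E' : Fin N → ℝ≥0∞) (e : ℝ≥0∞)
    (hD : ∀ i, D i ≤ e) (hE : ∀ i, E' i ≤ volume (A i) + 1) :
    ∑ i, D i * ∏ j ∈ Finset.univ.erase i, E' j ≤
      e * ∑ i, ∏ j ∈ Finset.univ.erase i, (volume (A j) + 1) := by
  rw [Finset.mul_sum]
  apply Finset.sum_le_sum
  intro i _
  exact mul_le_mul' (hD i) (Finset.prod_le_prod' (fun j _ => hE j))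

theorem vol_diff (l m ε : ℝ) (h : l ≤ m + ε) :
    volume (Ioc (-l) l \ Ioo (-m) m) ≤ 2 * ENNReal.ofReal ε := by
  have hsub : Ioc (-l) l \ Ioo (-m) m ⊆ Icc (-l) (-m) ∪ Icc m l := by
    rintro t ⟨⟨h1, h2⟩, h3⟩
    by_cases h4 : -m < t
    · right
      refine ⟨?_, h2⟩
      by_contra h5
      rw [not_le] at h5
      exact h3 ⟨h4, h5⟩
    · left
      exact ⟨h1.le, not_lt.1 h4⟩
  calc volume (Ioc (-l) l \ Ioo (-m) m) ≤ volume (Icc (-l) (-m) ∪ Icc m l) :=
        measure_mono hsub
    _ ≤ volume (Icc (-l) (-m)) + volume (Icc m l) := measure_union_le _ _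
    _ = ENNReal.ofReal (-m - -l) + ENNReal.ofReal (l - m) := by
        rw [Real.volume_Icc, Real.volume_Icc]
    _ ≤ ENNReal.ofReal ε + ENNReal.ofReal ε := by
        apply add_le_add
        · apply ENNReal.ofReal_le_ofReal
          linarith
        · apply ENNReal.ofReal_le_ofReal
          linarith
    _ = 2 * ENNReal.ofReal ε := by rw [two_mul]

theorem step (h1 : S_UNI) (h2 : S_APX) {N : ℕ} {φ : ℝ → ℝ} (hφ : SD φ) (A : Fin N → Set ℝ)
    (hA : ∀ i, MeasurableSet (A i)) (hf : ∀ i, volume (A i) ≠ ∞) (ε : ℝ) (hε : 0 < ε)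
    (hε1 : ε ≤ 1) :
    PH1 φ A ≤ PH1 φ (fun i => Ioo (-((volume (A i)).toReal / 2)) ((volume (A i)).toReal / 2)) +
      ENNReal.ofReal ε * (3 * (ENNReal.ofReal (φ 0) *
        ∑ i, ∏ j ∈ Finset.univ.erase i, (volume (A j) + 1))) := by
  have hex := fun i => h2 (A i) (hA i) (hf i) ε hε
  choose S hG hind hlen hmeas hsd using hex
  set B : Fin N → Set ℝ := fun i => {t | ind (S i) t ≠ 0} with hB
  set C' : Fin N → Set ℝ := fun i => Ioc (-(len (S i) / 2)) (len (S i) / 2) with hC'
  set C : Fin N → Set ℝ :=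
    fun i => Ioo (-((volume (A i)).toReal / 2)) ((volume (A i)).toReal / 2) with hC
  have hBm : ∀ i, MeasurableSet (B i) := hmeas
  have hC'm : ∀ i, MeasurableSet (C' i) := fun i => measurableSet_Ioc
  have hCm : ∀ i, MeasurableSet (C i) := fun i => measurableSet_Ioo
  have hAB : ∀ i, volume (A i \ B i) ≤ ENNReal.ofReal ε := by
    intro i
    refine le_trans (measure_mono ?_) (hsd i)
    intro t ht
    exact Or.inl ht
  have hBA : ∀ i, volume (B i) ≤ volume (A i) + ENNReal.ofReal ε := by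
    intro i
    have h3 : B i ⊆ A i ∪ symmDiff (A i) (B i) := by
      intro t ht
      by_cases h4 : t ∈ A i
      · exact Or.inl h4
      · exact Or.inr (Or.inr ⟨ht, h4⟩)
    calc volume (B i) ≤ volume (A i ∪ symmDiff (A i) (B i)) := measure_mono h3
      _ ≤ volume (A i) + volume (symmDiff (A i) (B i)) := measure_union_le _ _
      _ ≤ volume (A i) + ENNReal.ofReal ε := add_le_add le_rfl (hsd i)
  have hε1' : ENNReal.ofReal ε ≤ 1 := by
    rw [← ENNReal.ofReal_one]
    exact ENNReal.ofReal_le_ofReal hε1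
  have hlen0 : ∀ i, 0 ≤ len (S i) := by
    intro i
    unfold len
    apply List.sum_nonneg
    intro x hx
    rw [List.mem_map] at hx
    obtain ⟨I, hI, rfl⟩ := hx
    have := (hG i).1 I hI
    linarith
  have hC'v : ∀ i, volume (C' i) = volume (B i) := by
    intro i
    rw [hC']
    show volume (Ioc (-(len (S i) / 2)) (len (S i) / 2)) = volume (B i)
    rw [Real.volume_Ioc, hlen i]
    congr 1
    ring
  have hlenA : ∀ i, len (S i) ≤ (volume (A i)).toReal + ε := by
    intro i
    have h3 := hBA i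
    rw [show volume (B i) = ENNReal.ofReal (len (S i)) from hlen i] at h3
    have h4 : volume (A i) = ENNReal.ofReal (volume (A i)).toReal :=
      (ENNReal.ofReal_toReal (hf i)).symm
    rw [h4, ← ENNReal.ofReal_add ENNReal.toReal_nonneg hε.le] at h3
    have h5 : 0 ≤ (volume (A i)).toReal + ε := add_nonneg ENNReal.toReal_nonneg hε.le
    exact (ENNReal.ofReal_le_ofReal_iff h5).1 h3
  have hCC : ∀ i, volume (C' i \ C i) ≤ 2 * ENNReal.ofReal ε := by
    intro i
    apply vol_diff
    have := hlenA i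
    linarith
  have hBf : ∀ i, volume (B i) ≠ ∞ := by
    intro i
    rw [show volume (B i) = ENNReal.ofReal (len (S i)) from hlen i]
    exact ENNReal.ofReal_ne_top
  have hC'f : ∀ i, volume (C' i) ≠ ∞ := by
    intro i
    rw [hC'v]
    exact hBf i
  set Q : ℝ≥0∞ := ∑ i, ∏ j ∈ Finset.univ.erase i, (volume (A j) + 1) with hQ
  have s1 : PH1 φ A ≤ PH1 φ B + ENNReal.ofReal (φ 0) * (ENNReal.ofReal ε * Q) := by
    refine le_trans (cont hφ A B hA hBm) ?_
    apply add_le_add le_rfl
    apply mul_le_mul_right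
    exact sum_bd A _ _ _ hAB (fun i => le_self_add)
  have s2 : PH1 φ B ≤ PH1 φ C' := by
    rw [← Phi_eq hφ B hBm hBf (fun i => ind (S i)) (fun i t => hind i t),
      ← Phi_eq hφ C' hC'm hC'f (fun i => ioc (-(len (S i) / 2)) (len (S i) / 2))
        (fun i t => rfl)]
    exact ENNReal.ofReal_le_ofReal (h1 N φ hφ S hG)
  have s3 : PH1 φ C' ≤ PH1 φ C + ENNReal.ofReal (φ 0) * ((2 * ENNReal.ofReal ε) * Q) := by
    refine le_trans (cont hφ C' C hC'm hCm) ?_
    apply add_le_add le_rfl
    apply mul_le_mul_right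
    refine sum_bd A _ _ _ hCC (fun i => ?_)
    rw [hC'v]
    exact le_trans (hBA i) (add_le_add le_rfl hε1')
  calc PH1 φ A ≤ PH1 φ B + ENNReal.ofReal (φ 0) * (ENNReal.ofReal ε * Q) := s1
    _ ≤ (PH1 φ C + ENNReal.ofReal (φ 0) * ((2 * ENNReal.ofReal ε) * Q)) +
        ENNReal.ofReal (φ 0) * (ENNReal.ofReal ε * Q) :=
        add_le_add (le_trans s2 s3) le_rfl
    _ = PH1 φ C + ENNReal.ofReal ε * (3 * (ENNReal.ofReal (φ 0) * Q)) := by ring

end Pool.Agent.H638.KI.BL1aux

namespace Pool.Agent.H638.KI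

open BL1aux

theorem BL1_ok (h1 : S_UNI) (h2 : S_APX) : S_BL1 := by
  intro N φ hφ A hA hf
  set R : ℝ≥0∞ := 3 * (ENNReal.ofReal (φ 0) *
    ∑ i, ∏ j ∈ Finset.univ.erase i, (volume (A j) + 1)) with hR
  have hRf : R ≠ ∞ := by
    rw [hR]
    apply ENNReal.mul_ne_top (by norm_num)
    apply ENNReal.mul_ne_top ENNReal.ofReal_ne_top
    apply ENNReal.sum_ne_top.2
    intro i _
    apply ENNReal.prod_ne_top
    intro j _
    exact ENNReal.add_ne_top.2 ⟨hf j, ENNReal.one_ne_top⟩
  have hlim : Tendsto (fun n : ℕ =>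
      PH1 φ (fun i => Ioo (-((volume (A i)).toReal / 2)) ((volume (A i)).toReal / 2)) +
      ENNReal.ofReal (1 / ((n : ℝ) + 1)) * R) atTop
      (𝓝 (PH1 φ (fun i => Ioo (-((volume (A i)).toReal / 2)) ((volume (A i)).toReal / 2)) +
        0 * R)) := by
    apply Tendsto.add tendsto_const_nhds
    apply ENNReal.Tendsto.mul_const _ (Or.inr hRf)
    have h3 : Tendsto (fun n : ℕ => ENNReal.ofReal (1 / ((n : ℝ) + 1))) atTop
        (𝓝 (ENNReal.ofReal 0)) :=
      ENNReal.tendsto_ofReal tendsto_one_div_add_atTop_nhds_zero_nat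
    rw [ENNReal.ofReal_zero] at h3
    exact h3
  rw [zero_mul, add_zero] at hlim
  apply ge_of_tendsto' hlim
  intro n
  have hn : (0 : ℝ) < (n : ℝ) + 1 := by positivity
  apply step h1 h2 hφ A hA hf _ (by positivity)
  rw [div_le_one hn]
  have : (0 : ℝ) ≤ (n : ℝ) := Nat.cast_nonneg n
  linarith

end Pool.Agent.H638.KI
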