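import Pool.Agent.H638.KI.Defs

set_option autoImplicit false

open MeasureTheory Set Filter Topology Metric
open scoped Pointwise RealInnerProductSpace ENNReal

namespace Pool.Agent.H638.KI

open Pool.Agent.H638.IB (E mk)

namespace BLNaux

theorem le_of_eps (x y C : ℝ≥0∞) (hC : C ≠ ∞)
    (h : ∀ ε : ℝ, 0 < ε → x ≤ y + ENNReal.ofReal ε * C) : x ≤ y := by
  have ht : Tendsto (fun ε : ℝ => y + ENNReal.ofReal ε * C) (𝓝[>] 0)
      (𝓝 (y + ENNReal.ofReal 0 * C)) := by
    refine Tendsto.mono_left ?_ nhdsWithin_le_nhds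
    refine tendsto_const_nhds.add ?_
    exact ENNReal.Tendsto.mul_const (ENNReal.continuous_ofReal.tendsto 0) (Or.inr hC)
  rw [ENNReal.ofReal_zero, zero_mul, add_zero] at ht
  refine ge_of_tendsto ht ?_
  filter_upwards [self_mem_nhdsWithin] with ε hε using h ε hε

theorem exists_s {n : ℕ} (v : ℝ≥0∞) (hv : v ≠ ∞) :
    ∃ s : ℝ, 0 ≤ s ∧ volume (closedBall (0 : E (n + 1)) s) = v := by
  set c : ℝ≥0∞ := volume (ball (0 : E (n + 1)) 1) with hc
  have hc0 : c ≠ 0 := (measure_ball_pos volume (0 : E (n + 1)) one_pos).ne'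
  have hct : c ≠ ∞ := measure_ball_lt_top.ne
  have hq : v / c ≠ ∞ := ENNReal.div_ne_top hv hc0
  refine ⟨((v / c).toReal) ^ ((1 : ℝ) / ((n + 1 : ℕ) : ℝ)), by positivity, ?_⟩
  rw [Measure.addHaar_closedBall _ _ (by positivity)]
  have hdim : Module.finrank ℝ (E (n + 1)) = n + 1 := by simp [E]
  rw [hdim]
  have h1 : (((v / c).toReal) ^ ((1 : ℝ) / ((n + 1 : ℕ) : ℝ))) ^ (n + 1) = (v / c).toReal := by
    rw [← Real.rpow_natCast, ← Real.rpow_mul ENNReal.toReal_nonneg]
    rw [one_div_mul_cancel (by positivity), Real.rpow_one]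
  rw [h1, ENNReal.ofReal_toReal hq, ← hc]
  exact ENNReal.div_mul_cancel hc0 hct

theorem null_diff {n : ℕ} (s r : ℝ) (hs : 0 ≤ s)
    (h : volume (closedBall (0 : E (n + 1)) s) ≤ volume (ball (0 : E (n + 1)) r)) :
    volume (closedBall (0 : E (n + 1)) s \ ball (0 : E (n + 1)) r) = 0 := by
  rcases le_or_gt r 0 with hr | hr
  · rw [ball_eq_empty.2 hr, measure_empty] at h
    exact measure_mono_null sdiff_subset (le_antisymm h bot_le)
  · have hsr : s ≤ r := by
      by_contra hlt
      push Not at hlt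
      rw [Measure.addHaar_closedBall _ _ hs, Measure.addHaar_ball _ _ hr.le] at h
      have hc0 : volume (ball (0 : E (n + 1)) 1) ≠ 0 :=
        (measure_ball_pos volume (0 : E (n + 1)) one_pos).ne'
      have hct : volume (ball (0 : E (n + 1)) 1) ≠ ∞ := measure_ball_lt_top.ne
      have h2 := (ENNReal.mul_le_mul_iff_left hc0 hct).1 h
      have hdim : Module.finrank ℝ (E (n + 1)) = n + 1 := by simp [E]
      rw [hdim] at h2
      have h3 : s ^ (n + 1) ≤ r ^ (n + 1) :=
        (ENNReal.ofReal_le_ofReal_iff (by positivity)).1 h2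
      exact absurd h3 (not_le.2 (pow_lt_pow_left₀ hlt hr.le (Nat.succ_ne_zero n)))
    have hsub : closedBall (0 : E (n + 1)) s \ ball (0 : E (n + 1)) r ⊆ sphere 0 s := by
      rintro x ⟨hx1, hx2⟩
      rw [mem_closedBall] at hx1
      rw [mem_ball, not_lt] at hx2
      rw [mem_sphere]
      exact le_antisymm hx1 (hsr.trans hx2)
    exact measure_mono_null hsub (Measure.addHaar_sphere _ _ _)

theorem bdd (h1 : S_ITER) (h2 : S_PHC) {n N : ℕ} (b : ℝ) (hb : 0 ≤ b)
    (A : Fin N → Set (E (n + 1))) (hA : ∀ i, MeasurableSet (A i)) (r : Fin N → ℝ)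
    (hr : ∀ i, volume (A i) ≤ volume (ball (0 : E (n + 1)) (r i))) (D : ℝ) (hD : 0 < D)
    (hAD : ∀ i, A i ⊆ closedBall 0 D) :
    PHI b A ≤ PHI b (fun i => ball (0 : E (n + 1)) (r i)) := by
  have hfin : ∀ i, volume (A i) ≠ ∞ := fun i =>
    ne_top_of_le_ne_top measure_ball_lt_top.ne (hr i)
  choose s hs0 hs using fun i => exists_s (n := n) (volume (A i)) (hfin i)
  have hC : (∑ i, ∏ j ∈ Finset.univ.erase i, volume (A j)) ≠ ∞ :=
    ENNReal.sum_ne_top.2 fun i _ => ENNReal.prod_ne_top fun j _ => hfin j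
  refine le_of_eps _ _ _ hC fun ε hε => ?_
  obtain ⟨A', hA'm, hA'D, hA'v, hle, hA's⟩ := h1 b hb D ε hD hε A hA hAD s hs0 hs
  refine hle.trans ((h2 b hb A' (fun i => ball 0 (r i)) hA'm
    (fun i => measurableSet_ball)).trans ?_)
  refine add_le_add le_rfl ?_
  rw [Finset.mul_sum]
  refine Finset.sum_le_sum fun i _ => ?_
  have hfin' : volume (A' i \ closedBall 0 (s i)) ≠ ∞ := by
    refine ne_top_of_le_ne_top ?_ (measure_mono sdiff_subset)
    rw [hA'v i]
    exact hfin i
  have hp : volume (A' i \ closedBall 0 (s i)) ≤ ENNReal.ofReal ε := by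
    rw [← ENNReal.ofReal_toReal hfin']
    exact ENNReal.ofReal_le_ofReal (hA's i).le
  have hz : volume (closedBall (0 : E (n + 1)) (s i) \ ball (0 : E (n + 1)) (r i)) = 0 := by
    refine null_diff _ _ (hs0 i) ?_
    rw [hs i]
    exact hr i
  have hm : volume (A' i \ ball 0 (r i)) ≤ ENNReal.ofReal ε := by
    calc volume (A' i \ ball 0 (r i))
        ≤ volume ((A' i \ closedBall 0 (s i)) ∪
            (closedBall (0 : E (n + 1)) (s i) \ ball (0 : E (n + 1)) (r i))) := by
          refine measure_mono fun x hx => ?_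
          by_cases hxs : x ∈ closedBall (0 : E (n + 1)) (s i)
          · exact Or.inr ⟨hxs, hx.2⟩
          · exact Or.inl ⟨hx.1, hxs⟩
      _ ≤ volume (A' i \ closedBall 0 (s i)) +
            volume (closedBall (0 : E (n + 1)) (s i) \ ball (0 : E (n + 1)) (r i)) :=
          measure_union_le _ _
      _ ≤ ENNReal.ofReal ε := by rw [hz, add_zero]; exact hp
  refine mul_le_mul' hm (le_of_eq ?_)
  exact Finset.prod_congr rfl fun j _ => hA'v j

end BLNaux

open BLNaux in
theorem BLN_ok (h1 : S_ITER) (h2 : S_PHC) : S_BLN := by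
  intro n N b hb A hA r hr
  have hfin : ∀ i, volume (A i) ≠ ∞ := fun i =>
    ne_top_of_le_ne_top measure_ball_lt_top.ne (hr i)
  have hC : (∑ i, ∏ j ∈ Finset.univ.erase i, volume (A j)) ≠ ∞ :=
    ENNReal.sum_ne_top.2 fun i _ => ENNReal.prod_ne_top fun j _ => hfin j
  refine le_of_eps _ _ _ hC fun ε hε => ?_
  have hm : ∀ i, Tendsto (fun m : ℕ => volume (A i \ closedBall (0 : E (n + 1)) (m : ℝ))) atTop
      (𝓝 0) := by
    intro i
    have h := tendsto_measure_iInter_atTop (μ := (volume : Measure (E (n + 1))))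
      (s := fun m : ℕ => A i \ closedBall (0 : E (n + 1)) (m : ℝ))
      (fun m => ((hA i).diff measurableSet_closedBall).nullMeasurableSet)
      (fun m m' hmm => sdiff_subset_sdiff_right
        (closedBall_subset_closedBall (Nat.cast_le.2 hmm)))
      ⟨0, ne_top_of_le_ne_top (hfin i) (measure_mono sdiff_subset)⟩
    have he : (⋂ m : ℕ, A i \ closedBall (0 : E (n + 1)) (m : ℝ)) = ∅ := by
      refine eq_empty_iff_forall_notMem.2 fun x hx => ?_
      obtain ⟨m, hm⟩ := exists_nat_ge ‖x‖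
      refine (mem_iInter.1 hx m).2 ?_
      rw [mem_closedBall, dist_zero_right]
      exact hm
    rwa [he, measure_empty] at h
  have hev : ∀ᶠ m : ℕ in atTop, ∀ i,
      volume (A i \ closedBall (0 : E (n + 1)) (m : ℝ)) < ENNReal.ofReal ε := by
    refine eventually_all.2 fun i => ?_
    exact (hm i).eventually_lt_const (by rwa [ENNReal.ofReal_pos])
  obtain ⟨m, hmε, hm1⟩ := (hev.and (eventually_ge_atTop 1)).exists
  have hm0 : (0 : ℝ) < m := by exact_mod_cast hm1
  have hb1 := bdd h1 h2 b hb (fun i => A i ∩ closedBall (0 : E (n + 1)) (m : ℝ))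
    (fun i => (hA i).inter measurableSet_closedBall) r
    (fun i => (measure_mono inter_subset_left).trans (hr i)) m hm0 (fun i => inter_subset_right)
  refine (h2 b hb A (fun i => A i ∩ closedBall (0 : E (n + 1)) (m : ℝ)) hA
    (fun i => (hA i).inter measurableSet_closedBall)).trans ?_
  refine add_le_add hb1 ?_
  rw [Finset.mul_sum]
  refine Finset.sum_le_sum fun i _ => ?_
  refine mul_le_mul' ?_ le_rfl
  refine le_trans (measure_mono ?_) (hmε i).le
  rintro x ⟨hx1, hx2⟩
  exact ⟨hx1, fun h => hx2 ⟨hx1, h⟩⟩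

end Pool.Agent.H638.KI
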