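import Pool.Agent.H638.KI.Defs

set_option autoImplicit false

open MeasureTheory Set Filter Topology Metric
open scoped Pointwise RealInnerProductSpace ENNReal

namespace Pool.Agent.H638.KI

open Pool.Agent.H638.IB (E mk)

namespace COMPaux

/-- The limit of the functional. -/
theorem lim (hFI : S_FI) (hJF : S_JF) (hGC : S_GC) (hGA : S_GA) (hLOG : S_LOG3) (hINT : S_INT)
    {n k N : ℕ} (hk1 : 1 ≤ k) (hkn : k < n) (hN : N * k = n) (q p : E n → ℝ) (hq : SN q)
    (hp : SN p) (hs : Sec k q p) :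
    Tendsto (fun R : ℝ => (Real.log R)⁻¹ *
      ∫ x : Fin N → E n, (∏ i, (q (x i) ^ (n - k))⁻¹ * gs (x i)) *
        (R ^ n * Real.exp (-(Real.pi * R ^ 2 * ‖∑ i, x i‖ ^ 2)))) atTop
      (𝓝 ((((n - k : ℕ) : ℝ) / k) ^ N * ((n : ℝ) * (volume {x : E n | p x ≤ 1}).toReal))) := by
  have hk0 : (k : ℝ) ≠ 0 := by exact_mod_cast (by omega : k ≠ 0)
  -- integrability and symmetry
  have hfi : Integrable (fun x : E n => (q x ^ (n - k))⁻¹ * gs x) := by
    have h := hINT q hq (by omega : n - k < n) Real.pi 0 Real.pi_pos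
    refine h.congr (Eventually.of_forall fun x => ?_)
    simp [gs]
  have hev : ∀ x : E n, (fun x : E n => (q x ^ (n - k))⁻¹ * gs x) (-x) =
      (fun x : E n => (q x ^ (n - k))⁻¹ * gs x) x := by
    intro x
    have h1 : q (-x) = q x := by
      have := hq.hom (-1) x
      rw [neg_one_smul] at this
      rw [this]
      simp
    simp only [h1, gs, norm_neg]
  -- the asymptotics
  obtain ⟨hc, C, hC⟩ := hGC p hp hkn
  have h1 := hLOG p hp (by omega) (fun y => G1 p k y ^ N) (hc.pow N) ⟨C ^ N, fun y =>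
    ⟨pow_nonneg (hC y).1 N, pow_le_pow_left₀ (hC y).1 (hC y).2 N⟩⟩ (by
      have h2 := (hGA p hp hkn).pow N
      rw [one_pow] at h2
      refine h2.congr fun y => ?_
      rw [mul_pow, ← pow_mul, mul_comm k N, hN])
  have h3 := h1.const_mul ((((n - k : ℕ) : ℝ) / k) ^ N)
  refine h3.congr' ?_
  filter_upwards [eventually_gt_atTop 0] with R hR
  have h4 := hJF (N := N) (fun x : E n => (q x ^ (n - k))⁻¹ * gs x) hfi hev R hR
  rw [h4]
  have h5 : ∀ y : E n, (∫ x : E n, (q x ^ (n - k))⁻¹ * gs x * Real.cos (2 * Real.pi * ⟪x, y⟫)) ^ N *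
      Real.exp (-(Real.pi * ‖y‖ ^ 2 / R ^ 2)) =
      (((n - k : ℕ) : ℝ) / k) ^ N * (G1 p k y ^ N * Real.exp (-(Real.pi * ‖y‖ ^ 2 / R ^ 2))) := by
    intro y
    have h6 := hFI q p hq hp hk1 hkn hs y
    have h7 : F1 q (n - k) y = ((n - k : ℕ) : ℝ) / k * G1 p k y := by
      rw [div_mul_eq_mul_div, eq_div_iff hk0, h6, mul_comm]
    have h8 : (∫ x : E n, (q x ^ (n - k))⁻¹ * gs x * Real.cos (2 * Real.pi * ⟪x, y⟫)) =
        F1 q (n - k) y := rfl
    rw [h8, h7, mul_pow, mul_assoc]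
  simp only [h5]
  rw [integral_const_mul]
  ring

end COMPaux

theorem COMP_ok (hFI : S_FI) (hJF : S_JF) (hGC : S_GC) (hGA : S_GA) (hLOG : S_LOG3) (hJC : S_JC)
    (hSB : S_SB) (hINT : S_INT) : S_COMP := by
  intro n k N hk1 hkn hN q p hq hp hs ρ σ hρ hσ hvol hsec
  have hk0 : (0 : ℝ) < k := by exact_mod_cast (by omega : 0 < k)
  have hn0 : (0 : ℝ) < n := by exact_mod_cast (by omega : 0 < n)
  have hm0 : (0 : ℝ) < ((n - k : ℕ) : ℝ) := by exact_mod_cast (by omega : 0 < n - k)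
  have hqs := (hSB (n := n) (k := k) hkn.le (by omega) ρ σ hρ hσ).1
  have hps := (hSB (n := n) (k := k) hkn.le (by omega) σ ρ hσ hρ).1
  have l1 := COMPaux.lim hFI hJF hGC hGA hLOG hINT hk1 hkn hN q p hq hp hs
  have l2 := COMPaux.lim hFI hJF hGC hGA hLOG hINT hk1 hkn hN _ _ hqs hps hsec
  have h := le_of_tendsto_of_tendsto l1 l2 (by
    filter_upwards [eventually_gt_atTop 1] with R hR
    have hlog : 0 < Real.log R := Real.log_pos hR
    apply mul_le_mul_of_nonneg_left _ (inv_nonneg.2 hlog.le)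
    have hc := hJC (N := N) (by omega : 1 ≤ n - k) (by omega) q hq ρ hρ hvol (Real.pi * R ^ 2)
      (by positivity)
    have hRn : 0 ≤ R ^ n := by positivity
    have h2 := mul_le_mul_of_nonneg_left hc hRn
    rw [← integral_const_mul, ← integral_const_mul] at h2
    refine le_trans (le_of_eq ?_) (h2.trans (le_of_eq ?_))
    · congr 1
      ext x
      ring
    · congr 1
      ext x
      ring)
  have hpos : 0 < (((n - k : ℕ) : ℝ) / k) ^ N := by positivity
  have h3 := le_of_mul_le_mul_left h hpos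
  exact le_of_mul_le_mul_left h3 hn0

end Pool.Agent.H638.KI
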