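import Pool.Agent.H638.KI.Defs

/-! CONV (project KI, MP_7548d4_gt): convolution of a symmetric decreasing function with an
interval. Author: helper86. -/

set_option autoImplicit false

open MeasureTheory Set Filter Topology Metric
open scoped Pointwise RealInnerProductSpace ENNReal

namespace Pool.Agent.H638.KI

open Pool.Agent.H638.IB (E mk)

namespace CONVaux

theorem int_all {φ : ℝ → ℝ} (h : Continuous φ) (a b : ℝ) : IntervalIntegrable φ volume a b :=
  h.intervalIntegrable a b

theorem hasDeriv {φ : ℝ → ℝ} (h : Continuous φ) (l x : ℝ) :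
    HasDerivAt (fun x => ∫ t in (x - l)..(x + l), φ t) (φ (x + l) - φ (x - l)) x := by
  have hF : ∀ y : ℝ, HasDerivAt (fun u => ∫ t in (0 : ℝ)..u, φ t) (φ y) y := fun y =>
    intervalIntegral.integral_hasDerivAt_right (int_all h _ _)
      (h.stronglyMeasurableAtFilter _ _) h.continuousAt
  have e : (fun x => ∫ t in (x - l)..(x + l), φ t) =
      fun x => (∫ t in (0 : ℝ)..(x + l), φ t) - ∫ t in (0 : ℝ)..(x - l), φ t := by
    funext y
    rw [intervalIntegral.integral_interval_sub_left (int_all h _ _) (int_all h _ _)]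
  rw [e]
  have h1 : HasDerivAt (fun x => ∫ t in (0 : ℝ)..(x + l), φ t) (φ (x + l)) x := by
    exact (hF (x + l)).comp_add_const x l
  have h2 : HasDerivAt (fun x => ∫ t in (0 : ℝ)..(x - l), φ t) (φ (x - l)) x := by
    exact (hF (x - l)).comp_sub_const x l
  exact h1.sub h2

theorem abs_eq {φ : ℝ → ℝ} (h : SD φ) (x : ℝ) : φ x = φ |x| := by
  rcases le_total 0 x with hx | hx
  · rw [abs_of_nonneg hx]
  · rw [abs_of_nonpos hx, h.even]

end CONVaux

open CONVaux

theorem CONV_ok : S_CONV := by
  intro φ h l hl
  have hd := fun x => hasDeriv h.cont l x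
  refine ⟨?_, ?_, ?_, ?_⟩
  · exact continuous_iff_continuousAt.2 fun x => (hd x).continuousAt
  · intro x
    exact intervalIntegral.integral_nonneg (by linarith) fun t _ => h.nonneg t
  · intro x
    have h1 : ∫ t in (-x - l)..(-x + l), φ t = ∫ t in (-x - l)..(-x + l), φ (-t) := by
      simp only [h.even]
    show ∫ t in (-x - l)..(-x + l), φ t = ∫ t in (x - l)..(x + l), φ t
    rw [h1, intervalIntegral.integral_comp_neg]
    congr 1 <;> ring
  · refine antitoneOn_of_deriv_nonpos (convex_Ici 0)
      (continuous_iff_continuousAt.2 fun x => (hd x).continuousAt).continuousOn ?_ ?_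
    · intro x _
      exact (hd x).differentiableAt.differentiableWithinAt
    · intro x hx
      rw [interior_Ici] at hx
      have hx0 : (0 : ℝ) < x := hx
      rw [(hd x).deriv, abs_eq h (x - l)]
      have : φ (x + l) ≤ φ |x - l| := by
        refine h.anti (mem_Ici.2 (abs_nonneg _)) (mem_Ici.2 (by linarith)) ?_
        rw [abs_le]
        constructor <;> linarith
      linarith

end Pool.Agent.H638.KI
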