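import Pool.Agent.H638.KI.Defs

/-! Task DET: determinants of a map preserving a subspace. -/

set_option autoImplicit false

open MeasureTheory Set Filter Topology Metric
open scoped Pointwise RealInnerProductSpace ENNReal

namespace Pool.Agent.H638.KI

open Pool.Agent.H638.IB (E mk)

namespace DETaux

theorem det_adj {V : Type*} [NormedAddCommGroup V] [InnerProductSpace ℝ V]
    [FiniteDimensional ℝ V] (f : V →ₗ[ℝ] V) :
    LinearMap.det (LinearMap.adjoint f) = LinearMap.det f := by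
  rw [← LinearMap.det_toMatrix (stdOrthonormalBasis ℝ V).toBasis (LinearMap.adjoint f),
    LinearMap.toMatrix_adjoint, Matrix.det_conjTranspose, LinearMap.det_toMatrix]
  exact star_trivial _

end DETaux

open DETaux in
/-- DET -/
theorem DET_ok : S_DET := by
  intro n H R R1 R2 h1 h2
  set A : E n →ₗ[ℝ] E n := LinearMap.adjoint (R.symm : E n →ₗ[ℝ] E n) with hA
  have hAin : ∀ x y : E n, ⟪A x, y⟫ = ⟪x, R.symm y⟫ := fun x y => by
    rw [hA, LinearMap.adjoint_inner_left]
    rfl
  -- the determinant of `A`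
  have hdetA : LinearMap.det A * LinearMap.det (R : E n →ₗ[ℝ] E n) = 1 := by
    rw [hA, det_adj, ← LinearMap.det_comp]
    have h3 : (R.symm : E n →ₗ[ℝ] E n) ∘ₗ (R : E n →ₗ[ℝ] E n) = LinearMap.id := by
      ext x
      simp
    rw [h3, LinearMap.det_id]
  have hle : Hᗮ ≤ Hᗮ.comap A := by
    intro w hw
    rw [Submodule.mem_comap, ← h2 ⟨w, hw⟩]
    exact (R2 ⟨w, hw⟩).2
  have hsplit := LinearMap.det_eq_det_mul_det Hᗮ A hle
  have hres : A.restrict hle = R2 := by
    ext w
    rw [LinearMap.restrict_coe_apply, h2 w]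
  rw [hres] at hsplit
  have hc : IsCompl Hᗮ H := (Submodule.isCompl_orthogonal_of_hasOrthogonalProjection (K := H)).symm
  set e := Submodule.quotientEquivOfIsCompl Hᗮ H hc with he
  set Q : H →ₗ[ℝ] H := (e : (E n ⧸ Hᗮ) →ₗ[ℝ] H) ∘ₗ Hᗮ.mapQ Hᗮ A hle ∘ₗ
    (e.symm : H →ₗ[ℝ] (E n ⧸ Hᗮ)) with hQ
  have hdetQ : LinearMap.det Q = LinearMap.det (Hᗮ.mapQ Hᗮ A hle) := by
    rw [hQ]
    exact LinearMap.det_conj _ e
  have hQin : ∀ v v' : H, ⟪(Q v : E n), (v' : E n)⟫ = ⟪A v, (v' : E n)⟫ := by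
    intro v v'
    have h3 : Q v = e (Submodule.Quotient.mk (A v)) := by
      rw [hQ]
      simp only [LinearMap.comp_apply, LinearEquiv.coe_coe]
      rw [he, Submodule.quotientEquivOfIsCompl_symm_apply, Submodule.mapQ_apply]
    have h4 : Submodule.Quotient.mk (p := Hᗮ) ((Q v : H) : E n) =
        Submodule.Quotient.mk (A v) := by
      rw [h3, he, Submodule.mk_quotientEquivOfIsCompl_apply]
    rw [Submodule.Quotient.eq] at h4
    have h5 : ⟪((Q v : H) : E n) - A v, (v' : E n)⟫ = 0 := by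
      rw [real_inner_comm]
      exact (Submodule.mem_orthogonal _ _).1 h4 _ v'.2
    rw [inner_sub_left] at h5
    linarith
  have hcomp : LinearMap.adjoint R1 ∘ₗ Q = LinearMap.id := by
    ext1 v
    refine ext_inner_right ℝ fun v' => ?_
    rw [LinearMap.comp_apply, LinearMap.adjoint_inner_left, LinearMap.id_apply]
    have h3 : ⟪Q v, R1 v'⟫ = ⟪((Q v : H) : E n), ((R1 v' : H) : E n)⟫ := rfl
    rw [h3, hQin, hAin, h1 v', R.symm_apply_apply]
    rfl
  have hdet1 : LinearMap.det R1 * LinearMap.det Q = 1 := by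
    rw [← det_adj R1, ← LinearMap.det_comp, hcomp, LinearMap.det_id]
  rw [← hdetQ] at hsplit
  set r := LinearMap.det (R : E n →ₗ[ℝ] E n)
  set r1 := LinearMap.det R1
  set r2 := LinearMap.det R2
  set q := LinearMap.det Q
  have h6 : r * r2 = r1 := by
    calc r * r2 = r * r2 * (r1 * q) := by rw [hdet1, mul_one]
      _ = r1 * (r2 * q) * r := by ring
      _ = r1 * (LinearMap.det A * r) := by rw [← hsplit]; ring
      _ = r1 := by rw [hdetA, mul_one]
  rw [← abs_mul, h6]

end Pool.Agent.H638.KI
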