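import Pool.Agent.H638.KI.Defs

/-! Task FI: the Fourier identity. -/

set_option autoImplicit false

open MeasureTheory Set Filter Topology Metric
open scoped Pointwise RealInnerProductSpace ENNReal

namespace Pool.Agent.H638.KI

open Pool.Agent.H638.IB (E mk)

namespace FIaux

/-- the pushforward of `w z dz` under `z ↦ ⟪y, z⟫` -/
noncomputable def pf {n : ℕ} (w : E n → ℝ) (y : E n) : Measure ℝ :=
  Measure.map (fun z : E n => ⟪y, z⟫) ((volume : Measure (E n)).withDensity fun z =>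
    ENNReal.ofReal (w z))

lemma meas_in {n : ℕ} (y : E n) : Measurable (fun z : E n => ⟪y, z⟫) :=
  (continuous_const.inner continuous_id).measurable

lemma pf_fin {n : ℕ} (w : E n → ℝ) (y : E n) (hi : Integrable w) : IsFiniteMeasure (pf w y) := by
  have := isFiniteMeasure_withDensity_ofReal hi.2
  unfold pf
  infer_instance

lemma pf_int {n : ℕ} (w : E n → ℝ) (y : E n) (hm : Measurable w) (hw : ∀ z, 0 ≤ w z)
    (f : ℝ → ℝ) (hf : Measurable f) :
    ∫ u, f u ∂(pf w y) = ∫ z : E n, w z * f ⟪y, z⟫ := by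
  unfold pf
  rw [integral_map (meas_in y).aemeasurable hf.aestronglyMeasurable,
    integral_withDensity_eq_integral_toReal_smul hm.ennreal_ofReal
      (Filter.Eventually.of_forall fun z => ENNReal.ofReal_lt_top)]
  refine integral_congr_ae (Filter.Eventually.of_forall fun z => ?_)
  simp only [smul_eq_mul, ENNReal.toReal_ofReal (hw z)]

lemma pf_integrable {n : ℕ} (w : E n → ℝ) (y : E n) (hm : Measurable w) (hw : ∀ z, 0 ≤ w z)
    (f : ℝ → ℝ) (hf : Measurable f) (hi : Integrable (fun z : E n => w z * f ⟪y, z⟫)) :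
    Integrable f (pf w y) := by
  unfold pf
  rw [integrable_map_measure hf.aestronglyMeasurable (meas_in y).aemeasurable,
    integrable_withDensity_iff_integrable_smul' hm.ennreal_ofReal
      (Filter.Eventually.of_forall fun z => ENNReal.ofReal_lt_top)]
  refine hi.congr (Filter.Eventually.of_forall fun z => ?_)
  simp only [smul_eq_mul, ENNReal.toReal_ofReal (hw z), Function.comp]

variable {n a : ℕ} {p : E n → ℝ}

/-- the weight -/
noncomputable def wt (p : E n → ℝ) (a : ℕ) (z : E n) : ℝ := (p z ^ a)⁻¹ * gs z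

lemma gs_cont : Continuous (gs : E n → ℝ) := by
  unfold gs
  fun_prop

lemma gs_pos (z : E n) : 0 < gs z := Real.exp_pos _

lemma wt_meas (hp : SN p) (a : ℕ) : Measurable (wt p a) :=
  ((hp.cont.pow a).measurable.inv).mul gs_cont.measurable

lemma wt_nonneg (hLB : S_LB) (hp : SN p) (a : ℕ) (z : E n) : 0 ≤ wt p a z :=
  mul_nonneg (inv_nonneg.mpr (pow_nonneg ((hLB p hp).2.1 z) a)) (gs_pos z).le

lemma wt_int (hINT : S_INT) (hp : SN p) (ha : a < n) : Integrable (wt p a) := by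
  refine (hINT p hp ha Real.pi 0 Real.pi_pos).congr (Filter.Eventually.of_forall fun z => ?_)
  simp only [wt, gs, zero_mul, add_zero]

/-- domination -/
lemma wt_mul_int (hLB : S_LB) (hINT : S_INT) (hp : SN p) (ha : a < n) (f : E n → ℝ)
    (hf : Measurable f) (ε b : ℝ) (hε : 0 < ε)
    (hb : ∀ z, |gs z * f z| ≤ Real.exp (-(ε * ‖z‖ ^ 2) + b * ‖z‖)) :
    Integrable (fun z => wt p a z * f z) := by
  refine (hINT p hp ha ε b hε).mono' ((wt_meas hp a).mul hf).aestronglyMeasurable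
    (Filter.Eventually.of_forall fun z => ?_)
  have h0 : 0 ≤ (p z ^ a)⁻¹ := inv_nonneg.mpr (pow_nonneg ((hLB p hp).2.1 z) a)
  rw [wt, mul_assoc, Real.norm_eq_abs, abs_mul, abs_of_nonneg h0]
  exact mul_le_mul_of_nonneg_left (hb z) h0

lemma exp_sq_int (hLB : S_LB) (hINT : S_INT) (hp : SN p) (ha : a < n) (y : E n) (δ : ℝ)
    (hδ : 0 < δ) (hδ2 : δ * ‖y‖ ^ 2 < Real.pi) :
    Integrable (fun z => wt p a z * Real.exp (δ * ⟪y, z⟫ ^ 2)) := by
  refine wt_mul_int hLB hINT hp ha _ (by fun_prop) (Real.pi - δ * ‖y‖ ^ 2) 0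
    (by linarith) fun z => ?_
  rw [gs, ← Real.exp_add, abs_of_pos (Real.exp_pos _)]
  apply Real.exp_le_exp.mpr
  have h1 : ⟪y, z⟫ ^ 2 ≤ (‖y‖ * ‖z‖) ^ 2 := by
    rw [← sq_abs ⟪y, z⟫]
    exact pow_le_pow_left₀ (abs_nonneg _) (abs_real_inner_le_norm y z) 2
  have h2 := mul_le_mul_of_nonneg_left h1 hδ.le
  have h3 : δ * (‖y‖ * ‖z‖) ^ 2 = δ * ‖y‖ ^ 2 * ‖z‖ ^ 2 := by ring
  rw [h3] at h2
  have h4 : -((Real.pi - δ * ‖y‖ ^ 2) * ‖z‖ ^ 2) + 0 * ‖z‖ =
    -(Real.pi * ‖z‖ ^ 2) + δ * ‖y‖ ^ 2 * ‖z‖ ^ 2 := by ring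
  rw [h4]
  linarith

lemma exp_int (hLB : S_LB) (hINT : S_INT) (hp : SN p) (ha : a < n) (y : E n) (c : ℝ) :
    Integrable (fun z => wt p a z * Real.exp (c * ⟪y, z⟫)) := by
  refine wt_mul_int hLB hINT hp ha _ (by fun_prop) Real.pi (|c| * ‖y‖) Real.pi_pos fun z => ?_
  rw [gs, ← Real.exp_add, abs_of_pos (Real.exp_pos _)]
  apply Real.exp_le_exp.mpr
  have h1 : c * ⟪y, z⟫ ≤ |c| * (‖y‖ * ‖z‖) := by
    calc c * ⟪y, z⟫ ≤ |c * ⟪y, z⟫| := le_abs_self _
      _ = |c| * |⟪y, z⟫| := abs_mul _ _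
      _ ≤ |c| * (‖y‖ * ‖z‖) :=
        mul_le_mul_of_nonneg_left (abs_real_inner_le_norm y z) (abs_nonneg c)
  have h2 : |c| * ‖y‖ * ‖z‖ = |c| * (‖y‖ * ‖z‖) := by ring
  rw [h2]
  linarith

lemma wt_neg (hp : SN p) (a : ℕ) (z : E n) : wt p a (-z) = wt p a z := by
  have h := hp.hom (-1) z
  rw [neg_one_smul, abs_neg, abs_one, one_mul] at h
  simp only [wt, gs, h, norm_neg]

/-- `cosh` can be replaced by `exp` -/
lemma cosh_eq (hLB : S_LB) (hINT : S_INT) (hp : SN p) (ha : a < n) (y : E n) :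
    ∫ z : E n, wt p a z * Real.cosh (2 * Real.pi * ⟪y, z⟫) =
      ∫ z : E n, wt p a z * Real.exp (2 * Real.pi * ⟪y, z⟫) := by
  have h1 : ∫ z : E n, wt p a z * Real.exp (-(2 * Real.pi) * ⟪y, z⟫) =
      ∫ z : E n, wt p a z * Real.exp (2 * Real.pi * ⟪y, z⟫) := by
    rw [← integral_neg_eq_self]
    refine integral_congr_ae (Filter.Eventually.of_forall fun z => ?_)
    simp only [wt_neg hp, inner_neg_right]
    ring_nf
  have h2 : ∀ z : E n, wt p a z * Real.cosh (2 * Real.pi * ⟪y, z⟫) =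
      (1 / 2) * (wt p a z * Real.exp (2 * Real.pi * ⟪y, z⟫)) +
        (1 / 2) * (wt p a z * Real.exp (-(2 * Real.pi) * ⟪y, z⟫)) := by
    intro z
    rw [Real.cosh_eq]
    ring_nf
  simp only [h2]
  rw [integral_add ((exp_int hLB hINT hp ha y _).const_mul _)
    ((exp_int hLB hINT hp ha y _).const_mul _), integral_const_mul, integral_const_mul, h1]
  ring

lemma G1_eq (p : E n → ℝ) (k : ℕ) (y : E n) :
    G1 p k y = Real.exp (-(Real.pi * ‖y‖ ^ 2)) *
      ∫ z : E n, wt p k z * Real.exp (2 * Real.pi * ⟪y, z⟫) := by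
  rw [G1, ← integral_const_mul]
  refine integral_congr_ae (Filter.Eventually.of_forall fun z => ?_)
  simp only [wt, gs]
  have h : Real.exp (-(Real.pi * ‖z - y‖ ^ 2)) = Real.exp (-(Real.pi * ‖y‖ ^ 2)) *
      (Real.exp (-(Real.pi * ‖z‖ ^ 2)) * Real.exp (2 * Real.pi * ⟪y, z⟫)) := by
    rw [← Real.exp_add, ← Real.exp_add, norm_sub_sq_real, real_inner_comm]
    ring_nf
  rw [h]
  ring

end FIaux

open FIaux in
theorem FI_ok (hGIS : S_GIS) (hPS : S_PS) (hINT : S_INT) (hLB : S_LB) : S_FI := by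
  intro n k q p hq hp hk hkn hsec y
  have hnk : n - k < n := by omega
  set a : ℝ := ‖y‖ ^ 2 with ha
  have ha0 : 0 ≤ a := by positivity
  set δ : ℝ := Real.pi / (2 * (a + 1)) with hδ
  have hδ0 : 0 < δ := by positivity
  have hδ1 : δ * ‖y‖ ^ 2 < Real.pi := by
    rw [← ha, hδ, div_mul_eq_mul_div, div_lt_iff₀ (by positivity)]
    have := Real.pi_pos
    nlinarith
  have hk0 : ((n - k : ℕ) : ℝ) ≠ 0 := by
    have : n - k ≠ 0 := by omega
    exact_mod_cast this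
  have hμ := pf_fin (wt p k) y (wt_int hINT hp hkn)
  have hν := pf_fin (wt q (n - k)) y (wt_int hINT hq hnk)
  have h := hPS (pf (wt p k) y) (pf (wt q (n - k)) y) hμ hν a ((k : ℝ) / ((n - k : ℕ) : ℝ)) δ
    ha0 hδ0
    (pf_integrable _ y (wt_meas hp k) (wt_nonneg hLB hp k) _ (by fun_prop)
      (exp_sq_int hLB hINT hp hkn y δ hδ0 hδ1))
    (pf_integrable _ y (wt_meas hq _) (wt_nonneg hLB hq _) _ (by fun_prop)
      (exp_sq_int hLB hINT hq hnk y δ hδ0 hδ1))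
    (by
      intro s _ hs
      rw [pf_int _ y (wt_meas hp k) (wt_nonneg hLB hp k) _ (by fun_prop),
        pf_int _ y (wt_meas hq _) (wt_nonneg hLB hq _) _ (by fun_prop)]
      have h1 := hGIS q p hq hp hk hkn hsec y s hs
      rw [div_mul_eq_mul_div, eq_div_iff hk0, mul_comm]
      exact h1)
  rw [pf_int _ y (wt_meas hp k) (wt_nonneg hLB hp k) _ (by fun_prop),
    pf_int _ y (wt_meas hq _) (wt_nonneg hLB hq _) _ (by fun_prop),
    cosh_eq hLB hINT hp hkn] at h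
  rw [G1_eq, h, F1]
  have h2 : ∀ x : E n, (q x ^ (n - k))⁻¹ * gs x * Real.cos (2 * Real.pi * ⟪x, y⟫) =
      wt q (n - k) x * Real.cos (2 * Real.pi * ⟪y, x⟫) := by
    intro x
    rw [wt, real_inner_comm]
  simp only [h2]
  have h3 : Real.exp (-(Real.pi * a)) * Real.exp (Real.pi * a) = 1 := by
    rw [← Real.exp_add]
    simp
  calc ((n - k : ℕ) : ℝ) * (Real.exp (-(Real.pi * a)) * ((k : ℝ) / ((n - k : ℕ) : ℝ) *
      (Real.exp (Real.pi * a) * ∫ x, wt q (n - k) x * Real.cos (2 * Real.pi * ⟪y, x⟫))))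
      = (Real.exp (-(Real.pi * a)) * Real.exp (Real.pi * a)) *
        (((n - k : ℕ) : ℝ) * ((k : ℝ) / ((n - k : ℕ) : ℝ))) *
        ∫ x, wt q (n - k) x * Real.cos (2 * Real.pi * ⟪y, x⟫) := by ring
    _ = (k : ℝ) * ∫ x, wt q (n - k) x * Real.cos (2 * Real.pi * ⟪y, x⟫) := by
      rw [h3, mul_div_cancel₀ _ hk0, one_mul]

end Pool.Agent.H638.KI
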