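import Pool.Agent.H638.KI.Defs

/-! GA: asymptotics of `G1` at infinity. -/

set_option autoImplicit false

open MeasureTheory Set Filter Topology Metric
open scoped Pointwise RealInnerProductSpace ENNReal

namespace Pool.Agent.H638.KI

open Pool.Agent.H638.IB (E mk)

namespace GAaux

variable {n : ℕ}

instance cocompact_cg : IsCountablyGenerated (cocompact (E n)) := by
  rw [← Metric.cobounded_eq_cocompact, ← comap_norm_atTop]
  infer_instance

/-- the quotient `p (y + w) / p y` tends to `1` -/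
theorem ratio_tendsto {p : E n → ℝ} (hp : SN p) {c : ℝ} (hc : 0 < c)
    (hlow : ∀ x, c * ‖x‖ ≤ p x) (w : E n) :
    Tendsto (fun y => p (y + w) / p y) (cocompact (E n)) (𝓝 1) := by
  rw [Metric.tendsto_nhds]
  intro ε hε
  have huc : UniformContinuousOn p (closedBall (0 : E n) 2) :=
    (isCompact_closedBall (0 : E n) 2).uniformContinuousOn_of_continuous hp.cont.continuousOn
  rw [Metric.uniformContinuousOn_iff] at huc
  obtain ⟨η, hη, hη2⟩ := huc (ε * c) (mul_pos hε hc)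
  have h1 : ∀ᶠ y in cocompact (E n), ‖w‖ / min η 1 + 1 < ‖y‖ :=
    (tendsto_norm_cocompact_atTop (E := E n)).eventually_gt_atTop _
  filter_upwards [h1] with y hy
  have hm : 0 < min η 1 := lt_min hη one_pos
  have hw0 : 0 ≤ ‖w‖ / min η 1 := div_nonneg (norm_nonneg _) hm.le
  have hy0 : 0 < ‖y‖ := by linarith
  have hyn : y ≠ 0 := norm_pos_iff.1 hy0
  have hwy : ‖w‖ < min η 1 * ‖y‖ := by
    have h2 : ‖w‖ / min η 1 < ‖y‖ := by linarith
    rw [div_lt_iff₀ hm] at h2
    linarith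
  have hwy2 : ‖w‖ / ‖y‖ < min η 1 := by rwa [div_lt_iff₀ hy0]
  have hpy : 0 < p y := hp.pos y hyn
  set θ : E n := ‖y‖⁻¹ • y with hθ
  have hθn : ‖θ‖ = 1 := by
    rw [hθ, norm_smul, norm_inv, norm_norm, inv_mul_cancel₀ hy0.ne']
  have hyθ : y = ‖y‖ • θ := by
    rw [hθ, smul_smul, mul_inv_cancel₀ hy0.ne', one_smul]
  have hyw : y + w = ‖y‖ • (θ + ‖y‖⁻¹ • w) := by
    rw [smul_add, ← hyθ, smul_smul, mul_inv_cancel₀ hy0.ne', one_smul]
  have hnw : ‖‖y‖⁻¹ • w‖ < min η 1 := by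
    rw [norm_smul, norm_inv, norm_norm, inv_mul_eq_div]
    exact hwy2
  have hmem1 : θ ∈ closedBall (0 : E n) 2 := by
    rw [mem_closedBall_zero_iff, hθn]
    norm_num
  have hmem2 : θ + ‖y‖⁻¹ • w ∈ closedBall (0 : E n) 2 := by
    rw [mem_closedBall_zero_iff]
    have h3 := norm_add_le θ (‖y‖⁻¹ • w)
    have h4 := min_le_right η 1
    linarith
  have hd := hη2 _ hmem2 _ hmem1 (by
    rw [dist_eq_norm, add_sub_cancel_left]
    exact lt_of_lt_of_le hnw (min_le_left _ _))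
  rw [Real.dist_eq] at hd ⊢
  have hp1 : p (y + w) = ‖y‖ * p (θ + ‖y‖⁻¹ • w) := by
    rw [hyw, hp.hom, abs_of_pos hy0]
  have hp2 : p y = ‖y‖ * p θ := by
    conv_lhs => rw [hyθ]
    rw [hp.hom, abs_of_pos hy0]
  have hpθ : c ≤ p θ := by
    have := hlow θ
    rwa [hθn, mul_one] at this
  have hpθ0 : 0 < p θ := lt_of_lt_of_le hc hpθ
  have e1 : p (y + w) / p y - 1 = (p (θ + ‖y‖⁻¹ • w) - p θ) / p θ := by
    rw [hp1, hp2]
    field_simp
  rw [e1, abs_div, abs_of_pos hpθ0, div_lt_iff₀ hpθ0]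
  calc |p (θ + ‖y‖⁻¹ • w) - p θ| < ε * c := hd
    _ ≤ ε * p θ := mul_le_mul_of_nonneg_left hpθ hε.le

end GAaux

open GAaux

theorem GA_ok (hLB : S_LB) (hINT : S_INT) : S_GA := by
  intro n k p hp hk
  obtain ⟨hp0, hpn, c, C, hc, hC, hcC⟩ := hLB p hp
  have hlow : ∀ x, c * ‖x‖ ≤ p x := fun x => (hcC x).1
  have hup : ∀ x, p x ≤ C * ‖x‖ := fun x => (hcC x).2
  have hpm : Measurable p := hp.cont.measurable
  -- the integrand
  set H : E n → E n → ℝ := fun y z =>
    (p z ^ k)⁻¹ * Real.exp (-(Real.pi * ‖z - y‖ ^ 2)) * p y ^ k with hH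
  have hH0 : ∀ y z, 0 ≤ H y z := fun y z =>
    mul_nonneg (mul_nonneg (inv_nonneg.2 (pow_nonneg (hpn z) k)) (Real.exp_pos _).le)
      (pow_nonneg (hpn y) k)
  have hHm : ∀ y, Measurable (H y) := by
    intro y
    simp only [hH]
    refine Measurable.mul_const (Measurable.mul (hpm.pow_const k).inv ?_) _
    exact (Continuous.measurable (by fun_prop))
  have hHi : ∀ y, Integrable (H y) := by
    intro y
    have h1 := (hINT p hp hk Real.pi (2 * Real.pi * ‖y‖) Real.pi_pos).mul_const (p y ^ k)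
    refine h1.mono' (hHm y).aestronglyMeasurable (Eventually.of_forall fun z => ?_)
    rw [Real.norm_of_nonneg (hH0 y z)]
    simp only [hH]
    refine mul_le_mul_of_nonneg_right (mul_le_mul_of_nonneg_left (Real.exp_le_exp.2 ?_)
      (inv_nonneg.2 (pow_nonneg (hpn z) k))) (pow_nonneg (hpn y) k)
    have h2 : (‖z‖ - ‖y‖) ^ 2 ≤ ‖z - y‖ ^ 2 := by
      rw [sq_le_sq, abs_of_nonneg (norm_nonneg (z - y))]
      exact abs_norm_sub_norm_le z y
    have h3 := mul_le_mul_of_nonneg_left h2 Real.pi_pos.le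
    have h4 : 0 ≤ Real.pi * ‖y‖ ^ 2 := mul_nonneg Real.pi_pos.le (sq_nonneg _)
    nlinarith
  have hG : ∀ y, G1 p k y * p y ^ k = ∫ z, H y z := by
    intro y
    rw [G1, ← integral_mul_const]
  -- the two parts
  have hAm : ∀ y : E n, MeasurableSet {z : E n | ‖z‖ ≤ ‖y‖ / 2} := fun y =>
    measurableSet_le measurable_norm measurable_const
  have hsplit : ∀ y, G1 p k y * p y ^ k =
      (∫ z in {z : E n | ‖z‖ ≤ ‖y‖ / 2}, H y z) +
        ∫ w, ({z : E n | ‖z‖ ≤ ‖y‖ / 2}ᶜ).indicator (H y) (w + y) := by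
    intro y
    rw [hG, ← integral_add_compl (hAm y) (hHi y)]
    congr 1
    rw [integral_add_right_eq_self (fun w => ({z : E n | ‖z‖ ≤ ‖y‖ / 2}ᶜ).indicator (H y) w) y,
      integral_indicator (hAm y).compl]
  -- part A
  have hA : Tendsto (fun y => ∫ z in {z : E n | ‖z‖ ≤ ‖y‖ / 2}, H y z) (cocompact (E n))
      (𝓝 0) := by
    set I : ℝ := ∫ z : E n, (p z ^ k)⁻¹ * Real.exp (-(Real.pi / 2 * ‖z‖ ^ 2) + 0 * ‖z‖) with hI
    have hInt := hINT p hp hk (Real.pi / 2) 0 (by positivity)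
    have hlim : Tendsto (fun y : E n => C ^ k * (‖y‖ ^ k * Real.exp (-‖y‖)) * I)
        (cocompact (E n)) (𝓝 0) := by
      have h1 := (Real.tendsto_pow_mul_exp_neg_atTop_nhds_zero k).comp
        (tendsto_norm_cocompact_atTop (E := E n))
      have h2 := (h1.const_mul (C ^ k)).mul_const I
      simpa using h2
    refine squeeze_zero' (Eventually.of_forall fun y => ?_) ?_ hlim
    · exact integral_nonneg fun z => hH0 y z
    · have h8 : ∀ᶠ y in cocompact (E n), 8 / Real.pi < ‖y‖ :=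
        (tendsto_norm_cocompact_atTop (E := E n)).eventually_gt_atTop _
      filter_upwards [h8] with y hy
      have hy1 : ‖y‖ ≤ Real.pi * ‖y‖ ^ 2 / 8 := by
        rw [div_lt_iff₀ Real.pi_pos] at hy
        have h9 := mul_le_mul_of_nonneg_left hy.le (norm_nonneg y)
        nlinarith
      have hpt : ∀ z ∈ {z : E n | ‖z‖ ≤ ‖y‖ / 2}, H y z ≤
          C ^ k * (‖y‖ ^ k * Real.exp (-‖y‖)) *
            ((p z ^ k)⁻¹ * Real.exp (-(Real.pi / 2 * ‖z‖ ^ 2) + 0 * ‖z‖)) := by
        intro z hz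
        have hz' : ‖z‖ ≤ ‖y‖ / 2 := hz
        have h10 : ‖y‖ / 2 ≤ ‖z - y‖ := by
          have := norm_sub_norm_le y z
          rw [norm_sub_rev] at this
          linarith
        have h11 : (‖y‖ / 2) ^ 2 ≤ ‖z - y‖ ^ 2 := pow_le_pow_left₀ (by positivity) h10 2
        have h12 : ‖z‖ ^ 2 ≤ (‖y‖ / 2) ^ 2 := pow_le_pow_left₀ (norm_nonneg _) hz' 2
        have h13 : ‖y‖ ^ 2 / 8 + ‖z‖ ^ 2 / 2 ≤ ‖z - y‖ ^ 2 := by nlinarith
        have h14 : Real.exp (-(Real.pi * ‖z - y‖ ^ 2)) ≤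
            Real.exp (-‖y‖) * Real.exp (-(Real.pi / 2 * ‖z‖ ^ 2) + 0 * ‖z‖) := by
          rw [← Real.exp_add]
          refine Real.exp_le_exp.2 ?_
          have h15 := mul_le_mul_of_nonneg_left h13 Real.pi_pos.le
          nlinarith
        have h16 : p y ^ k ≤ C ^ k * ‖y‖ ^ k := by
          rw [← mul_pow]
          exact pow_le_pow_left₀ (hpn y) (hup y) k
        have h17 : 0 ≤ (p z ^ k)⁻¹ := inv_nonneg.2 (pow_nonneg (hpn z) k)
        calc H y z = (p z ^ k)⁻¹ * Real.exp (-(Real.pi * ‖z - y‖ ^ 2)) * p y ^ k := rfl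
          _ ≤ (p z ^ k)⁻¹ * (Real.exp (-‖y‖) * Real.exp (-(Real.pi / 2 * ‖z‖ ^ 2) + 0 * ‖z‖)) *
              (C ^ k * ‖y‖ ^ k) := by
            refine mul_le_mul (mul_le_mul_of_nonneg_left h14 h17) h16 (pow_nonneg (hpn y) k) ?_
            positivity
          _ = _ := by ring
      calc (∫ z in {z : E n | ‖z‖ ≤ ‖y‖ / 2}, H y z)
          ≤ ∫ z in {z : E n | ‖z‖ ≤ ‖y‖ / 2}, C ^ k * (‖y‖ ^ k * Real.exp (-‖y‖)) *
            ((p z ^ k)⁻¹ * Real.exp (-(Real.pi / 2 * ‖z‖ ^ 2) + 0 * ‖z‖)) :=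
            setIntegral_mono_on (hHi y).integrableOn (hInt.const_mul _).integrableOn (hAm y) hpt
        _ ≤ ∫ z, C ^ k * (‖y‖ ^ k * Real.exp (-‖y‖)) *
            ((p z ^ k)⁻¹ * Real.exp (-(Real.pi / 2 * ‖z‖ ^ 2) + 0 * ‖z‖)) := by
            refine setIntegral_le_integral (hInt.const_mul _) (Eventually.of_forall fun z => ?_)
            have h17 : 0 ≤ (p z ^ k)⁻¹ := inv_nonneg.2 (pow_nonneg (hpn z) k)
            show 0 ≤ C ^ k * (‖y‖ ^ k * Real.exp (-‖y‖)) *
              ((p z ^ k)⁻¹ * Real.exp (-(Real.pi / 2 * ‖z‖ ^ 2) + 0 * ‖z‖))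
            positivity
        _ = C ^ k * (‖y‖ ^ k * Real.exp (-‖y‖)) * I := by rw [integral_const_mul]
  -- part B
  have hone : ∫ w : E n, Real.exp (-(Real.pi * ‖w‖ ^ 2)) = 1 := by
    have h1 := GaussianFourier.integral_rexp_neg_mul_sq_norm (V := E n) Real.pi_pos
    rw [div_self Real.pi_ne_zero, Real.one_rpow] at h1
    rw [← h1]
    congr 1
    ext w
    rw [neg_mul]
  have hgi : Integrable (fun w : E n => Real.exp (-(Real.pi * ‖w‖ ^ 2))) := by
    by_contra h
    rw [integral_undef h] at hone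
    exact zero_ne_one hone
  have hB : Tendsto (fun y => ∫ w, ({z : E n | ‖z‖ ≤ ‖y‖ / 2}ᶜ).indicator (H y) (w + y))
      (cocompact (E n)) (𝓝 1) := by
    rw [← hone]
    refine tendsto_integral_filter_of_dominated_convergence
      (fun w => (2 * C / c) ^ k * Real.exp (-(Real.pi * ‖w‖ ^ 2))) ?_ ?_
      (hgi.const_mul _) ?_
    · refine Eventually.of_forall fun y => ?_
      exact (((hHm y).indicator (hAm y).compl).comp
        (measurable_id.add_const y)).aestronglyMeasurable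
    · refine Eventually.of_forall fun y => Eventually.of_forall fun w => ?_
      by_cases hw : w + y ∈ {z : E n | ‖z‖ ≤ ‖y‖ / 2}
      · rw [Set.indicator_of_notMem (by simpa using hw), norm_zero]
        positivity
      · rw [Set.indicator_of_mem (by simpa using hw), Real.norm_of_nonneg (hH0 _ _)]
        have hw' : ‖y‖ / 2 < ‖w + y‖ := by simpa using hw
        have h1 : 0 < ‖w + y‖ := lt_of_le_of_lt (by positivity) hw'
        have h2 : 0 < p (w + y) := lt_of_lt_of_le (mul_pos hc h1) (hlow _)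
        have h3 : p y ≤ 2 * C / c * p (w + y) := by
          have h4 := hlow (w + y)
          have h5 := hup y
          rw [div_mul_eq_mul_div, le_div_iff₀ hc]
          have h6 : p y * c ≤ C * ‖y‖ * c := mul_le_mul_of_nonneg_right h5 hc.le
          have h7 : C * (c * ‖w + y‖) ≤ C * p (w + y) := mul_le_mul_of_nonneg_left h4 hC.le
          have h8 : C * c * (‖y‖ / 2) ≤ C * c * ‖w + y‖ :=
            mul_le_mul_of_nonneg_left hw'.le (mul_pos hC hc).le
          nlinarith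
        have h9 : p y ^ k ≤ (2 * C / c) ^ k * p (w + y) ^ k := by
          rw [← mul_pow]
          exact pow_le_pow_left₀ (hpn y) h3 k
        have h10 : 0 < p (w + y) ^ k := pow_pos h2 k
        calc H y (w + y) = (p (w + y) ^ k)⁻¹ * p y ^ k * Real.exp (-(Real.pi * ‖w‖ ^ 2)) := by
              simp only [hH, add_sub_cancel_right]
              ring
          _ ≤ (2 * C / c) ^ k * Real.exp (-(Real.pi * ‖w‖ ^ 2)) := by
              refine mul_le_mul_of_nonneg_right ?_ (Real.exp_pos _).le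
              rw [inv_mul_le_iff₀ h10, mul_comm]
              exact h9
    · refine Eventually.of_forall fun w => ?_
      have h1 : Tendsto (fun y => ((p (y + w) / p y) ^ k)⁻¹ * Real.exp (-(Real.pi * ‖w‖ ^ 2)))
          (cocompact (E n)) (𝓝 (Real.exp (-(Real.pi * ‖w‖ ^ 2)))) := by
        have h2 := (((ratio_tendsto hp hc hlow w).pow k).inv₀ (by simp)).mul_const
          (Real.exp (-(Real.pi * ‖w‖ ^ 2)))
        simpa using h2
      refine h1.congr' ?_
      have h3 : ∀ᶠ y in cocompact (E n), 2 * ‖w‖ < ‖y‖ :=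
        (tendsto_norm_cocompact_atTop (E := E n)).eventually_gt_atTop _
      filter_upwards [h3] with y hy
      have h4 : w + y ∈ {z : E n | ‖z‖ ≤ ‖y‖ / 2}ᶜ := by
        simp only [Set.mem_compl_iff, Set.mem_setOf_eq, not_le]
        have h5 := norm_sub_norm_le y (-w)
        rw [norm_neg, sub_neg_eq_add, add_comm] at h5
        linarith
      rw [Set.indicator_of_mem h4]
      simp only [hH, add_sub_cancel_right, div_pow, inv_div]
      rw [add_comm y w, div_eq_mul_inv]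
      ring
  have hfin := hA.add hB
  rw [zero_add] at hfin
  exact hfin.congr fun y => (hsplit y).symm

end Pool.Agent.H638.KI
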