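import Pool.Agent.H638.KI.Defs

/-! GA1: second moment on the line. -/

set_option autoImplicit false

open MeasureTheory Set Filter Topology Metric
open scoped Pointwise RealInnerProductSpace ENNReal

namespace Pool.Agent.H638.KI

theorem GA1_ok : S_GA1 := by
  intro A D r hD hr0 hrD hA hAD
  have hfinI : volume (Icc (-D) D) ≠ ⊤ := by simp
  have hfin : ∀ S : Set ℝ, S ⊆ Icc (-D) D → volume S ≠ ⊤ :=
    fun S hS => ((measure_mono hS).trans_lt hfinI.lt_top).ne
  have hvolI : (volume (Icc (-D) D)).toReal = 2 * D := by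
    rw [Real.volume_Icc, ENNReal.toReal_ofReal (by linarith)]; ring
  have hle : ∀ S : Set ℝ, S ⊆ Icc (-D) D → (volume S).toReal ≤ 2 * D := by
    intro S hS
    rw [← hvolI]
    exact ENNReal.toReal_mono hfinI (measure_mono hS)
  set l : ℝ := (volume A).toReal / 2 with hl
  have hl0 : 0 ≤ l := by positivity
  have hlD : l ≤ D := by have := hle A hAD; rw [hl]; linarith
  set F : Set ℝ := Ioo (-l) l with hF
  have hFm : MeasurableSet F := measurableSet_Ioo
  have hFD : F ⊆ Icc (-D) D := fun x hx => ⟨by linarith [hx.1], by linarith [hx.2]⟩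
  have hvF : (volume F).toReal = 2 * l := by
    rw [hF, Real.volume_Ioo, ENNReal.toReal_ofReal (by linarith)]; ring
  have hvA : (volume A).toReal = 2 * l := by rw [hl]; ring
  have hint : IntegrableOn (fun t : ℝ => t ^ 2) (Icc (-D) D) :=
    (continuous_pow 2).continuousOn.integrableOn_compact isCompact_Icc
  have hintS : ∀ S : Set ℝ, S ⊆ Icc (-D) D → IntegrableOn (fun t : ℝ => t ^ 2) S :=
    fun S hS => hint.mono_set hS
  -- splitting of measures
  have hsplit : ∀ S T : Set ℝ, S ⊆ Icc (-D) D → MeasurableSet T →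
      (volume S).toReal = (volume (S ∩ T)).toReal + (volume (S \ T)).toReal := by
    intro S T hS hT
    rw [← ENNReal.toReal_add (hfin _ (inter_subset_left.trans hS)) (hfin _ (sdiff_subset.trans hS)),
      measure_inter_add_sdiff S hT]
  set d : ℝ := (volume (A \ F)).toReal with hd
  have hd0 : 0 ≤ d := ENNReal.toReal_nonneg
  have hd' : (volume (F \ A)).toReal = d := by
    have h1 := hsplit A F hAD hFm
    have h2 := hsplit F A hFD hA
    rw [inter_comm] at h2
    linarith
  have hconst : ∀ (S : Set ℝ) (c : ℝ), S ⊆ Icc (-D) D →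
      ∫ _t in S, c = (volume S).toReal * c := by
    intro S c _
    rw [setIntegral_const, smul_eq_mul]; rfl
  have hcint : ∀ (S : Set ℝ) (c : ℝ), S ⊆ Icc (-D) D → IntegrableOn (fun _ : ℝ => c) S :=
    fun S c hS => integrableOn_const (hfin S hS)
  -- upper bound on F \ A
  have hup : ∫ t in F \ A, t ^ 2 ≤ d * l ^ 2 := by
    have hsub : F \ A ⊆ Icc (-D) D := sdiff_subset.trans hFD
    calc ∫ t in F \ A, t ^ 2 ≤ ∫ _t in F \ A, l ^ 2 := by
          refine setIntegral_mono_on (hintS _ hsub) (hcint _ _ hsub) (hFm.diff hA) ?_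
          intro t ht
          have h1 := ht.1.1
          have h2 := ht.1.2
          nlinarith
      _ = d * l ^ 2 := by rw [hconst _ _ hsub, hd']
  -- lower bound on A \ F
  have hlow : d * l ^ 2 + d ^ 3 / 32 ≤ ∫ t in A \ F, t ^ 2 := by
    set J : Set ℝ := Icc (-(l + d / 4)) (l + d / 4) with hJ
    have hJm : MeasurableSet J := measurableSet_Icc
    set S := A \ F with hS
    have hSm : MeasurableSet S := hA.diff hFm
    have hSD : S ⊆ Icc (-D) D := sdiff_subset.trans hAD
    have hx : (volume (S ∩ J)).toReal ≤ d / 2 := by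
      have hsub : S ∩ J ⊆ Icc (-(l + d / 4)) (-l) ∪ Icc l (l + d / 4) := by
        rintro t ⟨⟨_, ht⟩, htJ⟩
        by_cases h : t < l
        · left
          refine ⟨htJ.1, ?_⟩
          by_contra hh
          exact ht ⟨not_le.mp hh, h⟩
        · right
          exact ⟨not_lt.mp h, htJ.2⟩
      have h1 : volume (S ∩ J) ≤ ENNReal.ofReal (d / 4) + ENNReal.ofReal (d / 4) := by
        refine (measure_mono hsub).trans ((measure_union_le _ _).trans ?_)
        rw [Real.volume_Icc, Real.volume_Icc]
        apply add_le_add <;> apply ENNReal.ofReal_le_ofReal <;> linarith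
      have h2 := ENNReal.toReal_mono (by simp) h1
      rw [ENNReal.toReal_add (by simp) (by simp), ENNReal.toReal_ofReal (by positivity)] at h2
      linarith
    have hsum := hsplit S J hSD hJm
    have hi : ∫ t in S, t ^ 2 = (∫ t in S ∩ J, t ^ 2) + ∫ t in S \ J, t ^ 2 :=
      (integral_inter_add_sdiff hJm (hintS _ hSD)).symm
    have hi1 : (volume (S ∩ J)).toReal * l ^ 2 ≤ ∫ t in S ∩ J, t ^ 2 := by
      have hsub : S ∩ J ⊆ Icc (-D) D := inter_subset_left.trans hSD
      rw [← hconst _ _ hsub]
      refine setIntegral_mono_on (hcint _ _ hsub) (hintS _ hsub) (hSm.inter hJm) ?_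
      rintro t ⟨⟨_, ht⟩, _⟩
      by_cases h : t < l
      · have h3 : t ≤ -l := by
          by_contra hh
          exact ht ⟨not_le.mp hh, h⟩
        nlinarith
      · have h3 := not_lt.mp h
        nlinarith
    have hi2 : (volume (S \ J)).toReal * (l ^ 2 + d ^ 2 / 16) ≤ ∫ t in S \ J, t ^ 2 := by
      have hsub : S \ J ⊆ Icc (-D) D := sdiff_subset.trans hSD
      rw [← hconst _ _ hsub]
      refine setIntegral_mono_on (hcint _ _ hsub) (hintS _ hsub) (hSm.diff hJm) ?_
      rintro t ⟨_, ht⟩
      by_cases h : t < 0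
      · have h3 : t < -(l + d / 4) := by
          by_contra hh
          exact ht ⟨not_lt.mp hh, by linarith⟩
        nlinarith [mul_nonneg hl0 hd0]
      · have h3 : l + d / 4 < t := by
          by_contra hh
          exact ht ⟨by linarith, not_lt.mp hh⟩
        nlinarith [mul_nonneg hl0 hd0]
    have hSd : (volume S).toReal = d := rfl
    have hy0 : 0 ≤ (volume (S \ J)).toReal := ENNReal.toReal_nonneg
    rw [hi]
    have hy : d / 2 ≤ (volume (S \ J)).toReal := by linarith
    have h5 : d / 2 * (d ^ 2 / 16) ≤ (volume (S \ J)).toReal * (d ^ 2 / 16) :=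
      mul_le_mul_of_nonneg_right hy (by positivity)
    nlinarith
  -- total
  have hA1 : ∫ t in A, t ^ 2 = (∫ t in A ∩ F, t ^ 2) + ∫ t in A \ F, t ^ 2 :=
    (integral_inter_add_sdiff hFm (hintS _ hAD)).symm
  have hF1 : ∫ t in F, t ^ 2 = (∫ t in F ∩ A, t ^ 2) + ∫ t in F \ A, t ^ 2 :=
    (integral_inter_add_sdiff hA (hintS _ hFD)).symm
  rw [inter_comm] at hF1
  set a : ℝ := (volume (A \ Icc (-r) r)).toReal with ha
  set b : ℝ := (volume (Icc (-r) r \ A)).toReal with hb
  have ha0 : 0 ≤ a := ENNReal.toReal_nonneg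
  have hb0 : 0 ≤ b := ENNReal.toReal_nonneg
  have hID : Icc (-r) r ⊆ Icc (-D) D := Icc_subset_Icc (by linarith) hrD
  have haD : a ≤ 2 * D := hle _ (sdiff_subset.trans hAD)
  have hbD : b ≤ 2 * D := hle _ (sdiff_subset.trans hID)
  have hab : a * b ≤ 2 * D * d := by
    by_cases h : r ≤ l
    · have hbd : b ≤ d := by
        rw [← hd']
        have hsub : Icc (-r) r \ A ⊆ (F \ A) ∪ {-l, l} := by
          rintro t ⟨ht, htA⟩
          by_cases h1 : t = -l
          · right; simp [h1]
          by_cases h2 : t = l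
          · right; simp [h2]
          left
          refine ⟨⟨lt_of_le_of_ne (by linarith [ht.1]) (Ne.symm h1),
            lt_of_le_of_ne (by linarith [ht.2]) h2⟩, htA⟩
        have h3 : volume (Icc (-r) r \ A) ≤ volume (F \ A) := by
          refine (measure_mono hsub).trans ((measure_union_le _ _).trans ?_)
          have : volume ({-l, l} : Set ℝ) = 0 := (Set.toFinite _).measure_zero _
          rw [this, add_zero]
        exact ENNReal.toReal_mono (hfin _ (sdiff_subset.trans hFD)) h3
      exact mul_le_mul haD hbd hb0 (by linarith)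
    · have had : a ≤ d := by
        have hsub : A \ Icc (-r) r ⊆ A \ F := by
          rintro t ⟨htA, ht⟩
          refine ⟨htA, fun h1 => ht ⟨by linarith [h1.1, not_le.mp h], by linarith [h1.2, not_le.mp h]⟩⟩
        exact ENNReal.toReal_mono (hfin _ (sdiff_subset.trans hAD)) (measure_mono hsub)
      calc a * b ≤ d * (2 * D) := mul_le_mul had hbD hb0 hd0
        _ = 2 * D * d := by ring
  have hfinal : (a * b) ^ 3 / (256 * D ^ 3) ≤ d ^ 3 / 32 := by
    rw [div_le_div_iff₀ (by positivity) (by norm_num)]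
    have h6 : (a * b) ^ 3 ≤ (2 * D * d) ^ 3 := pow_le_pow_left₀ (by positivity) hab 3
    nlinarith
  rw [hA1, hF1]
  linarith

end Pool.Agent.H638.KI
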