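import Pool.Agent.H638.KI.Defs

set_option autoImplicit false

open MeasureTheory Set Filter Topology Metric
open scoped Pointwise RealInnerProductSpace ENNReal

namespace Pool.Agent.H638.KI

open Pool.Agent.H638.IB (E mk)

theorem GAE_ok (hAVW : S_AVW) (hGAW : S_GAW) (hSTG : S_STG) : S_GAE := by
  intro n D ε hD hε
  obtain ⟨W, hW, h1⟩ := hAVW n D ε hD hε
  obtain ⟨δ, hδ, h2⟩ := hGAW n D W hD hW
  refine ⟨δ, hδ, ?_⟩
  intro A r hr hrD hA hAD hv hε'
  have hB : MeasurableSet (closedBall (0 : E (n + 1)) r) := measurableSet_closedBall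
  have hBf : volume (closedBall (0 : E (n + 1)) r) ≠ ∞ := measure_closedBall_lt_top.ne
  have hAf : volume A ≠ ∞ := hv ▸ hBf
  have hBD : closedBall (0 : E (n + 1)) r ⊆ closedBall 0 D := closedBall_subset_closedBall hrD
  have hi1 : volume (A ∩ closedBall (0 : E (n + 1)) r) + volume (A \ closedBall (0 : E (n + 1)) r)
      = volume A := measure_inter_add_diff A hB
  have hi2 : volume (closedBall (0 : E (n + 1)) r ∩ A) + volume (closedBall (0 : E (n + 1)) r \ A)
      = volume (closedBall (0 : E (n + 1)) r) := measure_inter_add_diff _ hA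
  have heq : volume (closedBall (0 : E (n + 1)) r \ A) = volume (A \ closedBall (0 : E (n + 1)) r) := by
    rw [hv, inter_comm, ← hi1] at hi2
    have hf : volume (A ∩ closedBall (0 : E (n + 1)) r) ≠ ∞ :=
      ((measure_mono inter_subset_left).trans_lt hAf.lt_top).ne
    exact (ENNReal.add_right_inj hf).1 hi2
  obtain ⟨g, hg⟩ := h1 (A \ closedBall 0 r) (closedBall 0 r \ A) (hA.diff hB) (hB.diff hA)
    (diff_subset.trans hAD) (diff_subset.trans hBD) hε' (by rw [heq]; exact hε')
  refine ⟨g, ?_⟩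
  obtain ⟨_, _, e1, e2, _⟩ := (hSTG g).1 A hA
  rw [e1, ← e2]
  have hgB : ∀ s : ℝ, g ⁻¹' closedBall (0 : E (n + 1)) s = closedBall 0 s := by
    intro s
    ext x
    simp
  refine h2 (g ⁻¹' A) r hr hrD (g.continuous.measurable hA) ?_ ?_
  · rw [← hgB D]
    exact preimage_mono hAD
  · refine hg.trans (le_of_eq ?_)
    rw [preimage_diff, preimage_diff, hgB r]

end Pool.Agent.H638.KI
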