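import Pool.Agent.H638.KI.Defs
import Pool.Agent.H638.IB.T_MP

/-! GAN: quantitative decrease of the second moment under a Steiner symmetrization. -/

set_option autoImplicit false

open MeasureTheory Set Filter Topology Metric
open scoped Pointwise RealInnerProductSpace ENNReal

namespace Pool.Agent.H638.KI

open Pool.Agent.H638.IB (E mk)

namespace GANaux

theorem meas_mk {n : ℕ} : Measurable (fun p : ℝ × E n => mk p.1 p.2) :=
  IB.continuous_mk.measurable

/-- the integrand -/
noncomputable def hh {n : ℕ} (B : Set (E (n + 1))) (p : ℝ × E n) : ℝ :=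
  B.indicator (fun x => ‖x‖ ^ 2) (mk p.1 p.2)

theorem int_ind {n : ℕ} {B : Set (E n)} {D : ℝ} (hB : MeasurableSet B)
    (hD : B ⊆ closedBall 0 D) : Integrable (B.indicator fun x => ‖x‖ ^ 2) volume := by
  rw [integrable_indicator_iff hB]
  have h1 : IntegrableOn (fun x : E n => ‖x‖ ^ 2) (closedBall 0 D) volume :=
    (by fun_prop : Continuous fun x : E n => ‖x‖ ^ 2).continuousOn.integrableOn_compact
      (isCompact_closedBall 0 D)
  exact h1.mono_set hD

theorem int_hh {n : ℕ} {B : Set (E (n + 1))} {D : ℝ} (hB : MeasurableSet B)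
    (hD : B ⊆ closedBall 0 D) :
    Integrable (hh B) ((volume : Measure ℝ).prod (volume : Measure (E n))) := by
  have h1 := int_ind hB hD
  have h2 := (IB.MP_ok n)
  have h3 : Integrable (B.indicator fun x => ‖x‖ ^ 2) (Measure.map (fun p : ℝ × E n => mk p.1 p.2)
      ((volume : Measure ℝ).prod (volume : Measure (E n)))) := by
    rw [h2.map_eq]; exact h1
  exact h3.comp_measurable h2.measurable

theorem slice_sub {n : ℕ} {B : Set (E (n + 1))} {D : ℝ} (hD0 : 0 < D)
    (hD : B ⊆ closedBall 0 D) (y : E n) : slice B y ⊆ Icc (-D) D := by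
  intro t ht
  have h1 : mk t y ∈ closedBall (0 : E (n + 1)) D := hD ht
  rw [mem_closedBall_zero_iff] at h1
  have h2 := IB.norm_mk_sq t y
  have h3 : ‖mk t y‖ ^ 2 ≤ D ^ 2 := pow_le_pow_left₀ (norm_nonneg _) h1 2
  have h4 : t ^ 2 ≤ D ^ 2 := by nlinarith [sq_nonneg ‖y‖]
  exact abs_le.mp (abs_le_of_sq_le_sq h4 hD0.le)

theorem vol_slice_ne {n : ℕ} {B : Set (E (n + 1))} {D : ℝ} (hD0 : 0 < D)
    (hD : B ⊆ closedBall 0 D) (y : E n) : volume (slice B y) ≠ ∞ :=
  ((measure_mono (slice_sub hD0 hD y)).trans_lt (by rw [Real.volume_Icc]; exact ENNReal.ofReal_lt_top)).ne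

theorem meas_slice {n : ℕ} {B : Set (E (n + 1))} (hB : MeasurableSet B) (y : E n) :
    MeasurableSet (slice B y) :=
  (meas_mk.comp (measurable_id.prodMk measurable_const : Measurable fun t : ℝ => (t, y))) hB

/-- the inner integral -/
theorem inner_eq {n : ℕ} {B : Set (E (n + 1))} {D : ℝ} (hD0 : 0 < D) (hB : MeasurableSet B)
    (hD : B ⊆ closedBall 0 D) (y : E n) :
    ∫ t : ℝ, hh B (t, y) = (∫ t in slice B y, t ^ 2) + ‖y‖ ^ 2 * (volume (slice B y)).toReal := by
  have h1 : (fun t : ℝ => hh B (t, y)) =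
      (slice B y).indicator (fun t => t ^ 2 + ‖y‖ ^ 2) := by
    funext t
    unfold hh
    by_cases ht : mk t y ∈ B
    · have ht' : t ∈ slice B y := ht
      rw [indicator_of_mem ht', indicator_of_mem ht, IB.norm_mk_sq]
    · have ht' : t ∉ slice B y := ht
      rw [indicator_of_notMem ht', indicator_of_notMem ht]
  rw [h1, integral_indicator (meas_slice hB y)]
  have hne := vol_slice_ne hD0 hD y
  have i1 : IntegrableOn (fun t : ℝ => t ^ 2) (slice B y) volume := by
    have : IntegrableOn (fun t : ℝ => t ^ 2) (Icc (-D) D) volume :=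
      (by fun_prop : Continuous fun t : ℝ => t ^ 2).continuousOn.integrableOn_compact isCompact_Icc
    exact this.mono_set (slice_sub hD0 hD y)
  have i2 : IntegrableOn (fun _ : ℝ => ‖y‖ ^ 2) (slice B y) volume :=
    integrableOn_const hne
  rw [integral_add i1 i2, setIntegral_const, smul_eq_mul, mul_comm (‖y‖ ^ 2)]
  rfl

/-- the second moment by slices -/
theorem Mo_eq {n : ℕ} {B : Set (E (n + 1))} {D : ℝ} (hB : MeasurableSet B)
    (hD : B ⊆ closedBall 0 D) : Mo B = ∫ y : E n, ∫ t : ℝ, hh B (t, y) := by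
  have h2 := (IB.MP_ok n)
  rw [← integral_prod_symm _ (int_hh hB hD)]
  unfold Mo
  rw [← integral_indicator hB]
  have h4 := int_ind hB hD
  conv_lhs => rw [← h2.map_eq]
  rw [integral_map h2.measurable.aemeasurable]
  · rfl
  · rw [h2.map_eq]
    exact h4.aestronglyMeasurable

theorem slice_diff {n : ℕ} (A B : Set (E (n + 1))) (y : E n) :
    slice (A \ B) y = slice A y \ slice B y := rfl

theorem slice_ball {n : ℕ} (r : ℝ) (hr : 0 ≤ r) (y : E n) (hy : ‖y‖ ≤ r) :
    slice (closedBall (0 : E (n + 1)) r) y = Icc (-√(r ^ 2 - ‖y‖ ^ 2)) (√(r ^ 2 - ‖y‖ ^ 2)) := by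
  ext t
  have h1 : t ∈ slice (closedBall (0 : E (n + 1)) r) y ↔ ‖mk t y‖ ≤ r := by
    unfold slice
    rw [Set.mem_ofPred_eq, mem_closedBall_zero_iff]
  rw [h1, Set.mem_Icc, ← abs_le]
  have h2 := IB.norm_mk_sq t y
  have h0 : 0 ≤ r ^ 2 - ‖y‖ ^ 2 := by nlinarith [norm_nonneg y]
  constructor
  · intro h
    have h3 : ‖mk t y‖ ^ 2 ≤ r ^ 2 := pow_le_pow_left₀ (norm_nonneg _) h 2
    exact Real.abs_le_sqrt (by linarith)
  · intro h
    have h3 : t ^ 2 ≤ r ^ 2 - ‖y‖ ^ 2 := by
      have := pow_le_pow_left₀ (abs_nonneg t) h 2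
      rwa [sq_abs, Real.sq_sqrt h0] at this
    have h4 : ‖mk t y‖ ^ 2 ≤ r ^ 2 := by linarith
    exact (sq_le_sq₀ (norm_nonneg _) hr).mp h4

theorem slice_ball_empty {n : ℕ} (r : ℝ) (hr : 0 ≤ r) (y : E n) (hy : r < ‖y‖) :
    slice (closedBall (0 : E (n + 1)) r) y = ∅ := by
  ext t
  constructor
  · intro h
    exfalso
    have h1 : ‖mk t y‖ ≤ r := by
      have h' : mk t y ∈ closedBall (0 : E (n + 1)) r := h
      rwa [mem_closedBall_zero_iff] at h'
    have h2 := IB.norm_mk_sq t y
    have h3 : ‖mk t y‖ ^ 2 ≤ r ^ 2 := pow_le_pow_left₀ (norm_nonneg _) h1 2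
    nlinarith [sq_nonneg t]
  · intro h
    exact absurd h (Set.notMem_empty t)

end GANaux

open GANaux

theorem GAN_ok (h1 : S_GA1) (h2 : S_STB) : S_GAN := by
  intro n A D r hD0 hr hrD hA hAD
  obtain ⟨hSm, hSv, -, -, -, hSs, hSb⟩ := h2 A hA
  have hSD : St A ⊆ closedBall 0 D := hSb D hAD
  have hAB : MeasurableSet (A \ closedBall (0 : E (n + 1)) r) := hA.diff measurableSet_closedBall
  have hBA : MeasurableSet (closedBall (0 : E (n + 1)) r \ A) := measurableSet_closedBall.diff hA
  have hm1 := (h2 _ hAB).2.2.2.1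
  have hm2 := (h2 _ hBA).2.2.2.1
  set c : E n → ℝ := fun y => ((volume (slice (A \ closedBall 0 r) y)).toReal *
      (volume (slice (closedBall 0 r \ A) y)).toReal) ^ 3 with hc
  have hcm : Measurable c := by
    rw [hc]
    exact (hm1.ennreal_toReal.mul hm2.ennreal_toReal).pow_const 3
  have hc0 : ∀ y, 0 ≤ c y := fun y => by
    rw [hc]; positivity
  -- pointwise inequality
  have key : ∀ y : E n, (∫ t : ℝ, hh (St A) (t, y)) + c y / (256 * D ^ 3) ≤
      ∫ t : ℝ, hh A (t, y) := by
    intro y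
    rw [inner_eq hD0 hSm hSD y, inner_eq hD0 hA hAD y]
    have hne := vol_slice_ne hD0 hAD y
    have hs := hSs y hne
    have hv : volume (slice (St A) y) = volume (slice A y) := by
      rw [hs, Real.volume_Ioo]
      have : (volume (slice A y)).toReal / 2 - -((volume (slice A y)).toReal / 2) =
          (volume (slice A y)).toReal := by ring
      rw [this, ENNReal.ofReal_toReal hne]
    rw [hv, hs]
    have hsub := slice_sub hD0 hAD y
    have hms := meas_slice hA y
    rcases le_or_gt ‖y‖ r with hy | hy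
    · have hρ0 : 0 ≤ √(r ^ 2 - ‖y‖ ^ 2) := Real.sqrt_nonneg _
      have hρD : √(r ^ 2 - ‖y‖ ^ 2) ≤ D := by
        rw [Real.sqrt_le_left hD0.le]
        nlinarith [sq_nonneg ‖y‖]
      have h3 := h1 (slice A y) D (√(r ^ 2 - ‖y‖ ^ 2)) hD0 hρ0 hρD hms hsub
      rw [← slice_ball r hr y hy, ← slice_diff, ← slice_diff] at h3
      have h4 : c y = ((volume (slice (A \ closedBall 0 r) y)).toReal *
        (volume (slice (closedBall 0 r \ A) y)).toReal) ^ 3 := rfl
      rw [h4]
      linarith
    · have h3 := h1 (slice A y) D 0 hD0 le_rfl hD0.le hms hsub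
      have h4 : c y = 0 := by
        have h5 : slice (closedBall (0 : E (n + 1)) r \ A) y = ∅ := by
          rw [slice_diff, slice_ball_empty r hr y hy, Set.empty_sdiff]
        rw [hc]
        simp only [h5, measure_empty, ENNReal.toReal_zero, mul_zero]
        norm_num
      rw [h4]
      have h6 : 0 ≤ ((volume (slice A y \ Icc (-0) 0)).toReal *
        (volume (Icc (-0) 0 \ slice A y)).toReal) ^ 3 / (256 * D ^ 3) := by positivity
      rw [zero_div, add_zero]
      linarith
  have iA : Integrable (fun y : E n => ∫ t : ℝ, hh A (t, y)) volume :=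
    (int_hh hA hAD).integral_prod_right
  have iS : Integrable (fun y : E n => ∫ t : ℝ, hh (St A) (t, y)) volume :=
    (int_hh hSm hSD).integral_prod_right
  have hS0 : ∀ y : E n, 0 ≤ ∫ t : ℝ, hh (St A) (t, y) := fun y =>
    integral_nonneg fun t => Set.indicator_nonneg (fun x _ => sq_nonneg _) _
  have ic : Integrable (fun y : E n => c y / (256 * D ^ 3)) volume := by
    refine iA.mono' (hcm.div_const _).aestronglyMeasurable (Eventually.of_forall fun y => ?_)
    have h3 : 0 ≤ c y / (256 * D ^ 3) := div_nonneg (hc0 y) (by positivity)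
    rw [Real.norm_of_nonneg h3]
    linarith [key y, hS0 y]
  rw [Mo_eq hSm hSD, Mo_eq hA hAD, ← integral_div, ← integral_add iS ic]
  exact integral_mono (iS.add ic) iA key

end Pool.Agent.H638.KI
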