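import Pool.Agent.H638.KI.Defs

/-! Task GAW: definite gain of the second moment. -/

set_option autoImplicit false

open MeasureTheory Set Filter Topology Metric
open scoped Pointwise RealInnerProductSpace ENNReal

namespace Pool.Agent.H638.KI

open Pool.Agent.H638.IB (E mk)

namespace GAWaux

theorem slice_sub {n : ℕ} {B : Set (E (n + 1))} {D : ℝ} (hB : B ⊆ closedBall 0 D) (y : E n) :
    slice B y ⊆ Icc (-D) D ∧ (D < ‖y‖ → slice B y = ∅) := by
  have key : ∀ t : ℝ, t ∈ slice B y → t ^ 2 + ‖y‖ ^ 2 ≤ D ^ 2 ∧ 0 ≤ D := by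
    intro t ht
    have h1 : mk t y ∈ closedBall (0 : E (n + 1)) D := hB ht
    rw [mem_closedBall_zero_iff] at h1
    have h2 := Pool.Agent.H638.IB.norm_mk_sq t y
    have h3 : ‖mk t y‖ ^ 2 ≤ D ^ 2 := pow_le_pow_left₀ (norm_nonneg _) h1 2
    exact ⟨by linarith, le_trans (norm_nonneg _) h1⟩
  constructor
  · intro t ht
    obtain ⟨h1, h2⟩ := key t ht
    have h3 : t ^ 2 ≤ D ^ 2 := by nlinarith [sq_nonneg ‖y‖]
    exact abs_le.mp (abs_le_of_sq_le_sq h3 h2)
  · intro hy
    rw [eq_empty_iff_forall_notMem]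
    intro t ht
    obtain ⟨h1, h2⟩ := key t ht
    nlinarith [sq_nonneg t]

theorem vol_slice {n : ℕ} {B : Set (E (n + 1))} {D : ℝ} (hD : 0 < D) (hB : B ⊆ closedBall 0 D)
    (y : E n) : 0 ≤ (volume (slice B y)).toReal ∧ (volume (slice B y)).toReal ≤ 2 * D ∧
      (D < ‖y‖ → (volume (slice B y)).toReal = 0) := by
  refine ⟨ENNReal.toReal_nonneg, ?_, ?_⟩
  · have h1 : volume (slice B y) ≤ volume (Icc (-D) D) := measure_mono (slice_sub hB y).1
    rw [Real.volume_Icc] at h1
    have h2 := ENNReal.toReal_mono ENNReal.ofReal_ne_top h1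
    rw [ENNReal.toReal_ofReal (by linarith)] at h2
    linarith
  · intro hy
    rw [(slice_sub hB y).2 hy]
    simp

end GAWaux

open GAWaux

theorem GAW_ok (hG : S_GAN) : S_GAW := by
  intro n D W hD hW
  set V : ℝ := (volume (closedBall (0 : E n) D)).toReal with hV
  have hVpos : 0 < V := by
    rw [hV]
    apply ENNReal.toReal_pos
    · exact (measure_closedBall_pos volume (0 : E n) hD).ne'
    · exact measure_closedBall_lt_top.ne
  refine ⟨W ^ 3 / V ^ 2 / (256 * D ^ 3), by positivity, ?_⟩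
  intro A r hr hrD hA hAD hW2
  refine le_trans ?_ (hG A D r hD hr hrD hA hAD)
  have h256 : 0 < 256 * D ^ 3 := by positivity
  set h : E n → ℝ := fun y => (volume (slice (A \ closedBall 0 r) y)).toReal *
      (volume (slice (closedBall 0 r \ A) y)).toReal with hh
  have hb1 : (A \ closedBall 0 r) ⊆ closedBall 0 D := diff_subset.trans hAD
  have hb2 : (closedBall (0 : E (n + 1)) r \ A) ⊆ closedBall 0 D :=
    diff_subset.trans (closedBall_subset_closedBall hrD)
  have h0 : ∀ y, 0 ≤ h y := fun y =>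
    mul_nonneg (vol_slice hD hb1 y).1 (vol_slice hD hb2 y).1
  have hle : ∀ y, h y ≤ 4 * D ^ 2 := by
    intro y
    have h1 := vol_slice hD hb1 y
    have h2 := vol_slice hD hb2 y
    calc h y ≤ (2 * D) * (2 * D) := mul_le_mul h1.2.1 h2.2.1 h2.1 (by linarith)
      _ = 4 * D ^ 2 := by ring
  have hout : ∀ y, D < ‖y‖ → h y = 0 := by
    intro y hy
    simp only [hh, (vol_slice hD hb1 y).2.2 hy, zero_mul]
  have hint : Integrable h := by
    by_contra hcon
    rw [integral_undef hcon] at hW2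
    linarith
  have hint3 : Integrable (fun y => h y ^ 3) := by
    refine Integrable.mono' (hint.const_mul ((4 * D ^ 2) ^ 2)) (hint.aestronglyMeasurable.pow 3) ?_
    refine Filter.Eventually.of_forall fun y => ?_
    rw [Real.norm_of_nonneg (pow_nonneg (h0 y) 3)]
    have h1 : h y ^ 2 ≤ (4 * D ^ 2) ^ 2 := pow_le_pow_left₀ (h0 y) (hle y) 2
    calc h y ^ 3 = h y ^ 2 * h y := by ring
      _ ≤ (4 * D ^ 2) ^ 2 * h y := mul_le_mul_of_nonneg_right h1 (h0 y)
  set c : ℝ := W / V with hc
  have hcpos : 0 < c := by positivity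
  have hind : Integrable ((closedBall (0 : E n) D).indicator (fun _ => (1 : ℝ))) := by
    rw [integrable_indicator_iff measurableSet_closedBall]
    exact integrableOn_const measure_closedBall_lt_top.ne
  have hpt : ∀ y, 3 * c ^ 2 * h y - 2 * c ^ 3 *
      (closedBall (0 : E n) D).indicator (fun _ => (1 : ℝ)) y ≤ h y ^ 3 := by
    intro y
    by_cases hy : y ∈ closedBall (0 : E n) D
    · rw [indicator_of_mem hy]
      have h1 : 0 ≤ (h y - c) ^ 2 * (h y + 2 * c) :=
        mul_nonneg (sq_nonneg _) (by linarith [h0 y])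
      nlinarith
    · rw [indicator_of_notMem hy]
      rw [mem_closedBall_zero_iff, not_le] at hy
      rw [hout y hy]
      norm_num
  have hI : 3 * c ^ 2 * (∫ y, h y) - 2 * c ^ 3 * V ≤ ∫ y, h y ^ 3 := by
    have h1 := integral_mono ((hint.const_mul (3 * c ^ 2)).sub (hind.const_mul (2 * c ^ 3)))
      hint3 hpt
    simp only [Pi.sub_apply] at h1
    rw [integral_sub (hint.const_mul (3 * c ^ 2)) (hind.const_mul (2 * c ^ 3)),
      integral_const_mul, integral_const_mul, integral_indicator measurableSet_closedBall,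
      setIntegral_const, smul_eq_mul, mul_one] at h1
    exact h1
  have hfin : W ^ 3 / V ^ 2 ≤ ∫ y, h y ^ 3 := by
    refine le_trans ?_ hI
    have h1 : 3 * c ^ 2 * W ≤ 3 * c ^ 2 * (∫ y, h y) :=
      mul_le_mul_of_nonneg_left hW2 (by positivity)
    have h2 : W ^ 3 / V ^ 2 = 3 * c ^ 2 * W - 2 * c ^ 3 * V := by
      rw [hc]
      field_simp
      ring
    linarith
  have := div_le_div_of_nonneg_right hfin h256.le
  linarith

end Pool.Agent.H638.KI
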