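import Pool.Agent.H638.KI.Defs

set_option autoImplicit false

open MeasureTheory Set Filter Topology Metric
open scoped Pointwise RealInnerProductSpace ENNReal

namespace Pool.Agent.H638.KI

open Pool.Agent.H638.IB (E mk)

theorem GC_ok (hINT : S_INT) (hLB : S_LB) : S_GC := by
  intro n k p hp hk
  obtain ⟨-, hp0, c, C, hc, -, hcC⟩ := hLB p hp
  have hmeas : ∀ y : E n, AEStronglyMeasurable
      (fun z : E n => (p z ^ k)⁻¹ * Real.exp (-(Real.pi * ‖z - y‖ ^ 2))) volume := by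
    intro y
    refine Measurable.aestronglyMeasurable ?_
    refine Measurable.mul ?_ ?_
    · exact ((hp.cont.measurable).pow_const k).inv
    · exact (by fun_prop : Continuous fun z : E n =>
        Real.exp (-(Real.pi * ‖z - y‖ ^ 2))).measurable
  constructor
  · rw [continuous_iff_continuousAt]
    intro y0
    have hint := hINT p hp hk Real.pi (2 * Real.pi * (‖y0‖ + 1)) Real.pi_pos
    unfold G1
    refine continuousAt_of_dominated (bound := fun z => (p z ^ k)⁻¹ *
      Real.exp (-(Real.pi * ‖z‖ ^ 2) + 2 * Real.pi * (‖y0‖ + 1) * ‖z‖))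
      (Eventually.of_forall fun y => hmeas y) ?_ hint ?_
    · have hball : ∀ᶠ y in 𝓝 y0, y ∈ ball y0 1 := ball_mem_nhds y0 one_pos
      filter_upwards [hball] with y hy
      refine Eventually.of_forall fun z => ?_
      rw [Real.norm_of_nonneg (by have := hp0 z; positivity)]
      refine mul_le_mul_of_nonneg_left ?_ (by have := hp0 z; positivity)
      rw [Real.exp_le_exp]
      have h1 : ‖y‖ ≤ ‖y0‖ + 1 := by
        have h2 : ‖y - y0‖ < 1 := by simpa [dist_eq_norm] using hy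
        have h3 : ‖y‖ ≤ ‖y - y0‖ + ‖y0‖ := by simpa using norm_add_le (y - y0) y0
        linarith
      have h4 : ‖z - y‖ ^ 2 = ‖z‖ ^ 2 - 2 * ⟪z, y⟫ + ‖y‖ ^ 2 := norm_sub_sq_real z y
      have h5 : ⟪z, y⟫ ≤ ‖z‖ * ‖y‖ := real_inner_le_norm z y
      have h6 : ‖z‖ * ‖y‖ ≤ ‖z‖ * (‖y0‖ + 1) := mul_le_mul_of_nonneg_left h1 (norm_nonneg _)
      rw [h4]
      have hpi := Real.pi_pos
      nlinarith [sq_nonneg ‖y‖, mul_le_mul_of_nonneg_left (h5.trans h6) hpi.le,
        mul_nonneg hpi.le (sq_nonneg ‖y‖)]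
    · refine Eventually.of_forall fun z => ?_
      fun_prop
  · have i1 : Integrable (fun z : E n => (p z ^ k)⁻¹ * Real.exp (-(1 * ‖z‖ ^ 2) + 0 * ‖z‖)) :=
      hINT p hp hk 1 0 one_pos
    have i2 : Integrable (fun z : E n => Real.exp (-(Real.pi * ‖z‖ ^ 2))) := by
      have := hINT (a := 0) p hp (by omega) Real.pi 0 Real.pi_pos
      refine this.congr (Eventually.of_forall fun z => ?_)
      simp
    refine ⟨Real.exp 1 * (∫ z : E n, (p z ^ k)⁻¹ * Real.exp (-(1 * ‖z‖ ^ 2) + 0 * ‖z‖)) +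
      (c ^ k)⁻¹ * ∫ z : E n, Real.exp (-(Real.pi * ‖z‖ ^ 2)), fun y => ⟨?_, ?_⟩⟩
    · exact integral_nonneg fun z => by have := hp0 z; positivity
    · have i3 : Integrable (fun z : E n => Real.exp (-(Real.pi * ‖z - y‖ ^ 2))) :=
        i2.comp_sub_right y
      have e3 : ∫ z : E n, Real.exp (-(Real.pi * ‖z‖ ^ 2)) =
          ∫ z : E n, Real.exp (-(Real.pi * ‖z - y‖ ^ 2)) :=
        (integral_sub_right_eq_self (fun z : E n => Real.exp (-(Real.pi * ‖z‖ ^ 2))) y).symm
      rw [e3, ← integral_const_mul, ← integral_const_mul,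
        ← integral_add (i1.const_mul _) (i3.const_mul _)]
      unfold G1
      have hle : ∀ z : E n, (p z ^ k)⁻¹ * Real.exp (-(Real.pi * ‖z - y‖ ^ 2)) ≤
          Real.exp 1 * ((p z ^ k)⁻¹ * Real.exp (-(1 * ‖z‖ ^ 2) + 0 * ‖z‖)) +
          (c ^ k)⁻¹ * Real.exp (-(Real.pi * ‖z - y‖ ^ 2)) := by
        intro z
        have hpz := hp0 z
        have hinv : 0 ≤ (p z ^ k)⁻¹ := by positivity
        have hexp1 : Real.exp (-(Real.pi * ‖z - y‖ ^ 2)) ≤ 1 := by
          rw [Real.exp_le_one_iff]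
          have := Real.pi_pos
          have : 0 ≤ Real.pi * ‖z - y‖ ^ 2 := by positivity
          linarith
        by_cases hz : ‖z‖ ≤ 1
        · have h1 : 1 ≤ Real.exp 1 * Real.exp (-(1 * ‖z‖ ^ 2) + 0 * ‖z‖) := by
            rw [← Real.exp_add, Real.one_le_exp_iff]
            have : ‖z‖ ^ 2 ≤ 1 := by nlinarith [norm_nonneg z]
            linarith
          have h2 : (p z ^ k)⁻¹ * Real.exp (-(Real.pi * ‖z - y‖ ^ 2)) ≤ (p z ^ k)⁻¹ * 1 :=
            mul_le_mul_of_nonneg_left hexp1 hinv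
          have h3 : (p z ^ k)⁻¹ * 1 ≤
              (p z ^ k)⁻¹ * (Real.exp 1 * Real.exp (-(1 * ‖z‖ ^ 2) + 0 * ‖z‖)) :=
            mul_le_mul_of_nonneg_left h1 hinv
          have h4 : 0 ≤ (c ^ k)⁻¹ * Real.exp (-(Real.pi * ‖z - y‖ ^ 2)) := by positivity
          nlinarith
        · rw [not_le] at hz
          have h1 : c ≤ p z := by
            have := (hcC z).1
            nlinarith
          have h2 : (p z ^ k)⁻¹ ≤ (c ^ k)⁻¹ := by
            gcongr
          have h3 : (p z ^ k)⁻¹ * Real.exp (-(Real.pi * ‖z - y‖ ^ 2)) ≤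
              (c ^ k)⁻¹ * Real.exp (-(Real.pi * ‖z - y‖ ^ 2)) :=
            mul_le_mul_of_nonneg_right h2 (Real.exp_pos _).le
          have h4 : 0 ≤ Real.exp 1 * ((p z ^ k)⁻¹ * Real.exp (-(1 * ‖z‖ ^ 2) + 0 * ‖z‖)) := by
            positivity
          linarith
      refine integral_mono ?_ ((i1.const_mul _).add (i3.const_mul _)) hle
      refine ((i1.const_mul (Real.exp 1)).add (i3.const_mul (c ^ k)⁻¹)).mono' (hmeas y)
        (Eventually.of_forall fun z => ?_)
      rw [Real.norm_of_nonneg (by have := hp0 z; positivity)]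
      exact hle z

end Pool.Agent.H638.KI
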