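import Pool.Agent.H638.KI.Defs

/-! Task GI of the project KI: the Gaussian identity for all linear maps. -/

set_option autoImplicit false

open MeasureTheory Set Filter Topology Metric
open scoped Pointwise RealInnerProductSpace ENNReal

namespace Pool.Agent.H638.KI

open Pool.Agent.H638.IB (E mk)

namespace GIaux

theorem det_ne {n : ℕ} (T : E n ≃ₗ[ℝ] E n) : LinearMap.det (T : E n →ₗ[ℝ] E n) ≠ 0 :=
  (LinearEquiv.isUnit_det' T).ne_zero

theorem det_adj {n : ℕ} (f : E n →ₗ[ℝ] E n) : LinearMap.det (LinearMap.adjoint f) =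
    LinearMap.det f := by
  have b := EuclideanSpace.basisFun (Fin n) ℝ
  rw [← LinearMap.det_toMatrix b.toBasis, LinearMap.toMatrix_adjoint b b,
    Matrix.det_conjTranspose, LinearMap.det_toMatrix]
  simp

theorem det_symm {n : ℕ} (T : E n ≃ₗ[ℝ] E n) :
    LinearMap.det (T.symm : E n →ₗ[ℝ] E n) = (LinearMap.det (T : E n →ₗ[ℝ] E n))⁻¹ := by
  have h : LinearMap.det (T.symm : E n →ₗ[ℝ] E n) * LinearMap.det (T : E n →ₗ[ℝ] E n) = 1 := by
    rw [← LinearMap.det_comp]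
    have : (T.symm : E n →ₗ[ℝ] E n) ∘ₗ (T : E n →ₗ[ℝ] E n) = LinearMap.id := by
      ext1 x; simp
    rw [this, LinearMap.det_id]
  exact eq_inv_of_mul_eq_one_left h

theorem det_iso {n : ℕ} (U : E n ≃ₗᵢ[ℝ] E n) :
    |LinearMap.det (U.toLinearEquiv : E n →ₗ[ℝ] E n)| = 1 := by
  have h1 := det_adj (U.toLinearEquiv : E n →ₗ[ℝ] E n)
  have h2 : LinearMap.adjoint (U.toLinearEquiv : E n →ₗ[ℝ] E n) =
      (U.symm.toLinearEquiv : E n →ₗ[ℝ] E n) := U.adjoint_toLinearMap_eq_symm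
  rw [h2] at h1
  have h3 : LinearMap.det (U.symm.toLinearEquiv : E n →ₗ[ℝ] E n) =
      (LinearMap.det (U.toLinearEquiv : E n →ₗ[ℝ] E n))⁻¹ := det_symm U.toLinearEquiv
  rw [h3] at h1
  have h0 := det_ne U.toLinearEquiv
  have h4 : LinearMap.det (U.toLinearEquiv : E n →ₗ[ℝ] E n) *
      LinearMap.det (U.toLinearEquiv : E n →ₗ[ℝ] E n) = 1 := by
    nth_rewrite 1 [← h1]
    exact inv_mul_cancel₀ h0
  have h5 : |LinearMap.det (U.toLinearEquiv : E n →ₗ[ℝ] E n)| *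
      |LinearMap.det (U.toLinearEquiv : E n →ₗ[ℝ] E n)| = 1 := by
    rw [← abs_mul, h4, abs_one]
  nlinarith [abs_nonneg (LinearMap.det (U.toLinearEquiv : E n →ₗ[ℝ] E n))]

/-- change of variables -/
theorem cov {n : ℕ} (A : E n ≃ₗ[ℝ] E n) (f : E n → ℝ) :
    ∫ y, f (A y) = |LinearMap.det (A : E n →ₗ[ℝ] E n)|⁻¹ * ∫ z, f z := by
  have h1 := Measure.map_linearMap_addHaar_eq_smul_addHaar (volume : Measure (E n))
    (f := (A : E n →ₗ[ℝ] E n)) (det_ne A)
  have h2 := integral_map_equiv (μ := (volume : Measure (E n)))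
    A.toContinuousLinearEquiv.toHomeomorph.toMeasurableEquiv f
  have h3 : Measure.map (A.toContinuousLinearEquiv.toHomeomorph.toMeasurableEquiv)
      (volume : Measure (E n)) = Measure.map (A : E n →ₗ[ℝ] E n) (volume : Measure (E n)) := rfl
  rw [h3, h1, integral_smul_measure] at h2
  have h4 : ∫ y, f (A y) = ∫ x, f ((A.toContinuousLinearEquiv.toHomeomorph.toMeasurableEquiv) x) :=
    rfl
  rw [h4, ← h2, ENNReal.toReal_ofReal (abs_nonneg _), abs_inv]
  rfl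

theorem sn_comp {n : ℕ} {p : E n → ℝ} (hp : SN p) (A : E n ≃ₗ[ℝ] E n) : SN (fun x => p (A x)) where
  cont := hp.cont.comp A.toContinuousLinearEquiv.continuous
  hom := fun c x => by simp only [map_smul]; exact hp.hom c (A x)
  pos := fun x hx => hp.pos (A x) (by simpa using hx)

theorem adj_cancel {n : ℕ} (T : E n ≃ₗ[ℝ] E n) (x : E n) :
    LinearMap.adjoint (T : E n →ₗ[ℝ] E n)
      (LinearMap.adjoint (T.symm : E n →ₗ[ℝ] E n) x) = x := by
  rw [← LinearMap.comp_apply, ← LinearMap.adjoint_comp]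
  have : (T.symm : E n →ₗ[ℝ] E n) ∘ₗ (T : E n →ₗ[ℝ] E n) = LinearMap.id := by
    ext1 x; simp
  rw [this]
  apply ext_inner_left ℝ
  intro v
  rw [LinearMap.adjoint_inner_right]
  rfl

/-- the adjoint of the inverse as a linear equivalence -/
noncomputable def adjE {n : ℕ} (T : E n ≃ₗ[ℝ] E n) : E n ≃ₗ[ℝ] E n where
  toLinearMap := LinearMap.adjoint (T.symm : E n →ₗ[ℝ] E n)
  invFun := LinearMap.adjoint (T : E n →ₗ[ℝ] E n)
  left_inv := adj_cancel T
  right_inv := adj_cancel T.symm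

theorem adjE_apply {n : ℕ} (T : E n ≃ₗ[ℝ] E n) (x : E n) :
    adjE T x = LinearMap.adjoint (T.symm : E n →ₗ[ℝ] E n) x := rfl

theorem adjE_det {n : ℕ} (T : E n ≃ₗ[ℝ] E n) :
    LinearMap.det (adjE T : E n →ₗ[ℝ] E n) = (LinearMap.det (T : E n →ₗ[ℝ] E n))⁻¹ := by
  have h : (adjE T : E n →ₗ[ℝ] E n) = LinearMap.adjoint (T.symm : E n →ₗ[ℝ] E n) := rfl
  rw [h, det_adj, det_symm]

/-- from lower integrals to integrals -/
theorem lint_eq (hLB : S_LB) (hINT : S_INT) {n a : ℕ} (p : E n → ℝ) (hp : SN p) (ha : a < n) :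
    ∫⁻ y : E n, ENNReal.ofReal ((p y ^ a)⁻¹ * gs y) =
      ENNReal.ofReal (∫ y : E n, (p y ^ a)⁻¹ * gs y) := by
  obtain ⟨-, h0, -⟩ := hLB p hp
  have h1 : Integrable (fun y : E n => (p y ^ a)⁻¹ * gs y) := by
    have h2 := hINT p hp ha Real.pi 0 Real.pi_pos
    refine h2.congr (Filter.Eventually.of_forall fun y => ?_)
    unfold gs
    simp
  rw [ofReal_integral_eq_lintegral_ofReal h1]
  refine Filter.Eventually.of_forall fun y => ?_
  have := h0 y
  show (0 : ℝ) ≤ (p y ^ a)⁻¹ * gs y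
  unfold gs
  positivity

theorem int_nonneg (hLB : S_LB) {n a : ℕ} (p : E n → ℝ) (hp : SN p) :
    0 ≤ ∫ y : E n, (p y ^ a)⁻¹ * gs y := by
  obtain ⟨-, h0, -⟩ := hLB p hp
  refine integral_nonneg fun y => ?_
  have := h0 y
  show (0 : ℝ) ≤ (p y ^ a)⁻¹ * gs y
  unfold gs
  positivity

theorem exists_sub (n k : ℕ) (h : k ≤ n) :
    ∃ H : Submodule ℝ (E n), Module.finrank ℝ H = k := by
  obtain ⟨s, hs, hl⟩ := exists_finset_linearIndependent_of_le_finrank (R := ℝ) (M := E n)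
    (n := k) (by simpa using h)
  exact ⟨Submodule.span ℝ (s : Set (E n)), by rw [finrank_span_finset_eq_card hl, hs]⟩

end GIaux

open GIaux in
theorem GI_ok (hSEC : S_SEC) (hAV : S_AV) (hINT : S_INT) (hLB : S_LB) : S_GI := by
  intro n k q p hq hp hk hkn hsec T
  obtain ⟨H, hH⟩ := exists_sub n k hkn.le
  set D : ℝ := |LinearMap.det (T : E n →ₗ[ℝ] E n)| with hD
  have hD0 : 0 < D := abs_pos.2 (det_ne T)
  have hp' : SN (fun x => p (T x)) := sn_comp hp T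
  have hq' : SN (fun x => q (adjE T x)) := sn_comp hq (adjE T)
  have hU : ∀ U : E n ≃ₗᵢ[ℝ] E n,
      ENNReal.ofReal D * (volume : Measure H) {v | p (T (U (v : E n))) ≤ 1} =
      (volume : Measure Hᗮ) {w | q (adjE T (U (w : E n))) ≤ 1} := by
    intro U
    have h1 := hSEC q p hq hp hsec H hH (U.toLinearEquiv.trans T)
    have h2 : |LinearMap.det ((U.toLinearEquiv.trans T : E n ≃ₗ[ℝ] E n) : E n →ₗ[ℝ] E n)| = D := by
      have e : ((U.toLinearEquiv.trans T : E n ≃ₗ[ℝ] E n) : E n →ₗ[ℝ] E n) =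
          (T : E n →ₗ[ℝ] E n) ∘ₗ (U.toLinearEquiv : E n →ₗ[ℝ] E n) := rfl
      rw [e, LinearMap.det_comp, abs_mul, det_iso, mul_one]
    have h3 : ∀ w : E n, LinearMap.adjoint
        (((U.toLinearEquiv.trans T).symm : E n ≃ₗ[ℝ] E n) : E n →ₗ[ℝ] E n) w =
        adjE T (U w) := by
      intro w
      have e : (((U.toLinearEquiv.trans T).symm : E n ≃ₗ[ℝ] E n) : E n →ₗ[ℝ] E n) =
          (U.symm.toLinearEquiv : E n →ₗ[ℝ] E n) ∘ₗ (T.symm : E n →ₗ[ℝ] E n) := rfl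
      rw [e, LinearMap.adjoint_comp]
      have e2 : LinearMap.adjoint (U.symm.toLinearEquiv : E n →ₗ[ℝ] E n) =
          (U.toLinearEquiv : E n →ₗ[ℝ] E n) := U.symm.adjoint_toLinearMap_eq_symm
      rw [e2]
      rfl
    rw [h2] at h1
    simp_rw [h3] at h1
    exact h1
  have h1 := hAV (fun x => q (adjE T x)) (fun x => p (T x)) hq' hp' hk hkn (ENNReal.ofReal D) H hH hU
  have e1 := lint_eq hLB hINT (fun x => p (T x)) hp' hkn
  have e2 := lint_eq hLB hINT (fun x => q (adjE T x)) hq' (a := n - k) (by omega)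
  rw [e1, e2] at h1
  have i1 := int_nonneg hLB (a := k) (fun x => p (T x)) hp'
  have i2 := int_nonneg hLB (a := n - k) (fun x => q (adjE T x)) hq'
  have h2 : D * (((n - k : ℕ) : ℝ) * ∫ y : E n, (p (T y) ^ k)⁻¹ * gs y) =
      (k : ℝ) * ∫ x : E n, (q (adjE T x) ^ (n - k))⁻¹ * gs x := by
    rw [← ENNReal.ofReal_natCast, ← ENNReal.ofReal_natCast k,
      ← ENNReal.ofReal_mul (Nat.cast_nonneg _), ← ENNReal.ofReal_mul hD0.le,
      ← ENNReal.ofReal_mul (Nat.cast_nonneg _)] at h1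
    exact (ENNReal.ofReal_eq_ofReal_iff (by positivity) (by positivity)).1 h1
  have c1 := cov T (fun z => (p z ^ k)⁻¹ * Real.exp (-(Real.pi * ‖T.symm z‖ ^ 2)))
  have c2 := cov (adjE T) (fun u => (q u ^ (n - k))⁻¹ *
    Real.exp (-(Real.pi * ‖LinearMap.adjoint (T : E n →ₗ[ℝ] E n) u‖ ^ 2)))
  simp only [LinearEquiv.symm_apply_apply] at c1
  have c3 : ∀ x : E n, LinearMap.adjoint (T : E n →ₗ[ℝ] E n) (adjE T x) = x := adj_cancel T
  simp only [c3] at c2
  rw [adjE_det, abs_inv, inv_inv, ← hD] at c2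
  rw [← hD] at c1
  have h3 : ∫ y : E n, (p (T y) ^ k)⁻¹ * gs y =
      ∫ y : E n, (p (T y) ^ k)⁻¹ * Real.exp (-(Real.pi * ‖y‖ ^ 2)) := rfl
  have h4 : ∫ x : E n, (q (adjE T x) ^ (n - k))⁻¹ * gs x =
      ∫ x : E n, (q (adjE T x) ^ (n - k))⁻¹ * Real.exp (-(Real.pi * ‖x‖ ^ 2)) := rfl
  rw [h3, h4, c1, c2] at h2
  rw [← h2]
  field_simp

end Pool.Agent.H638.KI
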