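import Pool.Agent.H638.KI.Defs

/-! Task GIS: the Gaussian identity for rank one perturbations of the identity. -/

set_option autoImplicit false

open MeasureTheory Set Filter Topology Metric
open scoped Pointwise RealInnerProductSpace ENNReal

namespace Pool.Agent.H638.KI

open Pool.Agent.H638.IB (E mk)

namespace GISaux

/-- `x ↦ x + c ⟪y, x⟫ y` -/
noncomputable def TT {n : ℕ} (y : E n) (c : ℝ) : E n →ₗ[ℝ] E n :=
  LinearMap.transvection (innerₗ (E n) y) (c • y)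

theorem TT_apply {n : ℕ} (y : E n) (c : ℝ) (x : E n) : TT y c x = x + (⟪y, x⟫ * c) • y := by
  unfold TT
  rw [LinearMap.transvection.apply, innerₗ_apply_apply, smul_smul]

theorem TT_det {n : ℕ} (y : E n) (c : ℝ) : LinearMap.det (TT y c) = 1 + c * ‖y‖ ^ 2 := by
  unfold TT
  rw [LinearMap.transvection.det, innerₗ_apply_apply, real_inner_smul_right,
    real_inner_self_eq_norm_sq]

theorem TT_comp {n : ℕ} (y : E n) (c d : ℝ) (h : c + d + c * d * ‖y‖ ^ 2 = 0) (x : E n) :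
    TT y c (TT y d x) = x := by
  rw [TT_apply, TT_apply, inner_add_right, real_inner_smul_right, real_inner_self_eq_norm_sq,
    add_assoc, ← add_smul]
  have : ⟪y, x⟫ * d + (⟪y, x⟫ + ⟪y, x⟫ * d * ‖y‖ ^ 2) * c = ⟪y, x⟫ * (c + d + c * d * ‖y‖ ^ 2) := by
    ring
  rw [this, h, mul_zero, zero_smul, add_zero]

/-- as an equivalence -/
noncomputable def TE {n : ℕ} (y : E n) (c d : ℝ) (h : c + d + c * d * ‖y‖ ^ 2 = 0) :
    E n ≃ₗ[ℝ] E n :=
  LinearEquiv.ofLinearMap (TT y c) (TT y d)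
    (LinearMap.ext fun x => TT_comp y c d h x)
    (LinearMap.ext fun x => TT_comp y d c (by rw [← h]; ring) x)

theorem TT_adj {n : ℕ} (y : E n) (c : ℝ) : LinearMap.adjoint (TT y c) = TT y c := by
  symm
  rw [LinearMap.eq_adjoint_iff]
  intro a b
  rw [TT_apply, TT_apply, inner_add_left, inner_add_right, real_inner_smul_left,
    real_inner_smul_right, real_inner_comm a y]
  ring

theorem TT_norm {n : ℕ} (y : E n) (c : ℝ) (x : E n) :
    ‖TT y c x‖ ^ 2 = ‖x‖ ^ 2 + (2 * c + c ^ 2 * ‖y‖ ^ 2) * ⟪y, x⟫ ^ 2 := by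
  rw [TT_apply, ← real_inner_self_eq_norm_sq, inner_add_left, inner_add_right, inner_add_right,
    real_inner_smul_left, real_inner_smul_right, real_inner_smul_left, real_inner_smul_right,
    real_inner_self_eq_norm_sq, real_inner_self_eq_norm_sq, real_inner_comm y x]
  ring

end GISaux

open GISaux in
theorem GIS_ok (hGI : S_GI) : S_GIS := by
  intro n k q p hq hp hk hkn hSec y s hs
  have hpos : 0 < 1 - s * ‖y‖ ^ 2 := by linarith
  set w : ℝ := √(1 - s * ‖y‖ ^ 2) with hw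
  have hw0 : 0 < w := Real.sqrt_pos.2 hpos
  have hw2 : w ^ 2 = 1 - s * ‖y‖ ^ 2 := Real.sq_sqrt hpos.le
  -- the constants
  obtain ⟨c, d, h1, h2, h3, h4⟩ : ∃ c d : ℝ, c + d + c * d * ‖y‖ ^ 2 = 0 ∧
      1 + c * ‖y‖ ^ 2 = w⁻¹ ∧ (∀ x : E n, (2 * d + d ^ 2 * ‖y‖ ^ 2) * ⟪y, x⟫ ^ 2 = -(s * ⟪y, x⟫ ^ 2)) ∧
      (∀ x : E n, (2 * c + c ^ 2 * ‖y‖ ^ 2) * ⟪y, x⟫ ^ 2 = s * ⟪y, x⟫ ^ 2 / (1 - s * ‖y‖ ^ 2)) := by
    by_cases hy : y = 0
    · subst hy
      refine ⟨0, 0, by ring, ?_, ?_, ?_⟩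
      · have : w = 1 := by rw [hw, norm_zero]; simp
        rw [this]; simp
      · intro x; simp
      · intro x; simp
    · have hn : ‖y‖ ≠ 0 := norm_ne_zero_iff.2 hy
      have hn2 : ‖y‖ ^ 2 ≠ 0 := pow_ne_zero _ hn
      have hwne : w ≠ 0 := hw0.ne'
      have hs' : s = (1 - w ^ 2) / ‖y‖ ^ 2 := by
        rw [eq_div_iff hn2]; linarith
      refine ⟨(w⁻¹ - 1) / ‖y‖ ^ 2, (w - 1) / ‖y‖ ^ 2, ?_, ?_, ?_, ?_⟩
      · field_simp
        ring
      · field_simp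
        ring
      · intro x
        rw [hs']
        field_simp
        ring
      · intro x
        rw [← hw2, hs']
        field_simp
        ring
  have key := hGI q p hq hp hk hkn hSec (TE y c d h1)
  have e1 : ∀ z : E n, ‖(TE y c d h1).symm z‖ ^ 2 = ‖z‖ ^ 2 - s * ⟪y, z⟫ ^ 2 := by
    intro z
    have : (TE y c d h1).symm z = TT y d z := rfl
    rw [this, TT_norm, h3]
    ring
  have e2 : ((TE y c d h1 : E n ≃ₗ[ℝ] E n) : E n →ₗ[ℝ] E n) = TT y c := rfl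
  rw [e2, TT_adj, TT_det, h2, abs_of_pos (inv_pos.2 hw0)] at key
  have f1 : ∀ z : E n, (p z ^ k)⁻¹ * gs z * Real.exp (Real.pi * s * ⟪y, z⟫ ^ 2) =
      (p z ^ k)⁻¹ * Real.exp (-(Real.pi * ‖(TE y c d h1).symm z‖ ^ 2)) := by
    intro z
    rw [e1, gs, mul_assoc, ← Real.exp_add]
    congr 2
    ring
  have f2 : ∀ x : E n, (q x ^ (n - k))⁻¹ * gs x *
          Real.exp (-(Real.pi * s * ⟪y, x⟫ ^ 2 / (1 - s * ‖y‖ ^ 2))) =
      (q x ^ (n - k))⁻¹ * Real.exp (-(Real.pi * ‖TT y c x‖ ^ 2)) := by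
    intro x
    rw [TT_norm, h4, gs, mul_assoc, ← Real.exp_add]
    congr 2
    ring
  simp only [f1, f2]
  exact key

end Pool.Agent.H638.KI
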