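import Pool.Agent.H638.KI.Defs

/-!
# A random isometry
-/

set_option autoImplicit false

open MeasureTheory Set Filter Topology Metric
open scoped Pointwise RealInnerProductSpace ENNReal

namespace Pool.Agent.H638.KI

open Pool.Agent.H638.IB (E mk)

namespace HAARaux

/-- The orthogonal group `O(n)`, as a group of matrices. -/
abbrev O (n : ℕ) : Type := ↥(Matrix.orthogonalGroup (Fin n) ℝ)

instance measO (n : ℕ) : MeasurableSpace (O n) := borel _

instance borelO (n : ℕ) : BorelSpace (O n) := ⟨rfl⟩

instance compactO (n : ℕ) : CompactSpace (O n) := by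
  refine isCompact_iff_compactSpace.1 ?_
  have h1 : IsCompact (Set.univ.pi (fun _ : Fin n => Set.univ.pi (fun _ : Fin n =>
      Metric.closedBall (0 : ℝ) 1))) :=
    isCompact_univ_pi fun _ => isCompact_univ_pi fun _ => isCompact_closedBall 0 1
  refine IsCompact.of_isClosed_subset h1 (isClosed_unitary (R := Matrix (Fin n) (Fin n) ℝ)) ?_
  intro u hu i _ k _
  rw [mem_closedBall_zero_iff]
  exact entry_norm_bound_of_unitary hu i k

/-- The Haar probability measure of the orthogonal group. -/
noncomputable def haarO (n : ℕ) : Measure (O n) := Measure.haarMeasure ⊤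

instance (n : ℕ) : (haarO n).IsHaarMeasure := by unfold haarO; infer_instance

instance (n : ℕ) : IsProbabilityMeasure (haarO n) := ⟨by
  unfold haarO
  exact Measure.haarMeasure_self⟩

theorem haar_right {n : ℕ} (g : O n) : Measure.map (· * g) (haarO n) = haarO n := by
  have : IsProbabilityMeasure (Measure.map (· * g) (haarO n)) :=
    Measure.isProbabilityMeasure_map (continuous_mul_const g).measurable.aemeasurable
  exact Measure.isHaarMeasure_eq_of_isProbabilityMeasure _ _

/-- the action -/
noncomputable def act {n : ℕ} (A : Matrix (Fin n) (Fin n) ℝ) (x : E n) : E n :=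
  WithLp.toLp 2 (A.mulVec x.ofLp)

theorem act_norm {n : ℕ} {A : Matrix (Fin n) (Fin n) ℝ} (hA : A.transpose * A = 1) (x : E n) :
    ‖act A x‖ = ‖x‖ := by
  have h1 : ‖act A x‖ ^ 2 = ‖x‖ ^ 2 := by
    rw [EuclideanSpace.real_norm_sq_eq, EuclideanSpace.real_norm_sq_eq]
    have e1 : ∑ i, (act A x) i ^ 2 = (A.mulVec x.ofLp) ⬝ᵥ (A.mulVec x.ofLp) := by
      simp only [act, dotProduct, pow_two]
    have e2 : ∑ i, x i ^ 2 = x.ofLp ⬝ᵥ x.ofLp := by
      simp only [dotProduct, pow_two]
    rw [e1, e2, Matrix.dotProduct_mulVec, Matrix.vecMul_mulVec, hA, Matrix.vecMul_one]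
  exact (sq_eq_sq₀ (norm_nonneg _) (norm_nonneg _)).1 h1

/-- the isometry of an orthogonal matrix -/
noncomputable def li {n : ℕ} (w : O n) : E n →ₗᵢ[ℝ] E n where
  toFun := act w.1
  map_add' x y := by
    change WithLp.toLp 2 (w.1.mulVec (x.ofLp + y.ofLp)) = _
    rw [Matrix.mulVec_add]
    rfl
  map_smul' c x := by
    change WithLp.toLp 2 (w.1.mulVec (c • x.ofLp)) = _
    rw [Matrix.mulVec_smul]
    rfl
  norm_map' x := act_norm ((Matrix.mem_orthogonalGroup_iff' (Fin n) ℝ).1 w.2) x

/-- the isometry equivalence of an orthogonal matrix -/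
noncomputable def le {n : ℕ} (w : O n) : E n ≃ₗᵢ[ℝ] E n := (li w).toLinearIsometryEquiv rfl

theorem le_apply {n : ℕ} (w : O n) (x : E n) : le w x = act w.1 x := rfl

theorem act_cont (n : ℕ) : Continuous fun z : O n × E n => act z.1.1 z.2 := by
  unfold act
  apply (PiLp.continuous_toLp 2 (fun _ : Fin n => ℝ)).comp
  apply continuous_pi
  intro i
  simp only [Matrix.mulVec, dotProduct]
  apply continuous_finsetSum
  intro j _
  have h1 : Continuous fun z : O n × E n => (z.1.1 : Matrix (Fin n) (Fin n) ℝ) i j := by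
    have : Continuous fun A : Matrix (Fin n) (Fin n) ℝ => A i j := by fun_prop
    exact this.comp (continuous_subtype_val.comp continuous_fst)
  have h2 : Continuous fun z : O n × E n => z.2.ofLp j := by fun_prop
  exact h1.mul h2

/-- the matrix of a linear isometry -/
theorem exists_mat {n : ℕ} (R : E n ≃ₗᵢ[ℝ] E n) : ∃ V : O n, ∀ y, act V.1 y = R y := by
  let V : Matrix (Fin n) (Fin n) ℝ := Matrix.of fun i j => R (EuclideanSpace.single j 1) i
  have hV : V.transpose * V = 1 := by
    ext i j
    have h1 : (V.transpose * V) i j =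
        inner ℝ (R (EuclideanSpace.single j (1 : ℝ))) (R (EuclideanSpace.single i (1 : ℝ))) := by
      rw [Matrix.mul_apply, PiLp.inner_apply]
      refine Finset.sum_congr rfl fun k _ => ?_
      simp [V]
    rw [h1, R.inner_map_map, EuclideanSpace.inner_single_left, Matrix.one_apply]
    simp [Pi.single_apply, eq_comm]
  refine ⟨⟨V, (Matrix.mem_orthogonalGroup_iff' (Fin n) ℝ).2 hV⟩, ?_⟩
  intro y
  have hy : y = ∑ j, y j • EuclideanSpace.single j (1 : ℝ) := by
    ext i
    simp [Pi.single_apply]
  ext i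
  conv_rhs => rw [hy, map_sum]
  simp only [act, Matrix.mulVec, dotProduct, V, Matrix.of_apply, map_smul]
  simp [mul_comm]

theorem exists_rot {n : ℕ} {x y : E n} (h : ‖x‖ = ‖y‖) : ∃ V : O n, act V.1 y = x := by
  obtain ⟨V, hV⟩ := exists_mat (n := n) (Submodule.reflection (Submodule.span ℝ {y - x})ᗮ)
  refine ⟨V, ?_⟩
  rw [hV]
  exact Submodule.reflection_sub h.symm

theorem act_mul {n : ℕ} (A B : Matrix (Fin n) (Fin n) ℝ) (x : E n) :
    act (A * B) x = act A (act B x) := by
  unfold act
  rw [← Matrix.mulVec_mulVec]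

end HAARaux

open HAARaux in
theorem HAAR_ok : S_HAAR := by
  intro n
  refine ⟨O n, inferInstance, haarO n, le, inferInstance, ?_, ?_⟩
  · exact (act_cont n).measurable
  · intro f hf x y hxy
    obtain ⟨V, rfl⟩ := exists_rot hxy
    have hm : Measurable fun w : O n => f (le w y) := by
      apply hf.comp
      exact ((act_cont n).comp (Continuous.prodMk_left y)).measurable
    calc ∫⁻ w, f (le w (act V.1 y)) ∂(haarO n)
        = ∫⁻ w, f (le (w * V) y) ∂(haarO n) := by
          refine lintegral_congr fun w => ?_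
          rw [le_apply, le_apply, Submonoid.coe_mul, act_mul]
      _ = ∫⁻ w, f (le w y) ∂(Measure.map (· * V) (haarO n)) := by
          rw [lintegral_map hm (continuous_mul_const V).measurable]
      _ = ∫⁻ w, f (le w y) ∂(haarO n) := by rw [haar_right]

end Pool.Agent.H638.KI
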