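import Pool.Agent.H638.KI.Defs

/-! INT: integrability (helper959). -/

set_option autoImplicit false

open MeasureTheory Set Filter Topology Metric
open scoped Pointwise RealInnerProductSpace ENNReal

namespace Pool.Agent.H638.KI

open Pool.Agent.H638.IB (E mk)

namespace INTaux

theorem exp_bound (ε b r : ℝ) (hε : 0 < ε) :
    Real.exp (-(ε * r ^ 2) + b * r) ≤
      Real.exp (b ^ 2 / (2 * ε)) * Real.exp (-(ε / 2) * r ^ 2) := by
  rw [← Real.exp_add]
  apply Real.exp_le_exp.2
  have h : b ^ 2 / (2 * ε) + -(ε / 2) * r ^ 2 - (-(ε * r ^ 2) + b * r) =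
      (ε / 2) * (r - b / ε) ^ 2 := by
    field_simp
    ring
  have h2 : 0 ≤ (ε / 2) * (r - b / ε) ^ 2 := by positivity
  linarith

theorem radial {n a : ℕ} (ha : a < n) (ε b : ℝ) (hε : 0 < ε) :
    Integrable (fun y : E n => (‖y‖ ^ a)⁻¹ * Real.exp (-(ε * ‖y‖ ^ 2) + b * ‖y‖)) := by
  haveI : Nontrivial (E n) := by
    apply Module.nontrivial_of_finrank_pos (R := ℝ)
    rw [finrank_euclideanSpace_fin]
    omega
  have key := (integrable_fun_norm_addHaar (volume : Measure (E n))
    (f := fun r : ℝ => (r ^ a)⁻¹ * Real.exp (-(ε * r ^ 2) + b * r))).2 ?_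
  · exact key
  · rw [finrank_euclideanSpace_fin]
    have h1 : IntegrableOn (fun x : ℝ => x ^ (((n - 1 - a : ℕ) : ℝ)) * Real.exp (-(ε / 2) * x ^ 2))
        (Ioi 0) := by
      apply integrableOn_rpow_mul_exp_neg_mul_sq (by positivity)
      have : (0 : ℝ) ≤ ((n - 1 - a : ℕ) : ℝ) := Nat.cast_nonneg _
      linarith
    have h2 := h1.const_mul (Real.exp (b ^ 2 / (2 * ε)))
    refine Integrable.mono' h2 ?_ ?_
    · apply Measurable.aestronglyMeasurable
      simp only [smul_eq_mul]
      fun_prop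
    · rw [ae_restrict_iff' measurableSet_Ioi]
      refine ae_of_all _ fun x hx => ?_
      have hx0 : 0 < x := hx
      have e1 : x ^ (n - 1) • ((x ^ a)⁻¹ * Real.exp (-(ε * x ^ 2) + b * x)) =
          x ^ (n - 1 - a) * Real.exp (-(ε * x ^ 2) + b * x) := by
        rw [smul_eq_mul, ← mul_assoc]
        congr 1
        have : n - 1 = (n - 1 - a) + a := by omega
        rw [this, pow_add, Nat.add_sub_cancel, mul_assoc, mul_inv_cancel₀ (by positivity), mul_one]
      rw [e1, Real.norm_of_nonneg (by positivity), Real.rpow_natCast]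
      calc x ^ (n - 1 - a) * Real.exp (-(ε * x ^ 2) + b * x)
          ≤ x ^ (n - 1 - a) *
            (Real.exp (b ^ 2 / (2 * ε)) * Real.exp (-(ε / 2) * x ^ 2)) :=
            mul_le_mul_of_nonneg_left (exp_bound ε b x hε) (by positivity)
        _ = _ := by ring

end INTaux

theorem INT_ok (h1 : S_LB) : S_INT := by
  intro n a p hp ha ε b hε
  obtain ⟨hp0, hpn, c, C, hc, hC, hb⟩ := h1 p hp
  have hrad := (INTaux.radial ha ε b hε).const_mul ((c ^ a)⁻¹)
  refine Integrable.mono' hrad ?_ ?_
  · apply Measurable.aestronglyMeasurable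
    have hm : Measurable p := hp.cont.measurable
    exact ((hm.pow_const a).inv).mul (by fun_prop)
  · refine ae_of_all _ fun y => ?_
    rw [Real.norm_of_nonneg (mul_nonneg (inv_nonneg.2 (pow_nonneg (hpn y) a)) (Real.exp_pos _).le)]
    rw [← mul_assoc]
    apply mul_le_mul_of_nonneg_right _ (Real.exp_pos _).le
    by_cases hy : y = 0
    · subst hy
      rw [hp0, norm_zero]
      by_cases ha0 : a = 0
      · subst ha0
        simp
      · rw [zero_pow ha0]
        simp
    · have hy0 : 0 < ‖y‖ := norm_pos_iff.2 hy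
      rw [← mul_inv, ← mul_pow]
      apply inv_anti₀ (by positivity)
      exact pow_le_pow_left₀ (by positivity) (hb y).1 a

end Pool.Agent.H638.KI
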