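import Pool.Agent.H638.KI.Defs

set_option autoImplicit false

open MeasureTheory Set Filter Topology Metric
open scoped Pointwise RealInnerProductSpace ENNReal

namespace Pool.Agent.H638.KI

open Pool.Agent.H638.IB (E mk)

namespace INTVaux

theorem ioc_integrable (a b : ℝ) : Integrable (ioc a b) := by
  unfold ioc
  exact (integrable_indicator_iff measurableSet_Ioc).2
    (integrableOn_const measure_Ioc_lt_top.ne)

theorem le_zero {φ : ℝ → ℝ} (h : SD φ) (x : ℝ) : φ x ≤ φ 0 := by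
  have h1 : φ x = φ |x| := by
    rcases abs_choice x with h' | h' <;> rw [h']
    exact (h.even x).symm
  rw [h1]
  exact h.anti (by simp) (by simp) (abs_nonneg x)

theorem prod_integrable {N : ℕ} (φ : ℝ → ℝ) (h : SD φ) (f : Fin N → ℝ → ℝ)
    (hf : ∀ i, Integrable (f i)) (x0 : ℝ) :
    Integrable (fun t : Fin N → ℝ => (∏ i, f i (t i)) * φ (x0 + ∑ i, t i)) := by
  have h1 : Integrable (fun t : Fin N → ℝ => ∏ i, f i (t i)) :=
    Integrable.fintype_prod hf
  refine Integrable.mul_bdd (c := φ 0) h1 ?_ ?_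
  · have : Continuous fun t : Fin N → ℝ => φ (x0 + ∑ i, t i) :=
      h.cont.comp (by fun_prop)
    exact this.aestronglyMeasurable
  · refine Eventually.of_forall fun t => ?_
    rw [Real.norm_of_nonneg (h.nonneg _)]
    exact le_zero h _

theorem ioc_mul_integral (φ : ℝ → ℝ) (c l x : ℝ) (hl : 0 ≤ l) :
    ∫ t : ℝ, ioc (c - l) (c + l) t * φ (x + t) = ∫ t in (x + c - l)..(x + c + l), φ t := by
  have h1 : (fun t : ℝ => ioc (c - l) (c + l) t * φ (x + t)) =
      (Ioc (c - l) (c + l)).indicator (fun t => φ (x + t)) := by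
    funext t
    unfold ioc
    by_cases ht : t ∈ Ioc (c - l) (c + l)
    · simp [ht]
    · simp [ht]
  rw [h1, integral_indicator measurableSet_Ioc,
    ← intervalIntegral.integral_of_le (by linarith)]
  rw [intervalIntegral.integral_comp_add_left (fun t => φ t) x]
  congr 1 <;> ring

theorem main (hCONV : S_CONV) : ∀ (N : ℕ) (φ : ℝ → ℝ), SD φ → ∀ l : Fin N → ℝ, (∀ i, 0 ≤ l i) →
    ∃ Ψ : ℝ → ℝ, SD Ψ ∧ ∀ (x0 : ℝ) (c : Fin N → ℝ),
      ∫ t : Fin N → ℝ, (∏ i, ioc (c i - l i) (c i + l i) (t i)) * φ (x0 + ∑ i, t i) =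
        Ψ (x0 + ∑ i, c i) := by
  intro N
  induction N with
  | zero =>
    intro φ hφ l hl
    refine ⟨φ, hφ, fun x0 c => ?_⟩
    rw [volume_pi, Measure.pi_of_empty, integral_dirac]
    simp
  | succ N ih =>
    intro φ hφ l hl
    obtain ⟨Ψ, hΨ, hΨ2⟩ := ih _ (hCONV φ hφ (l 0) (hl 0)) (fun i => l i.succ) (fun i => hl _)
    refine ⟨Ψ, hΨ, fun x0 c => ?_⟩
    have mp := (volume_preserving_piFinSuccAbove (fun _ : Fin (N + 1) => ℝ) 0).symm
    rw [← mp.integral_comp (MeasurableEquiv.measurableEmbedding _)]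
    have hI : Integrable (fun t : Fin (N + 1) → ℝ =>
        (∏ i, ioc (c i - l i) (c i + l i) (t i)) * φ (x0 + ∑ i, t i)) :=
      prod_integrable φ hφ (fun i => ioc (c i - l i) (c i + l i)) (fun i => ioc_integrable _ _) x0
    have hI' := (mp.integrable_comp_emb (MeasurableEquiv.measurableEmbedding _)).2 hI
    have hfun : ∀ p : ℝ × (Fin N → ℝ),
        (∏ i, ioc (c i - l i) (c i + l i)
          ((MeasurableEquiv.piFinSuccAbove (fun _ : Fin (N + 1) => ℝ) 0).symm p i)) *
          φ (x0 + ∑ i, (MeasurableEquiv.piFinSuccAbove (fun _ : Fin (N + 1) => ℝ) 0).symm p i) =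
        (∏ i : Fin N, ioc (c i.succ - l i.succ) (c i.succ + l i.succ) (p.2 i)) *
          (ioc (c 0 - l 0) (c 0 + l 0) p.1 * φ ((x0 + ∑ i, p.2 i) + p.1)) := by
      intro p
      have e0 : (MeasurableEquiv.piFinSuccAbove (fun _ : Fin (N + 1) => ℝ) 0).symm p 0 = p.1 := by
        simp [MeasurableEquiv.piFinSuccAbove]
      have es : ∀ i : Fin N,
          (MeasurableEquiv.piFinSuccAbove (fun _ : Fin (N + 1) => ℝ) 0).symm p i.succ = p.2 i := by
        intro i
        simp [MeasurableEquiv.piFinSuccAbove]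
      rw [Fin.prod_univ_succ, Fin.sum_univ_succ]
      simp only [e0, es]
      rw [show x0 + (p.1 + ∑ i, p.2 i) = (x0 + ∑ i, p.2 i) + p.1 by ring]
      ring
    have hfun' : (fun p : ℝ × (Fin N → ℝ) =>
        (∏ i, ioc (c i - l i) (c i + l i)
          ((MeasurableEquiv.piFinSuccAbove (fun _ : Fin (N + 1) => ℝ) 0).symm p i)) *
          φ (x0 + ∑ i, (MeasurableEquiv.piFinSuccAbove (fun _ : Fin (N + 1) => ℝ) 0).symm p i)) =
        fun p => (∏ i : Fin N, ioc (c i.succ - l i.succ) (c i.succ + l i.succ) (p.2 i)) *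
          (ioc (c 0 - l 0) (c 0 + l 0) p.1 * φ ((x0 + ∑ i, p.2 i) + p.1)) := funext hfun
    have hI2 : Integrable (fun p : ℝ × (Fin N → ℝ) =>
        (∏ i : Fin N, ioc (c i.succ - l i.succ) (c i.succ + l i.succ) (p.2 i)) *
          (ioc (c 0 - l 0) (c 0 + l 0) p.1 * φ ((x0 + ∑ i, p.2 i) + p.1)))
        ((volume : Measure ℝ).prod (volume : Measure (Fin N → ℝ))) := by
      rw [← hfun']
      exact hI'
    have hgoal : ∫ p : ℝ × (Fin N → ℝ),
        (∏ i : Fin N, ioc (c i.succ - l i.succ) (c i.succ + l i.succ) (p.2 i)) *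
          (ioc (c 0 - l 0) (c 0 + l 0) p.1 * φ ((x0 + ∑ i, p.2 i) + p.1)) =
        Ψ (x0 + ∑ i, c i) := by
      rw [Measure.volume_eq_prod, integral_prod_symm _ hI2]
      have h3 := hΨ2 (x0 + c 0) (fun i => c i.succ)
      rw [Fin.sum_univ_succ, ← add_assoc, ← h3]
      refine integral_congr_ae (Eventually.of_forall fun s => ?_)
      have h4 : ∫ t : ℝ, (∏ i : Fin N, ioc (c i.succ - l i.succ) (c i.succ + l i.succ) (s i)) *
          (ioc (c 0 - l 0) (c 0 + l 0) t * φ ((x0 + ∑ i, s i) + t)) =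
          (∏ i : Fin N, ioc (c i.succ - l i.succ) (c i.succ + l i.succ) (s i)) *
            ∫ t in (x0 + c 0 + ∑ i, s i - l 0)..(x0 + c 0 + ∑ i, s i + l 0), φ t := by
        rw [integral_const_mul, ioc_mul_integral φ (c 0) (l 0) _ (hl 0)]
        congr 2 <;> ring
      exact h4
    refine Eq.trans ?_ hgoal
    exact integral_congr_ae (Eventually.of_forall fun p => hfun p)

end INTVaux

theorem INTV_ok (hCONV : S_CONV) : S_INTV := by
  intro N φ hφ l hl
  obtain ⟨Ψ, h1, h2⟩ := INTVaux.main hCONV N φ hφ l hl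
  refine ⟨Ψ, h1, fun c => ?_⟩
  have := h2 0 c
  simpa using this

end Pool.Agent.H638.KI
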