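import Pool.Agent.H638.KI.Defs

/-! Iterated Steiner symmetrization. -/

set_option autoImplicit false

open MeasureTheory Set Filter Topology Metric
open scoped Pointwise RealInnerProductSpace ENNReal

namespace Pool.Agent.H638.KI

open Pool.Agent.H638.IB (E mk)

namespace ITERaux

theorem r_le {n : ℕ} {D r : ℝ} (hD : 0 < D) (A : Set (E (n + 1)))
    (hA : A ⊆ closedBall 0 D) (h : volume (closedBall (0 : E (n + 1)) r) = volume A) : r ≤ D := by
  by_contra hr
  push Not at hr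
  have h1 : volume (closedBall (0 : E (n + 1)) r) ≤ volume (closedBall (0 : E (n + 1)) D) := by
    rw [h]
    exact measure_mono hA
  rw [Measure.addHaar_closedBall _ _ (hD.le.trans hr.le), Measure.addHaar_closedBall _ _ hD.le]
    at h1
  have h2 : 0 < volume (ball (0 : E (n + 1)) 1) := measure_ball_pos _ _ one_pos
  have h3 : volume (ball (0 : E (n + 1)) 1) ≠ ∞ := measure_ball_lt_top.ne
  rw [ENNReal.mul_le_mul_iff_left h2.ne' h3] at h1
  rw [ENNReal.ofReal_le_ofReal_iff (by positivity)] at h1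
  have h4 : D ^ Module.finrank ℝ (E (n + 1)) < r ^ Module.finrank ℝ (E (n + 1)) := by
    apply pow_lt_pow_left₀ hr hD.le
    rw [finrank_euclideanSpace_fin]
    exact Nat.succ_ne_zero n
  exact absurd h1 (not_le.2 h4)

theorem Mo_nonneg {n : ℕ} (A : Set (E n)) : 0 ≤ Mo A :=
  integral_nonneg fun x => sq_nonneg _

theorem Mo_St_le (hGAN : S_GAN) {n : ℕ} (A : Set (E (n + 1))) (D : ℝ) (hD : 0 < D)
    (hm : MeasurableSet A) (hA : A ⊆ closedBall 0 D) : Mo (St A) ≤ Mo A := by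
  have h1 := hGAN A D 0 hD le_rfl hD.le hm hA
  have h2 : 0 ≤ (∫ y : E n, ((volume (slice (A \ closedBall 0 0) y)).toReal *
      (volume (slice (closedBall 0 0 \ A) y)).toReal) ^ 3) / (256 * D ^ 3) := by
    apply div_nonneg
    · apply integral_nonneg
      intro y
      positivity
    · positivity
  linarith

theorem Mo_stg_le (hSTG : S_STG) (hGAN : S_GAN) {n : ℕ} (g : E (n + 1) ≃ₗᵢ[ℝ] E (n + 1))
    (A : Set (E (n + 1))) (D : ℝ) (hD : 0 < D)
    (hm : MeasurableSet A) (hA : A ⊆ closedBall 0 D) : Mo (stg g A) ≤ Mo A := by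
  obtain ⟨-, -, h3, h4, -⟩ := (hSTG g).1 A hm
  rw [h3, ← h4]
  apply Mo_St_le hGAN _ D hD (g.continuous.measurable hm)
  intro x hx
  have h5 := hA hx
  rw [mem_closedBall_zero_iff] at h5 ⊢
  rwa [g.norm_map] at h5

theorem step (hGAE : S_GAE) (hSTG : S_STG) (hGAN : S_GAN) {n N : ℕ} (b : ℝ) (hb : 0 ≤ b)
    (D ε : ℝ) (hD : 0 < D) (hε : 0 < ε) (r : Fin N → ℝ) (hr : ∀ i, 0 ≤ r i) (δ : ℝ)
    (hδ : ∀ (A : Set (E (n + 1))) (r : ℝ), 0 ≤ r → r ≤ D → MeasurableSet A → A ⊆ closedBall 0 D →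
      volume (closedBall (0 : E (n + 1)) r) = volume A →
      ε ≤ (volume (A \ closedBall 0 r)).toReal →
      ∃ g : E (n + 1) ≃ₗᵢ[ℝ] E (n + 1), Mo (stg g A) + δ ≤ Mo A) :
    ∀ (m : ℕ) (A : Fin N → Set (E (n + 1))), (∀ i, MeasurableSet (A i)) →
      (∀ i, A i ⊆ closedBall 0 D) →
      (∀ i, volume (closedBall (0 : E (n + 1)) (r i)) = volume (A i)) →
      ∑ i, Mo (A i) < m * δ →
    ∃ A' : Fin N → Set (E (n + 1)), (∀ i, MeasurableSet (A' i)) ∧ (∀ i, A' i ⊆ closedBall 0 D) ∧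
      (∀ i, volume (A' i) = volume (A i)) ∧ PHI b A ≤ PHI b A' ∧
      ∀ i, (volume (A' i \ closedBall 0 (r i))).toReal < ε := by
  intro m
  induction m with
  | zero =>
    intro A _ _ _ h
    have h1 : 0 ≤ ∑ i, Mo (A i) := Finset.sum_nonneg fun i _ => Mo_nonneg _
    rw [Nat.cast_zero, zero_mul] at h
    exact absurd h (not_lt.2 h1)
  | succ m ih =>
    intro A hm hA hv h
    by_cases hall : ∀ i, (volume (A i \ closedBall 0 (r i))).toReal < ε
    · exact ⟨A, hm, hA, fun _ => rfl, le_rfl, hall⟩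
    · push Not at hall
      obtain ⟨i, hi⟩ := hall
      obtain ⟨g, hg⟩ := hδ (A i) (r i) (hr i) (r_le hD (A i) (hA i) (hv i)) (hm i) (hA i) (hv i) hi
      have hG := (hSTG g).1
      have h1 : ∑ j, Mo (stg g (A j)) + δ ≤ ∑ j, Mo (A j) := by
        rw [← Finset.add_sum_erase _ _ (Finset.mem_univ i),
          ← Finset.add_sum_erase _ (fun j => Mo (A j)) (Finset.mem_univ i)]
        have h2 : ∑ j ∈ Finset.univ.erase i, Mo (stg g (A j)) ≤
            ∑ j ∈ Finset.univ.erase i, Mo (A j) :=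
          Finset.sum_le_sum fun j _ => Mo_stg_le hSTG hGAN g (A j) D hD (hm j) (hA j)
        linarith
      have h3 : ∑ j, Mo (stg g (A j)) < m * δ := by
        push_cast at h
        linarith
      obtain ⟨A', h4, h5, h6, h7, h8⟩ := ih (fun j => stg g (A j)) (fun j => (hG _ (hm j)).1)
        (fun j => (hG _ (hm j)).2.2.2.2 D (hA j))
        (fun j => by rw [(hG _ (hm j)).2.1]; exact hv j) h3
      refine ⟨A', h4, h5, fun j => ?_, ?_, h8⟩
      · rw [h6 j]
        exact (hG _ (hm j)).2.1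
      · refine le_trans ?_ h7
        apply (hSTG g).2 b hb A hm
        intro j
        exact ((measure_mono (hA j)).trans_lt measure_closedBall_lt_top).ne

end ITERaux

open ITERaux in
theorem ITER_ok (hGAE : S_GAE) (hSTG : S_STG) (hGAN : S_GAN) : S_ITER := by
  intro n N b hb D ε hD hε A hm hA r hr hv
  obtain ⟨δ, hδ0, hδ⟩ := hGAE n D ε hD hε
  obtain ⟨m, hm'⟩ := exists_nat_gt ((∑ i, Mo (A i)) / δ)
  exact step hGAE hSTG hGAN b hb D ε hD hε r hr δ hδ m A hm hA hv (by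
    rw [div_lt_iff₀ hδ0] at hm'
    exact hm')

end Pool.Agent.H638.KI
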