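import Pool.Agent.H638.KI.Defs

/-! Project KI, task JC: comparison with the ball (layer cake). -/

set_option autoImplicit false

open MeasureTheory Set Filter Topology Metric
open scoped Pointwise RealInnerProductSpace ENNReal

namespace Pool.Agent.H638.KI

open Pool.Agent.H638.IB (E mk)

namespace JCaux

/-- the radius -/
noncomputable def rr (m : ℕ) (ρ : ℝ) (w : ℝ × ℝ) : ℝ :=
  if 0 < w.1 ∧ 0 < w.2 then min (ρ * w.1 ^ (-(1 / (m : ℝ)))) (√(-Real.log w.2 / Real.pi)) else 0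

theorem meas_rr (m : ℕ) (ρ : ℝ) : Measurable (rr m ρ) := by
  unfold rr
  apply Measurable.ite
  · exact (measurableSet_lt measurable_const measurable_fst).inter
      (measurableSet_lt measurable_const measurable_snd)
  · apply Measurable.min
    · exact (measurable_fst.pow_const _).const_mul _
    · exact ((Real.measurable_log.comp measurable_snd).neg.div_const _).sqrt
  · exact measurable_const

/-- the level sets -/
def AA {n : ℕ} (m : ℕ) (q : E n → ℝ) (w : ℝ × ℝ) : Set (E n) :=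
  {x | (0 < w.1 ∧ w.1 < (q x ^ m)⁻¹) ∧ (0 < w.2 ∧ w.2 < gs x)}

theorem cont_gs {n : ℕ} : Continuous (gs : E n → ℝ) := by
  unfold gs; fun_prop

theorem meas_AA {n : ℕ} (m : ℕ) (q : E n → ℝ) (hq : Measurable q) :
    MeasurableSet {z : (ℝ × ℝ) × E n | z.2 ∈ AA m q z.1} := by
  have h1 : Measurable (fun z : (ℝ × ℝ) × E n => z.1.1) := measurable_fst.comp measurable_fst
  have h2 : Measurable (fun z : (ℝ × ℝ) × E n => z.1.2) := measurable_snd.comp measurable_fst
  have h3 : Measurable (fun z : (ℝ × ℝ) × E n => (q z.2 ^ m)⁻¹) :=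
    ((hq.comp measurable_snd).pow_const m).inv
  have h4 : Measurable (fun z : (ℝ × ℝ) × E n => gs z.2) :=
    cont_gs.measurable.comp measurable_snd
  exact ((measurableSet_lt measurable_const h1).inter (measurableSet_lt h1 h3)).inter
    ((measurableSet_lt measurable_const h2).inter (measurableSet_lt h2 h4))

theorem lint_AA {n : ℕ} (m : ℕ) (q : E n → ℝ) (x : E n) (hq : 0 ≤ q x) :
    ∫⁻ w : ℝ × ℝ, (AA m q w).indicator (fun _ => (1 : ℝ≥0∞)) x =
      ENNReal.ofReal ((q x ^ m)⁻¹ * gs x) := by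
  have h : (fun w : ℝ × ℝ => (AA m q w).indicator (fun _ => (1 : ℝ≥0∞)) x) =
      (Ioo 0 ((q x ^ m)⁻¹) ×ˢ Ioo 0 (gs x)).indicator (fun _ => (1 : ℝ≥0∞)) := by
    funext w
    by_cases hw : x ∈ AA m q w
    · rw [indicator_of_mem hw, indicator_of_mem]
      exact hw
    · rw [indicator_of_notMem hw, indicator_of_notMem]
      exact hw
  rw [h, lintegral_indicator (measurableSet_Ioo.prod measurableSet_Ioo), setLIntegral_one,
    Measure.volume_eq_prod, Measure.prod_prod, Real.volume_Ioo, Real.volume_Ioo, sub_zero, sub_zero,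
    ← ENNReal.ofReal_mul (by positivity)]

theorem pow_c (m : ℕ) (hm : 1 ≤ m) (t : ℝ) (ht : 0 < t) :
    (t ^ (-(1 / (m : ℝ)))) ^ m = t⁻¹ := by
  have hm' : (m : ℝ) ≠ 0 := by positivity
  rw [← Real.rpow_natCast, ← Real.rpow_mul ht.le]
  have : -(1 / (m : ℝ)) * m = -1 := by field_simp
  rw [this, Real.rpow_neg_one]

theorem lt_sqrt_iff {n : ℕ} (x : E n) (s : ℝ) (hs : 0 < s) :
    ‖x‖ < √(-Real.log s / Real.pi) ↔ s < gs x := by
  rw [Real.lt_sqrt (norm_nonneg _), lt_div_iff₀ Real.pi_pos]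
  unfold gs
  rw [← Real.log_lt_iff_lt_exp hs]
  constructor <;> intro h <;> linarith

theorem mem_ball_rr {n : ℕ} (m : ℕ) (hm : 1 ≤ m) (ρ : ℝ) (hρ : 0 < ρ) (x : E n) (hx : x ≠ 0)
    (w : ℝ × ℝ) : x ∈ ball (0 : E n) (rr m ρ w) ↔ x ∈ AA m (fun x : E n => ‖x‖ / ρ) w := by
  have hx0 : 0 < ‖x‖ := norm_pos_iff.2 hx
  unfold rr
  by_cases h : 0 < w.1 ∧ 0 < w.2
  · rw [if_pos h, mem_ball_zero_iff, lt_min_iff]
    have h1 : ‖x‖ < ρ * w.1 ^ (-(1 / (m : ℝ))) ↔ w.1 < ((‖x‖ / ρ) ^ m)⁻¹ := by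
      have hc : 0 < w.1 ^ (-(1 / (m : ℝ))) := Real.rpow_pos_of_pos h.1 _
      rw [lt_inv_comm₀ h.1 (by positivity), ← pow_c m hm w.1 h.1, ← div_lt_iff₀' hρ]
      exact (pow_lt_pow_iff_left₀ (by positivity) hc.le (by omega)).symm
    rw [h1, lt_sqrt_iff x w.2 h.2]
    constructor
    · rintro ⟨h2, h3⟩
      exact ⟨⟨h.1, h2⟩, ⟨h.2, h3⟩⟩
    · rintro ⟨⟨_, h2⟩, ⟨_, h3⟩⟩
      exact ⟨h2, h3⟩
  · rw [if_neg h]
    constructor
    · intro h2
      simp at h2
    · rintro ⟨⟨h2, _⟩, ⟨h3, _⟩⟩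
      exact absurd ⟨h2, h3⟩ h

theorem vol_AA {n m : ℕ} (hm : 1 ≤ m) (q : E (n + 1) → ℝ) (hq : SN q) (ρ : ℝ) (hρ : 0 < ρ)
    (hvol : volume {x : E (n + 1) | q x ≤ 1} = volume (closedBall (0 : E (n + 1)) ρ))
    (hq0 : ∀ x, 0 ≤ q x) (w : ℝ × ℝ) :
    volume (AA m q w) ≤ volume (ball (0 : E (n + 1)) (rr m ρ w)) := by
  haveI : Nontrivial (E (n + 1)) := by
    apply Module.nontrivial_of_finrank_pos (R := ℝ)
    rw [finrank_euclideanSpace, Fintype.card_fin]; omega
  by_cases h : 0 < w.1 ∧ 0 < w.2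
  · unfold rr
    rw [if_pos h]
    rcases le_total (ρ * w.1 ^ (-(1 / (m : ℝ)))) (√(-Real.log w.2 / Real.pi)) with h1 | h1
    · rw [min_eq_left h1]
      obtain ⟨c, hcdef⟩ : ∃ c : ℝ, c = w.1 ^ (-(1 / (m : ℝ))) := ⟨_, rfl⟩
      have hc : 0 < c := by rw [hcdef]; exact Real.rpow_pos_of_pos h.1 _
      have hcm : c ^ m = w.1⁻¹ := by rw [hcdef]; exact pow_c m hm w.1 h.1
      rw [← hcdef]
      have hsub : AA m q w ⊆ c • {x : E (n + 1) | q x ≤ 1} := by
        rintro x ⟨⟨_, hx1⟩, _⟩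
        have hqx : q x < c := by
          have hpos : 0 < (q x ^ m)⁻¹ := lt_trans h.1 hx1
          have hpos' : 0 < q x ^ m := inv_pos.1 hpos
          have : q x ^ m < c ^ m := by
            rw [hcm, lt_inv_comm₀ hpos' h.1]; exact hx1
          exact lt_of_pow_lt_pow_left₀ m hc.le this
        refine Set.mem_smul_set.2 ⟨c⁻¹ • x, ?_, ?_⟩
        · show q (c⁻¹ • x) ≤ 1
          rw [hq.hom, abs_of_pos (inv_pos.2 hc), inv_mul_le_iff₀ hc]
          linarith
        · rw [smul_smul, mul_inv_cancel₀ hc.ne', one_smul]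
      calc volume (AA m q w) ≤ volume (c • {x : E (n + 1) | q x ≤ 1}) := measure_mono hsub
        _ = volume (c • closedBall (0 : E (n + 1)) ρ) := by
            rw [Measure.addHaar_smul, Measure.addHaar_smul, hvol]
        _ = volume (closedBall (0 : E (n + 1)) (ρ * c)) := by
            rw [_root_.smul_closedBall c (0 : E (n + 1)) hρ.le, smul_zero, Real.norm_of_nonneg hc.le,
              mul_comm]
        _ = volume (ball (0 : E (n + 1)) (ρ * c)) :=
            Measure.addHaar_closedBall_eq_addHaar_ball _ _ _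
    · rw [min_eq_right h1]
      apply measure_mono
      rintro x ⟨_, ⟨_, hx⟩⟩
      rw [mem_ball_zero_iff]
      exact (lt_sqrt_iff x w.2 h.2).2 hx
  · have : AA m q w = ∅ := by
      ext x
      simp only [mem_empty_iff_false, iff_false]
      rintro ⟨⟨h2, _⟩, ⟨h3, _⟩⟩
      exact h ⟨h2, h3⟩
    rw [this]; simp

theorem SN_ball {n : ℕ} (ρ : ℝ) (hρ : 0 < ρ) : SN (fun x : E n => ‖x‖ / ρ) := by
  refine ⟨by fun_prop, ?_, ?_⟩
  · intro c x
    show ‖c • x‖ / ρ = |c| * (‖x‖ / ρ)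
    rw [norm_smul, Real.norm_eq_abs]; ring
  · intro x hx
    have := norm_pos_iff.2 hx
    positivity

/-- the integrand is integrable -/
theorem integ {n N m : ℕ} (hINT : S_INT) (p : E n → ℝ) (hp : SN p) (hmn : m < n) (b : ℝ)
    (hb : 0 ≤ b) :
    Integrable (fun x : Fin N → E n => (∏ i, (p (x i) ^ m)⁻¹ * gs (x i)) *
      Real.exp (-(b * ‖∑ i, x i‖ ^ 2))) := by
  have h1 : Integrable (fun y : E n => (p y ^ m)⁻¹ * gs y) := by
    have := hINT p hp hmn Real.pi 0 Real.pi_pos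
    refine this.congr (Eventually.of_forall ?_)
    intro y
    simp [gs]
  have h2 : Integrable (fun x : Fin N → E n => ∏ i, ((p (x i) ^ m)⁻¹ * gs (x i))) := by
    have := Integrable.fintype_prod (μ := fun _ : Fin N => (volume : Measure (E n)))
      (f := fun (_ : Fin N) (y : E n) => (p y ^ m)⁻¹ * gs y) (fun _ => h1)
    exact this
  have h3 : AEStronglyMeasurable (fun x : Fin N → E n => Real.exp (-(b * ‖∑ i, x i‖ ^ 2)))
      volume := by
    apply Continuous.aestronglyMeasurable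
    fun_prop
  refine Integrable.mono h2 (h2.aestronglyMeasurable.mul h3) (Eventually.of_forall ?_)
  intro x
  rw [norm_mul]
  calc _ ≤ ‖∏ i, ((p (x i) ^ m)⁻¹ * gs (x i))‖ * 1 := by
        apply mul_le_mul_of_nonneg_left _ (norm_nonneg _)
        rw [Real.norm_eq_abs, Real.abs_exp, Real.exp_le_one_iff]
        have : 0 ≤ b * ‖∑ i, x i‖ ^ 2 := by positivity
        linarith
    _ = _ := mul_one _

end JCaux

open JCaux in
theorem JC_ok (hLAY : S_LAY) (hLB : S_LB) (hINT : S_INT) : S_JC := by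
  intro n N m hm hmn q hq ρ hρ hvol b hb
  obtain ⟨n', rfl⟩ : ∃ n', n = n' + 1 := ⟨n - 1, by omega⟩
  obtain ⟨_, hq0, _⟩ := hLB q hq
  have hp : SN (fun x : E (n' + 1) => ‖x‖ / ρ) := SN_ball ρ hρ
  obtain ⟨_, hp0, _⟩ := hLB _ hp
  have hlay := hLAY (n := n') (N := N) b hb (ℝ × ℝ) volume (fun w => AA m q w) (rr m ρ)
    (meas_AA m q hq.cont.measurable) (meas_rr m ρ) (vol_AA hm q hq ρ hρ hvol hq0)
  have hI1 := integ (N := N) hINT q hq hmn b hb
  have hI2 := integ (N := N) hINT _ hp hmn b hb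
  have gpos : ∀ x : E (n' + 1), 0 < gs x := fun x => Real.exp_pos _
  have hnn1 : ∀ x : Fin N → E (n' + 1), 0 ≤ (∏ i, (q (x i) ^ m)⁻¹ * gs (x i)) *
      Real.exp (-(b * ‖∑ i, x i‖ ^ 2)) := by
    intro x
    apply mul_nonneg _ (Real.exp_pos _).le
    apply Finset.prod_nonneg
    intro i _
    exact mul_nonneg (inv_nonneg.2 (pow_nonneg (hq0 _) _)) (gpos _).le
  have hnn2 : ∀ x : Fin N → E (n' + 1), 0 ≤ (∏ i, ((‖x i‖ / ρ) ^ m)⁻¹ * gs (x i)) *
      Real.exp (-(b * ‖∑ i, x i‖ ^ 2)) := by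
    intro x
    apply mul_nonneg _ (Real.exp_pos _).le
    apply Finset.prod_nonneg
    intro i _
    exact mul_nonneg (inv_nonneg.2 (pow_nonneg (by positivity) _)) (gpos _).le
  rw [integral_eq_lintegral_of_nonneg_ae (Eventually.of_forall hnn1) hI1.aestronglyMeasurable,
    integral_eq_lintegral_of_nonneg_ae (Eventually.of_forall hnn2) hI2.aestronglyMeasurable]
  apply ENNReal.toReal_mono
  · exact (hasFiniteIntegral_iff_ofReal (Eventually.of_forall hnn2)).1 hI2.hasFiniteIntegral |>.ne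
  · have e1 : ∫⁻ x : Fin N → E (n' + 1), (∏ i, ∫⁻ w : ℝ × ℝ,
        (AA m q w).indicator (fun _ => (1 : ℝ≥0∞)) (x i)) *
        ENNReal.ofReal (Real.exp (-(b * ‖∑ i, x i‖ ^ 2))) =
        ∫⁻ x : Fin N → E (n' + 1), ENNReal.ofReal ((∏ i, (q (x i) ^ m)⁻¹ * gs (x i)) *
          Real.exp (-(b * ‖∑ i, x i‖ ^ 2))) := by
      apply lintegral_congr
      intro x
      rw [ENNReal.ofReal_mul (Finset.prod_nonneg (fun i _ =>
        mul_nonneg (inv_nonneg.2 (pow_nonneg (hq0 _) _)) (gpos _).le)),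
        ENNReal.ofReal_prod_of_nonneg (fun i _ =>
        mul_nonneg (inv_nonneg.2 (pow_nonneg (hq0 _) _)) (gpos _).le)]
      congr 1
      apply Finset.prod_congr rfl
      intro i _
      exact lint_AA m q (x i) (hq0 _)
    have hne : ∀ᵐ x : Fin N → E (n' + 1), ∀ i, x i ≠ 0 := by
      rw [ae_all_iff]
      intro i
      haveI : Nontrivial (E (n' + 1)) := by
        apply Module.nontrivial_of_finrank_pos (R := ℝ)
        rw [finrank_euclideanSpace, Fintype.card_fin]; omega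
      have h0 : ∀ᵐ y : E (n' + 1), y ≠ 0 := Measure.ae_ne volume 0
      exact (Measure.tendsto_eval_ae_ae (μ := fun _ : Fin N => (volume : Measure (E (n' + 1))))
        (i := i)).eventually h0
    have e2 : ∫⁻ x : Fin N → E (n' + 1), (∏ i, ∫⁻ w : ℝ × ℝ,
        (ball (0 : E (n' + 1)) (rr m ρ w)).indicator (fun _ => (1 : ℝ≥0∞)) (x i)) *
        ENNReal.ofReal (Real.exp (-(b * ‖∑ i, x i‖ ^ 2))) =
        ∫⁻ x : Fin N → E (n' + 1), ENNReal.ofReal ((∏ i, ((‖x i‖ / ρ) ^ m)⁻¹ * gs (x i)) *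
          Real.exp (-(b * ‖∑ i, x i‖ ^ 2))) := by
      apply lintegral_congr_ae
      filter_upwards [hne] with x hx
      rw [ENNReal.ofReal_mul (Finset.prod_nonneg (fun i _ =>
        mul_nonneg (inv_nonneg.2 (pow_nonneg (by positivity) _)) (gpos _).le)),
        ENNReal.ofReal_prod_of_nonneg (fun i _ =>
        mul_nonneg (inv_nonneg.2 (pow_nonneg (by positivity) _)) (gpos _).le)]
      congr 1
      apply Finset.prod_congr rfl
      intro i _
      rw [← lint_AA m (fun x : E (n' + 1) => ‖x‖ / ρ) (x i) (hp0 _)]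
      apply lintegral_congr
      intro w
      by_cases hw : x i ∈ ball (0 : E (n' + 1)) (rr m ρ w)
      · rw [indicator_of_mem hw, indicator_of_mem ((mem_ball_rr m hm ρ hρ (x i) (hx i) w).1 hw)]
      · rw [indicator_of_notMem hw,
          indicator_of_notMem (fun h => hw ((mem_ball_rr m hm ρ hρ (x i) (hx i) w).2 h))]
    rw [← e1, ← e2]
    exact hlay

end Pool.Agent.H638.KI
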