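import Pool.Agent.H638.KI.Defs

/-! KI task JF: the multiple integral as a Fourier integral. -/

set_option autoImplicit false

open MeasureTheory Set Filter Topology Metric
open scoped Pointwise RealInnerProductSpace ENNReal

namespace Pool.Agent.H638.KI

open Pool.Agent.H638.IB (E mk)

namespace JFaux

open Complex in
/-- the Gaussian as a Fourier integral -/
theorem gauss {n : ℕ} (R : ℝ) (hR : 0 < R) (w : E n) :
    ∫ y : E n, cexp (-((Real.pi / R ^ 2 : ℝ) : ℂ) * ‖y‖ ^ 2 + (-(2 * Real.pi * I)) * ⟪w, y⟫) =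
      ((R ^ n * Real.exp (-(Real.pi * R ^ 2 * ‖w‖ ^ 2)) : ℝ) : ℂ) := by
  have hb : 0 < (((Real.pi / R ^ 2 : ℝ) : ℂ)).re := by
    rw [ofReal_re]
    positivity
  rw [GaussianFourier.integral_cexp_neg_mul_sq_norm_add hb]
  have h1 : ((Real.pi : ℂ) / ((Real.pi / R ^ 2 : ℝ) : ℂ)) = ((R ^ 2 : ℝ) : ℂ) := by
    rw [← ofReal_div]
    congr 1
    have := Real.pi_pos.ne'
    field_simp
  have h2 : ((R ^ 2 : ℝ) : ℂ) ^ ((Module.finrank ℝ (E n) : ℂ) / 2) = ((R ^ n : ℝ) : ℂ) := by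
    have hf : Module.finrank ℝ (E n) = n := by simp [E]
    rw [hf]
    have h3 : ((n : ℂ) / 2) = (((n : ℝ) / 2 : ℝ) : ℂ) := by push_cast; ring
    rw [h3, ← ofReal_cpow (by positivity)]
    congr 1
    rw [← Real.rpow_natCast R 2, ← Real.rpow_mul hR.le]
    rw [show ((2 : ℕ) : ℝ) * ((n : ℝ) / 2) = (n : ℝ) by push_cast; ring, Real.rpow_natCast]
  rw [h1, h2, ofReal_mul, ofReal_exp]
  congr 2
  have hR' : (R : ℂ) ≠ 0 := ofReal_ne_zero.2 hR.ne'
  have hpi : (Real.pi : ℂ) ≠ 0 := ofReal_ne_zero.2 Real.pi_pos.ne'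
  push_cast
  field_simp
  ring_nf
  rw [I_sq]
  ring

open Complex in
/-- the Fourier integral of an even function -/
theorem four {n : ℕ} (f : E n → ℝ) (hf : Integrable f) (he : ∀ x, f (-x) = f x) (y : E n) :
    ∫ x : E n, (f x : ℂ) * cexp ((-(2 * Real.pi * I)) * ⟪x, y⟫) =
      ((∫ x : E n, f x * Real.cos (2 * Real.pi * ⟪x, y⟫) : ℝ) : ℂ) := by
  have hcont : ∀ c : ℂ, Continuous (fun x : E n => cexp (c * ((⟪x, y⟫ : ℝ) : ℂ))) := by
    intro c
    fun_prop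
  have hnorm : ∀ (s : ℝ) (x : E n), ‖cexp ((s * I) * ((⟪x, y⟫ : ℝ) : ℂ))‖ ≤ 1 := by
    intro s x
    have : (s * I) * ((⟪x, y⟫ : ℝ) : ℂ) = ((s * ⟪x, y⟫ : ℝ) : ℂ) * I := by push_cast; ring
    rw [this, Complex.norm_exp_ofReal_mul_I]
  have hint : ∀ s : ℝ, Integrable (fun x : E n =>
      (f x : ℂ) * cexp ((s * I) * ((⟪x, y⟫ : ℝ) : ℂ))) := by
    intro s
    exact hf.ofReal.mul_bdd (c := 1) (hcont _).aestronglyMeasurable
      (Eventually.of_forall (hnorm s))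
  have e1 : ∫ x : E n, (f x : ℂ) * cexp ((-(2 * Real.pi * I)) * ⟪x, y⟫) =
      ∫ x : E n, (f x : ℂ) * cexp ((2 * Real.pi * I) * ⟪x, y⟫) := by
    rw [← integral_neg_eq_self]
    refine integral_congr_ae (Eventually.of_forall fun x => ?_)
    simp only [he, inner_neg_left, ofReal_neg]
    congr 2
    ring
  have h1 := hint (-(2 * Real.pi))
  have h2 := hint (2 * Real.pi)
  have e2 : ∫ x : E n, (f x : ℂ) * cexp ((-(2 * Real.pi * I)) * ⟪x, y⟫) =
      ((1 : ℂ) / 2) * ((∫ x : E n, (f x : ℂ) * cexp ((-(2 * Real.pi * I)) * ⟪x, y⟫)) +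
      ∫ x : E n, (f x : ℂ) * cexp ((2 * Real.pi * I) * ⟪x, y⟫)) := by
    rw [← e1]
    ring
  rw [e2, ← integral_add, ← integral_const_mul, ← integral_complex_ofReal]
  · refine integral_congr_ae (Eventually.of_forall fun x => ?_)
    simp only
    push_cast
    rw [Complex.cos]
    have a1 : (-(2 * (Real.pi : ℂ) * I)) * ((⟪x, y⟫ : ℝ) : ℂ) =
        -(2 * Real.pi * ((⟪x, y⟫ : ℝ) : ℂ)) * I := by ring
    have a2 : ((2 * (Real.pi : ℂ) * I)) * ((⟪x, y⟫ : ℝ) : ℂ) =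
        (2 * Real.pi * ((⟪x, y⟫ : ℝ) : ℂ)) * I := by ring
    rw [a1, a2]
    ring
  · refine h1.congr (Eventually.of_forall fun x => ?_)
    simp only
    congr 2
    push_cast
    ring
  · refine h2.congr (Eventually.of_forall fun x => ?_)
    simp only
    congr 2
    push_cast
    ring

open Complex in
theorem main {n N : ℕ} (f : E n → ℝ) (hf : Integrable f) (he : ∀ x, f (-x) = f x)
    (R : ℝ) (hR : 0 < R) :
    ∫ x : Fin N → E n, ((∏ i, (f (x i) : ℂ)) *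
        ((R ^ n * Real.exp (-(Real.pi * R ^ 2 * ‖∑ i, x i‖ ^ 2)) : ℝ) : ℂ)) =
      ∫ y : E n, (((∫ x : E n, f x * Real.cos (2 * Real.pi * ⟪x, y⟫)) ^ N *
        Real.exp (-(Real.pi * ‖y‖ ^ 2 / R ^ 2)) : ℝ) : ℂ) := by
  have hb : 0 < (((Real.pi / R ^ 2 : ℝ) : ℂ)).re := by
    rw [ofReal_re]
    positivity
  have hg0 : Integrable (fun y : E n => cexp (-((Real.pi / R ^ 2 : ℝ) : ℂ) * ‖y‖ ^ 2)) := by
    refine (GaussianFourier.integrable_cexp_neg_mul_sq_norm_add hb 0 (0 : E n)).congr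
      (Eventually.of_forall fun y => ?_)
    simp
  have hF : Integrable (fun x : Fin N → E n => ∏ i, (f (x i) : ℂ)) :=
    Integrable.fintype_prod (f := fun _ x => (f x : ℂ)) (fun _ => hf.ofReal)
  have hprod : Integrable (Function.uncurry fun (x : Fin N → E n) (y : E n) =>
      (∏ i, (f (x i) : ℂ)) * cexp (-((Real.pi / R ^ 2 : ℝ) : ℂ) * ‖y‖ ^ 2 +
        (-(2 * Real.pi * I)) * ((⟪∑ i, x i, y⟫ : ℝ) : ℂ)))
      ((volume : Measure (Fin N → E n)).prod (volume : Measure (E n))) := by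
    have h1 := (hF.mul_prod hg0).mul_bdd (c := 1)
      (g := fun z : (Fin N → E n) × E n => cexp ((-(2 * Real.pi * I)) *
        ((⟪∑ i, z.1 i, z.2⟫ : ℝ) : ℂ))) ?_ ?_
    · refine h1.congr (Eventually.of_forall fun z => ?_)
      simp only [Function.uncurry]
      rw [Complex.exp_add, mul_assoc]
    · apply Continuous.aestronglyMeasurable
      fun_prop
    · refine Eventually.of_forall fun z => ?_
      have : (-(2 * (Real.pi : ℂ) * I)) * ((⟪∑ i, z.1 i, z.2⟫ : ℝ) : ℂ) =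
          ((-(2 * Real.pi) * ⟪∑ i, z.1 i, z.2⟫ : ℝ) : ℂ) * I := by push_cast; ring
      rw [this, Complex.norm_exp_ofReal_mul_I]
  calc ∫ x : Fin N → E n, ((∏ i, (f (x i) : ℂ)) *
        ((R ^ n * Real.exp (-(Real.pi * R ^ 2 * ‖∑ i, x i‖ ^ 2)) : ℝ) : ℂ))
      = ∫ x : Fin N → E n, ∫ y : E n, (∏ i, (f (x i) : ℂ)) *
          cexp (-((Real.pi / R ^ 2 : ℝ) : ℂ) * ‖y‖ ^ 2 +
          (-(2 * Real.pi * I)) * ((⟪∑ i, x i, y⟫ : ℝ) : ℂ)) := by
        refine integral_congr_ae (Eventually.of_forall fun x => ?_)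
        simp only
        rw [integral_const_mul, gauss R hR]
    _ = ∫ y : E n, ∫ x : Fin N → E n, (∏ i, (f (x i) : ℂ)) *
          cexp (-((Real.pi / R ^ 2 : ℝ) : ℂ) * ‖y‖ ^ 2 +
          (-(2 * Real.pi * I)) * ((⟪∑ i, x i, y⟫ : ℝ) : ℂ)) := integral_integral_swap hprod
    _ = _ := by
        refine integral_congr_ae (Eventually.of_forall fun y => ?_)
        simp only
        have h2 : ∀ x : Fin N → E n, (∏ i, (f (x i) : ℂ)) *
            cexp (-((Real.pi / R ^ 2 : ℝ) : ℂ) * ‖y‖ ^ 2 +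
            (-(2 * Real.pi * I)) * ((⟪∑ i, x i, y⟫ : ℝ) : ℂ)) =
            cexp (-((Real.pi / R ^ 2 : ℝ) : ℂ) * ‖y‖ ^ 2) *
            ∏ i, ((f (x i) : ℂ) * cexp ((-(2 * Real.pi * I)) * ((⟪x i, y⟫ : ℝ) : ℂ))) := by
          intro x
          rw [Finset.prod_mul_distrib, ← Complex.exp_sum, ← Finset.mul_sum, Complex.exp_add,
            sum_inner, ofReal_sum]
          ring
        simp_rw [h2]
        rw [integral_const_mul, integral_fintype_prod_volume_eq_pow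
          (fun x : E n => (f x : ℂ) * cexp ((-(2 * Real.pi * I)) * ((⟪x, y⟫ : ℝ) : ℂ))),
          four f hf he y, Fintype.card_fin, ofReal_mul, ofReal_pow, mul_comm]
        congr 1
        rw [ofReal_exp]
        congr 1
        push_cast
        ring

end JFaux

theorem JF_ok : S_JF := by
  intro n N f hf he R hR
  have h := JFaux.main (N := N) f hf he R hR
  have h1 : ∫ x : Fin N → E n, ((∏ i, (f (x i) : ℂ)) *
        ((R ^ n * Real.exp (-(Real.pi * R ^ 2 * ‖∑ i, x i‖ ^ 2)) : ℝ) : ℂ)) =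
      ((∫ x : Fin N → E n, (∏ i, f (x i)) *
        (R ^ n * Real.exp (-(Real.pi * R ^ 2 * ‖∑ i, x i‖ ^ 2))) : ℝ) : ℂ) := by
    rw [← integral_complex_ofReal]
    refine integral_congr_ae (Eventually.of_forall fun x => ?_)
    simp
  rw [h1, integral_complex_ofReal] at h
  exact_mod_cast h

end Pool.Agent.H638.KI
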