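import Pool.Agent.H638.KI.Defs

/-! KI, task LAY (helper330): the layer cake version of the rearrangement inequality. -/

set_option autoImplicit false

open MeasureTheory Set Filter Topology Metric
open scoped Pointwise RealInnerProductSpace ENNReal

namespace Pool.Agent.H638.KI

open Pool.Agent.H638.IB (E mk)

namespace LAYaux

theorem lprod {Ω : Type} [MeasurableSpace Ω] (μ : Measure Ω) [SigmaFinite μ] (N : ℕ) :
    ∀ f : Fin N → Ω → ℝ≥0∞, (∀ i, Measurable (f i)) →
    ∫⁻ ω : Fin N → Ω, ∏ i, f i (ω i) ∂(Measure.pi fun _ => μ) = ∏ i, ∫⁻ w, f i w ∂μ := by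
  induction N with
  | zero =>
    intro f _
    rw [Measure.pi_of_empty]
    simp
  | succ N ih =>
    intro f hf
    have mp := (measurePreserving_piFinSuccAbove (fun _ : Fin (N + 1) => μ) 0).symm
    have hm : Measurable fun ω : Fin (N + 1) → Ω => ∏ i, f i (ω i) :=
      Finset.measurable_prod _ fun i _ => (hf i).comp (measurable_pi_apply i)
    rw [← mp.lintegral_comp hm]
    have e1 : ∀ p : Ω × (Fin N → Ω),
        ∏ i, f i ((MeasurableEquiv.piFinSuccAbove (fun _ : Fin (N + 1) => Ω) 0).symm p i) =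
        f 0 p.1 * ∏ i : Fin N, f i.succ (p.2 i) := by
      intro p
      rw [Fin.prod_univ_succ]
      rfl
    simp only [e1]
    have hm2 : Measurable fun ω : Fin N → Ω => ∏ i, f i.succ (ω i) :=
      Finset.measurable_prod _ fun i _ => (hf i.succ).comp (measurable_pi_apply i)
    rw [lintegral_prod_mul (hf 0).aemeasurable hm2.aemeasurable, Fin.prod_univ_succ,
      ih (fun i => f i.succ) (fun i => hf i.succ)]

theorem lay_eq {n N : ℕ} (b : ℝ) (Ω : Type) [MeasurableSpace Ω] (μ : Measure Ω) [SigmaFinite μ]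
    (A : Ω → Set (E n)) (hA : MeasurableSet {z : Ω × E n | z.2 ∈ A z.1}) :
    ∫⁻ x : Fin N → E n, (∏ i, ∫⁻ w, (A w).indicator (fun _ => (1 : ℝ≥0∞)) (x i) ∂μ) *
        ENNReal.ofReal (Real.exp (-(b * ‖∑ i, x i‖ ^ 2))) =
    ∫⁻ ω : Fin N → Ω, PHI b (fun i => A (ω i)) ∂(Measure.pi fun _ => μ) := by
  have hI : Measurable fun z : Ω × E n => (A z.1).indicator (fun _ => (1 : ℝ≥0∞)) z.2 := by
    have h1 : Measurable (({z : Ω × E n | z.2 ∈ A z.1}).indicator
      (fun _ : Ω × E n => (1 : ℝ≥0∞))) := measurable_const.indicator hA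
    exact h1
  have hg : Measurable fun x : Fin N → E n =>
      ENNReal.ofReal (Real.exp (-(b * ‖∑ i, x i‖ ^ 2))) := by
    have : Continuous fun x : Fin N → E n => Real.exp (-(b * ‖∑ i, x i‖ ^ 2)) := by fun_prop
    exact this.measurable.ennreal_ofReal
  have h2 : ∀ x : Fin N → E n,
      (∏ i, ∫⁻ w, (A w).indicator (fun _ => (1 : ℝ≥0∞)) (x i) ∂μ) *
        ENNReal.ofReal (Real.exp (-(b * ‖∑ i, x i‖ ^ 2))) =
      ∫⁻ ω : Fin N → Ω, (∏ i, (A (ω i)).indicator (fun _ => (1 : ℝ≥0∞)) (x i)) *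
        ENNReal.ofReal (Real.exp (-(b * ‖∑ i, x i‖ ^ 2))) ∂(Measure.pi fun _ => μ) := by
    intro x
    have h3 : ∀ i, Measurable fun w => (A w).indicator (fun _ => (1 : ℝ≥0∞)) (x i) :=
      fun i => hI.comp (measurable_id.prodMk measurable_const)
    rw [lintegral_mul_const', lprod μ N (fun i w => (A w).indicator (fun _ => (1 : ℝ≥0∞)) (x i)) h3]
    exact ENNReal.ofReal_ne_top
  simp only [h2]
  rw [lintegral_lintegral_swap]
  · rfl
  · refine Measurable.aemeasurable ?_
    refine Measurable.mul ?_ (hg.comp measurable_fst)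
    apply Finset.measurable_prod
    intro i _
    have h5 : Measurable fun p : (Fin N → E n) × (Fin N → Ω) => (p.2 i, p.1 i) := by fun_prop
    exact hI.comp h5

end LAYaux

theorem LAY_ok (h1 : S_BLN) : S_LAY := by
  intro n N b hb Ω _ μ _ A r hA hr hvol
  have hB : MeasurableSet {z : Ω × E (n + 1) | z.2 ∈ ball (0 : E (n + 1)) (r z.1)} := by
    have : {z : Ω × E (n + 1) | z.2 ∈ ball (0 : E (n + 1)) (r z.1)} =
        {z : Ω × E (n + 1) | ‖z.2‖ < r z.1} := by
      ext z
      simp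
    rw [this]
    exact measurableSet_lt (continuous_norm.measurable.comp measurable_snd)
      (hr.comp measurable_fst)
  rw [LAYaux.lay_eq b Ω μ A hA, LAYaux.lay_eq b Ω μ (fun w => ball (0 : E (n + 1)) (r w)) hB]
  apply lintegral_mono
  intro ω
  apply h1 b hb
  · intro i
    exact measurable_prodMk_left hA
  · intro i
    exact hvol (ω i)

end Pool.Agent.H638.KI
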