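import Pool.Agent.H638.KI.Defs

/-! Task LB: a star norm is comparable with the Euclidean norm. -/

set_option autoImplicit false

open MeasureTheory Filter Topology
open scoped ENNReal

namespace Pool.Agent.H638.KI

open Pool.Agent.H638.IB (E mk)

theorem LB_ok : S_LB := by
  intro n p hp
  have h0 : p 0 = 0 := by
    have := hp.hom 0 0
    simpa using this
  have hnn : ∀ x, 0 ≤ p x := by
    intro x
    by_cases hx : x = 0
    · rw [hx, h0]
    · exact (hp.pos x hx).le
  refine ⟨h0, hnn, ?_⟩
  rcases Nat.eq_zero_or_pos n with hn | hn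
  · subst hn
    refine ⟨1, 1, one_pos, one_pos, fun x => ?_⟩
    have hx : x = 0 := Subsingleton.elim _ _
    rw [hx, h0]
    simp
  · have : Nonempty (Fin n) := ⟨⟨0, hn⟩⟩
    have hS : IsCompact (Metric.sphere (0 : E n) 1) := isCompact_sphere 0 1
    have hne : (Metric.sphere (0 : E n) 1).Nonempty := NormedSpace.sphere_nonempty.2 zero_le_one
    obtain ⟨a, ha, hamin⟩ := hS.exists_isMinOn hne hp.cont.continuousOn
    obtain ⟨b, hb, hbmax⟩ := hS.exists_isMaxOn hne hp.cont.continuousOn
    have hane : a ≠ 0 := by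
      intro h
      rw [h] at ha
      simp at ha
    have hbne : b ≠ 0 := by
      intro h
      rw [h] at hb
      simp at hb
    refine ⟨p a, p b, hp.pos a hane, hp.pos b hbne, fun x => ?_⟩
    by_cases hx : x = 0
    · rw [hx, h0]
      simp
    · have hnx : 0 < ‖x‖ := norm_pos_iff.2 hx
      have hmem : ‖x‖⁻¹ • x ∈ Metric.sphere (0 : E n) 1 := by
        rw [mem_sphere_zero_iff_norm, norm_smul, norm_inv, norm_norm]
        exact inv_mul_cancel₀ hnx.ne'
      have e : p x = p (‖x‖⁻¹ • x) * ‖x‖ := by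
        rw [hp.hom, abs_of_pos (inv_pos.2 hnx)]
        field_simp
      rw [e]
      exact ⟨mul_le_mul_of_nonneg_right (hamin hmem) hnx.le,
        mul_le_mul_of_nonneg_right (hbmax hmem) hnx.le⟩

end Pool.Agent.H638.KI
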