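import Pool.Agent.H638.KI.Defs

/-! LOG1: one-dimensional logarithmic asymptotics. -/

set_option autoImplicit false

open MeasureTheory Set Filter Topology Metric
open scoped Pointwise RealInnerProductSpace ENNReal

namespace Pool.Agent.H638.KI

namespace LOG1aux

noncomputable def f (R r : ℝ) : ℝ := r⁻¹ * Real.exp (-(Real.pi * r ^ 2 / R ^ 2))

theorem f_cont (R : ℝ) : ContinuousOn (f R) (Ioi 0) := by
  intro r hr
  have hr0 : r ≠ 0 := ne_of_gt hr
  unfold f
  apply ContinuousAt.continuousWithinAt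
  have : ContinuousAt (fun r : ℝ => r⁻¹) r := continuousAt_inv₀ hr0
  fun_prop

theorem f_nonneg (R : ℝ) {r : ℝ} (hr : 0 < r) : 0 ≤ f R r := by
  unfold f
  positivity

theorem f_int {R : ℝ} (hR : 1 < R) : IntegrableOn (f R) (Ioi 1) := by
  have hb : 0 < Real.pi / R ^ 2 := by positivity
  have h1 : IntegrableOn (fun x : ℝ => Real.exp (-(Real.pi / R ^ 2) * x ^ 2)) (Ioi 1) :=
    (integrable_exp_neg_mul_sq hb).integrableOn
  refine Integrable.mono' h1 ?_ ?_
  · exact ((f_cont R).mono (Ioi_subset_Ioi zero_le_one)).aestronglyMeasurable measurableSet_Ioi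
  · rw [ae_restrict_iff' measurableSet_Ioi]
    refine Eventually.of_forall fun r hr => ?_
    have hr1 : (1 : ℝ) < r := hr
    have hr0 : 0 < r := by linarith
    rw [Real.norm_of_nonneg (f_nonneg R hr0)]
    unfold f
    have h2 : r⁻¹ ≤ 1 := inv_le_one_of_one_le₀ hr1.le
    have h3 : -(Real.pi * r ^ 2 / R ^ 2) = -(Real.pi / R ^ 2) * r ^ 2 := by ring
    rw [h3]
    have h4 := Real.exp_pos (-(Real.pi / R ^ 2) * r ^ 2)
    nlinarith

theorem split {R : ℝ} (hR : 1 < R) :
    ∫ r in Ioi (1 : ℝ), f R r = (∫ r in (1 : ℝ)..R, f R r) + ∫ r in Ioi R, f R r := by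
  have h1 := f_int hR
  rw [intervalIntegral.integral_of_le hR.le, ← setIntegral_union (Ioc_disjoint_Ioi le_rfl)
    measurableSet_Ioi (h1.mono_set Ioc_subset_Ioi_self)
    (h1.mono_set (Ioi_subset_Ioi hR.le)), Ioc_union_Ioi_eq_Ioi hR.le]

theorem tail_nonneg {R : ℝ} (hR : 1 < R) : 0 ≤ ∫ r in Ioi R, f R r := by
  refine setIntegral_nonneg measurableSet_Ioi fun r hr => ?_
  exact f_nonneg R (by have : R < r := hr; linarith)

theorem f_ii {R : ℝ} (hR : 1 < R) : IntervalIntegrable (f R) volume 1 R := by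
  rw [intervalIntegrable_iff_integrableOn_Ioc_of_le hR.le]
  exact (f_int hR).mono_set Ioc_subset_Ioi_self

theorem inv_ii {R : ℝ} (hR : 1 < R) : IntervalIntegrable (fun r : ℝ => r⁻¹) volume 1 R := by
  refine ContinuousOn.intervalIntegrable ?_
  intro r hr
  rw [uIcc_of_le hR.le] at hr
  exact (continuousAt_inv₀ (by have := hr.1; linarith)).continuousWithinAt

theorem lin_ii (R : ℝ) : IntervalIntegrable (fun r : ℝ => Real.pi / R ^ 2 * r) volume 1 R := by
  have h : Continuous (fun r : ℝ => Real.pi / R ^ 2 * r) := by fun_prop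
  exact h.intervalIntegrable _ _

theorem main_upper {R : ℝ} (hR : 1 < R) : ∫ r in (1 : ℝ)..R, f R r ≤ Real.log R := by
  have h1 : ∫ r in (1 : ℝ)..R, r⁻¹ = Real.log R := by
    rw [integral_inv_of_pos one_pos (by linarith), div_one]
  rw [← h1]
  refine intervalIntegral.integral_mono_on hR.le (f_ii hR) (inv_ii hR) fun r hr => ?_
  have hr0 : 0 < r := by have := hr.1; linarith
  unfold f
  have h2 : Real.exp (-(Real.pi * r ^ 2 / R ^ 2)) ≤ 1 := by
    rw [Real.exp_le_one_iff]
    have : 0 ≤ Real.pi * r ^ 2 / R ^ 2 := by positivity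
    linarith
  have h3 : 0 < r⁻¹ := inv_pos.mpr hr0
  nlinarith

theorem main_lower {R : ℝ} (hR : 1 < R) :
    Real.log R - Real.pi / 2 ≤ ∫ r in (1 : ℝ)..R, f R r := by
  have h1 : ∫ r in (1 : ℝ)..R, (r⁻¹ - Real.pi / R ^ 2 * r) =
      Real.log R - Real.pi / R ^ 2 * ((R ^ 2 - 1 ^ 2) / 2) := by
    rw [intervalIntegral.integral_sub (inv_ii hR) (lin_ii R),
      intervalIntegral.integral_const_mul, integral_id,
      integral_inv_of_pos one_pos (by linarith), div_one]
  have h2 : Real.log R - Real.pi / 2 ≤ ∫ r in (1 : ℝ)..R, (r⁻¹ - Real.pi / R ^ 2 * r) := by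
    rw [h1]
    have h3 : Real.pi / R ^ 2 * ((R ^ 2 - 1 ^ 2) / 2) = Real.pi / 2 - Real.pi / (2 * R ^ 2) := by
      have : R ≠ 0 := by linarith
      field_simp
    rw [h3]
    have h4 : 0 < Real.pi / (2 * R ^ 2) := by positivity
    linarith
  refine h2.trans ?_
  refine intervalIntegral.integral_mono_on hR.le
    ((inv_ii hR).sub (lin_ii R)) (f_ii hR)
    fun r hr => ?_
  have hr0 : 0 < r := by have := hr.1; linarith
  unfold f
  have h3 := Real.add_one_le_exp (-(Real.pi * r ^ 2 / R ^ 2))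
  have h4 : 0 < r⁻¹ := inv_pos.mpr hr0
  calc r⁻¹ - Real.pi / R ^ 2 * r = r⁻¹ * (-(Real.pi * r ^ 2 / R ^ 2) + 1) := by
        field_simp
        ring
    _ ≤ r⁻¹ * Real.exp (-(Real.pi * r ^ 2 / R ^ 2)) := by gcongr

theorem tail_upper {R : ℝ} (hR : 1 < R) : ∫ r in Ioi R, f R r ≤ 1 := by
  have hR0 : 0 < R := by linarith
  have hpi := Real.pi_pos
  set G : ℝ → ℝ := fun r => -(1 / (2 * Real.pi)) * Real.exp (-(Real.pi * r ^ 2 / R ^ 2)) with hG
  set g : ℝ → ℝ := fun r => r / R ^ 2 * Real.exp (-(Real.pi * r ^ 2 / R ^ 2)) with hg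
  have hder : ∀ r : ℝ, HasDerivAt G (g r) r := by
    intro r
    have h0 : HasDerivAt (fun r : ℝ => Real.pi * r ^ 2 / R ^ 2)
        (Real.pi * (2 * r) / R ^ 2) r := by
      simpa using ((hasDerivAt_pow 2 r).const_mul Real.pi).div_const (R ^ 2)
    have h1 : HasDerivAt (fun r : ℝ => -(Real.pi * r ^ 2 / R ^ 2))
        (-(Real.pi * (2 * r) / R ^ 2)) r := h0.fun_neg
    have h2 := (h1.exp).const_mul (-(1 / (2 * Real.pi)))
    refine h2.congr_deriv ?_
    rw [hg]
    simp only
    field_simp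
  have hlim : Tendsto G atTop (𝓝 0) := by
    have h1 : Tendsto (fun r : ℝ => -(Real.pi * r ^ 2 / R ^ 2)) atTop atBot := by
      apply tendsto_neg_atTop_atBot.comp
      have h2 : (fun r : ℝ => Real.pi * r ^ 2 / R ^ 2) = fun r : ℝ => (Real.pi / R ^ 2) * r ^ 2 := by
        funext r; ring
      rw [h2]
      exact Tendsto.const_mul_atTop (by positivity) (tendsto_pow_atTop (by norm_num))
    have h2 := (Real.tendsto_exp_atBot.comp h1).const_mul (-(1 / (2 * Real.pi)))
    rw [mul_zero] at h2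
    exact h2
  have hgn : ∀ r ∈ Ioi R, 0 ≤ g r := by
    intro r hr
    have hr0 : 0 < r := lt_trans hR0 hr
    rw [hg]
    positivity
  have hgi : IntegrableOn g (Ioi R) :=
    integrableOn_Ioi_deriv_of_nonneg (hder R).continuousAt.continuousWithinAt
      (fun r _ => hder r) hgn hlim
  have hval : ∫ r in Ioi R, g r = 0 - G R :=
    integral_Ioi_of_hasDerivAt_of_nonneg (hder R).continuousAt.continuousWithinAt
      (fun r _ => hder r) hgn hlim
  have hle : ∫ r in Ioi R, f R r ≤ ∫ r in Ioi R, g r := by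
    refine setIntegral_mono_on ((f_int hR).mono_set (Ioi_subset_Ioi hR.le)) hgi
      measurableSet_Ioi fun r hr => ?_
    have hr0 : 0 < r := lt_trans hR0 hr
    have hr1 : R < r := hr
    unfold f
    rw [hg]
    simp only
    have h1 : r⁻¹ ≤ r / R ^ 2 := by
      rw [inv_eq_one_div, div_le_div_iff₀ hr0 (by positivity)]
      nlinarith
    gcongr
  refine hle.trans ?_
  rw [hval, hG]
  simp only
  have h1 : Real.exp (-(Real.pi * R ^ 2 / R ^ 2)) ≤ 1 := by
    rw [Real.exp_le_one_iff]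
    have : 0 ≤ Real.pi * R ^ 2 / R ^ 2 := by positivity
    linarith
  have h2 : 0 < Real.exp (-(Real.pi * R ^ 2 / R ^ 2)) := Real.exp_pos _
  have h3 : 1 / (2 * Real.pi) ≤ 1 := by
    rw [div_le_one (by positivity)]
    have := Real.pi_gt_three
    linarith
  have h4 : 0 < 1 / (2 * Real.pi) := by positivity
  nlinarith

end LOG1aux

open LOG1aux

theorem LOG1_ok : S_LOG1 := by
  unfold S_LOG1
  have hinv : Tendsto (fun R : ℝ => (Real.log R)⁻¹) atTop (𝓝 0) :=
    tendsto_inv_atTop_zero.comp Real.tendsto_log_atTop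
  have lo : Tendsto (fun R : ℝ => 1 - Real.pi / 2 * (Real.log R)⁻¹) atTop (𝓝 1) := by
    have := (hinv.const_mul (Real.pi / 2)).const_sub 1
    simpa using this
  have hi : Tendsto (fun R : ℝ => 1 + (Real.log R)⁻¹) atTop (𝓝 1) := by
    have := hinv.const_add 1
    simpa using this
  refine tendsto_of_tendsto_of_tendsto_of_le_of_le' lo hi ?_ ?_
  · filter_upwards [eventually_gt_atTop 1] with R hR
    have hl : 0 < Real.log R := Real.log_pos hR
    have h1 := main_lower hR
    have h2 := tail_nonneg hR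
    have h3 := split hR
    have h4 : Real.log R - Real.pi / 2 ≤ ∫ r in Ioi (1 : ℝ), f R r := by rw [h3]; linarith
    calc 1 - Real.pi / 2 * (Real.log R)⁻¹ = (Real.log R)⁻¹ * (Real.log R - Real.pi / 2) := by
          field_simp
      _ ≤ (Real.log R)⁻¹ * ∫ r in Ioi (1 : ℝ), f R r := by gcongr
  · filter_upwards [eventually_gt_atTop 1] with R hR
    have hl : 0 < Real.log R := Real.log_pos hR
    have h1 := main_upper hR
    have h2 := tail_upper hR
    have h3 := split hR
    have h4 : ∫ r in Ioi (1 : ℝ), f R r ≤ Real.log R + 1 := by rw [h3]; linarith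
    calc (Real.log R)⁻¹ * ∫ r in Ioi (1 : ℝ), f R r ≤ (Real.log R)⁻¹ * (Real.log R + 1) := by
          gcongr
      _ = 1 + (Real.log R)⁻¹ := by
          field_simp

end Pool.Agent.H638.KI
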