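import Pool.Agent.H638.KI.Defs

set_option autoImplicit false

open MeasureTheory Set Filter Topology Metric
open scoped Pointwise RealInnerProductSpace ENNReal

namespace Pool.Agent.H638.KI

open Pool.Agent.H638.IB (E mk)

namespace LOG2aux

theorem polar {n : ℕ} (hn : 1 ≤ n) (F : E n → ℝ≥0∞) (hF : Measurable F) :
    ∫⁻ x, F x = ∫⁻ θ : sphere (0 : E n) 1, (∫⁻ r in Ioi (0 : ℝ),
      ENNReal.ofReal (r ^ (n - 1)) * F (r • (θ : E n))) ∂(volume : Measure (E n)).toSphere := by
  have : Nonempty (Fin n) := ⟨⟨0, hn⟩⟩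
  have h1 : ∫⁻ x, F x = ∫⁻ x : ({(0 : E n)}ᶜ : Set (E n)), F x
      ∂(Measure.comap (↑) (volume : Measure (E n))) := by
    rw [lintegral_subtype_comap (measurableSet_singleton _).compl, restrict_compl_singleton]
  have h2 := (volume : Measure (E n)).measurePreserving_homeomorphUnitSphereProd.lintegral_comp_emb
    (Homeomorph.measurableEmbedding _) (fun q : sphere (0 : E n) 1 × Ioi (0 : ℝ) =>
      F ((q.2 : ℝ) • (q.1 : E n)))
  have h3 : ∀ x : ({(0 : E n)}ᶜ : Set (E n)),
      F ((((homeomorphUnitSphereProd (E n)) x).2 : ℝ) •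
        (((homeomorphUnitSphereProd (E n)) x).1 : E n)) = F x := by
    intro x
    have hx : (x : E n) ≠ 0 := x.2
    rw [homeomorphUnitSphereProd_apply_snd_coe, homeomorphUnitSphereProd_apply_fst_coe,
      smul_smul, mul_inv_cancel₀ (norm_ne_zero_iff.2 hx), one_smul]
  have hmeas : Measurable (fun q : sphere (0 : E n) 1 × Ioi (0 : ℝ) =>
      F ((q.2 : ℝ) • (q.1 : E n))) := by
    refine hF.comp ?_
    fun_prop
  rw [h1, ← lintegral_congr h3, h2, lintegral_prod _ hmeas.aemeasurable]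
  refine lintegral_congr fun θ => ?_
  have hm2 : Measurable (fun y : Ioi (0 : ℝ) => F ((y : ℝ) • (θ : E n))) := by
    refine hF.comp ?_
    fun_prop
  rw [Measure.volumeIoiPow, lintegral_withDensity_eq_lintegral_mul _ (by fun_prop) hm2]
  have h4 := lintegral_subtype_comap (μ := (volume : Measure ℝ)) (measurableSet_Ioi (a := (0 : ℝ)))
    (fun r : ℝ => ENNReal.ofReal (r ^ (n - 1)) * F (r • (θ : E n)))
  rw [← h4]
  refine lintegral_congr fun y => ?_
  simp

theorem vol_eq {n : ℕ} (hn : 1 ≤ n) (p : E n → ℝ) (hp : SN p) :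
    (n : ℝ≥0∞) * volume {x : E n | p x ≤ 1} =
      ∫⁻ θ : sphere (0 : E n) 1, ENNReal.ofReal ((p (θ : E n) ^ n)⁻¹)
        ∂(volume : Measure (E n)).toSphere := by
  have hS : MeasurableSet {x : E n | p x ≤ 1} := measurableSet_le hp.cont.measurable measurable_const
  have hpos : ∀ θ : sphere (0 : E n) 1, 0 < p (θ : E n) := by
    intro θ
    refine hp.pos _ ?_
    have : ‖(θ : E n)‖ = 1 := by simp
    intro h
    rw [h, norm_zero] at this
    exact zero_ne_one this
  have h1 : volume {x : E n | p x ≤ 1} =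
      ∫⁻ x, ({x : E n | p x ≤ 1}).indicator (fun _ => (1 : ℝ≥0∞)) x := by
    rw [lintegral_indicator_const hS, one_mul]
  rw [h1, polar hn _ (measurable_const.indicator hS), ← lintegral_const_mul']
  swap
  · exact ENNReal.natCast_ne_top n
  refine lintegral_congr fun θ => ?_
  have hθ := hpos θ
  have h2 : ∀ r ∈ Ioi (0 : ℝ), ENNReal.ofReal (r ^ (n - 1)) *
      ({x : E n | p x ≤ 1}).indicator (fun _ => (1 : ℝ≥0∞)) (r • (θ : E n)) =
      (Ioc 0 (p (θ : E n))⁻¹).indicator (fun r => ENNReal.ofReal (r ^ (n - 1))) r := by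
    intro r hr
    have hr' : (0 : ℝ) < r := hr
    by_cases h : r ≤ (p (θ : E n))⁻¹
    · rw [indicator_of_mem, indicator_of_mem, mul_one]
      · exact ⟨hr', h⟩
      · show p (r • (θ : E n)) ≤ 1
        rw [hp.hom, abs_of_pos hr']
        calc r * p (θ : E n) ≤ (p (θ : E n))⁻¹ * p (θ : E n) :=
              mul_le_mul_of_nonneg_right h hθ.le
          _ = 1 := inv_mul_cancel₀ hθ.ne'
    · rw [indicator_of_notMem, indicator_of_notMem, mul_zero]
      · intro h'
        exact h h'.2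
      · show ¬ p (r • (θ : E n)) ≤ 1
        rw [hp.hom, abs_of_pos hr']
        intro h'
        apply h
        rw [le_inv_comm₀ hr' hθ]
        rw [← one_div, le_div_iff₀ hr', mul_comm]
        exact h'
  rw [setLIntegral_congr_fun measurableSet_Ioi h2, setLIntegral_indicator measurableSet_Ioc]
  have h3 : Ioc 0 (p (θ : E n))⁻¹ ∩ Ioi (0 : ℝ) = Ioc 0 (p (θ : E n))⁻¹ := by
    ext r
    simp only [mem_inter_iff, mem_Ioc, mem_Ioi]
    tauto
  rw [h3, ← ofReal_integral_eq_lintegral_ofReal (intervalIntegral.intervalIntegrable_pow _).1,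
    ← intervalIntegral.integral_of_le (inv_pos.2 hθ).le, integral_pow]
  · have hn1 : n - 1 + 1 = n := Nat.sub_add_cancel hn
    have hnR : (0 : ℝ) < n := by exact_mod_cast hn
    rw [← ENNReal.ofReal_natCast, ← ENNReal.ofReal_mul hnR.le]
    congr 1
    have : ((n - 1 : ℕ) : ℝ) + 1 = n := by exact_mod_cast hn1
    rw [this, hn1, inv_pow, zero_pow (by omega), sub_zero]
    field_simp
  · filter_upwards [ae_restrict_mem measurableSet_Ioc] with y hy
    exact pow_nonneg hy.1.le _

theorem int_eq {n : ℕ} (hn : 1 ≤ n) (p : E n → ℝ) (hp : SN p) (R : ℝ) :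
    ∫⁻ y in {y : E n | 1 < ‖y‖}, ENNReal.ofReal ((p y ^ n)⁻¹ *
        Real.exp (-(Real.pi * ‖y‖ ^ 2 / R ^ 2))) =
      ((n : ℝ≥0∞) * volume {x : E n | p x ≤ 1}) *
        ∫⁻ r in Ioi (1 : ℝ), ENNReal.ofReal (r⁻¹ * Real.exp (-(Real.pi * r ^ 2 / R ^ 2))) := by
  have hS : MeasurableSet {y : E n | 1 < ‖y‖} := measurableSet_lt measurable_const (by fun_prop)
  have hpm := hp.cont.measurable
  have hpos : ∀ θ : sphere (0 : E n) 1, 0 < p (θ : E n) := by
    intro θ
    refine hp.pos _ ?_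
    have : ‖(θ : E n)‖ = 1 := by simp
    intro h
    rw [h, norm_zero] at this
    exact zero_ne_one this
  rw [vol_eq hn p hp, ← lintegral_indicator hS, polar hn]
  swap
  · exact Measurable.indicator (by fun_prop) hS
  have hpm2 : Measurable (fun θ : sphere (0 : E n) 1 => ENNReal.ofReal ((p (θ : E n) ^ n)⁻¹)) := by
    fun_prop
  rw [← lintegral_mul_const _ hpm2]
  refine lintegral_congr fun θ => ?_
  have hθ := hpos θ
  have hn1 : n - 1 + 1 = n := Nat.sub_add_cancel hn
  have h2 : ∀ r ∈ Ioi (0 : ℝ), ENNReal.ofReal (r ^ (n - 1)) *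
      ({y : E n | 1 < ‖y‖}).indicator (fun y => ENNReal.ofReal ((p y ^ n)⁻¹ *
        Real.exp (-(Real.pi * ‖y‖ ^ 2 / R ^ 2)))) (r • (θ : E n)) =
      (Ioi (1 : ℝ)).indicator (fun r => ENNReal.ofReal ((p (θ : E n) ^ n)⁻¹) *
        ENNReal.ofReal (r⁻¹ * Real.exp (-(Real.pi * r ^ 2 / R ^ 2)))) r := by
    intro r hr
    have hr' : (0 : ℝ) < r := hr
    have hnr : ‖r • (θ : E n)‖ = r := by
      rw [norm_smul, Real.norm_eq_abs, abs_of_pos hr']
      simp
    by_cases h : 1 < r
    · rw [indicator_of_mem (show r • (θ : E n) ∈ {y : E n | 1 < ‖y‖} by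
        show 1 < ‖r • (θ : E n)‖
        rw [hnr]; exact h), indicator_of_mem (show r ∈ Ioi (1 : ℝ) from h)]
      rw [hnr, hp.hom, abs_of_pos hr', ← ENNReal.ofReal_mul (by positivity),
        ← ENNReal.ofReal_mul (by positivity)]
      congr 1
      have e1 : (r * p (θ : E n)) ^ n = r ^ (n - 1) * r * p (θ : E n) ^ n := by
        rw [mul_pow, ← pow_succ, hn1]
      rw [e1]
      field_simp
    · rw [indicator_of_notMem (show r • (θ : E n) ∉ {y : E n | 1 < ‖y‖} by
        show ¬ 1 < ‖r • (θ : E n)‖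
        rw [hnr]; exact h), indicator_of_notMem (show r ∉ Ioi (1 : ℝ) from h), mul_zero]
  rw [setLIntegral_congr_fun measurableSet_Ioi h2, setLIntegral_indicator measurableSet_Ioi]
  have h3 : Ioi (1 : ℝ) ∩ Ioi (0 : ℝ) = Ioi 1 := by
    ext r
    simp only [mem_inter_iff, mem_Ioi]
    constructor
    · exact fun h => h.1
    · exact fun h => ⟨h, lt_trans one_pos h⟩
  rw [h3, lintegral_const_mul' _ _ ENNReal.ofReal_ne_top]

end LOG2aux

theorem LOG2_ok (h1 : S_LOG1) : S_LOG2 := by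
  intro n p hp hn
  have hpm := hp.cont.measurable
  have hp0 : ∀ x : E n, 0 ≤ p x := by
    intro x
    by_cases hx : x = 0
    · have := hp.hom 0 x
      rw [hx] at this ⊢
      simp at this
      exact this.ge
    · exact (hp.pos x hx).le
  have key : ∀ R : ℝ, ∫ y in {y : E n | 1 < ‖y‖}, (p y ^ n)⁻¹ *
      Real.exp (-(Real.pi * ‖y‖ ^ 2 / R ^ 2)) =
      ((n : ℝ) * (volume {x : E n | p x ≤ 1}).toReal) *
        ∫ r in Ioi (1 : ℝ), r⁻¹ * Real.exp (-(Real.pi * r ^ 2 / R ^ 2)) := by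
    intro R
    rw [integral_eq_lintegral_of_nonneg_ae, integral_eq_lintegral_of_nonneg_ae, LOG2aux.int_eq hn p hp,
      ENNReal.toReal_mul, ENNReal.toReal_mul, ENNReal.toReal_natCast]
    · filter_upwards [ae_restrict_mem measurableSet_Ioi] with r hr
      have : (0 : ℝ) < r := lt_trans one_pos hr
      show 0 ≤ _
      positivity
    · exact Measurable.aestronglyMeasurable (by fun_prop)
    · filter_upwards with y
      have := hp0 y
      show 0 ≤ _
      positivity
    · exact Measurable.aestronglyMeasurable (by fun_prop)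
  have h2 := (h1 : Tendsto _ _ _).const_mul ((n : ℝ) * (volume {x : E n | p x ≤ 1}).toReal)
  rw [mul_one] at h2
  refine h2.congr fun R => ?_
  rw [key R]
  ring

end Pool.Agent.H638.KI
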