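import Pool.Agent.H638.KI.Defs

set_option autoImplicit false

open MeasureTheory Set Filter Topology Metric
open scoped Pointwise RealInnerProductSpace ENNReal

namespace Pool.Agent.H638.KI

open Pool.Agent.H638.IB (E mk)

namespace LOG3aux

theorem gauss_int {n : ℕ} {b : ℝ} (hb : 0 < b) :
    Integrable (fun y : E n => Real.exp (-(b * ‖y‖ ^ 2))) := by
  have h := (GaussianFourier.integrable_cexp_neg_mul_sq_norm_add (V := E n)
    (show 0 < (b : ℂ).re from hb) 0 (0 : E n)).norm
  refine h.congr (Filter.Eventually.of_forall fun y => ?_)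
  simp only [zero_mul, add_zero]
  rw [Complex.norm_exp]
  congr 1
  simp [← Complex.ofReal_pow]

/-- the Gaussian weight -/
noncomputable def ee {n : ℕ} (R : ℝ) (y : E n) : ℝ := Real.exp (-(Real.pi * ‖y‖ ^ 2 / R ^ 2))

theorem ee_int {n : ℕ} {R : ℝ} (hR : 0 < R) : Integrable (ee (n := n) R) := by
  have h := gauss_int (n := n) (b := Real.pi / R ^ 2) (by positivity)
  refine h.congr (Filter.Eventually.of_forall fun y => ?_)
  unfold ee
  ring_nf

theorem ee_pos {n : ℕ} (R : ℝ) (y : E n) : 0 < ee R y := Real.exp_pos _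

theorem ee_le {n : ℕ} (R : ℝ) (y : E n) : ee R y ≤ 1 := by
  unfold ee
  rw [Real.exp_le_one_iff]
  have : 0 ≤ Real.pi * ‖y‖ ^ 2 / R ^ 2 := by positivity
  linarith

theorem ee_cont {n : ℕ} (R : ℝ) : Continuous (ee (n := n) R) := by
  unfold ee
  fun_prop

end LOG3aux

open LOG3aux

theorem LOG3_ok (hLOG2 : S_LOG2) (hLB : S_LB) : S_LOG3 := by
  intro n p hp hn h hcont hbd hlim
  obtain ⟨hp0, hpn, c, C', hc, hC', hcmp⟩ := hLB p hp
  obtain ⟨C, hC⟩ := hbd
  have hC0 : 0 ≤ C := (hC 0).1.trans (hC 0).2
  set L : ℝ := (n : ℝ) * (volume {x : E n | p x ≤ 1}).toReal with hL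
  have hL0 : 0 ≤ L := by positivity
  have hlog2 := hLOG2 p hp hn
  rw [← hL] at hlog2
  -- the function outside of the ball
  set u : E n → ℝ := fun y => ({y : E n | 1 < ‖y‖} : Set (E n)).indicator (fun y => (p y ^ n)⁻¹) y with hu
  have hmeas : MeasurableSet ({y : E n | 1 < ‖y‖} : Set (E n)) :=
    (isOpen_lt continuous_const continuous_norm).measurableSet
  have hu0 : ∀ y, 0 ≤ u y := by
    intro y
    rw [hu]
    refine Set.indicator_nonneg (fun y _ => ?_) y
    exact inv_nonneg.2 (pow_nonneg (hpn y) n)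
  have hule : ∀ y, u y ≤ (c ^ n)⁻¹ := by
    intro y
    rw [hu]
    simp only
    by_cases hy : y ∈ ({y : E n | 1 < ‖y‖} : Set (E n))
    · rw [Set.indicator_of_mem hy]
      refine inv_anti₀ (by positivity) (pow_le_pow_left₀ hc.le ?_ n)
      have h1 := (hcmp y).1
      have h2 : (1 : ℝ) < ‖y‖ := hy
      nlinarith
    · rw [Set.indicator_of_notMem hy]
      positivity
  have hum : Measurable u := by
    rw [hu]
    exact Measurable.indicator ((hp.cont.pow n).measurable.inv) hmeas
  have hA : ∀ R : ℝ, ∫ y in {y : E n | 1 < ‖y‖}, (p y ^ n)⁻¹ * Real.exp (-(Real.pi * ‖y‖ ^ 2 / R ^ 2)) =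
      ∫ y, u y * ee R y := by
    intro R
    rw [← integral_indicator hmeas]
    refine integral_congr_ae (Filter.Eventually.of_forall fun y => ?_)
    simp only [hu]
    by_cases hy : y ∈ ({y : E n | 1 < ‖y‖} : Set (E n))
    · rw [Set.indicator_of_mem hy, Set.indicator_of_mem hy]; rfl
    · rw [Set.indicator_of_notMem hy, Set.indicator_of_notMem hy, zero_mul]
  simp_rw [hA] at hlog2
  have huint : ∀ R : ℝ, 0 < R → Integrable (fun y => u y * ee R y) := by
    intro R hR
    refine ((ee_int hR).const_mul ((c ^ n)⁻¹)).mono (hum.aestronglyMeasurable.mul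
      (ee_cont R).aestronglyMeasurable) (Filter.Eventually.of_forall fun y => ?_)
    rw [Real.norm_eq_abs, Real.norm_eq_abs, abs_of_nonneg (mul_nonneg (hu0 y) (ee_pos R y).le),
      abs_of_nonneg (mul_nonneg (by positivity) (ee_pos R y).le)]
    exact mul_le_mul_of_nonneg_right (hule y) (ee_pos R y).le
  have hhint : ∀ R : ℝ, 0 < R → Integrable (fun y => h y * ee R y) := by
    intro R hR
    refine ((ee_int hR).const_mul C).mono (hcont.aestronglyMeasurable.mul
      (ee_cont R).aestronglyMeasurable) (Filter.Eventually.of_forall fun y => ?_)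
    rw [Real.norm_eq_abs, Real.norm_eq_abs, abs_of_nonneg (mul_nonneg (hC y).1 (ee_pos R y).le),
      abs_of_nonneg (mul_nonneg hC0 (ee_pos R y).le)]
    exact mul_le_mul_of_nonneg_right (hC y).2 (ee_pos R y).le
  -- the main estimate
  have hmain : ∀ ε : ℝ, 0 < ε → ∃ K : ℝ, 0 ≤ K ∧ ∀ R : ℝ, 0 < R →
      |(∫ y, h y * ee R y) - ∫ y, u y * ee R y| ≤ K + ε * ∫ y, u y * ee R y := by
    intro ε hε
    have h1 : ∀ᶠ y in cocompact (E n), |h y * p y ^ n - 1| < ε := by
      have := (Metric.tendsto_nhds.1 hlim) ε hε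
      simpa [Real.dist_eq] using this
    obtain ⟨r0, hr0⟩ : ∃ r0 : ℝ, ∀ y : E n, r0 < ‖y‖ → |h y * p y ^ n - 1| < ε := by
      rw [Filter.eventually_iff, Metric.mem_cocompact_iff_closedBall_compl_subset (0 : E n)] at h1
      obtain ⟨r, hr⟩ := h1
      refine ⟨r, fun y hy => ?_⟩
      have : y ∈ (closedBall (0 : E n) r)ᶜ := by
        rw [Set.mem_compl_iff, mem_closedBall_zero_iff, not_le]; exact hy
      exact hr this
    set r1 : ℝ := max r0 1 with hr1
    set B : Set (E n) := closedBall 0 r1 with hB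
    have hBfin : volume B < ∞ := measure_closedBall_lt_top
    have hBm : MeasurableSet B := measurableSet_closedBall
    refine ⟨(C + (c ^ n)⁻¹) * (volume B).toReal, by positivity, ?_⟩
    intro R hR
    rw [← integral_sub (hhint R hR) (huint R hR)]
    have hpt : ∀ y : E n, |h y * ee R y - u y * ee R y| ≤
        B.indicator (fun _ => C + (c ^ n)⁻¹) y + ε * (u y * ee R y) := by
      intro y
      have e1 := ee_pos R y
      have e2 := ee_le R y
      have e3 := hu0 y
      have e4 := hule y
      have e5 := hC y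
      have e6 : 0 ≤ ε * (u y * ee R y) := by positivity
      have hcn : 0 < (c ^ n)⁻¹ := by positivity
      by_cases hy : y ∈ B
      · rw [Set.indicator_of_mem hy]
        have e7 : |h y * ee R y - u y * ee R y| ≤ C + (c ^ n)⁻¹ := by
          rw [← sub_mul, abs_mul, abs_of_pos e1]
          have e8 : |h y - u y| ≤ C + (c ^ n)⁻¹ := by
            rw [abs_le]
            constructor <;> linarith [e5.1, e5.2]
          calc |h y - u y| * ee R y ≤ |h y - u y| * 1 := mul_le_mul_of_nonneg_left e2 (abs_nonneg _)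
            _ ≤ _ := by rw [mul_one]; exact e8
        linarith
      · rw [Set.indicator_of_notMem hy, zero_add]
        have hy1 : r1 < ‖y‖ := by
          rw [hB, mem_closedBall_zero_iff, not_le] at hy; exact hy
        have hy2 : r0 < ‖y‖ := (le_max_left _ _).trans_lt hy1
        have hy3 : (1 : ℝ) < ‖y‖ := (le_max_right _ _).trans_lt hy1
        have hy0 : y ≠ 0 := by
          rintro rfl
          rw [norm_zero] at hy3
          linarith
        have hpy : 0 < p y ^ n := pow_pos (hp.pos y hy0) n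
        have huy : u y = (p y ^ n)⁻¹ := by
          rw [hu]
          simp only
          rw [Set.indicator_of_mem (show y ∈ {y : E n | 1 < ‖y‖} from hy3)]
        have e9 := hr0 y hy2
        have e10 : h y - u y = (h y * p y ^ n - 1) * u y := by
          rw [huy]
          field_simp
        rw [← sub_mul, abs_mul, abs_of_pos e1, e10, abs_mul, abs_of_nonneg e3, mul_assoc]
        exact mul_le_mul_of_nonneg_right e9.le (mul_nonneg e3 e1.le)
    have hi1 : Integrable (fun y => B.indicator (fun _ => C + (c ^ n)⁻¹) y) :=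
      (integrable_indicator_iff hBm).2 (integrableOn_const hBfin.ne)
    have hi2 : Integrable (fun y => ε * (u y * ee R y)) := (huint R hR).const_mul ε
    calc |∫ y, (h y * ee R y - u y * ee R y)| ≤ ∫ y, |h y * ee R y - u y * ee R y| :=
          abs_integral_le_integral_abs
      _ ≤ ∫ y, (B.indicator (fun _ => C + (c ^ n)⁻¹) y + ε * (u y * ee R y)) :=
          integral_mono ((hhint R hR).sub (huint R hR)).abs (hi1.add hi2) hpt
      _ = (C + (c ^ n)⁻¹) * (volume B).toReal + ε * ∫ y, u y * ee R y := by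
          rw [integral_add hi1 hi2, integral_const_mul, integral_indicator hBm, setIntegral_const,
            smul_eq_mul, mul_comm]
          rfl
  -- conclusion
  have hlogtop : Tendsto (fun R : ℝ => (Real.log R)⁻¹) atTop (𝓝 0) :=
    tendsto_inv_atTop_zero.comp Real.tendsto_log_atTop
  have hdiff : Tendsto (fun R : ℝ => (Real.log R)⁻¹ * (∫ y, h y * ee R y) -
      (Real.log R)⁻¹ * ∫ y, u y * ee R y) atTop (𝓝 0) := by
    rw [Metric.tendsto_nhds]
    intro δ hδ
    obtain ⟨K, hK0, hK⟩ := hmain (δ / (4 * (L + 1))) (by positivity)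
    have h1 : ∀ᶠ R : ℝ in atTop, (Real.log R)⁻¹ * ∫ y, u y * ee R y < L + 1 :=
      hlog2.eventually_lt_const (by linarith)
    have h2 : ∀ᶠ R : ℝ in atTop, (Real.log R)⁻¹ * K < δ / 4 := by
      have := hlogtop.mul_const K
      rw [zero_mul] at this
      exact this.eventually_lt_const (by positivity)
    filter_upwards [h1, h2, eventually_gt_atTop (1 : ℝ)] with R h1 h2 hR
    have hR0 : 0 < R := by linarith
    have hlR : 0 < Real.log R := Real.log_pos hR
    rw [Real.dist_eq, sub_zero, ← mul_sub, abs_mul, abs_of_pos (inv_pos.2 hlR)]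
    have h3 := hK R hR0
    calc (Real.log R)⁻¹ * |(∫ y, h y * ee R y) - ∫ y, u y * ee R y| ≤
          (Real.log R)⁻¹ * (K + δ / (4 * (L + 1)) * ∫ y, u y * ee R y) :=
          mul_le_mul_of_nonneg_left h3 (inv_pos.2 hlR).le
      _ = (Real.log R)⁻¹ * K + δ / (4 * (L + 1)) * ((Real.log R)⁻¹ * ∫ y, u y * ee R y) := by ring
      _ ≤ δ / 4 + δ / (4 * (L + 1)) * (L + 1) := by
          refine add_le_add h2.le (mul_le_mul_of_nonneg_left h1.le (by positivity))
      _ = δ / 4 + δ / 4 := by
          have : L + 1 ≠ 0 := by positivity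
          field_simp
      _ < δ := by linarith
  have hfin := hdiff.add hlog2
  simp only [sub_add_cancel, zero_add] at hfin
  exact hfin

end Pool.Agent.H638.KI
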