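import Pool.Agent.H638.KI.Defs

/-! MAIN: the inequality for star norms. -/

set_option autoImplicit false

open MeasureTheory Set Filter Topology Metric
open scoped Pointwise RealInnerProductSpace ENNReal

namespace Pool.Agent.H638.KI

open Pool.Agent.H638.IB (E mk)

namespace MAINaux

theorem exists_root {a : ℝ} (ha : 0 < a) {n : ℕ} (hn : 1 ≤ n) : ∃ r : ℝ, 0 < r ∧ r ^ n = a :=
  ⟨a ^ ((n : ℝ)⁻¹), Real.rpow_pos_of_pos ha _, Real.rpow_inv_natCast_pow ha.le (by omega)⟩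

theorem vol_pos (hLB : S_LB) {n : ℕ} (q : E n → ℝ) (hq : SN q) :
    volume {x : E n | q x ≤ 1} ≠ ∞ ∧ 0 < (volume {x : E n | q x ≤ 1}).toReal := by
  obtain ⟨-, -, c, C, hc, hC, hb⟩ := hLB q hq
  have h1 : {x : E n | q x ≤ 1} ⊆ closedBall 0 (1 / c) := by
    intro x hx
    rw [mem_closedBall_zero_iff, le_div_iff₀ hc]
    have := (hb x).1
    have hx' : q x ≤ 1 := hx
    linarith
  have h2 : closedBall 0 (1 / C) ⊆ {x : E n | q x ≤ 1} := by
    intro x hx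
    rw [mem_closedBall_zero_iff, le_div_iff₀ hC] at hx
    have := (hb x).2
    show q x ≤ 1
    linarith
  have hfin : volume {x : E n | q x ≤ 1} ≠ ∞ :=
    ((measure_mono h1).trans_lt measure_closedBall_lt_top).ne
  refine ⟨hfin, ENNReal.toReal_pos ?_ hfin⟩
  have h3 : 0 < volume (closedBall (0 : E n) (1 / C)) := measure_closedBall_pos _ _ (by positivity)
  exact (h3.trans_le (measure_mono h2)).ne'

end MAINaux

open MAINaux

theorem MAIN_ok (hCOMP : S_COMP) (hSB : S_SB) (hLB : S_LB) : S_MAIN := by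
  intro n k hk1 hkn hdvd q p hq hp hsec
  obtain ⟨N, hN⟩ := hdvd
  have hN' : N * k = n := by rw [hN, mul_comm]
  have hn1 : 1 ≤ n := by omega
  obtain ⟨hfin, hpos⟩ := vol_pos hLB q hq
  obtain ⟨-, -, -, hκn, hκk, hκnk⟩ := hSB hkn.le hn1 1 1 one_pos one_pos
  obtain ⟨ρ, hρ, hρn⟩ := exists_root (div_pos hpos hκn) hn1
  have hb : 0 < kap (n - k) * ρ ^ (n - k) / kap k := by positivity
  obtain ⟨σ, hσ, hσk⟩ := exists_root hb hk1
  obtain ⟨-, hvρ, -, -, -, -⟩ := hSB hkn.le hn1 ρ σ hρ hσ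
  obtain ⟨-, hvσ, -, -, -, -⟩ := hSB hkn.le hn1 σ σ hσ hσ
  have hsecB := (hSB hkn.le hn1 ρ σ hρ hσ).2.2.1 (by rw [hσk]; field_simp)
  have hball : {x : E n | ‖x‖ / ρ ≤ 1} = closedBall (0 : E n) ρ := by
    ext x
    rw [mem_closedBall_zero_iff]
    show ‖x‖ / ρ ≤ 1 ↔ ‖x‖ ≤ ρ
    rw [div_le_one hρ]
  have hvq : volume {x : E n | q x ≤ 1} = volume (closedBall (0 : E n) ρ) := by
    rw [← hball, hvρ, hρn, mul_div_cancel₀ _ hκn.ne', ENNReal.ofReal_toReal hfin]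
  have hc := hCOMP hk1 hkn hN' q p hq hp hsec ρ σ hρ hσ hvq hsecB
  rw [hvσ, ENNReal.toReal_ofReal (by positivity)] at hc
  set Vp := (volume {x : E n | p x ≤ 1}).toReal with hVp
  set Vq := (volume {x : E n | q x ≤ 1}).toReal with hVq
  have h1 : Vp ^ k ≤ (kap n * σ ^ n) ^ k :=
    pow_le_pow_left₀ ENNReal.toReal_nonneg hc k
  refine h1.trans (le_of_eq ?_)
  have h2 : (σ ^ n) ^ k = (σ ^ k) ^ n := by rw [← pow_mul, ← pow_mul, mul_comm]
  have h3 : (ρ ^ (n - k)) ^ n = (ρ ^ n) ^ (n - k) := by rw [← pow_mul, ← pow_mul, mul_comm]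
  have h4 : (kap n : ℝ) ^ (2 * (k : ℤ) - (n : ℤ)) = (kap n) ^ k / (kap n) ^ (n - k) := by
    rw [← zpow_natCast (kap n) k, ← zpow_natCast (kap n) (n - k), ← zpow_sub₀ hκn.ne']
    congr 1
    rw [Nat.cast_sub hkn.le]
    ring
  rw [mul_pow, h2, hσk, div_pow, mul_pow, h3, hρn, div_pow, h4]
  field_simp

end Pool.Agent.H638.KI
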