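import Pool.Agent.H638.KI.Defs

/-! Task MERGE: sliding until two intervals touch, and merging them. -/

set_option autoImplicit false

namespace Pool.Agent.H638.KI

open Set

namespace MERGEaux

/-- the value of `l` at which two intervals touch -/
noncomputable def cr (I J : ℝ × ℝ) : ℝ :=
  ((I.2 - I.1) / 2 + (J.2 - J.1) / 2) / ((J.1 + J.2) / 2 - (I.1 + I.2) / 2)

noncomputable def crit : List (ℝ × ℝ) → ℝ
  | [] => 0
  | [_] => 0
  | I :: J :: R => max (cr I J) (crit (J :: R))

/-- the interval after sliding -/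
noncomputable def sl (l : ℝ) (I : ℝ × ℝ) : ℝ × ℝ :=
  (l * ((I.1 + I.2) / 2) - (I.2 - I.1) / 2, l * ((I.1 + I.2) / 2) + (I.2 - I.1) / 2)

theorem slide_cons (l : ℝ) (I : ℝ × ℝ) (S : List (ℝ × ℝ)) :
    slide l (I :: S) = sl l I :: slide l S := rfl

theorem slide_nil (l : ℝ) : slide l [] = [] := rfl

theorem slide_length (l : ℝ) (S : List (ℝ × ℝ)) : (slide l S).length = S.length := by
  simp [slide]

theorem sl_le (l : ℝ) (I : ℝ × ℝ) (h : I.1 ≤ I.2) : (sl l I).1 ≤ (sl l I).2 := by
  simp only [sl]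
  linarith

theorem good_cons {I : ℝ × ℝ} {S : List (ℝ × ℝ)} :
    Good (I :: S) ↔ I.1 ≤ I.2 ∧ (∀ K ∈ S, I.2 ≤ K.1) ∧ Good S := by
  unfold Good
  rw [List.pairwise_cons, List.forall_mem_cons]
  tauto

theorem good_le {J : ℝ × ℝ} {R : List (ℝ × ℝ)} (h : Good (J :: R)) {x : ℝ} (hx : x ≤ J.1) :
    ∀ K ∈ J :: R, x ≤ K.1 := by
  obtain ⟨h1, h2, -⟩ := good_cons.1 h
  intro K hK
  rcases List.mem_cons.1 hK with rfl | hK
  · exact hx
  · exact hx.trans (h1.trans (h2 K hK))

theorem cr_mul {I J : ℝ × ℝ} (hI : I.1 ≤ I.2) (hIJ : I.2 ≤ J.1) (hJ : J.1 ≤ J.2) :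
    cr I J * ((J.1 + J.2) / 2 - (I.1 + I.2) / 2) = (I.2 - I.1) / 2 + (J.2 - J.1) / 2 := by
  unfold cr
  by_cases h : (J.1 + J.2) / 2 - (I.1 + I.2) / 2 = 0
  · rw [h, mul_zero]
    linarith
  · rw [div_mul_cancel₀ _ h]

theorem cr_le_one {I J : ℝ × ℝ} (hI : I.1 ≤ I.2) (hIJ : I.2 ≤ J.1) (hJ : J.1 ≤ J.2) :
    cr I J ≤ 1 := by
  unfold cr
  apply div_le_one_of_le₀ <;> linarith

theorem cr_nonneg {I J : ℝ × ℝ} (hI : I.1 ≤ I.2) (hIJ : I.2 ≤ J.1) (hJ : J.1 ≤ J.2) :
    0 ≤ cr I J := by
  unfold cr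
  apply div_nonneg <;> linarith

theorem crit_nonneg : ∀ S : List (ℝ × ℝ), 0 ≤ crit S
  | [] => le_rfl
  | [_] => le_rfl
  | _ :: J :: R => le_max_of_le_right (crit_nonneg (J :: R))

theorem crit_le_one : ∀ S : List (ℝ × ℝ), Good S → crit S ≤ 1
  | [], _ => zero_le_one
  | [_], _ => zero_le_one
  | I :: J :: R, h => by
    obtain ⟨h1, h2, h3⟩ := good_cons.1 h
    obtain ⟨h4, -, -⟩ := good_cons.1 h3
    exact max_le (cr_le_one h1 (h2 J List.mem_cons_self) h4) (crit_le_one (J :: R) h3)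

theorem sl_cmp {I J : ℝ × ℝ} (hI : I.1 ≤ I.2) (hIJ : I.2 ≤ J.1) (hJ : J.1 ≤ J.2) {l : ℝ}
    (hl : cr I J ≤ l) : (sl l I).2 ≤ (sl l J).1 := by
  have h1 := cr_mul hI hIJ hJ
  have h2 : 0 ≤ (J.1 + J.2) / 2 - (I.1 + I.2) / 2 := by linarith
  have h3 := mul_le_mul_of_nonneg_right hl h2
  simp only [sl]
  linarith

theorem sl_eq {I J : ℝ × ℝ} (hI : I.1 ≤ I.2) (hIJ : I.2 ≤ J.1) (hJ : J.1 ≤ J.2) :
    (sl (cr I J) I).2 = (sl (cr I J) J).1 := by
  have h1 := cr_mul hI hIJ hJ
  simp only [sl]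
  linarith

theorem good_slide : ∀ S : List (ℝ × ℝ), Good S → ∀ l, crit S ≤ l → Good (slide l S)
  | [], h, _, _ => h
  | [I], h, l, _ => by
    rw [slide_cons, good_cons]
    exact ⟨sl_le l I (good_cons.1 h).1, by simp [slide], by simp [slide, Good]⟩
  | I :: J :: R, h, l, hl => by
    obtain ⟨h1, h2, h3⟩ := good_cons.1 h
    obtain ⟨h4, -, -⟩ := good_cons.1 h3
    have ih := good_slide (J :: R) h3 l ((le_max_right _ _).trans hl)
    have h5 := sl_cmp h1 (h2 J List.mem_cons_self) h4 ((le_max_left _ _).trans hl)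
    rw [slide_cons, good_cons]
    refine ⟨sl_le l I h1, ?_, ih⟩
    rw [slide_cons] at ih ⊢
    exact good_le ih h5

theorem ioc_add {a b c : ℝ} (hab : a ≤ b) (hbc : b ≤ c) (t : ℝ) :
    ioc a c t = ioc a b t + ioc b c t := by
  unfold ioc
  by_cases h1 : t ∈ Ioc a b
  · have h2 : t ∈ Ioc a c := ⟨h1.1, h1.2.trans hbc⟩
    have h3 : t ∉ Ioc b c := fun h => absurd h1.2 (not_le.2 h.1)
    rw [indicator_of_mem h1, indicator_of_mem h2, indicator_of_notMem h3, add_zero]
  · by_cases h2 : t ∈ Ioc b c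
    · have h3 : t ∈ Ioc a c := ⟨lt_of_le_of_lt hab h2.1, h2.2⟩
      rw [indicator_of_notMem h1, indicator_of_mem h2, indicator_of_mem h3, zero_add]
    · have h3 : t ∉ Ioc a c := by
        intro h
        rcases le_or_gt t b with h4 | h4
        · exact h1 ⟨h.1, h4⟩
        · exact h2 ⟨h4, h.2⟩
      rw [indicator_of_notMem h1, indicator_of_notMem h2, indicator_of_notMem h3, add_zero]

theorem ind_cons (I : ℝ × ℝ) (S : List (ℝ × ℝ)) (t : ℝ) :
    ind (I :: S) t = ioc I.1 I.2 t + ind S t := by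
  simp [ind]

theorem len_cons (I : ℝ × ℝ) (S : List (ℝ × ℝ)) : len (I :: S) = I.2 - I.1 + len S := by
  simp [len]

theorem sl_len (l : ℝ) (I : ℝ × ℝ) : (sl l I).2 - (sl l I).1 = I.2 - I.1 := by
  simp only [sl]
  ring

theorem len_slide (l : ℝ) : ∀ S : List (ℝ × ℝ), len (slide l S) = len S
  | [] => rfl
  | I :: S => by rw [slide_cons, len_cons, len_cons, len_slide l S, sl_len]

theorem merge : ∀ S : List (ℝ × ℝ), Good S → 2 ≤ S.length → ∃ S' : List (ℝ × ℝ), Good S' ∧
    ind S' = ind (slide (crit S) S) ∧ len S' = len S ∧ S'.length < S.length ∧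
      ∀ K ∈ S', ∃ K₀ ∈ slide (crit S) S, K.1 = K₀.1
  | [], _, h => by simp at h
  | [_], _, h => by simp at h
  | I :: J :: R, h, _ => by
    obtain ⟨h1, h2, h3⟩ := good_cons.1 h
    obtain ⟨h4, h5, h6⟩ := good_cons.1 h3
    have hIJ := h2 J List.mem_cons_self
    rcases le_or_gt (crit (J :: R)) (cr I J) with hc | hc
    · -- the first two intervals touch
      have hcr : crit (I :: J :: R) = cr I J := max_eq_left hc
      rw [hcr]
      have hg := good_slide (J :: R) h3 (cr I J) hc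
      rw [slide_cons] at hg
      obtain ⟨g1, g2, g3⟩ := good_cons.1 hg
      have he := sl_eq h1 hIJ h4
      have hI := sl_le (cr I J) I h1
      refine ⟨((sl (cr I J) I).1, (sl (cr I J) J).2) :: slide (cr I J) R, ?_, ?_, ?_, ?_, ?_⟩
      · rw [good_cons]
        refine ⟨?_, g2, g3⟩
        show (sl (cr I J) I).1 ≤ (sl (cr I J) J).2
        exact hI.trans (he.le.trans g1)
      · funext t
        rw [slide_cons, slide_cons, ind_cons, ind_cons, ind_cons]
        show ioc (sl (cr I J) I).1 (sl (cr I J) J).2 t + _ = _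
        rw [ioc_add (hI) (he.le.trans g1) t, he]
        ring
      · rw [len_cons, len_cons, len_cons, len_slide]
        show (sl (cr I J) J).2 - (sl (cr I J) I).1 + _ = _
        have e1 := sl_len (cr I J) I
        have e2 := sl_len (cr I J) J
        linarith
      · simp [slide_length]
      · intro K hK
        rcases List.mem_cons.1 hK with rfl | hK
        · exact ⟨sl (cr I J) I, by rw [slide_cons]; exact List.mem_cons_self, rfl⟩
        · refine ⟨K, ?_, rfl⟩
          rw [slide_cons, slide_cons]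
          exact List.mem_cons_of_mem _ (List.mem_cons_of_mem _ hK)
    · -- two other intervals touch
      have hcr : crit (I :: J :: R) = crit (J :: R) := max_eq_right hc.le
      rw [hcr]
      have hl : 2 ≤ (J :: R).length := by
        cases R with
        | nil =>
          exfalso
          have : crit [J] = 0 := rfl
          rw [this] at hc
          exact absurd (cr_nonneg h1 hIJ h4) (not_le.2 hc)
        | cons K R' => simp
      obtain ⟨S', s1, s2, s3, s4, s5⟩ := merge (J :: R) h3 hl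
      have hg := good_slide (J :: R) h3 _ le_rfl
      have h7 := sl_cmp h1 hIJ h4 hc.le
      rw [slide_cons] at hg
      have h8 := good_le hg h7
      refine ⟨sl (crit (J :: R)) I :: S', ?_, ?_, ?_, ?_, ?_⟩
      · rw [good_cons]
        refine ⟨sl_le _ I h1, ?_, s1⟩
        intro K hK
        obtain ⟨K₀, hK₀, e⟩ := s5 K hK
        rw [e]
        exact h8 K₀ hK₀
      · funext t
        rw [slide_cons, ind_cons, ind_cons, s2]
      · rw [len_cons, len_cons, s3, sl_len]
      · simpa using s4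
      · intro K hK
        rcases List.mem_cons.1 hK with rfl | hK
        · exact ⟨sl (crit (J :: R)) I, by rw [slide_cons]; exact List.mem_cons_self, rfl⟩
        · obtain ⟨K₀, hK₀, e⟩ := s5 K hK
          refine ⟨K₀, ?_, e⟩
          rw [slide_cons]
          exact List.mem_cons_of_mem _ hK₀

end MERGEaux

open MERGEaux in
theorem MERGE_ok : S_MERGE := by
  classical
  intro N S hS hex
  obtain ⟨i₁, hi₁⟩ := hex
  obtain ⟨i₀, hi₀, hmax⟩ := Finset.exists_max_image
    (Finset.univ.filter (fun i : Fin N => 2 ≤ (S i).length)) (fun i => crit (S i))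
    ⟨i₁, by simp [hi₁]⟩
  have hlen : 2 ≤ (S i₀).length := (Finset.mem_filter.1 hi₀).2
  have hall : ∀ i, crit (S i) ≤ crit (S i₀) := by
    intro i
    by_cases hi : 2 ≤ (S i).length
    · exact hmax i (by simp [hi])
    · have : crit (S i) = 0 := by
        rcases hSi : S i with _ | ⟨I, _ | ⟨J, R⟩⟩
        · rfl
        · rfl
        · rw [hSi] at hi
          simp at hi
      rw [this]
      exact crit_nonneg _
  obtain ⟨S₀, s1, s2, s3, s4, -⟩ := merge (S i₀) (hS i₀) hlen
  refine ⟨crit (S i₀), crit_nonneg _, crit_le_one _ (hS i₀),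
    fun i => if i = i₀ then S₀ else slide (crit (S i₀)) (S i), ?_, ?_, ?_, ?_⟩
  · intro i
    by_cases hi : i = i₀
    · simp only [hi, if_true]; exact s1
    · simp only [hi, if_false]; exact good_slide _ (hS i) _ (hall i)
  · intro i
    by_cases hi : i = i₀
    · subst hi; simp only [if_true]; exact s2
    · simp only [hi, if_false]
  · intro i
    by_cases hi : i = i₀
    · subst hi; simp only [if_true]; exact s3
    · simp only [hi, if_false]; exact len_slide _ _
  · apply Finset.sum_lt_sum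
    · intro i _
      by_cases hi : i = i₀
      · subst hi; simp only [if_true]; exact s4.le
      · simp only [hi, if_false]; rw [slide_length]
    · exact ⟨i₀, Finset.mem_univ _, by simp only [if_true]; exact s4⟩

end Pool.Agent.H638.KI
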