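import Pool.Agent.H638.KI.Defs

/-! Task PHC of the project KI: continuity of the functional. -/

set_option autoImplicit false

open MeasureTheory Set Filter Topology Metric
open scoped Pointwise RealInnerProductSpace ENNReal

namespace Pool.Agent.H638.KI

open Pool.Agent.H638.IB (E mk)

namespace PHCaux

theorem prod_ind {n N : ℕ} (C : Fin N → Set (E n)) (x : Fin N → E n) :
    (∏ i, (C i).indicator (fun _ => (1 : ℝ≥0∞)) (x i)) =
      (Set.pi Set.univ C).indicator (fun _ => (1 : ℝ≥0∞)) x := by
  classical
  by_cases h : x ∈ Set.pi Set.univ C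
  · rw [Set.indicator_of_mem h]
    refine Finset.prod_eq_one fun i _ => ?_
    rw [Set.indicator_of_mem (h i (Set.mem_univ i))]
  · rw [Set.indicator_of_notMem h]
    rw [Set.mem_univ_pi] at h
    push Not at h
    obtain ⟨i, hi⟩ := h
    refine Finset.prod_eq_zero (Finset.mem_univ i) ?_
    rw [Set.indicator_of_notMem hi]

theorem meas_prod {n N : ℕ} {C : Fin N → Set (E n)} (hC : ∀ i, MeasurableSet (C i)) :
    Measurable fun x : Fin N → E n => ∏ i, (C i).indicator (fun _ => (1 : ℝ≥0∞)) (x i) := by
  refine Finset.measurable_prod _ fun i _ => ?_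
  exact (measurable_const.indicator (hC i)).comp (measurable_pi_apply i)

end PHCaux

open PHCaux in
theorem PHC_ok : S_PHC := by
  intro n N b hb A B hA hB
  classical
  set C : Fin N → Fin N → Set (E n) := fun i => Function.update A i (A i \ B i) with hC
  have hCm : ∀ i j, MeasurableSet (C i j) := by
    intro i j
    by_cases h : j = i
    · subst h
      simp only [hC, Function.update_self]
      exact (hA j).diff (hB j)
    · simp only [hC, Function.update_of_ne h]
      exact hA j
  have hpt : ∀ x : Fin N → E n, (∏ i, (A i).indicator (fun _ => (1 : ℝ≥0∞)) (x i)) ≤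
      (∏ i, (B i).indicator (fun _ => (1 : ℝ≥0∞)) (x i)) +
        ∑ i, ∏ j, (C i j).indicator (fun _ => (1 : ℝ≥0∞)) (x j) := by
    intro x
    by_cases hx : x ∈ Set.pi Set.univ A
    · by_cases hxB : x ∈ Set.pi Set.univ B
      · rw [prod_ind A, prod_ind B, Set.indicator_of_mem hx, Set.indicator_of_mem hxB]
        exact le_self_add
      · rw [Set.mem_univ_pi] at hxB
        push Not at hxB
        obtain ⟨i, hi⟩ := hxB
        have hxC : x ∈ Set.pi Set.univ (C i) := by
          intro j _
          by_cases h : j = i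
          · subst h
            simp only [hC, Function.update_self]
            exact ⟨hx j (Set.mem_univ j), hi⟩
          · simp only [hC, Function.update_of_ne h]
            exact hx j (Set.mem_univ j)
        have h1 : (1 : ℝ≥0∞) ≤ ∑ i, ∏ j, (C i j).indicator (fun _ => (1 : ℝ≥0∞)) (x j) := by
          refine le_trans ?_ (Finset.single_le_sum (f := fun i => ∏ j, (C i j).indicator
            (fun _ => (1 : ℝ≥0∞)) (x j)) (fun i _ => zero_le) (Finset.mem_univ i))
          show (1 : ℝ≥0∞) ≤ ∏ j, (C i j).indicator (fun _ => (1 : ℝ≥0∞)) (x j)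
          rw [prod_ind, Set.indicator_of_mem hxC]
        rw [prod_ind A, Set.indicator_of_mem hx]
        exact h1.trans le_add_self
    · rw [prod_ind A, Set.indicator_of_notMem hx]
      exact zero_le
  have hg : ∀ x : Fin N → E n, ENNReal.ofReal (Real.exp (-(b * ‖∑ i, x i‖ ^ 2))) ≤ 1 := by
    intro x
    rw [← ENNReal.ofReal_one]
    apply ENNReal.ofReal_le_ofReal
    rw [Real.exp_le_one_iff]
    have : 0 ≤ b * ‖∑ i, x i‖ ^ 2 := by positivity
    linarith
  have hint : ∀ i, ∫⁻ x : Fin N → E n, ∏ j, (C i j).indicator (fun _ => (1 : ℝ≥0∞)) (x j) =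
      volume (A i \ B i) * ∏ j ∈ Finset.univ.erase i, volume (A j) := by
    intro i
    simp only [prod_ind (C i)]
    rw [lintegral_indicator_const (MeasurableSet.univ_pi (hCm i)), one_mul, volume_pi_pi,
      ← Finset.mul_prod_erase Finset.univ (fun j => volume (C i j)) (Finset.mem_univ i)]
    congr 1
    · simp only [hC, Function.update_self]
    · refine Finset.prod_congr rfl fun j hj => ?_
      simp only [hC, Function.update_of_ne (Finset.ne_of_mem_erase hj)]
  unfold PHI
  calc ∫⁻ x : Fin N → E n, (∏ i, (A i).indicator (fun _ => (1 : ℝ≥0∞)) (x i)) *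
        ENNReal.ofReal (Real.exp (-(b * ‖∑ i, x i‖ ^ 2)))
      ≤ ∫⁻ x : Fin N → E n, ((∏ i, (B i).indicator (fun _ => (1 : ℝ≥0∞)) (x i)) *
        ENNReal.ofReal (Real.exp (-(b * ‖∑ i, x i‖ ^ 2))) +
        ∑ i, ∏ j, (C i j).indicator (fun _ => (1 : ℝ≥0∞)) (x j)) := by
        refine lintegral_mono fun x => ?_
        refine (mul_le_mul_left (hpt x) _).trans ?_
        rw [add_mul]
        gcongr
        exact mul_le_of_le_one_right zero_le (hg x)
    _ = (∫⁻ x : Fin N → E n, (∏ i, (B i).indicator (fun _ => (1 : ℝ≥0∞)) (x i)) *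
        ENNReal.ofReal (Real.exp (-(b * ‖∑ i, x i‖ ^ 2)))) +
        ∑ i, ∫⁻ x : Fin N → E n, ∏ j, (C i j).indicator (fun _ => (1 : ℝ≥0∞)) (x j) := by
        rw [lintegral_add_right _ (Finset.measurable_sum _ fun i _ => meas_prod (hCm i)),
          lintegral_finsetSum _ fun i _ => meas_prod (hCm i)]
    _ = _ := by
        congr 1
        exact Finset.sum_congr rfl fun i _ => hint i

end Pool.Agent.H638.KI
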