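import Pool.Agent.H638.KI.Defs

/-! Task PS -/

set_option autoImplicit false

open MeasureTheory Set Filter Topology Metric
open scoped Pointwise RealInnerProductSpace ENNReal

namespace Pool.Agent.H638.KI

namespace PSaux

theorem coeff_eq (A B : ℕ → ℝ) (f : ℝ → ℝ) (r : ℝ) (hr : 0 < r)
    (hA : ∀ s : ℝ, |s| < r → HasSum (fun j => A j * s ^ j) (f s))
    (hB : ∀ s : ℝ, |s| < r → HasSum (fun j => B j * s ^ j) (f s)) : A = B := by
  have key : ∀ A : ℕ → ℝ, (∀ s : ℝ, |s| < r → HasSum (fun j => A j * s ^ j) (f s)) →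
      HasFPowerSeriesAt f (FormalMultilinearSeries.ofScalars ℝ A) 0 := by
    intro A hA
    rw [hasFPowerSeriesAt_iff]
    have h1 : ∀ᶠ z : ℝ in 𝓝 0, |z| < r := by
      have : ∀ᶠ z : ℝ in 𝓝 0, z ∈ Metric.ball (0 : ℝ) r := Metric.ball_mem_nhds _ hr
      filter_upwards [this] with z hz
      rwa [Metric.mem_ball, Real.dist_eq, sub_zero] at hz
    filter_upwards [h1] with z hz
    rw [zero_add]
    refine (hA z hz).congr_fun ?_
    intro n
    rw [FormalMultilinearSeries.coeff_ofScalars, smul_eq_mul, mul_comm]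
  have h := (key A hA).eq_formalMultilinearSeries (key B hB)
  ext n
  have := congrArg (fun p : FormalMultilinearSeries ℝ ℝ ℝ => p.coeff n) h
  simpa only [FormalMultilinearSeries.coeff_ofScalars] using this

theorem hexp (x : ℝ) : HasSum (fun n : ℕ => x ^ n / (n.factorial : ℝ)) (Real.exp x) := by
  have := NormedSpace.expSeries_div_hasSum_exp (𝔸 := ℝ) x
  rwa [← Real.exp_eq_exp_ℝ] at this

theorem left_sum (μ : Measure ℝ) (δ : ℝ) (hi : Integrable (fun u : ℝ => Real.exp (δ * u ^ 2)) μ)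
    (s : ℝ) (hs : Real.pi * |s| ≤ δ) :
    HasSum (fun j : ℕ => (Real.pi ^ j / (j.factorial : ℝ) * ∫ u, u ^ (2 * j) ∂μ) * s ^ j)
      (∫ u, Real.exp (Real.pi * s * u ^ 2) ∂μ) := by
  have h1 : HasSum (fun j : ℕ => ∫ u, (Real.pi * s * u ^ 2) ^ j / (j.factorial : ℝ) ∂μ)
      (∫ u, Real.exp (Real.pi * s * u ^ 2) ∂μ) := by
    refine hasSum_integral_of_dominated_convergence
      (fun j u => (Real.pi * |s| * u ^ 2) ^ j / (j.factorial : ℝ)) ?_ ?_ ?_ ?_ ?_
    · intro n
      exact (by fun_prop : Continuous fun u : ℝ =>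
        (Real.pi * s * u ^ 2) ^ n / (n.factorial : ℝ)).aestronglyMeasurable
    · intro n
      refine Eventually.of_forall fun u => ?_
      rw [norm_div, norm_pow, Real.norm_eq_abs, abs_mul, abs_mul, abs_of_pos Real.pi_pos,
        abs_of_nonneg (sq_nonneg u), Real.norm_eq_abs, Nat.abs_cast]
    · exact Eventually.of_forall fun u => (hexp _).summable
    · have h2 : (fun u : ℝ => ∑' n : ℕ, (Real.pi * |s| * u ^ 2) ^ n / (n.factorial : ℝ)) =
          fun u => Real.exp (Real.pi * |s| * u ^ 2) := by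
        ext u
        exact (hexp _).tsum_eq
      rw [h2]
      refine hi.mono' (by fun_prop : Continuous fun u : ℝ =>
        Real.exp (Real.pi * |s| * u ^ 2)).aestronglyMeasurable ?_
      refine Eventually.of_forall fun u => ?_
      rw [Real.norm_eq_abs, Real.abs_exp]
      exact Real.exp_le_exp.mpr (mul_le_mul_of_nonneg_right hs (sq_nonneg u))
    · exact Eventually.of_forall fun u => hexp _
  refine h1.congr_fun ?_
  intro j
  have h3 : ∀ u : ℝ, (Real.pi * s * u ^ 2) ^ j / (j.factorial : ℝ) =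
      (Real.pi ^ j / (j.factorial : ℝ) * s ^ j) * u ^ (2 * j) := by
    intro u
    rw [pow_mul, mul_pow, mul_pow]
    ring
  simp_rw [h3]
  rw [integral_const_mul]
  ring

theorem cosh_sum (μ : Measure ℝ) (δ : ℝ) (hδ : 0 < δ)
    (hi : Integrable (fun u : ℝ => Real.exp (δ * u ^ 2)) μ) :
    HasSum (fun j : ℕ => (2 * Real.pi) ^ (2 * j) / ((2 * j).factorial : ℝ) *
        ∫ u, u ^ (2 * j) ∂μ) (∫ u, Real.cosh (2 * Real.pi * u) ∂μ) := by
  have hc : ∀ u : ℝ, HasSum (fun j : ℕ => (2 * Real.pi * u) ^ (2 * j) / ((2 * j).factorial : ℝ))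
      (Real.cosh (2 * Real.pi * u)) := fun u => Real.hasSum_cosh _
  have h1 : HasSum (fun j : ℕ => ∫ u, (2 * Real.pi * u) ^ (2 * j) / ((2 * j).factorial : ℝ) ∂μ)
      (∫ u, Real.cosh (2 * Real.pi * u) ∂μ) := by
    refine hasSum_integral_of_dominated_convergence
      (fun j u => (2 * Real.pi * u) ^ (2 * j) / ((2 * j).factorial : ℝ)) ?_ ?_ ?_ ?_ ?_
    · intro n
      exact (by fun_prop : Continuous fun u : ℝ =>
        (2 * Real.pi * u) ^ (2 * n) / ((2 * n).factorial : ℝ)).aestronglyMeasurable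
    · intro n
      refine Eventually.of_forall fun u => ?_
      rw [Real.norm_eq_abs, abs_of_nonneg]
      refine div_nonneg ?_ (by positivity)
      rw [pow_mul]
      positivity
    · exact Eventually.of_forall fun u => (hc u).summable
    · have h2 : (fun u : ℝ => ∑' n : ℕ, (2 * Real.pi * u) ^ (2 * n) / ((2 * n).factorial : ℝ)) =
          fun u => Real.cosh (2 * Real.pi * u) := by
        ext u
        exact (hc u).tsum_eq
      rw [h2]
      refine (hi.const_mul (Real.exp (Real.pi ^ 2 / δ))).mono'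
        (by fun_prop : Continuous fun u : ℝ =>
          Real.cosh (2 * Real.pi * u)).aestronglyMeasurable ?_
      refine Eventually.of_forall fun u => ?_
      rw [Real.norm_eq_abs, abs_of_pos (Real.cosh_pos _), ← Real.exp_add]
      have h3 : Real.cosh (2 * Real.pi * u) ≤ Real.exp |2 * Real.pi * u| := by
        rw [← Real.cosh_abs, Real.cosh_eq]
        have h4 : Real.exp (-|2 * Real.pi * u|) ≤ Real.exp |2 * Real.pi * u| :=
          Real.exp_le_exp.mpr (by linarith [abs_nonneg (2 * Real.pi * u)])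
        linarith
      refine h3.trans (Real.exp_le_exp.mpr ?_)
      have h5 : |2 * Real.pi * u| = 2 * Real.pi * |u| := by
        rw [abs_mul, abs_of_pos (by positivity : (0 : ℝ) < 2 * Real.pi)]
      rw [h5]
      have h6 : 0 ≤ (δ * |u| - Real.pi) ^ 2 / δ := by positivity
      have h7 : (δ * |u| - Real.pi) ^ 2 / δ =
          δ * |u| ^ 2 - 2 * Real.pi * |u| + Real.pi ^ 2 / δ := by
        field_simp
        ring
      rw [h7, sq_abs] at h6
      linarith
    · exact Eventually.of_forall fun u => hc u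
  refine h1.congr_fun ?_
  intro j
  have h3 : ∀ u : ℝ, (2 * Real.pi * u) ^ (2 * j) / ((2 * j).factorial : ℝ) =
      ((2 * Real.pi) ^ (2 * j) / ((2 * j).factorial : ℝ)) * u ^ (2 * j) := by
    intro u
    rw [mul_pow]
    ring
  simp_rw [h3]
  rw [integral_const_mul]

end PSaux

theorem PS_ok (hPSI : S_PSI) : S_PS := by
  intro μ ν hμ hν a c δ ha hδ hiμ hiν hs
  obtain ⟨s₁, hs₁, hs₁a, -, -, h1, h2⟩ := hPSI ν hν a δ ha hδ hiν
  have hpi := Real.pi_pos
  set r : ℝ := min (min (δ / Real.pi) δ) s₁ with hr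
  have hr0 : 0 < r := lt_min (lt_min (by positivity) hδ) hs₁
  have hEq := PSaux.coeff_eq
    (fun j => Real.pi ^ j / (j.factorial : ℝ) * ∫ u, u ^ (2 * j) ∂μ)
    (fun j => c * ∫ v, cP a v j ∂ν)
    (fun s => ∫ u, Real.exp (Real.pi * s * u ^ 2) ∂μ) r hr0 ?_ ?_
  · have h3 := PSaux.cosh_sum μ δ hδ hiμ
    have h4 := h2.mul_left c
    refine h3.unique (h4.congr_fun ?_)
    intro j
    have h5 := congrFun hEq j
    have h6 : (2 * Real.pi) ^ (2 * j) / ((2 * j).factorial : ℝ) * ∫ u, u ^ (2 * j) ∂μ =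
        (4 * Real.pi) ^ j * (j.factorial : ℝ) / ((2 * j).factorial : ℝ) *
          (Real.pi ^ j / (j.factorial : ℝ) * ∫ u, u ^ (2 * j) ∂μ) := by
      have hj : (j.factorial : ℝ) ≠ 0 := by positivity
      have hj2 : ((2 * j).factorial : ℝ) ≠ 0 := by positivity
      rw [pow_mul]
      have h7 : (2 * Real.pi) ^ 2 = (4 * Real.pi) * Real.pi := by ring
      rw [h7, mul_pow]
      field_simp
    rw [h6, h5]
    ring
  · intro s hsr
    refine PSaux.left_sum μ δ hiμ s ?_
    have h3 : |s| ≤ δ / Real.pi := hsr.le.trans ((min_le_left _ _).trans (min_le_left _ _))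
    rw [le_div_iff₀ hpi] at h3
    linarith
  · intro s hsr
    have h3 : |s| < δ := hsr.trans_le ((min_le_left _ _).trans (min_le_right _ _))
    have h4 : |s| < s₁ := hsr.trans_le (min_le_right _ _)
    have h5 : s * a < 1 := by
      calc s * a ≤ |s| * a := mul_le_mul_of_nonneg_right (le_abs_self s) ha
        _ ≤ s₁ * a := mul_le_mul_of_nonneg_right h4.le ha
        _ < 1 := hs₁a
    have h6 := (h1 s h4).mul_left c
    rw [hs s h3 h5]
    refine h6.congr_fun ?_
    intro j
    ring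

end Pool.Agent.H638.KI
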