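import Pool.Agent.H638.KI.Defs

set_option autoImplicit false

namespace Pool.Agent.H638.KI

open Finset

namespace PSGaux

theorem eval_asc (b : ℝ) (m : ℕ) :
    (ascPochhammer ℝ m).eval b = ∏ l ∈ range m, (b + l) := by
  induction m with
  | zero => simp
  | succ m ih => rw [ascPochhammer_succ_eval, ih, Finset.prod_range_succ]

theorem choose_eq (b : ℝ) (m : ℕ) :
    Ring.choose (b + m - 1) m = (∏ l ∈ range m, (b + l)) / (m.factorial : ℝ) := by
  have h := Ring.factorial_nsmul_multichoose_eq_ascPochhammer b m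
  rw [Ring.multichoose_eq, Polynomial.ascPochhammer_smeval_eq_eval, eval_asc, nsmul_eq_mul] at h
  rw [eq_div_iff (by exact_mod_cast (Nat.factorial_pos m).ne'), mul_comm]
  exact h

theorem binom (b x : ℝ) (hx : |x| < 1) :
    HasSum (fun m : ℕ => (∏ l ∈ range m, (b + l)) / (m.factorial : ℝ) * x ^ m)
      (1 / (1 - x) ^ b) := by
  have h := Real.one_div_one_sub_rpow_hasFPowerSeriesOnBall_zero b
  have hx' : x ∈ Metric.eball (0 : ℝ) 1 := by
    rw [Metric.mem_eball, edist_zero_right, ← ofReal_norm, Real.norm_eq_abs]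
    exact_mod_cast ENNReal.ofReal_lt_one.2 hx
  have h2 := h.hasSum hx'
  rw [zero_add] at h2
  have h3 : (fun n : ℕ => (FormalMultilinearSeries.ofScalars ℝ
      fun n : ℕ ↦ Ring.choose (b + n - 1) n) n fun _ => x) =
      fun m : ℕ => (∏ l ∈ range m, (b + l)) / (m.factorial : ℝ) * x ^ m := by
    funext m
    rw [FormalMultilinearSeries.ofScalars_apply_eq, choose_eq, smul_eq_mul]
  rw [h3] at h2
  exact h2

theorem rpow_eq (x : ℝ) (hx : |x| < 1) (i : ℕ) :
    1 / (1 - x) ^ ((1 : ℝ) / 2 + i) = (√(1 - x))⁻¹ * ((1 - x)⁻¹) ^ i := by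
  have h0 : 0 < 1 - x := by linarith [(abs_lt.1 hx).2]
  rw [Real.rpow_add h0, ← Real.sqrt_eq_rpow, Real.rpow_natCast, inv_pow, one_div, mul_inv]

/-- the term of the double series -/
noncomputable def ft (w a s : ℝ) (p : ℕ × ℕ) : ℝ :=
  w ^ p.1 / (p.1.factorial : ℝ) *
    ((∏ l ∈ range p.2, ((1 : ℝ) / 2 + p.1 + l)) / (p.2.factorial : ℝ)) * a ^ p.2 * s ^ (p.1 + p.2)

theorem row (w a s : ℝ) (h : |s * a| < 1) (i : ℕ) :
    HasSum (fun m => ft w a s (i, m))
      ((√(1 - s * a))⁻¹ * ((w * s / (1 - s * a)) ^ i / (i.factorial : ℝ))) := by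
  have h1 := (binom ((1 : ℝ) / 2 + i) (s * a) h).mul_left (w ^ i / (i.factorial : ℝ) * s ^ i)
  rw [rpow_eq _ h i] at h1
  have h2 : (fun m => ft w a s (i, m)) = fun m : ℕ => w ^ i / (i.factorial : ℝ) * s ^ i *
      ((∏ l ∈ range m, ((1 : ℝ) / 2 + i + l)) / (m.factorial : ℝ) * (s * a) ^ m) := by
    funext m
    simp only [ft]
    rw [mul_pow, pow_add]
    ring
  rw [h2]
  have hf : (i.factorial : ℝ) ≠ 0 := by exact_mod_cast (Nat.factorial_pos i).ne'
  have h3 : (√(1 - s * a))⁻¹ * ((w * s / (1 - s * a)) ^ i / (i.factorial : ℝ)) =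
      w ^ i / (i.factorial : ℝ) * s ^ i * ((√(1 - s * a))⁻¹ * (1 - s * a)⁻¹ ^ i) := by
    rw [div_eq_mul_inv (w * s) (1 - s * a), mul_pow, mul_pow]
    ring
  rw [h3]
  exact h1

theorem col (w a s : ℝ) :
    HasSum (fun i : ℕ => (√(1 - s * a))⁻¹ * ((w * s / (1 - s * a)) ^ i / (i.factorial : ℝ)))
      ((√(1 - s * a))⁻¹ * Real.exp (w * s / (1 - s * a))) := by
  refine HasSum.mul_left _ ?_
  rw [Real.exp_eq_exp_ℝ]
  exact NormedSpace.expSeries_div_hasSum_exp (w * s / (1 - s * a))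

theorem ft_nonneg (w a s : ℝ) (hw : 0 ≤ w) (ha : 0 ≤ a) (hs : 0 ≤ s) (p : ℕ × ℕ) :
    0 ≤ ft w a s p := by
  unfold ft
  positivity

theorem ft_abs (w a s : ℝ) (ha : 0 ≤ a) (p : ℕ × ℕ) :
    |ft w a s p| = ft |w| a |s| p := by
  unfold ft
  rw [abs_mul, abs_mul, abs_mul, abs_div, abs_pow, abs_pow, abs_pow, abs_of_nonneg ha,
    abs_of_nonneg (by positivity : (0 : ℝ) ≤ (p.1.factorial : ℝ)),
    abs_of_nonneg (by positivity : (0 : ℝ) ≤
      (∏ l ∈ range p.2, ((1 : ℝ) / 2 + p.1 + l)) / (p.2.factorial : ℝ))]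

theorem ft_summable (w a s : ℝ) (ha : 0 ≤ a) (h : |s| * a < 1) : Summable (ft w a s) := by
  rw [← summable_abs_iff]
  have h1 : (fun p => |ft w a s p|) = ft |w| a |s| := by
    funext p
    exact ft_abs w a s ha p
  rw [h1]
  have h2 : |(|s| * a)| < 1 := by
    rw [abs_of_nonneg (mul_nonneg (abs_nonneg s) ha)]
    exact h
  rw [summable_prod_of_nonneg (fun p => ft_nonneg _ _ _ (abs_nonneg w) ha (abs_nonneg s) p)]
  refine ⟨fun i => (row |w| a |s| h2 i).summable, ?_⟩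
  have h3 : (fun i => ∑' m, ft |w| a |s| (i, m)) = fun i : ℕ => (√(1 - |s| * a))⁻¹ *
      ((|w| * |s| / (1 - |s| * a)) ^ i / (i.factorial : ℝ)) := by
    funext i
    exact (row |w| a |s| h2 i).tsum_eq
  rw [h3]
  exact (col |w| a |s|).summable

theorem dbl (w a s : ℝ) (ha : 0 ≤ a) (h : |s| * a < 1) :
    HasSum (fun j => (∑ i ∈ Finset.range (j + 1), w ^ i / (i.factorial : ℝ) *
      ((∏ l ∈ Finset.range (j - i), ((1 : ℝ) / 2 + i + l)) / ((j - i).factorial : ℝ)) *
        a ^ (j - i)) * s ^ j)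
      ((√(1 - s * a))⁻¹ * Real.exp (w * s / (1 - s * a))) := by
  have hx : |s * a| < 1 := by
    rw [abs_mul, abs_of_nonneg ha]
    exact h
  have hS := ft_summable w a s ha h
  have h1 := hS.hasSum.prod_fiberwise (fun i => row w a s hx i)
  have h2 := h1.unique (col w a s)
  have h3 : HasSum (ft w a s) ((√(1 - s * a))⁻¹ * Real.exp (w * s / (1 - s * a))) := by
    rw [← h2]
    exact hS.hasSum
  have h4 := (Finset.HasAntidiagonal.sigmaAntidiagonalEquivProd (A := ℕ)).hasSum_iff.2 h3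
  have h5 := h4.sigma (fun j => hasSum_fintype _)
  convert h5 using 1
  funext j
  rw [Finset.sum_mul]
  have h6 : ∑ c : {x // x ∈ antidiagonal j},
      (ft w a s ∘ (Finset.HasAntidiagonal.sigmaAntidiagonalEquivProd (A := ℕ))) ⟨j, c⟩ =
      ∑ p ∈ antidiagonal j, ft w a s p := by
    exact Finset.sum_coe_sort (antidiagonal j) (ft w a s)
  rw [h6, Finset.Nat.sum_antidiagonal_eq_sum_range_succ_mk]
  refine Finset.sum_congr rfl ?_
  intro i hi
  have hij : i + (j - i) = j := by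
    have := Finset.mem_range.1 hi
    omega
  simp only [ft]
  rw [hij]

end PSGaux

open PSGaux

theorem PSG_ok : S_PSG := by
  intro a v s ha h
  refine ⟨?_, ?_, ?_⟩
  · intro j
    unfold cP cQ
    refine (Finset.abs_sum_le_sum_abs _ _).trans (Finset.sum_le_sum ?_)
    intro i _
    have hpi : 0 ≤ Real.pi * v ^ 2 := by positivity
    rw [abs_mul, abs_mul, abs_div, abs_pow, abs_pow, abs_neg, abs_of_nonneg hpi,
      abs_of_nonneg ha, abs_of_nonneg (by positivity : (0 : ℝ) ≤ (i.factorial : ℝ)),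
      abs_of_nonneg (by positivity : (0 : ℝ) ≤
        (∏ l ∈ range (j - i), ((1 : ℝ) / 2 + i + l)) / ((j - i).factorial : ℝ))]
  · have h1 := dbl (-(Real.pi * v ^ 2)) a s ha h
    have h2 : -(Real.pi * v ^ 2) * s / (1 - s * a) = -(Real.pi * s * v ^ 2 / (1 - s * a)) := by
      rw [neg_mul, neg_div]
      congr 2
      ring
    rw [h2] at h1
    exact h1
  · have h1 := dbl (Real.pi * v ^ 2) a s ha h
    have h2 : Real.pi * v ^ 2 * s / (1 - s * a) = Real.pi * s * v ^ 2 / (1 - s * a) := by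
      congr 1
      ring
    rw [h2] at h1
    exact h1

end Pool.Agent.H638.KI
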