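import Pool.Agent.H638.KI.Defs

/-! Task PSI: integrating the coefficients of the generating function. -/

set_option autoImplicit false

open MeasureTheory Set Filter Topology Metric
open scoped Pointwise RealInnerProductSpace ENNReal

namespace Pool.Agent.H638.KI

open Pool.Agent.H638.IB (E mk)

namespace PSIaux

theorem cont_cP (a : ℝ) (j : ℕ) : Continuous (fun v => cP a v j) := by
  unfold cP
  fun_prop

theorem fact_le (j : ℕ) : j.factorial * j.factorial ≤ (2 * j).factorial := by
  have h := Nat.le_of_dvd (Nat.factorial_pos _) (Nat.factorial_mul_factorial_dvd_factorial_add j j)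
  rwa [← two_mul] at h

theorem weight_le (s : ℝ) (hs : 0 < s) (j : ℕ) :
    (4 * Real.pi) ^ j * (j.factorial : ℝ) / ((2 * j).factorial : ℝ) ≤
      Real.exp (4 * Real.pi / s) * s ^ j := by
  have hx : 0 ≤ 4 * Real.pi / s := by positivity
  have h1 := Real.pow_div_factorial_le_exp (4 * Real.pi / s) hx j
  have hj : (0 : ℝ) < (j.factorial : ℝ) := by exact_mod_cast Nat.factorial_pos j
  have h2j : (0 : ℝ) < ((2 * j).factorial : ℝ) := by exact_mod_cast Nat.factorial_pos _
  have h3 : (j.factorial : ℝ) * (j.factorial : ℝ) ≤ ((2 * j).factorial : ℝ) := by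
    exact_mod_cast fact_le j
  have h4 : (j.factorial : ℝ) / ((2 * j).factorial : ℝ) ≤ 1 / (j.factorial : ℝ) := by
    rw [div_le_div_iff₀ h2j hj, one_mul]
    exact h3
  calc (4 * Real.pi) ^ j * (j.factorial : ℝ) / ((2 * j).factorial : ℝ)
      = (4 * Real.pi) ^ j * ((j.factorial : ℝ) / ((2 * j).factorial : ℝ)) := by ring
    _ ≤ (4 * Real.pi) ^ j * (1 / (j.factorial : ℝ)) :=
        mul_le_mul_of_nonneg_left h4 (by positivity)
    _ = (4 * Real.pi / s) ^ j / (j.factorial : ℝ) * s ^ j := by
        rw [div_pow]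
        field_simp
    _ ≤ Real.exp (4 * Real.pi / s) * s ^ j := mul_le_mul_of_nonneg_right h1 (by positivity)

end PSIaux

open PSIaux in
theorem PSI_ok (h1 : S_PSG) (h2 : S_PSP) : S_PSI := by
  intro ν hν a δ ha hδ hint
  have hpi := Real.pi_pos
  have hden : 0 < Real.pi + δ * a := by positivity
  set s₁ : ℝ := δ / (Real.pi + δ * a) with hs₁
  have hs₁pos : 0 < s₁ := by positivity
  have e1 : 1 - s₁ * a = Real.pi / (Real.pi + δ * a) := by
    rw [hs₁]
    field_simp
    ring
  have h1a : 0 < 1 - s₁ * a := by rw [e1]; positivity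
  have hs₁a : s₁ * a < 1 := by linarith
  have habs : |s₁| * a < 1 := by rwa [abs_of_pos hs₁pos]
  set M : ℝ → ℝ := fun v => (√(1 - s₁ * a))⁻¹ * Real.exp (Real.pi * s₁ * v ^ 2 / (1 - s₁ * a))
    with hM
  have eM : M = fun v => (√(1 - s₁ * a))⁻¹ * Real.exp (δ * v ^ 2) := by
    funext v
    rw [hM]
    simp only
    congr 2
    rw [e1, hs₁]
    field_simp
  have hMint : Integrable M ν := by
    rw [eM]
    exact hint.const_mul _
  have hQ : ∀ v j, 0 ≤ cQ a v j := fun v j => (abs_nonneg _).trans ((h1 a v s₁ ha habs).1 j)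
  have hQs : ∀ v, HasSum (fun j => cQ a v j * s₁ ^ j) (M v) := fun v => (h1 a v s₁ ha habs).2.2
  have hQM : ∀ v j, cQ a v j * s₁ ^ j ≤ M v := fun v j =>
    le_hasSum (hQs v) j (fun i _ => mul_nonneg (hQ v i) (by positivity))
  have hPQ : ∀ v j, |cP a v j| ≤ cQ a v j := fun v j => (h1 a v s₁ ha habs).1 j
  have hPint : ∀ j, Integrable (fun v => cP a v j) ν := by
    intro j
    have hpj : 0 < s₁ ^ j := by positivity
    refine Integrable.mono' (hMint.const_mul (s₁ ^ j)⁻¹)
      (cont_cP a j).aestronglyMeasurable (Filter.Eventually.of_forall fun v => ?_)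
    rw [Real.norm_eq_abs]
    refine (hPQ v j).trans ?_
    rw [inv_mul_eq_div, le_div_iff₀ hpj]
    exact hQM v j
  refine ⟨s₁, hs₁pos, hs₁a, hPint, ⟨∫ v, M v ∂ν, fun j => ?_⟩, fun s hs => ?_, ?_⟩
  · have hpj : 0 < s₁ ^ j := by positivity
    have h3 : |∫ v, cP a v j ∂ν| ≤ ∫ v, |cP a v j| ∂ν := abs_integral_le_integral_abs
    calc |∫ v, cP a v j ∂ν| * s₁ ^ j ≤ (∫ v, |cP a v j| ∂ν) * s₁ ^ j :=
          mul_le_mul_of_nonneg_right h3 hpj.le
      _ = ∫ v, |cP a v j| * s₁ ^ j ∂ν := (integral_mul_const _ _).symm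
      _ ≤ ∫ v, M v ∂ν := by
          refine integral_mono ((hPint j).abs.mul_const _) hMint fun v => ?_
          exact (mul_le_mul_of_nonneg_right (hPQ v j) hpj.le).trans (hQM v j)
  · have hsa : |s| * a < 1 := lt_of_le_of_lt (mul_le_mul_of_nonneg_right hs.le ha) hs₁a
    have key := hasSum_integral_of_dominated_convergence (μ := ν)
      (F := fun j v => cP a v j * s ^ j)
      (f := fun v => (√(1 - s * a))⁻¹ * Real.exp (-(Real.pi * s * v ^ 2 / (1 - s * a))))
      (fun j v => cQ a v j * s₁ ^ j)
      (fun j => ((cont_cP a j).mul continuous_const).aestronglyMeasurable)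
      (fun j => Filter.Eventually.of_forall fun v => by
        rw [norm_mul, norm_pow, Real.norm_eq_abs, Real.norm_eq_abs]
        exact mul_le_mul (hPQ v j) (pow_le_pow_left₀ (abs_nonneg _) hs.le j) (by positivity)
          (hQ v j))
      (Filter.Eventually.of_forall fun v => (hQs v).summable)
      (by
        have e : (fun v => ∑' j, cQ a v j * s₁ ^ j) = M := funext fun v => (hQs v).tsum_eq
        rw [e]
        exact hMint)
      (Filter.Eventually.of_forall fun v => (h1 a v s ha hsa).2.1)
    rw [integral_const_mul] at key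
    have e2 : (fun j => ∫ v, cP a v j * s ^ j ∂ν) = fun j => (∫ v, cP a v j ∂ν) * s ^ j :=
      funext fun j => integral_mul_const _ _
    rwa [e2] at key
  · set C' : ℝ := Real.exp (4 * Real.pi / s₁) with hC'
    have key := hasSum_integral_of_dominated_convergence (μ := ν)
      (F := fun (j : ℕ) v =>
        (4 * Real.pi) ^ j * (j.factorial : ℝ) / ((2 * j).factorial : ℝ) * cP a v j)
      (f := fun v => Real.exp (Real.pi * a) * Real.cos (2 * Real.pi * v))
      (fun j v => C' * (cQ a v j * s₁ ^ j))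
      (fun j => (continuous_const.mul (cont_cP a j)).aestronglyMeasurable)
      (fun j => Filter.Eventually.of_forall fun v => by
        rw [norm_mul, Real.norm_eq_abs, Real.norm_eq_abs]
        have hw : 0 ≤ (4 * Real.pi) ^ j * (j.factorial : ℝ) / ((2 * j).factorial : ℝ) := by
          positivity
        rw [abs_of_nonneg hw]
        calc (4 * Real.pi) ^ j * (j.factorial : ℝ) / ((2 * j).factorial : ℝ) * |cP a v j|
            ≤ (C' * s₁ ^ j) * cQ a v j :=
              mul_le_mul (weight_le s₁ hs₁pos j) (hPQ v j) (abs_nonneg _) (by positivity)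
          _ = C' * (cQ a v j * s₁ ^ j) := by ring)
      (Filter.Eventually.of_forall fun v => (hQs v).summable.mul_left _)
      (by
        have e : (fun v => ∑' j, C' * (cQ a v j * s₁ ^ j)) = fun v => C' * M v :=
          funext fun v => ((hQs v).mul_left C').tsum_eq
        rw [e]
        exact hMint.const_mul _)
      (Filter.Eventually.of_forall fun v => h2 a v ha)
    rw [integral_const_mul] at key
    have e2 : (fun j : ℕ => ∫ v, (4 * Real.pi) ^ j * (j.factorial : ℝ) /
        ((2 * j).factorial : ℝ) * cP a v j ∂ν) =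
        fun j : ℕ => (4 * Real.pi) ^ j * (j.factorial : ℝ) / ((2 * j).factorial : ℝ) *
          ∫ v, cP a v j ∂ν :=
      funext fun j => integral_const_mul _ _
    rwa [e2] at key

end Pool.Agent.H638.KI
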