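import Pool.Agent.H638.KI.Defs

/-! Task PSP: the weighted sum of the coefficients (by helper403). -/

set_option autoImplicit false

open MeasureTheory Set Filter Topology Metric
open scoped Pointwise RealInnerProductSpace ENNReal

namespace Pool.Agent.H638.KI

open Pool.Agent.H638.IB (E mk)

namespace PSPaux

theorem coef (i l : ℕ) :
    (4 * Real.pi) ^ (i + l) * ((i + l).factorial : ℝ) / ((2 * (i + l)).factorial : ℝ) *
      (∏ m ∈ Finset.range l, ((1 : ℝ) / 2 + i + m)) =
    Real.pi ^ l * ((4 * Real.pi) ^ i * (i.factorial : ℝ) / ((2 * i).factorial : ℝ)) := by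
  induction l with
  | zero => simp
  | succ l ih =>
    have h1 : ((i + (l + 1)).factorial : ℝ) = ((i : ℝ) + l + 1) * ((i + l).factorial : ℝ) := by
      have : (i + (l + 1)).factorial = (i + l + 1) * (i + l).factorial := Nat.factorial_succ _
      rw [this]; push_cast; ring
    have h2 : ((2 * (i + (l + 1))).factorial : ℝ) =
        (2 * ((i : ℝ) + l) + 2) * ((2 * ((i : ℝ) + l) + 1) * ((2 * (i + l)).factorial : ℝ)) := by
      have : (2 * (i + (l + 1))).factorial =
          (2 * (i + l) + 2) * ((2 * (i + l) + 1) * (2 * (i + l)).factorial) := by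
        have e : 2 * (i + (l + 1)) = (2 * (i + l) + 1) + 1 := by ring
        rw [e, Nat.factorial_succ, Nat.factorial_succ]
      rw [this]; push_cast; ring
    have h3 : ((2 * (i + l)).factorial : ℝ) ≠ 0 := by
      exact_mod_cast (Nat.factorial_pos _).ne'
    have h4 : (i : ℝ) + l + 1 ≠ 0 := by positivity
    have h5 : 2 * ((i : ℝ) + l) + 1 ≠ 0 := by positivity
    have h6 : 2 * ((i : ℝ) + l) + 2 ≠ 0 := by positivity
    rw [Finset.prod_range_succ, h1, h2]
    calc (4 * Real.pi) ^ (i + (l + 1)) * (((i : ℝ) + l + 1) * ((i + l).factorial : ℝ)) /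
          ((2 * ((i : ℝ) + l) + 2) * ((2 * ((i : ℝ) + l) + 1) * ((2 * (i + l)).factorial : ℝ))) *
          ((∏ m ∈ Finset.range l, ((1 : ℝ) / 2 + i + m)) * ((1 : ℝ) / 2 + i + l))
        = Real.pi * ((4 * Real.pi) ^ (i + l) * ((i + l).factorial : ℝ) /
            ((2 * (i + l)).factorial : ℝ) * (∏ m ∈ Finset.range l, ((1 : ℝ) / 2 + i + m))) := by
          have e : (4 * Real.pi) ^ (i + (l + 1)) = (4 * Real.pi) ^ (i + l) * (4 * Real.pi) := by
            rw [← add_assoc, pow_succ]
          rw [e]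
          field_simp
          ring
      _ = _ := by rw [ih, pow_succ]; ring

theorem term (a v : ℝ) (i l : ℕ) :
    (4 * Real.pi) ^ (i + l) * ((i + l).factorial : ℝ) / ((2 * (i + l)).factorial : ℝ) *
      ((-(Real.pi * v ^ 2)) ^ i / (i.factorial : ℝ) *
        ((∏ m ∈ Finset.range l, ((1 : ℝ) / 2 + i + m)) / (l.factorial : ℝ)) * a ^ l) =
    ((-1) ^ i * (2 * Real.pi * v) ^ (2 * i) / ((2 * i).factorial : ℝ)) *
      ((Real.pi * a) ^ l / (l.factorial : ℝ)) := by
  have h0 : (i.factorial : ℝ) ≠ 0 := by exact_mod_cast (Nat.factorial_pos _).ne'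
  calc (4 * Real.pi) ^ (i + l) * ((i + l).factorial : ℝ) / ((2 * (i + l)).factorial : ℝ) *
      ((-(Real.pi * v ^ 2)) ^ i / (i.factorial : ℝ) *
        ((∏ m ∈ Finset.range l, ((1 : ℝ) / 2 + i + m)) / (l.factorial : ℝ)) * a ^ l)
      = ((4 * Real.pi) ^ (i + l) * ((i + l).factorial : ℝ) / ((2 * (i + l)).factorial : ℝ) *
          (∏ m ∈ Finset.range l, ((1 : ℝ) / 2 + i + m))) *
        ((-(Real.pi * v ^ 2)) ^ i / (i.factorial : ℝ) / (l.factorial : ℝ) * a ^ l) := by ring
    _ = (Real.pi ^ l * ((4 * Real.pi) ^ i * (i.factorial : ℝ) / ((2 * i).factorial : ℝ))) *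
        ((-(Real.pi * v ^ 2)) ^ i / (i.factorial : ℝ) / (l.factorial : ℝ) * a ^ l) := by rw [coef]
    _ = ((4 * Real.pi) ^ i * (-(Real.pi * v ^ 2)) ^ i / ((2 * i).factorial : ℝ)) *
        ((i.factorial : ℝ) / (i.factorial : ℝ)) *
        ((Real.pi ^ l * a ^ l) / (l.factorial : ℝ)) := by ring
    _ = _ := by
      rw [div_self h0, mul_one, ← mul_pow, ← mul_pow, pow_mul, ← mul_pow]
      congr 3
      ring

end PSPaux

open PSPaux in
theorem PSP_ok : S_PSP := by
  intro a v ha
  have hc := Real.hasSum_cos (2 * Real.pi * v)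
  have he : HasSum (fun n : ℕ => (Real.pi * a) ^ n / (n.factorial : ℝ)) (Real.exp (Real.pi * a)) := by
    rw [Real.exp_eq_exp_ℝ]
    exact NormedSpace.expSeries_div_hasSum_exp (Real.pi * a)
  have hf : Summable fun i : ℕ =>
      ‖(-1) ^ i * (2 * Real.pi * v) ^ (2 * i) / ((2 * i).factorial : ℝ)‖ := by
    refine (Real.hasSum_cosh (2 * Real.pi * v)).summable.congr fun i => ?_
    rw [norm_div, norm_mul, norm_pow, norm_neg, norm_one, one_pow, one_mul, Real.norm_eq_abs,
      Real.norm_eq_abs, pow_mul, abs_of_nonneg (by positivity), abs_of_nonneg (by positivity)]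
  have hg : Summable fun l : ℕ => ‖(Real.pi * a) ^ l / (l.factorial : ℝ)‖ := by
    refine he.summable.congr fun l => ?_
    rw [Real.norm_eq_abs, abs_of_nonneg]
    have := Real.pi_pos
    positivity
  have h := hasSum_sum_range_mul_of_summable_norm hf hg
  rw [hc.tsum_eq, he.tsum_eq, mul_comm (Real.cos _)] at h
  refine h.congr_fun ?_
  intro j
  unfold cP
  rw [Finset.mul_sum]
  refine Finset.sum_congr rfl fun i hi => ?_
  have hij : i ≤ j := by
    have := Finset.mem_range.1 hi
    omega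
  have := term a v i (j - i)
  rw [Nat.add_sub_cancel' hij] at this
  exact this

end Pool.Agent.H638.KI
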