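import Pool.Agent.H638.KI.Defs

/-! Task RAD: a radial integral. -/

set_option autoImplicit false

open MeasureTheory Set Filter Topology Metric
open scoped Pointwise RealInnerProductSpace ENNReal

namespace Pool.Agent.H638.KI

open Pool.Agent.H638.IB (E mk)

namespace RADaux

theorem gauss (m : ℕ) : ∫ v : E m, Real.exp (-(Real.pi * ‖v‖ ^ 2)) = 1 := by
  have h := GaussianFourier.integral_rexp_neg_mul_sq_norm (V := E m) Real.pi_pos
  rw [div_self Real.pi_ne_zero, Real.one_rpow] at h
  rw [← h]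
  refine integral_congr_ae (Eventually.of_forall fun v => ?_)
  simp only [neg_mul]

end RADaux

open RADaux in
theorem RAD_ok : S_RAD := by
  intro n k hkn
  have hn : 0 < n := by omega
  have hm : 0 < n - k := by omega
  have : Nontrivial (E n) := by
    have : Nonempty (Fin n) := ⟨⟨0, hn⟩⟩
    infer_instance
  have : Nontrivial (E (n - k)) := by
    have : Nonempty (Fin (n - k)) := ⟨⟨0, hm⟩⟩
    infer_instance
  have hdn : Module.finrank ℝ (E n) = n := by simp
  have hdm : Module.finrank ℝ (E (n - k)) = n - k := by simp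
  set J : ℝ := ∫ y in Ioi (0 : ℝ), y ^ (n - k - 1) • Real.exp (-(Real.pi * y ^ 2)) with hJ
  -- dimension `n - k`
  have g1 := gauss (n - k)
  have gi := integrable_of_integral_eq_one g1
  have p1 := integral_fun_norm_addHaar (volume : Measure (E (n - k)))
    (fun r => Real.exp (-(Real.pi * r ^ 2)))
  have q1 := (integrable_fun_norm_addHaar (volume : Measure (E (n - k)))
    (f := fun r => Real.exp (-(Real.pi * r ^ 2)))).1 gi
  rw [hdm] at p1 q1
  rw [g1] at p1
  -- dimension `n`
  have hcongr : ∀ y ∈ Ioi (0 : ℝ), y ^ (n - 1) • ((y ^ k)⁻¹ * Real.exp (-(Real.pi * y ^ 2))) =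
      y ^ (n - k - 1) • Real.exp (-(Real.pi * y ^ 2)) := by
    intro y hy
    have hy' : y ≠ 0 := (ne_of_gt hy)
    have e : y ^ (n - 1) = y ^ (n - k - 1) * y ^ k := by
      rw [← pow_add]; congr 1; omega
    simp only [smul_eq_mul]
    rw [e, mul_assoc, ← mul_assoc (y ^ k), mul_inv_cancel₀ (pow_ne_zero _ hy'), one_mul]
  have q2 : IntegrableOn (fun y : ℝ => y ^ (n - 1) •
      ((y ^ k)⁻¹ * Real.exp (-(Real.pi * y ^ 2)))) (Ioi 0) :=
    (integrableOn_congr_fun hcongr measurableSet_Ioi).2 q1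
  have i2 : Integrable (fun x : E n => (‖x‖ ^ k)⁻¹ * Real.exp (-(Real.pi * ‖x‖ ^ 2))) := by
    have := (integrable_fun_norm_addHaar (volume : Measure (E n))
      (f := fun r => (r ^ k)⁻¹ * Real.exp (-(Real.pi * r ^ 2)))).2 (by rw [hdn]; exact q2)
    exact this
  have p2 := integral_fun_norm_addHaar (volume : Measure (E n))
    (fun r => (r ^ k)⁻¹ * Real.exp (-(Real.pi * r ^ 2)))
  rw [hdn, setIntegral_congr_fun measurableSet_Ioi hcongr, ← hJ] at p2
  rw [← hJ] at p1
  have hL : ∫⁻ y : E n, ENNReal.ofReal ((‖y‖ ^ k)⁻¹ * gs y) =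
      ENNReal.ofReal (n * ((volume : Measure (E n)).real (ball 0 1) * J)) := by
    unfold gs
    rw [← ofReal_integral_eq_lintegral_ofReal i2 (Eventually.of_forall fun x => by positivity), p2]
    simp only [nsmul_eq_mul, smul_eq_mul]
  have hfin : ∀ m : ℕ, volume (ball (0 : E m) 1) ≠ ∞ := fun m => measure_ball_lt_top.ne
  have hb : ∀ m : ℕ, volume (ball (0 : E m) 1) =
      ENNReal.ofReal ((volume : Measure (E m)).real (ball 0 1)) := by
    intro m
    rw [measureReal_def, ENNReal.ofReal_toReal (hfin m)]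
  rw [hL, hb n, hb (n - k)]
  have hn' : (n : ℝ≥0∞) = ENNReal.ofReal n := by rw [ENNReal.ofReal_natCast]
  have hm' : ((n - k : ℕ) : ℝ≥0∞) = ENNReal.ofReal ((n - k : ℕ) : ℝ) := by
    rw [ENNReal.ofReal_natCast]
  have hJ0 : 0 ≤ J := by
    rw [hJ]
    refine setIntegral_nonneg measurableSet_Ioi fun y hy => ?_
    have : (0 : ℝ) < y := hy
    positivity
  have hJ1 : 0 ≤ (n : ℝ) * ((volume : Measure (E n)).real (ball 0 1) * J) :=
    mul_nonneg (Nat.cast_nonneg _) (mul_nonneg measureReal_nonneg hJ0)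
  rw [hn', hm', ← ENNReal.ofReal_mul (Nat.cast_nonneg _), ← ENNReal.ofReal_mul hJ1,
    ← ENNReal.ofReal_mul (Nat.cast_nonneg _)]
  congr 1
  simp only [nsmul_eq_mul, smul_eq_mul] at p1
  calc (n : ℝ) * ((volume : Measure (E n)).real (ball 0 1) * J) *
        (((n - k : ℕ) : ℝ) * (volume : Measure (E (n - k))).real (ball 0 1))
      = (n : ℝ) * (volume : Measure (E n)).real (ball 0 1) *
        (((n - k : ℕ) : ℝ) * ((volume : Measure (E (n - k))).real (ball 0 1) * J)) := by ring
    _ = (n : ℝ) * (volume : Measure (E n)).real (ball 0 1) := by rw [← p1, mul_one]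

end Pool.Agent.H638.KI
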