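import Pool.Agent.H638.KI.Defs

set_option autoImplicit false

open MeasureTheory Set Filter Topology Metric
open scoped Pointwise RealInnerProductSpace ENNReal

namespace Pool.Agent.H638.KI

open Pool.Agent.H638.IB (E mk)

namespace SBaux

theorem kap_pos (p : ℕ) : 0 < kap p := by
  unfold kap
  exact div_pos (Real.rpow_pos_of_pos Real.pi_pos _) (Real.Gamma_pos_of_pos (by positivity))

theorem kap_eq (p : ℕ) : √Real.pi ^ p / Real.Gamma ((p : ℝ) / 2 + 1) = kap p := by
  unfold kap
  congr 1
  · rw [Real.sqrt_eq_rpow, ← Real.rpow_natCast, ← Real.rpow_mul Real.pi_pos.le]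
    congr 1; ring
  · rw [add_comm]

theorem ball_vol {F : Type} [NormedAddCommGroup F] [InnerProductSpace ℝ F] [FiniteDimensional ℝ F]
    [MeasurableSpace F] [BorelSpace F] (r : ℝ) (hr : 0 < r) :
    volume (closedBall (0 : F) r) =
      ENNReal.ofReal (kap (Module.finrank ℝ F) * r ^ (Module.finrank ℝ F)) := by
  rcases subsingleton_or_nontrivial F with hF | hF
  · have h0 : Module.finrank ℝ F = 0 := Module.finrank_zero_of_subsingleton
    have h1 : closedBall (0 : F) r = Set.univ := by
      ext x
      simp [Subsingleton.elim x 0, hr.le]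
    have h2 : volume (Set.univ : Set F) = 1 := by
      have h3 := (stdOrthonormalBasis ℝ F).volume_parallelepiped
      have h4 : parallelepiped (stdOrthonormalBasis ℝ F) = Set.univ := by
        ext x
        simp only [Set.mem_univ, iff_true]
        rw [Subsingleton.elim x 0]
        rw [mem_parallelepiped_iff]
        exact ⟨0, by simp, by simp⟩
      rw [h4] at h3
      exact h3
    rw [h1, h2, h0]
    unfold kap
    simp
  · rw [InnerProductSpace.volume_closedBall, kap_eq, ← ENNReal.ofReal_pow hr.le,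
      ← ENNReal.ofReal_mul (by positivity), mul_comm]

theorem ball_eq {F : Type} [NormedAddCommGroup F] (r : ℝ) (hr : 0 < r) :
    {x : F | ‖x‖ / r ≤ 1} = closedBall (0 : F) r := by
  ext x
  rw [mem_closedBall_zero_iff, Set.mem_ofPred_eq, div_le_one hr]

end SBaux

open SBaux

theorem SB_ok : S_SB := by
  intro n k hk _ ρ σ hρ hσ
  refine ⟨⟨by fun_prop, ?_, ?_⟩, ?_, ?_, kap_pos n, kap_pos k, kap_pos (n - k)⟩
  · intro c x
    rw [norm_smul, Real.norm_eq_abs, mul_div_assoc]
  · intro x hx
    exact div_pos (norm_pos_iff.2 hx) hρ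
  · rw [ball_eq ρ hρ, ball_vol ρ hρ, finrank_euclideanSpace, Fintype.card_fin]
  · intro h H hH
    have e1 : {x : Hᗮ | ‖(x : E n)‖ / ρ ≤ 1} = closedBall (0 : Hᗮ) ρ := by
      rw [← ball_eq ρ hρ]
      rfl
    have e2 : {x : H | ‖(x : E n)‖ / σ ≤ 1} = closedBall (0 : H) σ := by
      rw [← ball_eq σ hσ]
      rfl
    have e3 : Module.finrank ℝ Hᗮ = n - k := by
      have := Submodule.finrank_add_finrank_orthogonal H
      rw [hH, finrank_euclideanSpace, Fintype.card_fin] at this
      omega
    rw [e1, e2, ball_vol ρ hρ, ball_vol σ hσ, e3, hH, h]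

end Pool.Agent.H638.KI
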