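import Pool.Agent.H638.KI.Defs

set_option autoImplicit false

open MeasureTheory Set Filter Topology Metric
open scoped Pointwise RealInnerProductSpace ENNReal

namespace Pool.Agent.H638.KI

open Pool.Agent.H638.IB (E mk)

namespace SB2aux

variable {n : ℕ} {K : Set (E n)}

theorem sph_ne (hn : 1 ≤ n) : (sphere (0 : E n) 1).Nonempty := by
  refine ⟨EuclideanSpace.single ⟨0, hn⟩ (1 : ℝ), ?_⟩
  rw [mem_sphere_zero_iff_norm, PiLp.norm_single, norm_one]

theorem zero_mem (hn : 1 ≤ n) (hK : StarBody K) : (0 : E n) ∈ K := by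
  obtain ⟨e, he⟩ := sph_ne hn
  have h := hK.pos e he
  have hne : {l : ℝ | 0 ≤ l ∧ l • e ∈ K}.Nonempty := by
    by_contra hcon
    rw [not_nonempty_iff_eq_empty] at hcon
    unfold rad at h
    rw [hcon, Real.sSup_empty] at h
    exact lt_irrefl _ h
  obtain ⟨l, -, hl⟩ := hne
  exact hK.star.mem ⟨_, hl⟩

theorem mem_iff (h0 : (0 : E n) ∈ K) (hK : StarBody K) (x : E n) (hx : ‖x‖ = 1) (l : ℝ)
    (hl : 0 ≤ l) : l • x ∈ K ↔ l ≤ rad K x := by
  obtain ⟨R, hR⟩ := hK.compact.isBounded.exists_norm_le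
  have hb : BddAbove {l : ℝ | 0 ≤ l ∧ l • x ∈ K} := by
    refine ⟨R, fun l hl => ?_⟩
    have := hR _ hl.2
    rw [norm_smul, hx, mul_one, Real.norm_eq_abs] at this
    exact (le_abs_self l).trans this
  have hc : IsClosed {l : ℝ | 0 ≤ l ∧ l • x ∈ K} := by
    have : {l : ℝ | 0 ≤ l ∧ l • x ∈ K} = Ici 0 ∩ (fun l : ℝ => l • x) ⁻¹' K := rfl
    rw [this]
    exact isClosed_Ici.inter (hK.compact.isClosed.preimage (by fun_prop))
  have hne : {l : ℝ | 0 ≤ l ∧ l • x ∈ K}.Nonempty := ⟨0, le_rfl, by rw [zero_smul]; exact h0⟩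
  have hmem : rad K x ∈ {l : ℝ | 0 ≤ l ∧ l • x ∈ K} := hc.csSup_mem hne hb
  constructor
  · intro h
    exact le_csSup hb ⟨hl, h⟩
  · intro h
    have hm : (rad K x) • x ∈ K := hmem.2
    rcases hmem.1.eq_or_lt with h1 | hpos
    · have : l = 0 := le_antisymm (h.trans h1.symm.le) hl
      rw [this, zero_smul]
      exact h0
    · have h2 := hK.star.smul_mem hm (t := l / rad K x) (div_nonneg hl hpos.le)
        ((div_le_one hpos).2 h)
      rw [smul_smul, div_mul_cancel₀ _ hpos.ne'] at h2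
      exact h2

theorem rad_neg (hK : StarBody K) (x : E n) : rad K (-x) = rad K x := by
  unfold rad
  congr 1
  ext l
  constructor
  · rintro ⟨h1, h2⟩
    refine ⟨h1, ?_⟩
    rw [hK.symm, Set.mem_neg]
    rw [smul_neg] at h2
    exact h2
  · rintro ⟨h1, h2⟩
    refine ⟨h1, ?_⟩
    rw [hK.symm, Set.mem_neg, smul_neg, neg_neg]
    exact h2

theorem norm_unit (x : E n) (hx : x ≠ 0) : ‖(‖x‖⁻¹ • x : E n)‖ = 1 := by
  rw [norm_smul, norm_inv, norm_norm, inv_mul_cancel₀ (norm_ne_zero_iff.2 hx)]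

end SB2aux

open SB2aux

theorem SB2_ok : S_SB2 := by
  intro n K hn hK
  have h0 := zero_mem hn hK
  have hpos : ∀ x : E n, x ≠ 0 → 0 < rad K (‖x‖⁻¹ • x) := fun x hx =>
    hK.pos _ (by rw [mem_sphere_zero_iff_norm]; exact norm_unit x hx)
  refine ⟨fun x => ‖x‖ / rad K (‖x‖⁻¹ • x), ⟨?_, ?_, ?_⟩, ?_⟩
  · rw [continuous_iff_continuousAt]
    intro x
    by_cases hx : x = 0
    · subst hx
      obtain ⟨e, he, hmin⟩ := (isCompact_sphere (0 : E n) 1).exists_isMinOn (sph_ne hn) hK.cont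
      have hm := hK.pos e he
      have h1 : ∀ y : E n, ‖y‖ / rad K (‖y‖⁻¹ • y) ≤ ‖y‖ / rad K e := by
        intro y
        by_cases hy : y = 0
        · rw [hy, norm_zero, zero_div, zero_div]
        · apply div_le_div_of_nonneg_left (norm_nonneg _) hm
          exact hmin (by rw [mem_sphere_zero_iff_norm]; exact norm_unit y hy)
      have h2 : ∀ y : E n, 0 ≤ ‖y‖ / rad K (‖y‖⁻¹ • y) := by
        intro y
        by_cases hy : y = 0
        · rw [hy, norm_zero, zero_div]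
        · exact div_nonneg (norm_nonneg _) (hpos y hy).le
      have h3 : Tendsto (fun y : E n => ‖y‖ / rad K e) (𝓝 0) (𝓝 0) := by
        have : Continuous (fun y : E n => ‖y‖ / rad K e) := by fun_prop
        have h4 := this.tendsto 0
        rw [norm_zero, zero_div] at h4
        exact h4
      show Tendsto (fun x : E n => ‖x‖ / rad K (‖x‖⁻¹ • x)) (𝓝 0)
        (𝓝 (‖(0 : E n)‖ / rad K (‖(0 : E n)‖⁻¹ • (0 : E n))))
      rw [norm_zero, zero_div]
      exact squeeze_zero h2 h1 h3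
    · have hu : ContinuousOn (fun x : E n => ‖x‖⁻¹ • x) {0}ᶜ := by
        have hi : ContinuousOn (fun x : E n => ‖x‖⁻¹) {0}ᶜ :=
          continuous_norm.continuousOn.inv₀ (fun y hy => norm_ne_zero_iff.2 hy)
        exact hi.smul continuousOn_id
      have hr : ContinuousOn (fun x : E n => rad K (‖x‖⁻¹ • x)) {0}ᶜ :=
        hK.cont.comp hu (fun y hy => by rw [mem_sphere_zero_iff_norm]; exact norm_unit y hy)
      have hd : ContinuousOn (fun x : E n => ‖x‖ / rad K (‖x‖⁻¹ • x)) {0}ᶜ :=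
        continuous_norm.continuousOn.div hr (fun y hy => (hpos y hy).ne')
      exact hd.continuousAt (isOpen_compl_singleton.mem_nhds hx)
  · intro c x
    show ‖c • x‖ / rad K (‖c • x‖⁻¹ • (c • x)) = |c| * (‖x‖ / rad K (‖x‖⁻¹ • x))
    by_cases hc : c = 0
    · rw [hc, zero_smul, norm_zero, zero_div, abs_zero, zero_mul]
    have e1 : ‖c • x‖⁻¹ • (c • x) = (|c|⁻¹ * c) • (‖x‖⁻¹ • x) := by
      rw [norm_smul, Real.norm_eq_abs, smul_smul, smul_smul, mul_inv]
      congr 1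
      ring
    have e2 : rad K (‖c • x‖⁻¹ • (c • x)) = rad K (‖x‖⁻¹ • x) := by
      rw [e1]
      rcases lt_or_gt_of_ne hc with h | h
      · have : |c|⁻¹ * c = -1 := by
          rw [abs_of_neg h, inv_neg, neg_mul, inv_mul_cancel₀ hc]
        rw [this, neg_smul, one_smul, rad_neg hK]
      · have : |c|⁻¹ * c = 1 := by
          rw [abs_of_pos h, inv_mul_cancel₀ hc]
        rw [this, one_smul]
    rw [e2, norm_smul, Real.norm_eq_abs, mul_div_assoc]
  · intro x hx
    exact div_pos (norm_pos_iff.2 hx) (hpos x hx)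
  · ext x
    show x ∈ K ↔ ‖x‖ / rad K (‖x‖⁻¹ • x) ≤ 1
    by_cases hx : x = 0
    · subst hx
      rw [norm_zero, zero_div]
      exact ⟨fun _ => zero_le_one, fun _ => h0⟩
    · rw [div_le_one (hpos x hx), ← mem_iff h0 hK _ (norm_unit x hx) _ (norm_nonneg x), smul_smul,
        mul_inv_cancel₀ (norm_ne_zero_iff.2 hx), one_smul]

end Pool.Agent.H638.KI
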