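import Pool.Agent.H638.KI.Defs

/-! SEC: linear covariance of the section condition. -/

set_option autoImplicit false

open MeasureTheory Set Filter Topology Metric
open scoped Pointwise RealInnerProductSpace ENNReal

namespace Pool.Agent.H638.KI

open Pool.Agent.H638.IB (E mk)

namespace SECaux

/-- the restriction of an isometry -/
noncomputable def restr {n : ℕ} (U : E n ≃ₗᵢ[ℝ] E n) (K K' : Submodule ℝ (E n))
    (h : ∀ x, x ∈ K ↔ U x ∈ K') : K ≃ₗᵢ[ℝ] K' where
  toFun v := ⟨U v, (h v).1 v.2⟩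
  invFun w := ⟨U.symm w, (h _).2 (by rw [U.apply_symm_apply]; exact w.2)⟩
  left_inv v := by
    apply Subtype.ext
    simp
  right_inv v := by
    apply Subtype.ext
    simp
  map_add' v w := by
    apply Subtype.ext
    simp
  map_smul' c v := by
    apply Subtype.ext
    simp
  norm_map' v := by
    show ‖U (v : E n)‖ = ‖(v : E n)‖
    exact U.norm_map _

theorem vol_restr {n : ℕ} (U : E n ≃ₗᵢ[ℝ] E n) (K K' : Submodule ℝ (E n))
    (h : ∀ x, x ∈ K ↔ U x ∈ K') (f : E n → ℝ) (hf : Continuous f) :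
    (volume : Measure K) {v | f (U (v : E n)) ≤ 1} =
      (volume : Measure K') {x | f (x : E n) ≤ 1} := by
  have hm := (restr U K K' h).measurePreserving
  have hc : IsClosed {x : K' | f (x : E n) ≤ 1} :=
    isClosed_le (hf.comp continuous_subtype_val) continuous_const
  exact hm.measure_preimage hc.measurableSet.nullMeasurableSet

theorem exists_iso {n : ℕ} (H H' : Submodule ℝ (E n))
    (h : Module.finrank ℝ H = Module.finrank ℝ H') :
    ∃ U : E n ≃ₗᵢ[ℝ] E n, ∀ x, x ∈ H ↔ U x ∈ H' := by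
  let L : H ≃ₗᵢ[ℝ] H' :=
    (stdOrthonormalBasis ℝ H).equiv (stdOrthonormalBasis ℝ H') (finCongr h)
  let L0 : H →ₗᵢ[ℝ] E n := H'.subtypeₗᵢ.comp L.toLinearIsometry
  let U : E n ≃ₗᵢ[ℝ] E n := (L0.extend).toLinearIsometryEquiv rfl
  have hU : ∀ v : H, U v = (L v : E n) := by
    intro v
    show L0.extend (v : E n) = _
    rw [LinearIsometry.extend_apply]
    rfl
  refine ⟨U, fun x => ⟨fun hx => ?_, fun hx => ?_⟩⟩
  · have := hU ⟨x, hx⟩
    rw [this]
    exact (L ⟨x, hx⟩).2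
  · have h1 := hU (L.symm ⟨U x, hx⟩)
    rw [L.apply_symm_apply] at h1
    have h2 := U.injective h1
    rw [← h2]
    exact (L.symm ⟨U x, hx⟩).2

theorem mem_orth {n : ℕ} (U : E n ≃ₗᵢ[ℝ] E n) (H H' : Submodule ℝ (E n))
    (h : ∀ x, x ∈ H ↔ U x ∈ H') (x : E n) : x ∈ Hᗮ ↔ U x ∈ H'ᗮ := by
  rw [Submodule.mem_orthogonal, Submodule.mem_orthogonal]
  constructor
  · intro hx u hu
    have h1 : U.symm u ∈ H := (h _).2 (by rw [U.apply_symm_apply]; exact hu)
    have h2 := hx _ h1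
    rw [← U.inner_map_map, U.apply_symm_apply] at h2
    exact h2
  · intro hx u hu
    have h2 := hx _ ((h u).1 hu)
    rwa [U.inner_map_map] at h2

theorem abs_det_iso {n : ℕ} (U : E n ≃ₗᵢ[ℝ] E n) :
    |LinearMap.det ((U.toLinearEquiv : E n ≃ₗ[ℝ] E n) : E n →ₗ[ℝ] E n)| = 1 := by
  rw [← LinearMap.normDet_eq_abs_det]
  exact U.toLinearIsometry.normDet_eq_one

theorem det_ne {V : Type*} [AddCommGroup V] [Module ℝ V] [FiniteDimensional ℝ V]
    (f : V →ₗ[ℝ] V) (hf : Function.Injective f) : LinearMap.det f ≠ 0 := by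
  intro h
  have h1 := LinearMap.bot_lt_ker_of_det_eq_zero h
  rw [LinearMap.ker_eq_bot.2 hf] at h1
  exact lt_irrefl _ h1

end SECaux

open SECaux in
/-- SEC from DET. -/
theorem SEC_ok (hD : S_DET) : S_SEC := by
  intro n k q p hq hp hS H hH T
  -- the image of H
  have hfr : Module.finrank ℝ H = Module.finrank ℝ (H.map (T : E n →ₗ[ℝ] E n)) :=
    (LinearEquiv.finrank_map_eq T H).symm
  obtain ⟨U, hU⟩ := exists_iso H (H.map (T : E n →ₗ[ℝ] E n)) hfr
  set H' := H.map (T : E n →ₗ[ℝ] E n) with hH'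
  have hUo := mem_orth U H H' hU
  -- the volumes for U
  have hA : (volume : Measure H) {v | p (U (v : E n)) ≤ 1} =
      (volume : Measure Hᗮ) {w | q (U (w : E n)) ≤ 1} := by
    rw [vol_restr U H H' hU p hp.cont, vol_restr U Hᗮ H'ᗮ hUo q hq.cont]
    exact (hS H' (by rw [← hfr, hH])).symm
  -- the map R
  let R : E n ≃ₗ[ℝ] E n := T.trans U.symm.toLinearEquiv
  have hR : ∀ v, U (R v) = T v := by
    intro v
    show U (U.symm (T v)) = T v
    exact U.apply_symm_apply _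
  have hRH : ∀ v ∈ H, R v ∈ H := by
    intro v hv
    rw [hU, hR]
    exact Submodule.mem_map_of_mem hv
  have hRs : ∀ v ∈ H, R.symm v ∈ H := by
    intro v hv
    rw [hU] at hv
    obtain ⟨u, hu, huv⟩ := hv
    have h1 : R u = v := by
      apply U.injective
      rw [hR]
      exact huv
    rw [← h1, R.symm_apply_apply]
    exact hu
  let R1 : H →ₗ[ℝ] H := (R : E n →ₗ[ℝ] E n).restrict hRH
  have hadj : ∀ w ∈ Hᗮ, LinearMap.adjoint (R.symm : E n →ₗ[ℝ] E n) w ∈ Hᗮ := by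
    intro w hw
    rw [Submodule.mem_orthogonal]
    intro u hu
    rw [LinearMap.adjoint_inner_right]
    exact (Submodule.mem_orthogonal _ _).1 hw _ (hRs u hu)
  let R2 : Hᗮ →ₗ[ℝ] Hᗮ := (LinearMap.adjoint (R.symm : E n →ₗ[ℝ] E n)).restrict hadj
  have hdet := hD H R R1 R2 (fun v => rfl) (fun w => rfl)
  -- U R2 = adjoint T.symm
  have hR2 : ∀ w : E n, U (LinearMap.adjoint (R.symm : E n →ₗ[ℝ] E n) w) =
      LinearMap.adjoint (T.symm : E n →ₗ[ℝ] E n) w := by
    intro w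
    apply ext_inner_left ℝ
    intro v
    rw [LinearMap.adjoint_inner_right]
    have h1 : ⟪v, U (LinearMap.adjoint (R.symm : E n →ₗ[ℝ] E n) w)⟫ =
        ⟪U.symm v, LinearMap.adjoint (R.symm : E n →ₗ[ℝ] E n) w⟫ := by
      rw [← U.inner_map_map (U.symm v), U.apply_symm_apply]
    rw [h1, LinearMap.adjoint_inner_right]
    congr 1
    show R.symm (U.symm v) = T.symm v
    apply R.injective
    rw [R.apply_symm_apply]
    show U.symm v = U.symm (T (T.symm v))
    rw [T.apply_symm_apply]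
  -- determinants
  have hd1 : LinearMap.det R1 ≠ 0 := by
    apply det_ne
    intro a b hab
    apply Subtype.ext
    exact R.injective (congrArg Subtype.val hab)
  have hd2 : LinearMap.det R2 ≠ 0 := by
    intro h0
    rw [h0, abs_zero, mul_zero] at hdet
    exact hd1 (abs_eq_zero.1 hdet.symm)
  have hdR : |LinearMap.det (R : E n →ₗ[ℝ] E n)| = |LinearMap.det (T : E n →ₗ[ℝ] E n)| := by
    have h1 : (R : E n →ₗ[ℝ] E n) =
        ((U.symm.toLinearEquiv : E n ≃ₗ[ℝ] E n) : E n →ₗ[ℝ] E n) ∘ₗ (T : E n →ₗ[ℝ] E n) := rfl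
    rw [h1, LinearMap.det_comp, abs_mul, abs_det_iso, one_mul]
  -- the volumes
  have hv1 : (volume : Measure H) {v | p (T (v : E n)) ≤ 1} =
      ENNReal.ofReal |(LinearMap.det R1)⁻¹| *
        (volume : Measure H) {v | p (U (v : E n)) ≤ 1} := by
    rw [← Measure.addHaar_preimage_linearMap (volume : Measure H) hd1]
    congr 1
    ext v
    show p (T (v : E n)) ≤ 1 ↔ p (U (R (v : E n))) ≤ 1
    rw [hR]
  have hv2 : (volume : Measure Hᗮ)
      {w | q (LinearMap.adjoint (T.symm : E n →ₗ[ℝ] E n) (w : E n)) ≤ 1} =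
      ENNReal.ofReal |(LinearMap.det R2)⁻¹| *
        (volume : Measure Hᗮ) {w | q (U (w : E n)) ≤ 1} := by
    rw [← Measure.addHaar_preimage_linearMap (volume : Measure Hᗮ) hd2]
    congr 1
    ext w
    show q (LinearMap.adjoint (T.symm : E n →ₗ[ℝ] E n) (w : E n)) ≤ 1 ↔
      q (U (LinearMap.adjoint (R.symm : E n →ₗ[ℝ] E n) (w : E n))) ≤ 1
    rw [hR2]
  rw [hv1, hv2, hA, ← mul_assoc, ← ENNReal.ofReal_mul (abs_nonneg _)]
  congr 2
  rw [hdR] at hdet
  rw [abs_inv, abs_inv, ← hdet]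
  have h1 : |LinearMap.det (T : E n →ₗ[ℝ] E n)| ≠ 0 := by
    intro h0
    rw [h0, zero_mul] at hdet
    exact hd1 (abs_eq_zero.1 hdet.symm)
  have h2 : |LinearMap.det R2| ≠ 0 := abs_ne_zero.2 hd2
  field_simp

end Pool.Agent.H638.KI
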