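import Pool.Agent.H638.KI.Defs

set_option autoImplicit false

open MeasureTheory Set Filter Topology Metric
open scoped Pointwise RealInnerProductSpace ENNReal

namespace Pool.Agent.H638.KI

open Pool.Agent.H638.IB (E mk)

namespace SLIDEaux

theorem ioc_integrable (a b : ℝ) : Integrable (ioc a b) := by
  unfold ioc
  exact (integrable_indicator_iff measurableSet_Ioc).2
    (integrableOn_const measure_Ioc_lt_top.ne)

theorem le_zero {φ : ℝ → ℝ} (h : SD φ) (x : ℝ) : φ x ≤ φ 0 := by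
  have h1 : φ x = φ |x| := by
    rcases abs_choice x with h' | h' <;> rw [h']
    exact (h.even x).symm
  rw [h1]
  exact h.anti (by simp) (by simp) (abs_nonneg x)

theorem le_of_abs {φ : ℝ → ℝ} (h : SD φ) {x y : ℝ} (hxy : |y| ≤ |x|) : φ x ≤ φ y := by
  have h1 : ∀ x, φ x = φ |x| := by
    intro x
    rcases abs_choice x with h' | h' <;> rw [h']
    exact (h.even x).symm
  rw [h1 x, h1 y]
  exact h.anti (abs_nonneg y) (abs_nonneg x) hxy

theorem prod_integrable {N : ℕ} (φ : ℝ → ℝ) (h : SD φ) (f : Fin N → ℝ → ℝ)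
    (hf : ∀ i, Integrable (f i)) :
    Integrable (fun t : Fin N → ℝ => (∏ i, f i (t i)) * φ (∑ i, t i)) := by
  have h1 : Integrable (fun t : Fin N → ℝ => ∏ i, f i (t i)) :=
    Integrable.fintype_prod hf
  refine Integrable.mul_bdd (c := φ 0) h1 ?_ ?_
  · have : Continuous fun t : Fin N → ℝ => φ (∑ i, t i) :=
      h.cont.comp (by fun_prop)
    exact this.aestronglyMeasurable
  · refine Eventually.of_forall fun t => ?_
    rw [Real.norm_of_nonneg (h.nonneg _)]
    exact le_zero h _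

theorem sum_map_eq {α : Type} (S : List α) (f : α → ℝ) :
    (S.map f).sum = ∑ j : Fin S.length, f (S[j]) := by
  rw [← List.sum_ofFn]
  congr 1
  apply List.ext_getElem
  · simp
  · intro i h1 h2
    simp

theorem expand {N : ℕ} (φ : ℝ → ℝ) (h : SD φ) (S : Fin N → List (ℝ × ℝ)) (u v : ℝ × ℝ → ℝ) :
    Phi φ (fun i t => ((S i).map (fun I => ioc (u I) (v I) t)).sum) =
      ∑ j : ∀ i, Fin (S i).length,
        ∫ t : Fin N → ℝ, (∏ i, ioc (u ((S i)[j i])) (v ((S i)[j i])) (t i)) * φ (∑ i, t i) := by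
  unfold Phi
  rw [← integral_finset_sum]
  · refine integral_congr_ae (Eventually.of_forall fun t => ?_)
    have h1 : ∏ i, ((S i).map (fun I => ioc (u I) (v I) (t i))).sum =
        ∑ j : ∀ i, Fin (S i).length, ∏ i, ioc (u ((S i)[j i])) (v ((S i)[j i])) (t i) := by
      rw [Finset.prod_congr rfl (fun i _ => sum_map_eq (S i) (fun I => ioc (u I) (v I) (t i))),
        Finset.prod_univ_sum]
      simp
    show (∏ i, ((S i).map (fun I => ioc (u I) (v I) (t i))).sum) * φ (∑ i, t i) = _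
    rw [h1, Finset.sum_mul]
  · intro j _
    exact prod_integrable φ h (fun i => ioc (u ((S i)[j i])) (v ((S i)[j i])))
      (fun i => ioc_integrable _ _)

end SLIDEaux

open SLIDEaux in
theorem SLIDE_ok (hINTV : S_INTV) : S_SLIDE := by
  intro N φ hφ l hl0 hl1 S hS
  have e1 : Phi φ (fun i => ind (S i)) =
      ∑ j : ∀ i, Fin (S i).length,
        ∫ t : Fin N → ℝ, (∏ i, ioc ((S i)[j i]).1 ((S i)[j i]).2 (t i)) * φ (∑ i, t i) :=
    expand φ hφ S (fun I => I.1) (fun I => I.2)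
  have e2 : Phi φ (fun i => ind (slide l (S i))) =
      ∑ j : ∀ i, Fin (S i).length,
        ∫ t : Fin N → ℝ, (∏ i,
          ioc (l * ((((S i)[j i]).1 + ((S i)[j i]).2) / 2) - (((S i)[j i]).2 - ((S i)[j i]).1) / 2)
            (l * ((((S i)[j i]).1 + ((S i)[j i]).2) / 2) + (((S i)[j i]).2 - ((S i)[j i]).1) / 2)
            (t i)) * φ (∑ i, t i) := by
    rw [← expand φ hφ S (fun I => l * ((I.1 + I.2) / 2) - (I.2 - I.1) / 2)
      (fun I => l * ((I.1 + I.2) / 2) + (I.2 - I.1) / 2)]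
    congr 1
    funext i t
    unfold ind slide
    rw [List.map_map]
    rfl
  rw [e1, e2]
  refine Finset.sum_le_sum fun j _ => ?_
  obtain ⟨Ψ, hΨ, hΨ2⟩ := hINTV N φ hφ (fun i => (((S i)[j i]).2 - ((S i)[j i]).1) / 2)
    (fun i => by
      have := hS i ((S i)[j i]) (List.getElem_mem _)
      linarith)
  have h1 := hΨ2 (fun i => (((S i)[j i]).1 + ((S i)[j i]).2) / 2)
  have h2 := hΨ2 (fun i => l * ((((S i)[j i]).1 + ((S i)[j i]).2) / 2))
  have h1' : ∫ t : Fin N → ℝ, (∏ i, ioc ((S i)[j i]).1 ((S i)[j i]).2 (t i)) * φ (∑ i, t i) =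
      Ψ (∑ i, (((S i)[j i]).1 + ((S i)[j i]).2) / 2) := by
    rw [← h1]
    congr 1
    funext t
    congr 1
    refine Finset.prod_congr rfl fun i _ => ?_
    congr 1 <;> ring
  rw [h1', h2, ← Finset.mul_sum]
  refine le_of_abs hΨ ?_
  rw [abs_mul, abs_of_nonneg hl0]
  exact mul_le_of_le_one_left (abs_nonneg _) hl1

end Pool.Agent.H638.KI
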