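import Pool.Agent.H638.KI.Defs
import Pool.Agent.H638.IB.T_MP

set_option autoImplicit false

open MeasureTheory Set Filter Topology Metric
open scoped Pointwise RealInnerProductSpace ENNReal

namespace Pool.Agent.H638.KI

open Pool.Agent.H638.IB (E mk)

namespace STBaux

lemma meas_pre {n : ℕ} {A : Set (E (n + 1))} (hA : MeasurableSet A) :
    MeasurableSet {p : ℝ × E n | mk p.1 p.2 ∈ A} :=
  (Pool.Agent.H638.IB.continuous_mk (N := n)).measurable hA

lemma slice_eq {n : ℕ} (A : Set (E (n + 1))) (y : E n) :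
    slice A y = (fun t => (t, y)) ⁻¹' {p : ℝ × E n | mk p.1 p.2 ∈ A} := rfl

lemma meas_slice {n : ℕ} {A : Set (E (n + 1))} (hA : MeasurableSet A) (y : E n) :
    MeasurableSet (slice A y) := by
  rw [slice_eq]
  exact measurable_prodMk_right (meas_pre hA)

lemma meas_vol {n : ℕ} {A : Set (E (n + 1))} (hA : MeasurableSet A) :
    Measurable (fun y : E n => volume (slice A y)) := by
  simp only [slice_eq]
  exact measurable_measure_prodMk_right (meas_pre hA)

lemma vol_eq {n : ℕ} {A : Set (E (n + 1))} (hA : MeasurableSet A) :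
    volume A = ∫⁻ y : E n, volume (slice A y) := by
  have h1 := (Pool.Agent.H638.IB.MP_ok n).measure_preimage hA.nullMeasurableSet
  rw [← h1]
  exact Measure.prod_apply_symm (meas_pre hA)

/-- the tail -/
noncomputable def tl {n : ℕ} (x : E (n + 1)) : E n := WithLp.toLp 2 (fun i => x i.succ)

lemma cont_tl {n : ℕ} : Continuous (tl (n := n)) := by
  unfold tl
  refine (PiLp.continuous_toLp 2 _).comp ?_
  refine continuous_pi fun i => ?_
  exact (EuclideanSpace.proj i.succ : E (n + 1) →L[ℝ] ℝ).continuous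

lemma tl_mk {n : ℕ} (t : ℝ) (y : E n) : tl (mk t y) = y := by
  ext i
  rfl

lemma mk_tl {n : ℕ} (x : E (n + 1)) : x = mk (x 0) (tl x) := by
  ext i
  refine Fin.cases ?_ (fun j => ?_) i
  · rfl
  · rfl

lemma mem_St {n : ℕ} (A : Set (E (n + 1))) (t : ℝ) (y : E n) :
    mk t y ∈ St A ↔ ENNReal.ofReal (2 * |t|) < volume (slice A y) := by
  constructor
  · rintro ⟨t', y', h1, h2⟩
    rw [Pool.Agent.H638.IB.mk_inj] at h1
    rw [h1.1, h1.2]
    exact h2
  · intro h
    exact ⟨t, y, rfl, h⟩

lemma meas_St {n : ℕ} {A : Set (E (n + 1))} (hA : MeasurableSet A) : MeasurableSet (St A) := by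
  have h1 : St A = {x : E (n + 1) | ENNReal.ofReal (2 * |x 0|) < volume (slice A (tl x))} := by
    ext x
    rw [mk_tl x, mem_St]
    rfl
  rw [h1]
  have h2 : Measurable fun x : E (n + 1) => x 0 :=
    (EuclideanSpace.proj (0 : Fin (n + 1)) : E (n + 1) →L[ℝ] ℝ).continuous.measurable
  have h3 : Measurable fun x : E (n + 1) => ENNReal.ofReal (2 * |x 0|) :=
    ENNReal.measurable_ofReal.comp ((continuous_abs.measurable.comp h2).const_mul 2)
  exact measurableSet_lt h3 ((meas_vol hA).comp cont_tl.measurable)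

lemma slice_St {n : ℕ} (A : Set (E (n + 1))) (y : E n) :
    slice (St A) y = {t | ENNReal.ofReal (2 * |t|) < volume (slice A y)} := by
  ext t
  exact mem_St A t y

lemma slice_St_fin {n : ℕ} (A : Set (E (n + 1))) (y : E n) (h : volume (slice A y) ≠ ∞) :
    slice (St A) y =
    Ioo (-((volume (slice A y)).toReal / 2)) ((volume (slice A y)).toReal / 2) := by
  rw [slice_St]
  ext t
  rw [Set.mem_ofPred_eq, ENNReal.ofReal_lt_iff_lt_toReal (by positivity) h, mem_Ioo, ← abs_lt]
  constructor <;> intro h <;> linarith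

lemma vol_slice_St {n : ℕ} (A : Set (E (n + 1))) (y : E n) :
    volume (slice (St A) y) = volume (slice A y) := by
  by_cases h : volume (slice A y) = ∞
  · rw [slice_St, h]
    have : {t : ℝ | ENNReal.ofReal (2 * |t|) < ∞} = univ := by
      ext t
      simp only [Set.mem_ofPred_eq, mem_univ, iff_true]
      exact ENNReal.ofReal_lt_top
    rw [this]
    simp
  · rw [slice_St_fin A y h, Real.volume_Ioo]
    have : (volume (slice A y)).toReal / 2 - -((volume (slice A y)).toReal / 2) =
      (volume (slice A y)).toReal := by ring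
    rw [this, ENNReal.ofReal_toReal h]

end STBaux

open STBaux in
theorem STB_ok : S_STB := by
  intro n A hA
  refine ⟨meas_St hA, ?_, fun y => meas_slice hA y, meas_vol hA, vol_eq hA,
    fun y h => slice_St_fin A y h, ?_⟩
  · rw [vol_eq (meas_St hA), vol_eq hA]
    exact lintegral_congr fun y => vol_slice_St A y
  · intro D hD x hx
    rw [mk_tl x] at hx ⊢
    set t := x 0
    set y := tl x
    rw [mem_St] at hx
    have hpos : 0 < volume (slice A y) := lt_of_le_of_lt zero_le hx
    have hmem : ∀ s, s ∈ slice A y → 0 ≤ D ∧ s ^ 2 + ‖y‖ ^ 2 ≤ D ^ 2 := by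
      intro s hs
      have h1 : mk s y ∈ closedBall (0 : E (n + 1)) D := hD hs
      rw [mem_closedBall_zero_iff] at h1
      have h2 := norm_nonneg (mk s y)
      refine ⟨h2.trans h1, ?_⟩
      rw [← Pool.Agent.H638.IB.norm_mk_sq]
      exact pow_le_pow_left₀ h2 h1 2
    obtain ⟨s0, hs0⟩ := nonempty_of_measure_ne_zero hpos.ne'
    obtain ⟨hD0, h0⟩ := hmem s0 hs0
    set r := √(D ^ 2 - ‖y‖ ^ 2) with hr
    have hr2 : r ^ 2 = D ^ 2 - ‖y‖ ^ 2 := Real.sq_sqrt (by nlinarith [sq_nonneg s0])
    have hr0 : 0 ≤ r := Real.sqrt_nonneg _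
    have hsub : slice A y ⊆ Icc (-r) r := by
      intro s hs
      have := (hmem s hs).2
      rw [mem_Icc, ← abs_le]
      apply abs_le_of_sq_le_sq _ hr0
      rw [hr2]; linarith
    have hvol : volume (slice A y) ≤ ENNReal.ofReal (2 * r) := by
      refine (measure_mono hsub).trans (le_of_eq ?_)
      rw [Real.volume_Icc]
      congr 1
      ring
    have h1 := (ENNReal.ofReal_lt_ofReal_iff_of_nonneg (by positivity)).1 (lt_of_lt_of_le hx hvol)
    have h2 : |t| < r := by linarith
    have h3 : t ^ 2 ≤ r ^ 2 := by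
      rw [← sq_abs t]
      exact pow_le_pow_left₀ (abs_nonneg t) h2.le 2
    rw [mem_closedBall_zero_iff]
    apply le_of_sq_le_sq _ hD0
    rw [Pool.Agent.H638.IB.norm_mk_sq]
    linarith

end Pool.Agent.H638.KI
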