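import Pool.Agent.H638.KI.Defs

/-! Task STG of the project KI: Steiner symmetrization in other directions. -/

set_option autoImplicit false

open MeasureTheory Set Filter Topology Metric
open scoped Pointwise RealInnerProductSpace ENNReal

namespace Pool.Agent.H638.KI

open Pool.Agent.H638.IB (E mk)

namespace STGaux

theorem img_eq {n : ℕ} (g : E n ≃ₗᵢ[ℝ] E n) (S : Set (E n)) : g '' S = g.symm ⁻¹' S := by
  ext x
  constructor
  · rintro ⟨y, hy, rfl⟩
    show g.symm (g y) ∈ S
    rw [g.symm_apply_apply]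
    exact hy
  · intro hx
    exact ⟨g.symm x, hx, g.apply_symm_apply x⟩

theorem meas_pre {n : ℕ} (g : E n ≃ₗᵢ[ℝ] E n) {S : Set (E n)} (hS : MeasurableSet S) :
    MeasurableSet (g ⁻¹' S) := g.continuous.measurable hS

theorem vol_pre {n : ℕ} (g : E n ≃ₗᵢ[ℝ] E n) {S : Set (E n)} (hS : MeasurableSet S) :
    volume (g ⁻¹' S) = volume S :=
  g.measurePreserving.measure_preimage hS.nullMeasurableSet

theorem Mo_pre {n : ℕ} (g : E n ≃ₗᵢ[ℝ] E n) (S : Set (E n)) : Mo (g ⁻¹' S) = Mo S := by
  unfold Mo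
  have h := g.measurePreserving.setIntegral_preimage_emb
    g.toHomeomorph.measurableEmbedding (fun x : E n => ‖x‖ ^ 2) S
  simp only [LinearIsometryEquiv.norm_map] at h
  exact h

theorem PHI_pre {n N : ℕ} (g : E n ≃ₗᵢ[ℝ] E n) (b : ℝ) {A : Fin N → Set (E n)}
    (hA : ∀ i, MeasurableSet (A i)) : PHI b (fun i => g ⁻¹' (A i)) = PHI b A := by
  unfold PHI
  have hG : MeasurePreserving (fun x : Fin N → E n => fun i => g (x i)) volume volume :=
    volume_preserving_pi fun _ => g.measurePreserving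
  have hm : Measurable fun x : Fin N → E n => (∏ i, (A i).indicator (fun _ => (1 : ℝ≥0∞)) (x i)) *
      ENNReal.ofReal (Real.exp (-(b * ‖∑ i, x i‖ ^ 2))) := by
    refine Measurable.mul ?_ ?_
    · refine Finset.measurable_prod _ fun i _ => ?_
      exact (measurable_const.indicator (hA i)).comp (measurable_pi_apply i)
    · refine ENNReal.measurable_ofReal.comp (Continuous.measurable ?_)
      fun_prop
  rw [← hG.lintegral_comp hm]
  refine lintegral_congr fun x => ?_
  have h1 : ‖∑ i, g (x i)‖ = ‖∑ i, x i‖ := by rw [← map_sum, g.norm_map]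
  rw [h1]
  rfl

end STGaux

open STGaux in
theorem STG_ok (hSTP : S_STP) (hSTB : S_STB) : S_STG := by
  intro n g
  refine ⟨fun A hA => ?_, ?_⟩
  · have hpre := meas_pre g hA
    obtain ⟨h1, h2, -, -, -, -, h7⟩ := hSTB (g ⁻¹' A) hpre
    have e : stg g A = g.symm ⁻¹' (St (g ⁻¹' A)) := img_eq g _
    refine ⟨?_, ?_, ?_, Mo_pre g A, ?_⟩
    · rw [e]; exact meas_pre g.symm h1
    · rw [e, vol_pre g.symm h1, h2, vol_pre g hA]
    · rw [e, Mo_pre]
    · intro D hD
      have h3 : g ⁻¹' A ⊆ closedBall 0 D := by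
        intro x hx
        have := hD hx
        rw [mem_closedBall_zero_iff] at this ⊢
        rwa [g.norm_map] at this
      have h4 := h7 D h3
      rw [e]
      intro x hx
      have := h4 hx
      rw [mem_closedBall_zero_iff] at this ⊢
      rwa [g.symm.norm_map] at this
  · intro N b hb A hA hfin
    have h1 := hSTP b hb (fun i => g ⁻¹' (A i)) (fun i => meas_pre g (hA i))
      (fun i => by rw [vol_pre g (hA i)]; exact hfin i)
    rw [PHI_pre g b hA] at h1
    refine h1.trans (le_of_eq ?_)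
    have hm : ∀ i, MeasurableSet (St (g ⁻¹' (A i))) := fun i =>
      (hSTB (g ⁻¹' (A i)) (meas_pre g (hA i))).1
    rw [← PHI_pre g.symm b hm]
    congr 1
    funext i
    exact (img_eq g _).symm

end Pool.Agent.H638.KI
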