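import Pool.Agent.H638.KI.Defs
import Pool.Agent.H638.IB.T_MP

set_option autoImplicit false

open MeasureTheory Set Filter Topology Metric
open scoped Pointwise RealInnerProductSpace ENNReal

namespace Pool.Agent.H638.KI

open Pool.Agent.H638.IB (E mk)

namespace STPaux

/-- The sum of points with given coordinates. -/
theorem sum_mk {n N : ℕ} (t : Fin N → ℝ) (y : Fin N → E n) :
    ∑ i, mk (t i) (y i) = mk (∑ i, t i) (∑ i, y i) := by
  classical
  have : ∀ s : Finset (Fin N), ∑ i ∈ s, mk (t i) (y i) = mk (∑ i ∈ s, t i) (∑ i ∈ s, y i) := by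
    intro s
    induction s using Finset.induction_on with
    | empty => simp [Pool.Agent.H638.IB.mk_zero_zero]
    | insert a s ha ih =>
      rw [Finset.sum_insert ha, Finset.sum_insert ha, Finset.sum_insert ha, ih,
        Pool.Agent.H638.IB.mk_add]
  exact this Finset.univ

/-- Integration in coordinates. -/
theorem lint {n N : ℕ} (f : (Fin N → E (n + 1)) → ℝ≥0∞) (hf : Measurable f) :
    ∫⁻ x, f x = ∫⁻ y : Fin N → E n, ∫⁻ t : Fin N → ℝ, f (fun i => mk (t i) (y i)) := by
  have hMP := Pool.Agent.H638.IB.MP_ok n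
  have h1 : MeasurePreserving (fun (z : Fin N → ℝ × E n) (i : Fin N) => mk (z i).1 (z i).2)
      volume volume := by
    have := measurePreserving_pi (ι := Fin N) (fun _ => (volume : Measure ℝ).prod (volume : Measure (E n)))
      (fun _ => (volume : Measure (E (n + 1)))) (f := fun _ p => mk p.1 p.2) (fun _ => hMP)
    exact this
  have h2 := (volume_measurePreserving_arrowProdEquivProdArrow ℝ (E n) (Fin N)).symm
  have h3 : MeasurePreserving
      (fun (w : (Fin N → ℝ) × (Fin N → E n)) (i : Fin N) => mk (w.1 i) (w.2 i)) volume volume :=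
    h1.comp h2
  rw [← h3.lintegral_comp hf]
  exact lintegral_prod_symm' _ (hf.comp h3.measurable)

theorem sd (b : ℝ) (hb : 0 ≤ b) : SD (fun t : ℝ => Real.exp (-(b * t ^ 2))) where
  cont := by fun_prop
  nonneg x := (Real.exp_pos _).le
  even x := by simp
  anti := by
    intro x hx y hy hxy
    apply Real.exp_le_exp.2
    have : x ^ 2 ≤ y ^ 2 := pow_le_pow_left₀ hx hxy 2
    have := mul_le_mul_of_nonneg_left this hb
    linarith

/-- The integral over a fibre. -/
theorem fib {n N : ℕ} (b : ℝ) (A : Fin N → Set (E (n + 1))) (y : Fin N → E n) :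
    ∫⁻ t : Fin N → ℝ, (∏ i, (A i).indicator (fun _ => (1 : ℝ≥0∞)) (mk (t i) (y i))) *
      ENNReal.ofReal (Real.exp (-(b * ‖∑ i, mk (t i) (y i)‖ ^ 2))) =
    ENNReal.ofReal (Real.exp (-(b * ‖∑ i, y i‖ ^ 2))) *
      PH1 (fun t : ℝ => Real.exp (-(b * t ^ 2))) (fun i => slice (A i) (y i)) := by
  unfold PH1
  rw [← lintegral_const_mul' _ _ ENNReal.ofReal_ne_top]
  apply lintegral_congr
  intro t
  rw [sum_mk, Pool.Agent.H638.IB.norm_mk_sq]
  have : Real.exp (-(b * ((∑ i, t i) ^ 2 + ‖∑ i, y i‖ ^ 2))) =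
      Real.exp (-(b * (∑ i, t i) ^ 2)) * Real.exp (-(b * ‖∑ i, y i‖ ^ 2)) := by
    rw [← Real.exp_add]; ring_nf
  rw [this, ENNReal.ofReal_mul (Real.exp_pos _).le]
  have h2 : ∀ i, (A i).indicator (fun _ => (1 : ℝ≥0∞)) (mk (t i) (y i)) =
      (slice (A i) (y i)).indicator (fun _ => (1 : ℝ≥0∞)) (t i) := by
    intro i
    rfl
  rw [Finset.prod_congr rfl (fun i _ => h2 i)]
  ring

theorem meas {n N : ℕ} (b : ℝ) (A : Fin N → Set (E (n + 1))) (hA : ∀ i, MeasurableSet (A i)) :
    Measurable (fun x : Fin N → E (n + 1) =>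
      (∏ i, (A i).indicator (fun _ => (1 : ℝ≥0∞)) (x i)) *
        ENNReal.ofReal (Real.exp (-(b * ‖∑ i, x i‖ ^ 2)))) := by
  apply Measurable.mul
  · exact Finset.measurable_prod _ (fun i _ =>
      (measurable_const.indicator (hA i)).comp (measurable_pi_apply i))
  · fun_prop

end STPaux

open STPaux in
/-- STP: the Steiner symmetrization increases the functional. -/
theorem STP_ok (hBL1 : S_BL1) (hSTB : S_STB) : S_STP := by
  intro n N b hb A hA hfin
  unfold PHI
  rw [lint _ (meas b A hA), lint _ (meas b (fun i => St (A i)) (fun i => (hSTB (A i) (hA i)).1))]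
  apply lintegral_mono_ae
  have hae : ∀ i, ∀ᵐ y : E n, volume (slice (A i) y) < ∞ := by
    intro i
    obtain ⟨-, -, -, h4, h5, -⟩ := hSTB (A i) (hA i)
    apply ae_lt_top h4
    rw [← h5]
    exact hfin i
  have hae2 : ∀ᵐ y : Fin N → E n, ∀ i, volume (slice (A i) (y i)) < ∞ := by
    rw [ae_all_iff]
    intro i
    exact (Measure.quasiMeasurePreserving_eval (fun _ : Fin N => (volume : Measure (E n))) i).ae
      (hae i)
  filter_upwards [hae2] with y hy
  rw [fib b A y, fib b (fun i => St (A i)) y]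
  gcongr
  have h1 := hBL1 N _ (sd b hb) (fun i => slice (A i) (y i))
    (fun i => (hSTB (A i) (hA i)).2.2.1 (y i)) (fun i => (hy i).ne)
  have h2 : (fun i => slice (St (A i)) (y i)) =
      (fun i => Ioo (-((volume (slice (A i) (y i))).toReal / 2))
        ((volume (slice (A i) (y i))).toReal / 2)) := by
    funext i
    exact (hSTB (A i) (hA i)).2.2.2.2.2.1 (y i) (hy i).ne
  rw [h2]
  exact h1

end Pool.Agent.H638.KI
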