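import Pool.Agent.H638.KI.Defs

/-! UNI: the rearrangement inequality for finite unions of intervals. -/

set_option autoImplicit false

open MeasureTheory Set Filter Topology Metric
open scoped Pointwise RealInnerProductSpace ENNReal

namespace Pool.Agent.H638.KI

namespace UNIaux

lemma ioc_nonneg (a b t : ℝ) : 0 ≤ ioc a b t := by
  unfold ioc
  exact Set.indicator_nonneg (fun _ _ => zero_le_one) t

lemma Phi_ioc_nonneg {N : ℕ} {φ : ℝ → ℝ} (hφ : SD φ) (a b : Fin N → ℝ) :
    0 ≤ Phi φ (fun i => ioc (a i) (b i)) := by
  unfold Phi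
  apply integral_nonneg
  intro t
  exact mul_nonneg (Finset.prod_nonneg fun i _ => ioc_nonneg _ _ _) (hφ.nonneg _)

lemma SD_le_zero {Ψ : ℝ → ℝ} (h : SD Ψ) (x : ℝ) : Ψ x ≤ Ψ 0 := by
  have key : ∀ y : ℝ, 0 ≤ y → Ψ y ≤ Ψ 0 := fun y hy =>
    h.anti (Set.mem_Ici.2 le_rfl) (Set.mem_Ici.2 hy) hy
  rcases le_total 0 x with hx | hx
  · exact key x hx
  · have := key (-x) (by linarith)
    rwa [h.even] at this

lemma base {N : ℕ} (hI : S_INTV) {φ : ℝ → ℝ} (hφ : SD φ) (S : Fin N → List (ℝ × ℝ))
    (hS : ∀ i, Good (S i)) (hl : ∀ i, (S i).length ≤ 1) :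
    Phi φ (fun i => ind (S i)) ≤ Phi φ (fun i => ioc (-(len (S i) / 2)) (len (S i) / 2)) := by
  by_cases he : ∃ i, S i = []
  · obtain ⟨i, hi⟩ := he
    have h0 : Phi φ (fun i => ind (S i)) = 0 := by
      unfold Phi
      have : (fun t : Fin N → ℝ => (∏ i, ind (S i) (t i)) * φ (∑ i, t i)) = fun _ => 0 := by
        funext t
        have : ∏ i, ind (S i) (t i) = 0 := by
          apply Finset.prod_eq_zero (Finset.mem_univ i)
          rw [hi]
          simp [ind]
        rw [this, zero_mul]
      rw [this]
      simp
    rw [h0]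
    exact Phi_ioc_nonneg hφ _ _
  · push Not at he
    have h1 : ∀ i, ∃ I : ℝ × ℝ, S i = [I] := by
      intro i
      have h2 : (S i).length = 1 := by
        have := hl i
        have h3 : (S i).length ≠ 0 := fun h => he i (List.length_eq_zero_iff.1 h)
        omega
      exact List.length_eq_one_iff.1 h2
    choose I hI1 using h1
    have hle : ∀ i, (I i).1 ≤ (I i).2 := by
      intro i
      have := (hS i).1 (I i) (by rw [hI1 i]; simp)
      exact this
    obtain ⟨Ψ, hΨ, hc⟩ := hI N φ hφ (fun i => ((I i).2 - (I i).1) / 2)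
      (fun i => by have := hle i; linarith)
    have e1 : Phi φ (fun i => ind (S i)) = Ψ (∑ i, ((I i).1 + (I i).2) / 2) := by
      rw [← hc (fun i => ((I i).1 + (I i).2) / 2)]
      unfold Phi
      congr 1
      funext t
      congr 1
      apply Finset.prod_congr rfl
      intro i _
      show ind (S i) (t i) = _
      rw [hI1 i]
      simp only [ind, List.map_cons, List.map_nil, List.sum_cons, List.sum_nil, add_zero]
      congr 1 <;> ring
    have e2 : Phi φ (fun i => ioc (-(len (S i) / 2)) (len (S i) / 2)) = Ψ 0 := by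
      have := hc (fun _ => 0)
      simp only [Finset.sum_const_zero] at this
      rw [← this]
      unfold Phi
      congr 1
      funext t
      congr 1
      apply Finset.prod_congr rfl
      intro i _
      show ioc (-(len (S i) / 2)) (len (S i) / 2) (t i) = _
      rw [hI1 i]
      simp only [len, List.map_cons, List.map_nil, List.sum_cons, List.sum_nil, add_zero]
      congr 1 <;> ring
    rw [e1, e2]
    exact SD_le_zero hΨ _

end UNIaux

theorem UNI_ok (hS : S_SLIDE) (hM : S_MERGE) (hI : S_INTV) : S_UNI := by
  intro N φ hφ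
  have key : ∀ M : ℕ, ∀ S : Fin N → List (ℝ × ℝ), ∑ i, (S i).length ≤ M → (∀ i, Good (S i)) →
      Phi φ (fun i => ind (S i)) ≤ Phi φ (fun i => ioc (-(len (S i) / 2)) (len (S i) / 2)) := by
    intro M
    induction M with
    | zero =>
      intro S hs hG
      apply UNIaux.base hI hφ S hG
      intro i
      have h1 : (S i).length ≤ ∑ i, (S i).length :=
        Finset.single_le_sum (f := fun i => (S i).length) (fun _ _ => Nat.zero_le _)
          (Finset.mem_univ i)
      omega
    | succ M ih =>
      intro S hs hG
      by_cases h2 : ∃ i, 2 ≤ (S i).length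
      · obtain ⟨l, hl0, hl1, S', hG', hind, hlen, hlt⟩ := hM N S hG h2
        have h3 := hS N φ hφ l hl0 hl1 S (fun i => (hG i).1)
        have h4 : (fun i => ind (slide l (S i))) = fun i => ind (S' i) := by
          funext i
          exact (hind i).symm
        have h5 := ih S' (by omega) hG'
        have h6 : (fun i => ioc (-(len (S' i) / 2)) (len (S' i) / 2)) =
            fun i => ioc (-(len (S i) / 2)) (len (S i) / 2) := by
          funext i
          rw [hlen i]
        rw [h4] at h3
        rw [h6] at h5
        exact h3.trans h5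
      · push Not at h2
        apply UNIaux.base hI hφ S hG
        intro i
        have := h2 i
        omega
  intro S hG
  exact key _ S le_rfl hG

end Pool.Agent.H638.KI
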